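import Pool.Agent.H17.BV.Main
import Pool.Agent.H6.EG.Defs

open Finset H69LB

/-!
# BV / COR: smooth weights (from MAIN): `EG.bv` of MP_0e3417 without the excluded prime

`N = NN M x = ⌊x e^M⌋` (`N ≥ x/2 ≥ ...`, `N ≤ x e^M`), `w n = W(log(n/x))` (`n ≥ 1`), `w n = 0` for `n > N` (then `log(n/x) ≥ M`; `n ≥ N+1 > x e^M`). `q ≤ x^{1/2-ε}`; MAIN for `ε/2`:
`x^{1/2-ε} ≤ N^{1/2-ε/2}` for large `x`. Abel summation: with `c n = Λ(n) [n = a (q)]`, `S(n) = ∑_{m ≤ n} c m = n/φ(q) + O(E q)`: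
`∑_{n ≤ N} c n w n = ∑_{n ≤ N} S(n) (w n - w(n+1))` (`w(N+1) = 0`), and `∑_{n ≤ N} n (w n - w(n+1)) = ∑_{n ≤ N} w n`. So
`|∑ c n w n - (1/φ(q)) ∑_{n ≤ N} w n| ≤ E q * V`, `V = ∑_{n ≥ 1} |w n - w(n+1)| ≤ V_W` independent of `x`: `|w n - w(n+1)| ≤ ∫_{log(n/x)}^{log((n+1)/x)} |W'|`, `V_W = ∫ |W'| < ∞`
(`W` smooth with compact support; it vanishes outside `(-M,M)`).
`|∑_{n ≤ N} w n - ∫_0^∞ W(log(t/x)) dt| ≤ V_W + ...`: for `t ∈ [n, n+1]`: `|w n - W(log(t/x))| ≤ ∫_{log(n/x)}^{log((n+1)/x)} |W'|`, so the sum differs from `∫_1^∞` by at most `V_W`, and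
`∫_0^1 = 0` as soon as `log(1/x) ≤ -M`. Substitution `t = x e^η`: `∫_0^∞ W(log(t/x)) dt = x ∫ W(η) e^η dη`. So `E'(q) = V_W (E q + 1)` (`φ(q) ≥ 1`), and
`∑_{q ≤ x^{1/2-ε}} |C|^{ω(q)} E'(q) ≤ V_W (N/(log N)^{A+1} + ∑_{q} |C|^{ω(q)})`; the last sum is at most `C1 x^{1/2-ε} x^{ε/2}`-small by OMG (`omega_bound`).
-/

namespace BVL

theorem bv_smooth_abel (u w : ℕ → ℝ) (N : ℕ) :
    ∑ n ∈ Icc 1 N, u n * w n =
      ∑ n ∈ Icc 1 N, (∑ m ∈ Icc 1 n, u m) * (w n - w (n + 1)) + (∑ m ∈ Icc 1 N, u m) * w (N + 1) := by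
  have key : ∀ (f : ℕ → ℝ) (N : ℕ), ∑ n ∈ Icc 1 (N + 1), f n = ∑ n ∈ Icc 1 N, f n + f (N + 1) :=
    fun f N => Finset.sum_Icc_succ_top (by omega) f
  induction N with
  | zero => simp
  | succ N ih =>
    rw [key (fun n => u n * w n), key (fun n => (∑ m ∈ Icc 1 n, u m) * (w n - w (n + 1))), ih]
    simp only [key u]
    ring

theorem bv_smooth_var (f g : ℕ → ℝ) (h : ∀ n, 1 ≤ n → |f n - f (n + 1)| ≤ g (n + 1) - g n) (N : ℕ) :
    ∑ n ∈ Icc 1 N, |f n - f (n + 1)| ≤ g (N + 1) - g 1 := by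
  induction N with
  | zero => simp
  | succ N ih =>
    rw [Finset.sum_Icc_succ_top (by omega)]
    have := h (N + 1) (by omega)
    linarith

/-- clamp -/
noncomputable def bv_smooth_clamp (M y : ℝ) : ℝ := max (-M) (min M y)

theorem bv_smooth_cl_mono (M : ℝ) : Monotone (bv_smooth_clamp M) := by
  intro a b hab
  unfold bv_smooth_clamp
  exact max_le_max le_rfl (min_le_min le_rfl hab)

theorem bv_smooth_cl_bd {M : ℝ} (hM : 0 < M) (y : ℝ) : -M ≤ bv_smooth_clamp M y ∧ bv_smooth_clamp M y ≤ M := by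
  unfold bv_smooth_clamp
  refine ⟨le_max_left _ _, max_le (by linarith) (min_le_left _ _)⟩

theorem bv_smooth_cl {M : ℝ} (hM : 0 < M) {W : ℝ → ℝ} (hW : WS M W) (y : ℝ) : W y = W (bv_smooth_clamp M y) := by
  unfold bv_smooth_clamp
  rcases le_total y (-M) with h | h
  · rw [min_eq_right (by linarith), max_eq_left h, hW.zero y, hW.zero (-M)]
    · rw [abs_neg]; exact le_abs_self M
    · rw [abs_of_nonpos (by linarith)]; linarith
  · rcases le_total y M with h' | h'
    · rw [min_eq_right h', max_eq_right h]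
    · rw [min_eq_left h', max_eq_right (by linarith), hW.zero y, hW.zero M]
      · exact le_abs_self M
      · exact h'.trans (le_abs_self y)

theorem bv_smooth_lip {M : ℝ} {W : ℝ → ℝ} (hW : WS M W) : ∃ B : ℝ, 0 ≤ B ∧ ∀ a b, |W a - W b| ≤ B * |a - b| := by
  have hc : HasCompactSupport W := by
    refine HasCompactSupport.intro (K := Set.Icc (-M) M) isCompact_Icc fun x hx => ?_
    apply hW.zero
    by_contra hlt
    push Not at hlt
    exact hx ⟨(abs_lt.1 hlt).1.le, (abs_lt.1 hlt).2.le⟩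
  obtain ⟨K, hK⟩ := ContDiff.lipschitzWith_of_hasCompactSupport hc hW.smooth (by simp)
  refine ⟨K, K.2, fun a b => ?_⟩
  have := hK.dist_le_mul a b
  rwa [Real.dist_eq, Real.dist_eq] at this

/-- the total variation of `w n = W(log(n/x))`, in terms of the clamp -/
theorem bv_smooth_step {M : ℝ} (hM : 0 < M) {W : ℝ → ℝ} (hW : WS M W) {B : ℝ} (hB : 0 ≤ B)
    (hL : ∀ a b, |W a - W b| ≤ B * |a - b|) {s t : ℝ} (hst : s ≤ t) :
    |W s - W t| ≤ B * bv_smooth_clamp M t - B * bv_smooth_clamp M s := by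
  rw [bv_smooth_cl hM hW s, bv_smooth_cl hM hW t]
  refine (hL _ _).trans ?_
  have := bv_smooth_cl_mono M hst
  rw [abs_sub_comm, abs_of_nonneg (by linarith), mul_sub]

theorem bv_smooth_log_mono {x : ℝ} (hx : 0 < x) {n m : ℕ} (hn : 1 ≤ n) (hnm : n ≤ m) :
    Real.log ((n : ℝ) / x) ≤ Real.log ((m : ℝ) / x) := by
  have hn' : (0 : ℝ) < n := by exact_mod_cast hn
  have hnm' : (n : ℝ) ≤ m := by exact_mod_cast hnm
  exact Real.log_le_log (by positivity) (by gcongr)

/-- Riemann sum -/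
theorem bv_smooth_riemann {M : ℝ} (hM : 0 < M) {W : ℝ → ℝ} (hW : WS M W) {B : ℝ} (hB : 0 ≤ B)
    (hL : ∀ a b, |W a - W b| ≤ B * |a - b|) {x : ℝ} (hx : 0 < x) (N : ℕ) :
    |∑ n ∈ Icc 1 N, W (Real.log (n / x)) -
      x * ∫ η in (Real.log ((1 : ℕ) / x))..(Real.log (((N + 1 : ℕ) : ℝ) / x)), W η * Real.exp η| ≤
      B * bv_smooth_clamp M (Real.log (((N + 1 : ℕ) : ℝ) / x)) - B * bv_smooth_clamp M (Real.log ((1 : ℕ) / x)) := by
  have hcont : Continuous fun η => W η * Real.exp η := hW.smooth.continuous.mul Real.continuous_exp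
  induction N with
  | zero => simp
  | succ N ih =>
    rw [Finset.sum_Icc_succ_top (by omega)]
    rw [← intervalIntegral.integral_add_adjacent_intervals (b := Real.log (((N + 1 : ℕ) : ℝ) / x))
      (hcont.intervalIntegrable _ _) (hcont.intervalIntegrable _ _)]
    have hmono := bv_smooth_log_mono hx (n := N + 1) (m := N + 1 + 1) (by omega) (by omega)
    set s := Real.log (((N + 1 : ℕ) : ℝ) / x) with hs
    set t := Real.log (((N + 1 + 1 : ℕ) : ℝ) / x) with ht
    have hes : Real.exp s = ((N + 1 : ℕ) : ℝ) / x := Real.exp_log (by positivity)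
    have het : Real.exp t = ((N + 1 + 1 : ℕ) : ℝ) / x := Real.exp_log (by positivity)
    have hone : W s = x * ∫ η in s..t, W s * Real.exp η := by
      rw [intervalIntegral.integral_const_mul, integral_exp, hes, het]
      push_cast
      field_simp
      ring
    have hdiff : |W s - x * ∫ η in s..t, W η * Real.exp η| ≤ B * bv_smooth_clamp M t - B * bv_smooth_clamp M s := by
      have h1 : W s - x * ∫ η in s..t, W η * Real.exp η =
          x * ∫ η in s..t, (W s - W η) * Real.exp η := by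
        have h2 : (fun η => (W s - W η) * Real.exp η) = fun η => W s * Real.exp η - W η * Real.exp η := by
          funext η; ring
        have hc2 : Continuous fun η => W s * Real.exp η := continuous_const.mul Real.continuous_exp
        rw [h2, intervalIntegral.integral_sub (hc2.intervalIntegrable _ _)
          (hcont.intervalIntegrable _ _), mul_sub, ← hone]
      rw [h1, abs_mul, abs_of_pos hx]
      have h3 : |∫ η in s..t, (W s - W η) * Real.exp η| ≤
          ∫ η in s..t, (B * bv_smooth_clamp M t - B * bv_smooth_clamp M s) * Real.exp η := by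
        refine (intervalIntegral.abs_integral_le_integral_abs hmono).trans ?_
        apply intervalIntegral.integral_mono_on hmono
        · exact (((continuous_const.sub hW.smooth.continuous).mul Real.continuous_exp).abs).intervalIntegrable _ _
        · exact (continuous_const.mul Real.continuous_exp).intervalIntegrable _ _
        · intro η hη
          rw [abs_mul, abs_of_pos (Real.exp_pos η)]
          apply mul_le_mul_of_nonneg_right _ (Real.exp_pos η).le
          refine (bv_smooth_step hM hW hB hL hη.1).trans ?_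
          have := mul_le_mul_of_nonneg_left (bv_smooth_cl_mono M hη.2) hB
          linarith
      refine (mul_le_mul_of_nonneg_left h3 hx.le).trans ?_
      rw [intervalIntegral.integral_const_mul, integral_exp, hes, het]
      apply le_of_eq
      push_cast
      field_simp
      ring
    calc _ = |(∑ n ∈ Icc 1 N, W (Real.log (n / x)) - x * ∫ η in (Real.log ((1 : ℕ) / x))..s, W η * Real.exp η) +
        (W s - x * ∫ η in s..t, W η * Real.exp η)| := by congr 1; ring
      _ ≤ _ := (abs_add_le _ _).trans (add_le_add ih hdiff)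
      _ = _ := by ring

theorem bv_smooth_main {M : ℝ} (hM : 0 < M) {W : ℝ → ℝ} (hW : WS M W) {B : ℝ} (hB : 0 ≤ B)
    (hL : ∀ a b, |W a - W b| ≤ B * |a - b|) {x : ℝ} (hx : Real.exp M ≤ x) {φ E : ℝ} (hφ : 1 ≤ φ) (c : ℕ → ℝ)
    (hE : ∀ y, y ≤ NN M x → |∑ n ∈ Icc 1 y, c n - y / φ| ≤ E) :
    |∑ n ∈ Icc 1 (NN M x), c n * W (Real.log (n / x)) - x * (∫ η, W η * Real.exp η) / φ| ≤
      2 * M * B * (E + 1) := by
  have hx0 : 0 < x := (Real.exp_pos M).trans_le hx
  set N := NN M x with hN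
  have hE0 : 0 ≤ E := (abs_nonneg _).trans (hE 0 (Nat.zero_le _))
  have hNlt : x * Real.exp M < ((N + 1 : ℕ) : ℝ) := by
    push_cast
    exact Nat.lt_floor_add_one _
  have hlogN : M ≤ Real.log (((N + 1 : ℕ) : ℝ) / x) := by
    rw [Real.le_log_iff_exp_le (by positivity), le_div_iff₀ hx0]
    linarith
  have hlog1 : Real.log ((1 : ℕ) / x) ≤ -M := by
    rw [Nat.cast_one, one_div, Real.log_inv]
    have := (Real.le_log_iff_exp_le hx0).2 hx
    linarith
  have hVb : B * bv_smooth_clamp M (Real.log (((N + 1 : ℕ) : ℝ) / x)) - B * bv_smooth_clamp M (Real.log ((1 : ℕ) / x)) ≤ 2 * M * B := by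
    have h1 := (bv_smooth_cl_bd hM (Real.log (((N + 1 : ℕ) : ℝ) / x))).2
    have h2 := (bv_smooth_cl_bd hM (Real.log ((1 : ℕ) / x))).1
    nlinarith [mul_le_mul_of_nonneg_left h1 hB, mul_le_mul_of_nonneg_left h2 hB]
  have hint : ∫ η in (Real.log ((1 : ℕ) / x))..(Real.log (((N + 1 : ℕ) : ℝ) / x)), W η * Real.exp η =
      ∫ η, W η * Real.exp η := by
    apply intervalIntegral.integral_eq_integral_of_support_subset
    intro η hη
    have hη' : W η ≠ 0 := fun h => hη (by simp [h])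
    have hlt : |η| < M := by
      by_contra hge
      push Not at hge
      exact hη' (hW.zero η hge)
    rw [abs_lt] at hlt
    exact ⟨by linarith [hlt.1], by linarith [hlt.2]⟩
  have hR := bv_smooth_riemann hM hW hB hL hx0 N
  rw [hint] at hR
  have hR' := hR.trans hVb
  -- Abel
  have hA := bv_smooth_abel (fun n => c n - 1 / φ) (fun n => W (Real.log (n / x))) N
  have hW0 : W (Real.log (((N + 1 : ℕ) : ℝ) / x)) = 0 := hW.zero _ (hlogN.trans (le_abs_self _))
  simp only [hW0, mul_zero, add_zero] at hA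
  have hU : ∀ n, n ≤ N → |∑ m ∈ Icc 1 n, (c m - 1 / φ)| ≤ E := by
    intro n hn
    have := hE n hn
    rw [Finset.sum_sub_distrib, Finset.sum_const, Nat.card_Icc, nsmul_eq_mul]
    simpa [div_eq_mul_inv] using this
  have hvar := bv_smooth_var (fun n => W (Real.log (n / x))) (fun n => B * bv_smooth_clamp M (Real.log ((n : ℝ) / x)))
    (fun n hn => bv_smooth_step hM hW hB hL (bv_smooth_log_mono hx0 hn (by omega))) N
  have hAb : |∑ n ∈ Icc 1 N, (c n - 1 / φ) * W (Real.log (n / x))| ≤ E * (2 * M * B) := by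
    rw [hA]
    refine (Finset.abs_sum_le_sum_abs _ _).trans ?_
    calc _ ≤ ∑ n ∈ Icc 1 N, E * |W (Real.log (n / x)) - W (Real.log (((n + 1 : ℕ) : ℝ) / x))| := by
            apply Finset.sum_le_sum
            intro n hn
            rw [abs_mul]
            exact mul_le_mul_of_nonneg_right (hU n (Finset.mem_Icc.1 hn).2) (abs_nonneg _)
      _ ≤ _ := by
            rw [← Finset.mul_sum]
            apply mul_le_mul_of_nonneg_left _ hE0
            exact hvar.trans hVb
  have hsplit : ∑ n ∈ Icc 1 N, c n * W (Real.log (n / x)) - x * (∫ η, W η * Real.exp η) / φ =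
      ∑ n ∈ Icc 1 N, (c n - 1 / φ) * W (Real.log (n / x)) +
      (∑ n ∈ Icc 1 N, W (Real.log (n / x)) - x * ∫ η, W η * Real.exp η) / φ := by
    simp only [sub_mul, Finset.sum_sub_distrib, ← Finset.mul_sum]
    ring
  rw [hsplit]
  refine (abs_add_le _ _).trans ?_
  have h3 : |(∑ n ∈ Icc 1 N, W (Real.log (n / x)) - x * ∫ η, W η * Real.exp η) / φ| ≤ 2 * M * B := by
    rw [abs_div, abs_of_pos (by linarith : (0 : ℝ) < φ)]
    refine (div_le_self (abs_nonneg _) hφ).trans hR'
  linarith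

theorem bv_smooth_omega (C : ℝ) : ∃ C1 : ℝ, 0 ≤ C1 ∧ ∀ q : ℕ, 1 ≤ q →
    |C| ^ q.primeFactors.card ≤ C1 * (q : ℝ) ^ (1 / 2 : ℝ) := by
  obtain ⟨C1, hC1, h⟩ := omega_bound (abs_nonneg C) (η := 1 / 2) (by norm_num)
  refine ⟨C1, hC1, fun q hq => ?_⟩
  have hq0 : (0 : ℝ) < q := by exact_mod_cast hq
  have hφ : (0 : ℝ) < Nat.totient q := by exact_mod_cast Nat.totient_pos.2 hq
  have h1 := h q hq
  rw [div_le_iff₀ hφ] at h1
  refine h1.trans ?_
  have h2 : (Nat.totient q : ℝ) ≤ q := by exact_mod_cast Nat.totient_le q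
  have h3 : (q : ℝ) ^ (1 / 2 : ℝ) = (q : ℝ) ^ (-1 + 1 / 2 : ℝ) * q := by
    rw [Real.rpow_add hq0, Real.rpow_neg_one]
    field_simp
  rw [h3, ← mul_assoc]
  exact mul_le_mul_of_nonneg_left h2 (by positivity)

theorem bv_smooth {M : ℝ} (hM : 0 < M) {W : ℝ → ℝ} (hW : WS M W) {ε : ℝ} (hε : 0 < ε) (A C : ℝ) :
    ∃ x0 : ℝ, ∀ x, x0 ≤ x → ∃ E : ℕ → ℝ, (∀ q, 0 ≤ E q) ∧
      (∀ q : ℕ, 1 ≤ q → (q : ℝ) ≤ x ^ (1 / 2 - ε) → ∀ a : ℕ, Nat.Coprime a q →
        |∑ n ∈ (Icc 1 (NN M x)).filter (fun n => n ≡ a [MOD q]),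
            ArithmeticFunction.vonMangoldt n * W (Real.log (n / x)) -
          x * (∫ η, W η * Real.exp η) / (Nat.totient q : ℝ)| ≤ E q) ∧
      ∑ q ∈ Icc 1 ⌊x ^ (1 / 2 - ε)⌋₊, |C| ^ q.primeFactors.card * E q ≤ x / Real.log x ^ A := by
  obtain ⟨B, hB, hL⟩ := bv_smooth_lip hW
  obtain ⟨C1, hC1, hom⟩ := bv_smooth_omega C
  set ε1 : ℝ := min ε (1 / 2) with hε1
  have hε1pos : 0 < ε1 := lt_min hε (by norm_num)
  have hε1le : ε1 ≤ 1 / 2 := min_le_right _ _
  have hε1ε : ε1 ≤ ε := min_le_left _ _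
  set A' : ℝ := max A 0 + 1 with hA'
  obtain ⟨N0, hN0⟩ := bv_psi hε1pos A' C
  set V : ℝ := 2 * M * B with hV
  have hV0 : 0 ≤ V := by positivity
  have hlog : Filter.Tendsto Real.log Filter.atTop Filter.atTop := Real.tendsto_log_atTop
  have e1 := Filter.eventually_ge_atTop (Real.exp M)
  have e2 := Filter.eventually_ge_atTop (1 / M)
  have e3 := Filter.eventually_ge_atTop (N0 : ℝ)
  have e4 := Filter.eventually_ge_atTop (1 : ℝ)
  have e5 := hlog.eventually_ge_atTop (2 * V * Real.exp M + 1)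
  have e6 : ∀ᶠ x : ℝ in Filter.atTop, 2 * V * C1 * Real.log x ^ A ≤ x ^ (1 / 4 : ℝ) := by
    have ho := (isLittleO_log_rpow_rpow_atTop A (s := 1 / 4) (by norm_num)).const_mul_left (2 * V * C1)
    filter_upwards [ho.bound (c := 1) one_pos, Filter.eventually_ge_atTop (1 : ℝ)] with x hx hx1
    rw [one_mul, Real.norm_of_nonneg (by positivity : (0 : ℝ) ≤ x ^ (1 / 4 : ℝ))] at hx
    exact (le_abs_self _).trans hx
  obtain ⟨x0, hx0⟩ := Filter.eventually_atTop.1 (e1.and (e2.and (e3.and (e4.and (e5.and e6)))))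
  refine ⟨x0, fun x hx => ?_⟩
  obtain ⟨hxM, hxM', hxN, hx1, hxl, hx6⟩ := hx0 x hx
  have hxpos : 0 < x := by linarith
  have hNx : x ≤ (NN M x : ℝ) := by
    have h1 : x * Real.exp M < (NN M x : ℝ) + 1 := Nat.lt_floor_add_one _
    have h2 : M + 1 ≤ Real.exp M := Real.add_one_le_exp M
    have h3 : 1 ≤ x * M := by rwa [div_le_iff₀ hM] at hxM'
    nlinarith
  have hNle : (NN M x : ℝ) ≤ x * Real.exp M := Nat.floor_le (by positivity)
  obtain ⟨E, hE0, hE1, hE2⟩ := hN0 (NN M x) (by exact_mod_cast hxN.trans hNx)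
  have hRle : x ^ (1 / 2 - ε) ≤ (NN M x : ℝ) ^ (1 / 2 - ε1) :=
    (Real.rpow_le_rpow_of_exponent_le hx1 (by linarith)).trans
      (Real.rpow_le_rpow (by linarith) hNx (by linarith))
  refine ⟨fun q => V * (E q + 1), fun q => mul_nonneg hV0 (by linarith [hE0 q]), ?_, ?_⟩
  · intro q hq hqx a ha
    have hφ : (1 : ℝ) ≤ Nat.totient q := by exact_mod_cast Nat.totient_pos.2 hq
    have h := bv_smooth_main hM hW hB hL hxM hφ
      (fun n => if n ≡ a [MOD q] then ArithmeticFunction.vonMangoldt n else 0) (E := E q) ?_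
    · rw [Finset.sum_filter]
      simpa only [ite_mul, zero_mul] using h
    · intro y hy
      rw [← Finset.sum_filter]
      exact hE1 q hq (hqx.trans hRle) a ha y hy
  · set R := ⌊x ^ (1 / 2 - ε)⌋₊ with hR
    have hlogx : 1 ≤ Real.log x := by
      have : 0 ≤ 2 * V * Real.exp M := by positivity
      linarith
    have hlogpos : 0 < Real.log x := by linarith
    have hLA : 0 < Real.log x ^ A := Real.rpow_pos_of_pos hlogpos A
    have hsplit : ∑ q ∈ Icc 1 R, |C| ^ q.primeFactors.card * (V * (E q + 1)) =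
        V * ∑ q ∈ Icc 1 R, |C| ^ q.primeFactors.card * E q + V * ∑ q ∈ Icc 1 R, |C| ^ q.primeFactors.card := by
      rw [Finset.mul_sum, Finset.mul_sum, ← Finset.sum_add_distrib]
      exact Finset.sum_congr rfl fun q _ => by ring
    rw [hsplit]
    have hfirst : V * ∑ q ∈ Icc 1 R, |C| ^ q.primeFactors.card * E q ≤ x / Real.log x ^ A / 2 := by
      have h1 : ∑ q ∈ Icc 1 R, |C| ^ q.primeFactors.card * E q ≤ NN M x / Real.log (NN M x) ^ A' := by
        refine le_trans (Finset.sum_le_sum_of_subset_of_nonneg ?_ ?_) hE2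
        · exact Finset.Icc_subset_Icc le_rfl (Nat.floor_le_floor hRle)
        · intro q _ _
          exact mul_nonneg (by positivity) (hE0 q)
      have h2 : (NN M x : ℝ) / Real.log (NN M x) ^ A' ≤ x * Real.exp M / (Real.log x ^ A * Real.log x) := by
        have hA'0 : 0 ≤ A' := by
          have := le_max_right A 0
          linarith
        have h3 : Real.log x ^ A * Real.log x ≤ Real.log (NN M x) ^ A' := by
          calc Real.log x ^ A * Real.log x = Real.log x ^ (A + 1) := by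
                rw [Real.rpow_add hlogpos, Real.rpow_one]
            _ ≤ Real.log x ^ A' := Real.rpow_le_rpow_of_exponent_le hlogx (by
                have := le_max_left A 0
                linarith)
            _ ≤ _ := Real.rpow_le_rpow hlogpos.le (Real.log_le_log hxpos hNx) hA'0
        gcongr
      have h4 : V * (x * Real.exp M / (Real.log x ^ A * Real.log x)) ≤ x / Real.log x ^ A / 2 := by
        rw [div_div, ← mul_div_assoc, div_le_div_iff₀ (by positivity) (by positivity)]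
        have h5 : 2 * V * Real.exp M ≤ Real.log x := by linarith
        have h6 := mul_le_mul_of_nonneg_left h5 (mul_nonneg hxpos.le hLA.le)
        nlinarith
      exact (mul_le_mul_of_nonneg_left (h1.trans h2) hV0).trans h4
    have hsecond : V * ∑ q ∈ Icc 1 R, |C| ^ q.primeFactors.card ≤ x / Real.log x ^ A / 2 := by
      have h1 : ∑ q ∈ Icc 1 R, |C| ^ q.primeFactors.card ≤ C1 * x ^ (3 / 4 : ℝ) := by
        have hRx : (R : ℝ) ≤ x ^ (1 / 2 : ℝ) :=
          (Nat.floor_le (by positivity)).trans (Real.rpow_le_rpow_of_exponent_le hx1 (by linarith))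
        have h2 : ∀ q ∈ Icc 1 R, |C| ^ q.primeFactors.card ≤ C1 * x ^ (1 / 4 : ℝ) := by
          intro q hq
          rw [Finset.mem_Icc] at hq
          refine (hom q hq.1).trans (mul_le_mul_of_nonneg_left ?_ hC1)
          have hqR : (q : ℝ) ≤ x ^ (1 / 2 : ℝ) := le_trans (by exact_mod_cast hq.2) hRx
          refine (Real.rpow_le_rpow (by positivity) hqR (by norm_num)).trans (le_of_eq ?_)
          rw [← Real.rpow_mul hxpos.le]
          norm_num
        refine (Finset.sum_le_card_nsmul _ _ _ h2).trans ?_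
        rw [Nat.card_Icc, nsmul_eq_mul, Nat.add_sub_cancel]
        have h3 : x ^ (3 / 4 : ℝ) = x ^ (1 / 2 : ℝ) * x ^ (1 / 4 : ℝ) := by
          rw [← Real.rpow_add hxpos]
          norm_num
        rw [h3]
        have h4 : (0 : ℝ) ≤ C1 * x ^ (1 / 4 : ℝ) := by positivity
        calc (R : ℝ) * (C1 * x ^ (1 / 4 : ℝ)) ≤ x ^ (1 / 2 : ℝ) * (C1 * x ^ (1 / 4 : ℝ)) :=
              mul_le_mul_of_nonneg_right hRx h4
          _ = _ := by ring
      refine (mul_le_mul_of_nonneg_left h1 hV0).trans ?_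
      rw [div_div, le_div_iff₀ (by positivity)]
      have h5 : x = x ^ (3 / 4 : ℝ) * x ^ (1 / 4 : ℝ) := by
        rw [← Real.rpow_add hxpos]
        norm_num
      calc V * (C1 * x ^ (3 / 4 : ℝ)) * (Real.log x ^ A * 2) = x ^ (3 / 4 : ℝ) * (2 * V * C1 * Real.log x ^ A) := by ring
        _ ≤ x ^ (3 / 4 : ℝ) * x ^ (1 / 4 : ℝ) := mul_le_mul_of_nonneg_left hx6 (by positivity)
        _ = x := h5.symm
    linarith

end BVL
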