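import Pool.Agent.H17.Contour

/-!
# BV / CTR: contour shift for a general Dirichlet series

This is `Pool.Agent.H17.ZB.contour_bound` (H17/Contour.lean, lines 290-664) with `aa`, `K` replaced by a general pair `a`, `K`; copy that proof.
Everything about `Ph`, `Pd` (`Ph_bounds`, `Pd_bounds`, `Pd_I_integrable`, `inversion_scaled`, `Pd_differentiable`) is reused. `Fi`, `term_shift`, `transform`:
the same with `a`, `K` (use `K s = LSeries a s` on the line `Re s = 1 + x`). Integrand `f(w) = Pd g δ w * exp(u w) * K(1+x+w)`.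
* rectangle `-κ ≤ Re w ≤ 0`, `|Im w| ≤ T`: `f` is differentiable at all its points (hypothesis).
* left side `Re w = -κ`: `‖f‖ ≤ A δ e^{-κu} B`, length `2T`.
* horizontal sides `|Im w| = T`: `‖f‖ ≤ A δ^{-7} T^{-8} B` (from `‖w‖^8 ‖Pd‖ ≤ A δ^{-7}`), length `κ ≤ 1`.
* tails `Re w = 0`, `|Im w| > T`: `‖K(1+x+iy)‖ ≤ ∑ ‖term a (1+x) n‖ ≤ S` and `‖Pd(iy)‖ ≤ A δ^{-7} |y|^{-8} ≤ A δ^{-7} T^{-6} |y|^{-2}`... to get `T^{-7}`:
  `∫_{|y|>T} |y|^{-8} dy = (2/7) T^{-7}`; if this is inconvenient use `|y|^{-8} ≤ T^{-7}·|y|^{-1}`-free version: substitute nothing and bound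
  `∫_{|y| > T} |y|^{-8} dy` by `integral_Ioi_rpow_of_lt`.
Total: `2π |∑ ...| ≤ 2 A δ B T e^{-κu} + 2 A δ^{-7} T^{-8} B + (2/7) A δ^{-7} T^{-7} S`.
-/

namespace BVL

open LSeries MeasureTheory Set Pool.Agent.H17.ZB

theorem contourG_term_shift (a : ℕ → ℂ) (x y : ℝ) (n : ℕ) :
    term a (1 + x + y * Complex.I) n = term a (1 + x) n * Complex.exp (-((y * Real.log n : ℝ) : ℂ) * Complex.I) := by
  rcases Nat.eq_zero_or_pos n with rfl | hn
  · simp
  have hn0 : (n : ℂ) ≠ 0 := by exact_mod_cast (by omega : n ≠ 0)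
  rw [term_of_ne_zero (by omega), term_of_ne_zero (by omega)]
  rw [Complex.cpow_add _ _ hn0, div_mul_eq_div_div, div_eq_mul_inv _ ((n : ℂ) ^ ((y : ℂ) * Complex.I)),
    ← Complex.cpow_neg]
  congr 1
  rw [Complex.cpow_def_of_ne_zero hn0, ← Complex.natCast_log]
  congr 1
  push_cast
  ring

/-- the integrand -/
noncomputable def contourG_Fi (g : SchwartzMap ℝ ℂ) (K : ℂ → ℂ) (δ u x : ℝ) (w : ℂ) : ℂ :=
  Pd g δ w * Complex.exp (u * w) * K (1 + x + w)

theorem contourG_transform (g : SchwartzMap ℝ ℂ) (a : ℕ → ℂ) (K : ℂ → ℂ)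
    (hK : ∀ s : ℂ, 1 < s.re → LSeriesSummable a s ∧ DifferentiableAt ℂ K s ∧ K s = LSeries a s)
    {δ : ℝ} (hδ : 0 < δ) {x : ℝ} (hx : 0 < x) (u : ℝ) :
    2 * Real.pi * ∑' n : ℕ, term a (1 + x) n * g ((Real.log n - u) / δ)
      = ∫ y : ℝ, contourG_Fi g K δ u x ((y : ℂ) * Complex.I) := by
  have hs : 1 < (1 + (x : ℂ)).re := by simp; exact hx
  have hsum : Summable (fun n => ‖term a (1 + x) n‖) := ((hK _ hs).1).norm
  have hP := Pd_I_integrable g hδ
  set G : ℕ → ℝ → ℂ := fun n y => (Pd g δ ((y : ℂ) * Complex.I) * Complex.exp (-((y * (Real.log n - u) : ℝ) : ℂ) * Complex.I)) * term a (1 + x) n with hG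
  have hterm : ∀ n : ℕ, ∫ y : ℝ, G n y = 2 * Real.pi * (term a (1 + x) n * g ((Real.log n - u) / δ)) := by
    intro n
    rw [hG]
    simp only
    rw [integral_mul_const, inversion_scaled g hδ]
    ring
  have hnorm : ∀ (n : ℕ) (y : ℝ), ‖G n y‖ = ‖Pd g δ ((y : ℂ) * Complex.I)‖ * ‖term a (1 + x) n‖ := by
    intro n y
    rw [hG]
    simp only
    rw [norm_mul, norm_mul, ← Complex.ofReal_neg, Complex.norm_exp_ofReal_mul_I, mul_one]
  have hF := hasSum_integral_of_summable_integral_norm (F := G) (μ := volume) ?_ ?_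
  · have h5 := hF.tsum_eq
    simp_rw [hterm] at h5
    rw [tsum_mul_left] at h5
    rw [h5]
    congr 1
    ext y
    have hspt : 1 < (1 + (x : ℂ) + y * Complex.I).re := by simp; exact hx
    unfold contourG_Fi
    rw [(hK _ hspt).2.2]
    unfold LSeries
    rw [← tsum_mul_left]
    congr 1
    ext n
    rw [hG]
    simp only
    rw [contourG_term_shift]
    have e2 : Complex.exp (-((y * (Real.log n - u) : ℝ) : ℂ) * Complex.I)
        = Complex.exp (u * ((y : ℂ) * Complex.I)) * Complex.exp (-((y * Real.log n : ℝ) : ℂ) * Complex.I) := by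
      rw [← Complex.exp_add]
      congr 1
      push_cast
      ring
    rw [e2]
    ring
  · intro n
    have h1 : Integrable (fun y : ℝ => ‖Pd g δ ((y : ℂ) * Complex.I)‖ * ‖term a (1 + x) n‖) := hP.norm.mul_const _
    refine h1.mono' ?_ ?_
    · rw [hG]
      simp only
      apply AEStronglyMeasurable.mul_const
      apply AEStronglyMeasurable.mul hP.aestronglyMeasurable
      apply Continuous.aestronglyMeasurable
      fun_prop
    · filter_upwards with y
      rw [hnorm]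
  · simp_rw [hnorm]
    simp_rw [integral_mul_const]
    exact hsum.mul_left _

theorem contourG {g : SchwartzMap ℝ ℂ} (hg : Pool.Agent.H17.ZB.Sup1 g) : ∃ C : ℝ, 0 < C ∧
    ∀ (a : ℕ → ℂ) (K : ℂ → ℂ), (∀ s : ℂ, 1 < s.re → LSeriesSummable a s ∧ DifferentiableAt ℂ K s ∧ K s = LSeries a s) →
    ∀ x κ T B S : ℝ, 0 < x → x ≤ 1 / 2 → 0 < κ → κ ≤ 1 / 2 → 1 ≤ T → 0 ≤ B → (∑' n : ℕ, ‖term a (1 + x) n‖) ≤ S →
    (∀ w : ℂ, -κ ≤ w.re → w.re ≤ 0 → |w.im| ≤ T → DifferentiableAt ℂ K (1 + x + w) ∧ ‖K (1 + x + w)‖ ≤ B) →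
    ∀ δ u : ℝ, 0 < δ → δ ≤ 1 → 0 ≤ u →
    ‖∑' n : ℕ, term a (1 + x) n * g ((Real.log n - u) / δ)‖
      ≤ C * (δ * B * T * Real.exp (-(κ * u)) + (B + S) * ((δ ^ 7)⁻¹ * (T ^ 7)⁻¹)) := by
  obtain ⟨A, hA1, hA⟩ := Ph_bounds hg
  refine ⟨2 * A, by linarith, ?_⟩
  intro a K hK x κ T B S hx hx1 hκ hκ2 hT hB hS hKb δ u hδ hδ1 hu
  have hA0 : 0 < A := by linarith
  have hT0 : 0 < T := by linarith
  have hs : 1 < (1 + (x : ℂ)).re := by simp; exact hx
  have hsum : Summable (fun n => ‖term a (1 + x) n‖) := ((hK _ hs).1).norm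
  have hS0 : 0 ≤ S := (tsum_nonneg fun _ => norm_nonneg _).trans hS
  -- the value of `K` on the line
  have hKline : ∀ y : ℝ, ‖K (1 + x + (y : ℂ) * Complex.I)‖ ≤ S := by
    intro y
    refine le_trans ?_ hS
    rw [(hK (1 + x + (y : ℂ) * Complex.I) (by simp; exact hx)).2.2]
    unfold LSeries
    apply tsum_of_norm_bounded hsum.hasSum
    intro n
    rw [contourG_term_shift, norm_mul, ← Complex.ofReal_neg, Complex.norm_exp_ofReal_mul_I, mul_one]
  have hFdiff : ∀ w : ℂ, -κ ≤ w.re → w.re ≤ 0 → |w.im| ≤ T →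
      DifferentiableAt ℂ (contourG_Fi g K δ u x) w := by
    intro w h1 h2 h3
    unfold contourG_Fi
    have a1 : DifferentiableAt ℂ (fun w : ℂ => K (1 + x + w)) w := by
      have a2 : DifferentiableAt ℂ (fun w : ℂ => 1 + (x : ℂ) + w) w := by fun_prop
      exact (hKb w h1 h2 h3).1.comp w a2
    have a3 : DifferentiableAt ℂ (fun w : ℂ => Complex.exp (u * w)) w := by fun_prop
    exact ((Pd_differentiable hg δ w).mul a3).mul a1
  -- rectangle
  set f : ℂ → ℂ := contourG_Fi g K δ u x with hf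
  have r1 : (((-κ : ℝ) : ℂ) + ((-T : ℝ) : ℂ) * Complex.I).re = -κ := by simp
  have r2 : (((0 : ℝ) : ℂ) + ((T : ℝ) : ℂ) * Complex.I).re = 0 := by simp
  have r3 : (((-κ : ℝ) : ℂ) + ((-T : ℝ) : ℂ) * Complex.I).im = -T := by simp
  have r4 : (((0 : ℝ) : ℂ) + ((T : ℝ) : ℂ) * Complex.I).im = T := by simp
  have hrect := Complex.integral_boundary_rect_eq_zero_of_differentiableOn f
    (((-κ : ℝ) : ℂ) + ((-T : ℝ) : ℂ) * Complex.I) (((0 : ℝ) : ℂ) + ((T : ℝ) : ℂ) * Complex.I) (by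
      intro w hw
      rw [Complex.mem_reProdIm] at hw
      rw [r1, r2, r3, r4, uIcc_of_le (by linarith), uIcc_of_le (by linarith)] at hw
      obtain ⟨⟨h1, h2⟩, h3, h4⟩ := hw
      apply DifferentiableAt.differentiableWithinAt
      exact hFdiff w h1 h2 (abs_le.mpr ⟨h3, h4⟩))
  rw [r1, r2, r3, r4] at hrect
  -- norm of exponentials
  have hexp : ∀ w : ℂ, w.re ≤ 0 → ‖Complex.exp (u * w)‖ ≤ 1 := by
    intro w hw
    rw [Complex.norm_exp]
    have : ((u : ℂ) * w).re = u * w.re := by simp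
    rw [this]
    apply Real.exp_le_one_iff.mpr
    exact mul_nonpos_of_nonneg_of_nonpos hu hw
  have hPdhigh : ∀ w : ℂ, |w.re| ≤ 1 → 0 < |w.im| → ‖Pd g δ w‖ ≤ A * (δ ^ 7)⁻¹ * (|w.im| ^ 8)⁻¹ := by
    intro w h1 h2
    have b1 := (Pd_bounds hA hδ hδ1 (w := w) h1).2
    have b4 : |w.im| ≤ ‖w‖ := Complex.abs_im_le_norm w
    rw [← div_eq_mul_inv, le_div_iff₀ (by positivity), mul_comm]
    refine le_trans ?_ b1
    gcongr
  -- the horizontal sides
  have hhor : ∀ Y : ℝ, |Y| = T → ‖∫ c : ℝ in (-κ)..0, f (c + Y * Complex.I)‖ ≤ A * B * ((δ ^ 7)⁻¹ * (T ^ 7)⁻¹) := by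
    intro Y hY
    have h1 := intervalIntegral.norm_integral_le_of_norm_le_const (a := -κ) (b := 0)
      (f := fun c : ℝ => f (c + Y * Complex.I)) (C := A * B * ((δ ^ 7)⁻¹ * (T ^ 7)⁻¹)) (by
        intro c hc
        rw [uIoc_of_le (by linarith)] at hc
        have him : ((c : ℂ) + Y * Complex.I).im = Y := by simp
        have hre : ((c : ℂ) + Y * Complex.I).re = c := by simp
        have b1 := hPdhigh ((c : ℂ) + Y * Complex.I) (by rw [hre]; exact abs_le.mpr ⟨by linarith [hc.1], by linarith [hc.2]⟩)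
          (by rw [him, hY]; exact hT0)
        have b2 := (hKb ((c : ℂ) + Y * Complex.I) (by rw [hre]; exact hc.1.le) (by rw [hre]; exact hc.2)
          (by rw [him, hY])).2
        have b3 := hexp ((c : ℂ) + Y * Complex.I) (by rw [hre]; exact hc.2)
        rw [him, hY] at b1
        have b4 : (T ^ 8)⁻¹ ≤ (T ^ 7)⁻¹ := by
          apply inv_anti₀ (by positivity)
          exact pow_le_pow_right₀ hT (by norm_num)
        rw [hf]
        unfold contourG_Fi
        rw [norm_mul, norm_mul]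
        calc ‖Pd g δ ((c : ℂ) + Y * Complex.I)‖ * ‖Complex.exp (u * ((c : ℂ) + Y * Complex.I))‖
              * ‖K (1 + x + ((c : ℂ) + Y * Complex.I))‖
            ≤ (A * (δ ^ 7)⁻¹ * (T ^ 8)⁻¹) * 1 * B := by gcongr
          _ ≤ (A * (δ ^ 7)⁻¹ * (T ^ 7)⁻¹) * 1 * B := by gcongr
          _ = _ := by ring)
    refine h1.trans ?_
    have h2 : |0 - -κ| ≤ 1 := by
      rw [zero_sub, neg_neg, abs_of_pos hκ]; linarith
    calc _ ≤ A * B * ((δ ^ 7)⁻¹ * (T ^ 7)⁻¹) * 1 := by gcongr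
      _ = _ := mul_one _
  -- the left side
  have hleft : ‖∫ y : ℝ in (-T)..T, f (((-κ : ℝ) : ℂ) + y * Complex.I)‖ ≤ 2 * A * (δ * B * T * Real.exp (-(κ * u))) := by
    have h1 := intervalIntegral.norm_integral_le_of_norm_le_const (a := -T) (b := T)
      (f := fun y : ℝ => f (((-κ : ℝ) : ℂ) + y * Complex.I)) (C := A * (δ * B * Real.exp (-(κ * u)))) (by
        intro y hy
        rw [uIoc_of_le (by linarith)] at hy
        have him : (((-κ : ℝ) : ℂ) + y * Complex.I).im = y := by simp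
        have hre : (((-κ : ℝ) : ℂ) + y * Complex.I).re = -κ := by simp
        have hy1 : |y| ≤ T := abs_le.mpr ⟨hy.1.le, hy.2⟩
        have b1 := (Pd_bounds hA hδ hδ1 (w := ((-κ : ℝ) : ℂ) + y * Complex.I) (by rw [hre, abs_neg, abs_of_pos hκ]; linarith)).1
        have b2 := (hKb (((-κ : ℝ) : ℂ) + y * Complex.I) (by rw [hre]) (by rw [hre]; linarith)
          (by rw [him]; exact hy1)).2
        have b3 : ‖Complex.exp (u * (((-κ : ℝ) : ℂ) + y * Complex.I))‖ = Real.exp (-(κ * u)) := by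
          rw [Complex.norm_exp]
          congr 1
          have : ((u : ℂ) * (((-κ : ℝ) : ℂ) + y * Complex.I)).re = u * (-κ) := by simp
          rw [this]
          ring
        rw [hf]
        unfold contourG_Fi
        rw [norm_mul, norm_mul, b3]
        calc ‖Pd g δ (((-κ : ℝ) : ℂ) + y * Complex.I)‖ * Real.exp (-(κ * u)) * ‖K (1 + x + (((-κ : ℝ) : ℂ) + y * Complex.I))‖
            ≤ (A * δ) * Real.exp (-(κ * u)) * B := by gcongr
          _ = _ := by ring)
    refine h1.trans (le_of_eq ?_)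
    have h2 : |T - -T| = 2 * T := by
      rw [abs_of_pos (by linarith)]; ring
    rw [h2]
    ring
  -- the middle
  have hmid : ‖∫ y : ℝ in (-T)..T, f (y * Complex.I)‖ ≤ 2 * A * (δ * B * T * Real.exp (-(κ * u))) + 2 * A * B * ((δ ^ 7)⁻¹ * (T ^ 7)⁻¹) := by
    have e1 : ∫ y : ℝ in (-T)..T, f (((0 : ℝ) : ℂ) + y * Complex.I) = ∫ y : ℝ in (-T)..T, f (y * Complex.I) := by
      congr 1
      ext y
      simp
    rw [e1] at hrect
    have h1 := hhor (-T) (by rw [abs_neg, abs_of_pos hT0])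
    have h2 := hhor T (abs_of_pos hT0)
    set I1 := ∫ c : ℝ in (-κ)..0, f (c + ((-T : ℝ) : ℂ) * Complex.I)
    set I2 := ∫ c : ℝ in (-κ)..0, f (c + ((T : ℝ) : ℂ) * Complex.I)
    set I3 := ∫ y : ℝ in (-T)..T, f (y * Complex.I)
    set I4 := ∫ y : ℝ in (-T)..T, f (((-κ : ℝ) : ℂ) + y * Complex.I)
    have e2 : I3 = I4 + Complex.I * (I1 - I2) := by
      simp only [smul_eq_mul] at hrect
      have hI : Complex.I * Complex.I = -1 := Complex.I_mul_I
      linear_combination (-Complex.I) * hrect + (I3 - I4) * hI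
    rw [e2]
    calc ‖I4 + Complex.I * (I1 - I2)‖ ≤ ‖I4‖ + ‖I1 - I2‖ := by
          refine (norm_add_le _ _).trans ?_
          rw [norm_mul, Complex.norm_I, one_mul]
      _ ≤ ‖I4‖ + (‖I1‖ + ‖I2‖) := by
          gcongr
          exact norm_sub_le _ _
      _ ≤ 2 * A * (δ * B * T * Real.exp (-(κ * u))) + (A * B * ((δ ^ 7)⁻¹ * (T ^ 7)⁻¹) + A * B * ((δ ^ 7)⁻¹ * (T ^ 7)⁻¹)) := by
          gcongr
      _ = _ := by ring
  -- the tails
  have htail : ‖∫ y in (Ioc (-T) T)ᶜ, f (y * Complex.I)‖ ≤ 2 * A * S * ((δ ^ 7)⁻¹ * (T ^ 7)⁻¹) * Real.pi := by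
    have hint0 : Integrable (fun y : ℝ => (1 + (y / T) ^ 2)⁻¹) :=
      (integrable_inv_one_add_sq).comp_div hT0.ne'
    have hint : Integrable (fun y : ℝ => 2 * A * S * ((δ ^ 7)⁻¹ * (T ^ 8)⁻¹) * (1 + (y / T) ^ 2)⁻¹) :=
      hint0.const_mul _
    have hval : ∫ y : ℝ, (1 + (y / T) ^ 2)⁻¹ = T * Real.pi := by
      rw [Measure.integral_comp_div (fun y : ℝ => (1 + y ^ 2)⁻¹) T, integral_univ_inv_one_add_sq,
        abs_of_pos hT0, smul_eq_mul]
    calc ‖∫ y in (Ioc (-T) T)ᶜ, f (y * Complex.I)‖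
        ≤ ∫ y in (Ioc (-T) T)ᶜ, 2 * A * S * ((δ ^ 7)⁻¹ * (T ^ 8)⁻¹) * (1 + (y / T) ^ 2)⁻¹ := by
          apply norm_integral_le_of_norm_le hint.integrableOn
          filter_upwards [ae_restrict_mem measurableSet_Ioc.compl] with y hy
          have hy1 : T ≤ |y| := by
            by_contra hcon
            push Not at hcon
            rw [abs_lt] at hcon
            exact hy ⟨hcon.1, hcon.2.le⟩
          have hy0 : 0 < |y| := by linarith
          have him : ((y : ℂ) * Complex.I).im = y := by simp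
          have hre : ((y : ℂ) * Complex.I).re = 0 := by simp
          have b1 := hPdhigh ((y : ℂ) * Complex.I) (by rw [hre, abs_zero]; norm_num) (by rw [him]; exact hy0)
          rw [him] at b1
          have b2 := hKline y
          have b3 := hexp ((y : ℂ) * Complex.I) (by rw [hre])
          have h3 : (|y| ^ 8)⁻¹ ≤ 2 * ((T ^ 8)⁻¹ * (1 + (y / T) ^ 2)⁻¹) := by
            have e3 : 2 * ((T ^ 8)⁻¹ * (1 + (y / T) ^ 2)⁻¹) = 2 / (T ^ 6 * (T ^ 2 + y ^ 2)) := by
              have : T ^ 2 + y ^ 2 ≠ 0 := by positivity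
              have : 1 + (y / T) ^ 2 ≠ 0 := by positivity
              field_simp
            rw [e3, inv_eq_one_div, div_le_div_iff₀ (by positivity) (by positivity)]
            have e4 : T ^ 6 ≤ |y| ^ 6 := by gcongr
            have e5 : T ^ 2 + y ^ 2 ≤ 2 * |y| ^ 2 := by
              have : T ^ 2 ≤ |y| ^ 2 := by gcongr
              rw [← sq_abs y]
              linarith
            calc 1 * (T ^ 6 * (T ^ 2 + y ^ 2)) ≤ 1 * (|y| ^ 6 * (2 * |y| ^ 2)) := by gcongr
              _ = 2 * |y| ^ 8 := by ring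
          rw [hf]
          unfold contourG_Fi
          rw [norm_mul, norm_mul]
          calc ‖Pd g δ ((y : ℂ) * Complex.I)‖ * ‖Complex.exp (u * ((y : ℂ) * Complex.I))‖ * ‖K (1 + x + (y : ℂ) * Complex.I)‖
              ≤ (A * (δ ^ 7)⁻¹ * (|y| ^ 8)⁻¹) * 1 * S := by gcongr
            _ ≤ (A * (δ ^ 7)⁻¹ * (2 * ((T ^ 8)⁻¹ * (1 + (y / T) ^ 2)⁻¹))) * 1 * S := by gcongr
            _ = _ := by ring
      _ ≤ ∫ y : ℝ, 2 * A * S * ((δ ^ 7)⁻¹ * (T ^ 8)⁻¹) * (1 + (y / T) ^ 2)⁻¹ := by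
          apply setIntegral_le_integral hint
          filter_upwards with y
          positivity
      _ = _ := by
          rw [integral_const_mul, hval]
          have e6 : (T ^ 8)⁻¹ * T = (T ^ 7)⁻¹ := by field_simp
          rw [← e6]
          ring
  -- integrability of f on the line
  have hfint : Integrable (fun y : ℝ => f (y * Complex.I)) := by
    have hP := Pd_I_integrable g hδ
    have hb : ∀ y : ℝ, ‖Complex.exp (u * ((y : ℂ) * Complex.I)) * K (1 + x + (y : ℂ) * Complex.I)‖ ≤ S := by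
      intro y
      rw [norm_mul]
      have e1 : ‖Complex.exp (u * ((y : ℂ) * Complex.I))‖ = 1 := by
        have : (u : ℂ) * ((y : ℂ) * Complex.I) = ((u * y : ℝ) : ℂ) * Complex.I := by push_cast; ring
        rw [this, Complex.norm_exp_ofReal_mul_I]
      rw [e1, one_mul]
      exact hKline y
    have h1 : Integrable (fun y : ℝ => (Complex.exp (u * ((y : ℂ) * Complex.I)) * K (1 + x + (y : ℂ) * Complex.I)) * Pd g δ ((y : ℂ) * Complex.I)) := by
      apply hP.bdd_mul (c := S)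
      · apply Continuous.aestronglyMeasurable
        apply Continuous.mul (by fun_prop)
        rw [continuous_iff_continuousAt]
        intro y
        have h5 := (hK (1 + x + (y : ℂ) * Complex.I) (by simp; exact hx)).2.1.continuousAt
        have h6 : ContinuousAt (fun y : ℝ => 1 + (x : ℂ) + (y : ℂ) * Complex.I) y := by fun_prop
        exact ContinuousAt.comp (f := fun y : ℝ => 1 + (x : ℂ) + (y : ℂ) * Complex.I) h5 h6
      · filter_upwards with y
        exact hb y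
    refine h1.congr ?_
    filter_upwards with y
    rw [hf]
    unfold contourG_Fi
    ring
  have htot : 2 * Real.pi * ∑' n : ℕ, term a (1 + x) n * g ((Real.log n - u) / δ)
      = (∫ y : ℝ in (-T)..T, f (y * Complex.I)) + ∫ y in (Ioc (-T) T)ᶜ, f (y * Complex.I) := by
    rw [contourG_transform g a K hK hδ hx u, intervalIntegral.integral_of_le (by linarith), integral_add_compl measurableSet_Ioc hfint]
  have hfin := congrArg norm htot
  rw [norm_mul] at hfin
  have hpi := Real.pi_gt_three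
  have hpi2 := Real.pi_lt_d2
  have h2pi : ‖(2 * Real.pi : ℂ)‖ = 2 * Real.pi := by
    have : (2 * Real.pi : ℂ) = ((2 * Real.pi : ℝ) : ℂ) := by push_cast; ring
    rw [this, Complex.norm_real, Real.norm_of_nonneg (by positivity)]
  rw [h2pi] at hfin
  obtain ⟨Z, hZ⟩ : ∃ Z, Z = ‖∑' n : ℕ, term a (1 + x) n * g ((Real.log n - u) / δ)‖ := ⟨_, rfl⟩
  rw [← hZ] at hfin ⊢
  have hZ0 : 0 ≤ Z := hZ ▸ norm_nonneg _
  obtain ⟨E1, hE1⟩ : ∃ E1, E1 = δ * B * T * Real.exp (-(κ * u)) := ⟨_, rfl⟩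
  obtain ⟨E2, hE2⟩ : ∃ E2, E2 = (δ ^ 7)⁻¹ * (T ^ 7)⁻¹ := ⟨_, rfl⟩
  rw [← hE1, ← hE2] at hmid ⊢
  rw [← hE2] at htail
  have hE10 : 0 ≤ E1 := by rw [hE1]; positivity
  have hE20 : 0 ≤ E2 := by rw [hE2]; positivity
  have h1 : 2 * Real.pi * Z ≤ (2 * A * E1 + 2 * A * B * E2) + 2 * A * S * E2 * Real.pi := by
    rw [hfin]
    exact (norm_add_le _ _).trans (add_le_add hmid htail)
  have h4 : 2 * Real.pi * Z ≤ 2 * Real.pi * (2 * A * (E1 + (B + S) * E2)) := by
    refine h1.trans ?_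
    have m1 : 0 ≤ A * E1 := by positivity
    have m2 : 0 ≤ A * B * E2 := by positivity
    have m3 : 0 ≤ A * S * E2 * Real.pi := by positivity
    have m4 : 0 ≤ (Real.pi - 1) * (A * E1) := mul_nonneg (by linarith) m1
    have m5 : 0 ≤ (Real.pi - 1) * (A * B * E2) := mul_nonneg (by linarith) m2
    nlinarith
  exact le_of_mul_le_mul_left h4 (by positivity)

end BVL
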