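import Mathlib
import Pool.Agent.H69.LB.Defs

/-!
# Bombieri-Vinogradov library: shared definitions

`mx N f = max_{y ≤ N} f y`, `psiC χ y = ψ(y, χ)`, `PM N χ = max_{y ≤ N} |ψ(y, χ)|`, `XR N r = ∑_{χ ∈ pc r} PM N χ`.
`H69LB.pc q` is the set of primitive characters modulo `q` without the trivial one (`pc 1 = ∅`).
-/

open Finset H69LB

namespace BVL

/-- `max_{y ≤ N} f y` -/
noncomputable def mx (N : ℕ) (f : ℕ → ℝ) : ℝ := ⨆ y : Fin (N + 1), f y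

theorem le_mx {N : ℕ} (f : ℕ → ℝ) {y : ℕ} (h : y ≤ N) : f y ≤ mx N f := by
  unfold mx
  exact le_ciSup (f := fun y : Fin (N + 1) => f y) (Set.finite_range _).bddAbove ⟨y, by omega⟩

theorem mx_le {N : ℕ} {f : ℕ → ℝ} {B : ℝ} (h : ∀ y, y ≤ N → f y ≤ B) : mx N f ≤ B := by
  unfold mx
  exact ciSup_le fun y => h y (by omega)

theorem mx_nonneg {N : ℕ} {f : ℕ → ℝ} (h : ∀ y, 0 ≤ f y) : 0 ≤ mx N f :=
  (h 0).trans (le_mx f (Nat.zero_le N))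

theorem mx_mono {N : ℕ} {f g : ℕ → ℝ} (h : ∀ y, y ≤ N → f y ≤ g y) : mx N f ≤ mx N g :=
  mx_le fun y hy => (h y hy).trans (le_mx g hy)

theorem mx_mono_left {N N' : ℕ} (hN : N ≤ N') (f : ℕ → ℝ) : mx N f ≤ mx N' f :=
  mx_le fun _ hy => le_mx f (hy.trans hN)

theorem mx_add_le (N : ℕ) (f g : ℕ → ℝ) : mx N (fun y => f y + g y) ≤ mx N f + mx N g :=
  mx_le fun _ hy => add_le_add (le_mx f hy) (le_mx g hy)

theorem mx_sum_le {ι : Type*} (s : Finset ι) (N : ℕ) (f : ι → ℕ → ℝ) :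
    mx N (fun y => ∑ i ∈ s, f i y) ≤ ∑ i ∈ s, mx N (f i) :=
  mx_le fun _ hy => Finset.sum_le_sum fun i _ => le_mx (f i) hy

/-- `ψ(y, χ)` -/
noncomputable def psiC {q : ℕ} (χ : DirichletCharacter ℂ q) (y : ℕ) : ℂ :=
  ∑ n ∈ Icc 1 y, (ArithmeticFunction.vonMangoldt n : ℂ) * χ n

/-- `max_{y ≤ N} |ψ(y, χ)|` -/
noncomputable def PM (N : ℕ) {q : ℕ} (χ : DirichletCharacter ℂ q) : ℝ := mx N fun y => ‖psiC χ y‖

theorem le_PM {N : ℕ} {q : ℕ} (χ : DirichletCharacter ℂ q) {y : ℕ} (h : y ≤ N) : ‖psiC χ y‖ ≤ PM N χ :=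
  le_mx (fun y => ‖psiC χ y‖) h

theorem PM_nonneg (N : ℕ) {q : ℕ} (χ : DirichletCharacter ℂ q) : 0 ≤ PM N χ :=
  mx_nonneg fun _ => norm_nonneg _

/-- `∑_{χ primitive mod r, χ ≠ 1} max_{y ≤ N} |ψ(y, χ)|` -/
noncomputable def XR (N r : ℕ) : ℝ := ∑ χ ∈ pc r, PM N χ

theorem XR_nonneg (N r : ℕ) : 0 ≤ XR N r := Finset.sum_nonneg fun _ _ => PM_nonneg N _

end BVL
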