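import Mathlib

/-!
# BV / DYD: dyadic summation with the weight `r^{-1+η}`

Cover `Ioc R1 R` by the blocks `Ioc (2^j R1) (2^{j+1} R1)`, `j < J`, `J = Nat.clog 2 R` (`2^J R1 ≥ R`, `J ≤ log R/log 2 + 1`), only `j` with `2^j R1 ≤ R` matter.
In a block `r^{-1+η} ≤ (2^j R1)^{-1+η}` (`η ≤ 1`), and `∑_{r ≤ 2^{j+1} R1} X r ≤ a0 + a1 (2P) + a2 (2P)^2 + a3 (2P)^3`, `P = 2^j R1`, `R1 ≤ P ≤ R`. So the block is at most
`8 P^{-1+η} (a0 + a1 P + a2 P^2 + a3 P^3) ≤ 8 (a0 R1^{-1+η} + R^η (a1 + a2 R + a3 R^2))`.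
-/

open Finset

namespace BVL

theorem Dyd_block {X : ℕ → ℝ} (hX : ∀ r, 0 ≤ X r) {a0 a1 a2 a3 : ℝ} (h0 : 0 ≤ a0) (h1 : 0 ≤ a1) (h2 : 0 ≤ a2) (h3 : 0 ≤ a3)
    {R1 R : ℕ} (hR1 : 1 ≤ R1)
    (hS : ∀ Q : ℕ, Q ≤ 2 * R → ∑ r ∈ Icc 1 Q, X r ≤ a0 + a1 * Q + a2 * Q ^ 2 + a3 * Q ^ 3)
    {η : ℝ} (hη : 0 < η) (hη1 : η ≤ 1) {P : ℕ} (hP1 : R1 ≤ P) (hP : P ≤ R) :
    ∑ r ∈ Ioc P (2 * P), (r : ℝ) ^ (-1 + η) * X r ≤
      8 * (a0 * (R1 : ℝ) ^ (-1 + η) + (R : ℝ) ^ η * (a1 + a2 * R + a3 * R ^ 2)) := by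
  have hR1' : (0 : ℝ) < R1 := by exact_mod_cast hR1
  have hP1' : (R1 : ℝ) ≤ P := by exact_mod_cast hP1
  have hP' : (P : ℝ) ≤ R := by exact_mod_cast hP
  have hP0 : (0 : ℝ) < P := lt_of_lt_of_le hR1' hP1'
  have hR0 : (0 : ℝ) < R := lt_of_lt_of_le hP0 hP'
  have s1 : ∑ r ∈ Ioc P (2 * P), (r : ℝ) ^ (-1 + η) * X r ≤
      ∑ r ∈ Ioc P (2 * P), (P : ℝ) ^ (-1 + η) * X r := by
    apply Finset.sum_le_sum
    intro r hr
    have hr' : (P : ℝ) ≤ r := by exact_mod_cast (Finset.mem_Ioc.mp hr).1.le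
    exact mul_le_mul_of_nonneg_right (Real.rpow_le_rpow_of_nonpos hP0 hr' (by linarith)) (hX r)
  have s2 : ∑ r ∈ Ioc P (2 * P), X r ≤ a0 + a1 * ((2 * P : ℕ) : ℝ) + a2 * ((2 * P : ℕ) : ℝ) ^ 2 +
      a3 * ((2 * P : ℕ) : ℝ) ^ 3 := by
    refine le_trans ?_ (hS (2 * P) (by omega))
    apply Finset.sum_le_sum_of_subset_of_nonneg
    · intro r hr
      have := Finset.mem_Ioc.mp hr
      exact Finset.mem_Icc.mpr ⟨by omega, this.2⟩
    · intro r _ _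
      exact hX r
  have hp : (0 : ℝ) ≤ (P : ℝ) ^ (-1 + η) := Real.rpow_nonneg hP0.le _
  have e1 : (P : ℝ) ^ (-1 + η) * P = (P : ℝ) ^ η := by
    rw [← Real.rpow_add_one hP0.ne']
    congr 1
    ring
  have g1 : (P : ℝ) ^ η ≤ (R : ℝ) ^ η := Real.rpow_le_rpow hP0.le hP' hη.le
  have g0 : (P : ℝ) ^ (-1 + η) ≤ (R1 : ℝ) ^ (-1 + η) :=
    Real.rpow_le_rpow_of_nonpos hR1' hP1' (by linarith)
  have hRη : (0 : ℝ) ≤ (R : ℝ) ^ η := Real.rpow_nonneg hR0.le _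
  rw [← Finset.mul_sum] at s1
  have s3 := mul_le_mul_of_nonneg_left s2 hp
  refine s1.trans (s3.trans ?_)
  push_cast
  have t0 : (P : ℝ) ^ (-1 + η) * a0 ≤ a0 * (R1 : ℝ) ^ (-1 + η) := by
    rw [mul_comm]; exact mul_le_mul_of_nonneg_left g0 h0
  have t0' : 0 ≤ (P : ℝ) ^ (-1 + η) * a0 := mul_nonneg hp h0
  have t1 : (P : ℝ) ^ (-1 + η) * P * a1 ≤ (R : ℝ) ^ η * a1 := by
    rw [e1]; exact mul_le_mul_of_nonneg_right g1 h1
  have t1' : 0 ≤ (P : ℝ) ^ (-1 + η) * P * a1 := by positivity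
  have t2 : (P : ℝ) ^ (-1 + η) * P * (a2 * P) ≤ (R : ℝ) ^ η * (a2 * R) := by
    rw [e1]; exact mul_le_mul g1 (mul_le_mul_of_nonneg_left hP' h2) (by positivity) hRη
  have t2' : 0 ≤ (P : ℝ) ^ (-1 + η) * P * (a2 * P) := by positivity
  have t3 : (P : ℝ) ^ (-1 + η) * P * (a3 * (P : ℝ) ^ 2) ≤ (R : ℝ) ^ η * (a3 * (R : ℝ) ^ 2) := by
    rw [e1]
    exact mul_le_mul g1 (mul_le_mul_of_nonneg_left (pow_le_pow_left₀ hP0.le hP' 2) h3)
      (by positivity) hRη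
  calc (P : ℝ) ^ (-1 + η) * (a0 + a1 * (2 * P) + a2 * (2 * P) ^ 2 + a3 * (2 * P) ^ 3)
      = (P : ℝ) ^ (-1 + η) * a0 + 2 * ((P : ℝ) ^ (-1 + η) * P * a1) +
        4 * ((P : ℝ) ^ (-1 + η) * P * (a2 * P)) + 8 * ((P : ℝ) ^ (-1 + η) * P * (a3 * (P : ℝ) ^ 2)) := by
          ring
    _ ≤ 8 * (a0 * (R1 : ℝ) ^ (-1 + η)) + 8 * ((R : ℝ) ^ η * a1) + 8 * ((R : ℝ) ^ η * (a2 * R)) +
        8 * ((R : ℝ) ^ η * (a3 * (R : ℝ) ^ 2)) := by linarith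
    _ = _ := by ring

theorem dyd {X : ℕ → ℝ} (hX : ∀ r, 0 ≤ X r) {a0 a1 a2 a3 : ℝ} (h0 : 0 ≤ a0) (h1 : 0 ≤ a1) (h2 : 0 ≤ a2) (h3 : 0 ≤ a3)
    {R1 R : ℕ} (hR1 : 1 ≤ R1) (hR : R1 ≤ R)
    (hS : ∀ Q : ℕ, Q ≤ 2 * R → ∑ r ∈ Icc 1 Q, X r ≤ a0 + a1 * Q + a2 * Q ^ 2 + a3 * Q ^ 3)
    {η : ℝ} (hη : 0 < η) (hη1 : η ≤ 1) :
    ∑ r ∈ Ioc R1 R, (r : ℝ) ^ (-1 + η) * X r ≤
      8 * (Real.log R / Real.log 2 + 1) * (a0 * (R1 : ℝ) ^ (-1 + η) + (R : ℝ) ^ η * (a1 + a2 * R + a3 * R ^ 2)) := by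
  set W : ℝ := a0 * (R1 : ℝ) ^ (-1 + η) + (R : ℝ) ^ η * (a1 + a2 * R + a3 * R ^ 2) with hW
  have hW0 : 0 ≤ W := by positivity
  have key : ∀ J : ℕ, ∑ r ∈ Ioc R1 (min (2 ^ J * R1) R), (r : ℝ) ^ (-1 + η) * X r ≤ J * (8 * W) := by
    intro J
    induction J with
    | zero =>
      have : Ioc R1 (min (2 ^ 0 * R1) R) = ∅ := by
        apply Finset.Ioc_eq_empty
        simp
      rw [this]
      simp
    | succ J ih =>
      set P := min (2 ^ J * R1) R with hP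
      have hPR : P ≤ R := min_le_right _ _
      have hRP : R1 ≤ P := le_min (Nat.le_mul_of_pos_left _ (by positivity)) hR
      have hle : P ≤ min (2 ^ (J + 1) * R1) R := by
        apply le_min _ hPR
        refine (min_le_left _ _).trans ?_
        exact Nat.mul_le_mul_right _ (Nat.pow_le_pow_right (by norm_num) (by omega))
      have hle2 : min (2 ^ (J + 1) * R1) R ≤ 2 * P := by
        rcases le_total (2 ^ J * R1) R with h | h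
        · have : P = 2 ^ J * R1 := min_eq_left h
          rw [this]
          refine (min_le_left _ _).trans (le_of_eq ?_)
          ring
        · have : P = R := min_eq_right h
          rw [this]
          exact (min_le_right _ _).trans (by omega)
      have hsplit : ∑ r ∈ Ioc R1 (min (2 ^ (J + 1) * R1) R), (r : ℝ) ^ (-1 + η) * X r =
          ∑ r ∈ Ioc R1 P, (r : ℝ) ^ (-1 + η) * X r +
          ∑ r ∈ Ioc P (min (2 ^ (J + 1) * R1) R), (r : ℝ) ^ (-1 + η) * X r :=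
        (Finset.sum_Ioc_consecutive _ hRP hle).symm
      have hb : ∑ r ∈ Ioc P (min (2 ^ (J + 1) * R1) R), (r : ℝ) ^ (-1 + η) * X r ≤ 8 * W := by
        refine le_trans ?_ (Dyd_block hX h0 h1 h2 h3 hR1 hS hη hη1 hRP hPR)
        apply Finset.sum_le_sum_of_subset_of_nonneg
        · exact Finset.Ioc_subset_Ioc_right hle2
        · intro r _ _
          exact mul_nonneg (Real.rpow_nonneg (Nat.cast_nonneg r) _) (hX r)
      rw [hsplit]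
      push_cast
      linarith
  have hR0 : 1 ≤ R := hR1.trans hR
  have hR0' : (1 : ℝ) ≤ R := by exact_mod_cast hR0
  have hl2 : 0 < Real.log 2 := Real.log_pos (by norm_num)
  have hk := key (Nat.clog 2 R)
  have hmin : min (2 ^ Nat.clog 2 R * R1) R = R := by
    apply min_eq_right
    calc R ≤ 2 ^ Nat.clog 2 R := Nat.le_pow_clog (by norm_num) R
      _ ≤ 2 ^ Nat.clog 2 R * R1 := Nat.le_mul_of_pos_right _ hR1
  rw [hmin] at hk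
  refine hk.trans ?_
  have hJ : ((Nat.clog 2 R : ℕ) : ℝ) ≤ Real.log R / Real.log 2 + 1 := by
    rcases Nat.lt_or_ge 1 R with h | h
    · have hc : 2 ^ (Nat.clog 2 R - 1) < R := Nat.pow_pred_clog_lt_self (by norm_num) h
      have hc1 : 0 < Nat.clog 2 R := Nat.clog_pos (by norm_num) h
      have : ((2 : ℝ) ^ (Nat.clog 2 R - 1)) ≤ R := by exact_mod_cast hc.le
      have h5 := Real.log_le_log (by positivity) this
      rw [Real.log_pow] at h5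
      have h6 : ((Nat.clog 2 R - 1 : ℕ) : ℝ) ≤ Real.log R / Real.log 2 := by
        rwa [le_div_iff₀ hl2]
      rw [Nat.cast_sub hc1] at h6
      push_cast at h6
      linarith
    · have : R = 1 := by omega
      subst this
      simp
  calc ((Nat.clog 2 R : ℕ) : ℝ) * (8 * W) ≤ (Real.log R / Real.log 2 + 1) * (8 * W) :=
        mul_le_mul_of_nonneg_right hJ (by positivity)
    _ = _ := by ring

end BVL
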