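import Pool.Agent.H17.ZetaB

/-!
# BV / EST: Estermann's inequality (the analytic core of Siegel's theorem)

`W(s) = ζ(s) - 1/(s-1)` is entire (`Pool.Agent.H17.ZB.W`, `W_differentiable`, `W_of_ne`). Put `λ = P(1)`,
`H = W P + dslope P 1`, an entire function (`Differentiable ℂ P`; `dslope P 1` is differentiable:
`Differentiable.dslope`-type lemma `differentiableOn_dslope` / via `Complex.differentiableOn_dslope`), and for `s ≠ 1`:
`H(s) = ζ(s) P(s) - λ/(s-1)`.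
On the circle `‖s-2‖ = 3/2` we have `‖s-1‖ ≥ 1/2`, so `‖H(s)‖ ≤ C_W B + 4B =: B'`, `C_W = max_{‖s-2‖ ≤ 3/2} ‖W‖` (compactness).
Taylor at `2`: `H(s) = ∑_m h_m (2-s)^m`, `h_m = (-1)^m H^{(m)}(2)/m!`, valid for all `s` (`H` entire:
`Complex.hasSum_taylorSeries_of_entire` or `Complex.hasSum_taylorSeries_on_ball` with radius 2). Near `2`, `H = LSeries a - λ/(s-1)`, hence
`h_m = b_m - λ` with `b_m = (-1)^m (LSeries a)^{(m)}(2)/m! ≥ 0` (`LSeries.iteratedDeriv_alternating`, real and nonnegative), `b_0 = ∑ a(n)/n^2 ≥ a(1) = 1`,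
as the `m`-th derivative of `1/(s-1)` at `2` is `(-1)^m m!`. Cauchy (`Complex.norm_iteratedDeriv_le_of_forall_mem_sphere_norm_le`):
`‖h_m‖ ≤ B' (2/3)^m`. For `β ∈ [7/8,1)`: `2-β ≤ 9/8`, `(2/3)(9/8) = 3/4`, so for every `M ≥ 1`
`Re H(β) ≥ ∑_{m<M} (b_m - Re λ)(2-β)^m - B' ∑_{m ≥ M} (3/4)^m ≥ 1 - Re λ ((2-β)^M - 1)/(1-β) - 4B' (3/4)^M`,
and `Re (ζ(β)P(β)) = Re H(β) - Re λ/(1-β) ≥ 1 - Re λ (2-β)^M/(1-β) - 4B'(3/4)^M ≥ 1 - ‖λ‖ (2-β)^M/(1-β) - 4B'(3/4)^M`.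
Choose `M = ⌈4 log(8B')⌉ + 1` (`log(4/3) ≥ 1/4`): `4B'(3/4)^M ≤ 1/2`. `(2-β)^M ≤ e^{(1-β)M} ≤ e^{(1-β)(4 log(8B') + 2)} ≤ e (8B')^{4(1-β)}`
`≤ e (8(C_W+4))^{1/2} B^{4(1-β)}` (`4(1-β) ≤ 1/2`; take `C_W ≥ 1`). If `Re (ζ(β)P(β)) ≤ 0` then `‖λ‖ ≥ (1-β)/(2 (2-β)^M)`.
-/

open Finset
open scoped ComplexOrder

namespace BVL

open Pool.Agent.H17.ZB

/-- the entire function `ζ(s) P(s) - P(1)/(s-1)` -/
noncomputable def est_H (P : ℂ → ℂ) (s : ℂ) : ℂ := W s * P s + dslope P 1 s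

theorem est_H_diff {P : ℂ → ℂ} (hP : Differentiable ℂ P) : Differentiable ℂ (est_H P) := by
  have h1 : Differentiable ℂ (dslope P 1) := by
    rw [← differentiableOn_univ, Complex.differentiableOn_dslope Filter.univ_mem, differentiableOn_univ]
    exact hP
  exact (W_differentiable.mul hP).add h1

theorem est_H_of_ne {P : ℂ → ℂ} {s : ℂ} (hs : s ≠ 1) :
    est_H P s = riemannZeta s * P s - P 1 * (s - 1)⁻¹ := by
  have h := sub_ne_zero.mpr hs
  unfold est_H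
  rw [W_of_ne hs, dslope_of_ne _ hs, slope_def_field]
  field_simp
  ring

theorem est_H_norm {P : ℂ → ℂ} {B C : ℝ} (hB : 0 ≤ B) (hC : ∀ s : ℂ, ‖s - 2‖ ≤ 3 / 2 → ‖W s‖ ≤ C)
    (hP : ∀ s : ℂ, ‖s - 2‖ ≤ 3 / 2 → ‖P s‖ ≤ B) {s : ℂ} (hs : ‖s - 2‖ = 3 / 2) :
    ‖est_H P s‖ ≤ (C + 4) * B := by
  have h1 : 1 / 2 ≤ ‖s - 1‖ := by
    have e : s - 2 = (s - 1) - 1 := by ring
    have := norm_sub_le (s - 1) 1
    rw [← e, hs, norm_one] at this
    linarith
  have hne : s ≠ 1 := by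
    rintro rfl
    rw [sub_self, norm_zero] at h1
    norm_num at h1
  have hP1 : ‖P 1‖ ≤ B := hP 1 (by norm_num)
  have hPs : ‖P s‖ ≤ B := hP s hs.le
  have hWs : ‖W s‖ ≤ C := hC s hs.le
  have h2 : ‖dslope P 1 s‖ ≤ 4 * B := by
    rw [dslope_of_ne _ hne, slope_def_field, norm_div, div_le_iff₀ (by linarith)]
    have := norm_sub_le (P s) (P 1)
    nlinarith
  unfold est_H
  calc ‖W s * P s + dslope P 1 s‖ ≤ ‖W s * P s‖ + ‖dslope P 1 s‖ := norm_add_le _ _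
    _ ≤ C * B + 4 * B := by
        refine add_le_add ?_ h2
        rw [norm_mul]
        exact mul_le_mul hWs hPs (norm_nonneg _) ((norm_nonneg _).trans hWs)
    _ = (C + 4) * B := by ring

theorem est_inv (m : ℕ) : iteratedDeriv m (fun s : ℂ => (s - 1)⁻¹) 2 = (-1) ^ m * (m.factorial : ℂ) := by
  rw [iteratedDeriv_eq_iterate]
  have h := iter_deriv_inv_linear_sub (𝕜 := ℂ) m 1 1
  simp only [one_mul, one_pow, mul_one] at h
  rw [h]
  norm_num

theorem est_coeff {P : ℂ → ℂ} {a : ℕ → ℂ} (hP : Differentiable ℂ P)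
    (hs : ∀ s : ℂ, 1 < s.re → LSeriesSummable a s ∧ LSeries a s = riemannZeta s * P s) (m : ℕ) :
    (-1 : ℂ) ^ m * iteratedDeriv m (est_H P) 2 =
      (-1) ^ m * iteratedDeriv m (LSeries a) 2 - P 1 * (m.factorial : ℂ) := by
  have hev : LSeries a =ᶠ[nhds 2] fun s => est_H P s + P 1 * (s - 1)⁻¹ := by
    have hopen : IsOpen {s : ℂ | 1 < s.re} := isOpen_lt continuous_const Complex.continuous_re
    filter_upwards [hopen.mem_nhds (show (2 : ℂ) ∈ {s : ℂ | 1 < s.re} by simp)] with s hs1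
    have hne : s ≠ 1 := by
      rintro rfl
      simp at hs1
    rw [(hs s hs1).2, est_H_of_ne hne]
    ring
  have e : iteratedDeriv m (LSeries a) 2 =
      iteratedDeriv m (est_H P) 2 + P 1 * ((-1) ^ m * (m.factorial : ℂ)) := by
    rw [hev.iteratedDeriv_eq]
    have c1 : ContDiffAt ℂ m (est_H P) 2 := (est_H_diff hP).contDiff.contDiffAt
    have c2 : ContDiffAt ℂ m (fun s : ℂ => P 1 * (s - 1)⁻¹) 2 := by
      refine contDiffAt_const.mul (ContDiffAt.inv ?_ (by norm_num))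
      exact contDiffAt_id.sub contDiffAt_const
    rw [iteratedDeriv_fun_add c1 c2]
    congr 1
    rw [iteratedDeriv_const_mul_field, est_inv]
  rw [e]
  have h2 : ((-1 : ℂ) ^ m) * (-1) ^ m = 1 := by
    rw [← mul_pow]
    norm_num
  linear_combination -(P 1 * (m.factorial : ℂ)) * h2

theorem est_sum {h : ℕ → ℝ} {r l B S : ℝ} (hr : 1 < r) (hr2 : r ≤ 9 / 8)
    (hsum : HasSum (fun m => h m * r ^ m) S) (h0 : 1 - l ≤ h 0) (hm : ∀ m, -l ≤ h m)
    (hB : ∀ m, |h m| ≤ B * (2 / 3) ^ m) {M : ℕ} (hM : 1 ≤ M) :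
    1 - l * ((r ^ M - 1) / (r - 1)) - 4 * B * (3 / 4) ^ M ≤ S := by
  have hr0 : 0 < r := by linarith
  have hB0 : 0 ≤ B := by
    have := hB 0
    rw [pow_zero, mul_one] at this
    exact (abs_nonneg _).trans this
  have hS := hsum.summable.sum_add_tsum_nat_add M
  rw [hsum.tsum_eq] at hS
  have hfin : 1 - l * ((r ^ M - 1) / (r - 1)) ≤ ∑ m ∈ range M, h m * r ^ m := by
    have hg : ∑ m ∈ range M, r ^ m = (r ^ M - 1) / (r - 1) := geom_sum_eq (by linarith) M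
    rw [← hg]
    obtain ⟨k, rfl⟩ : ∃ k, M = k + 1 := ⟨M - 1, by omega⟩
    rw [Finset.sum_range_succ', Finset.sum_range_succ' (fun m => h m * r ^ m), pow_zero, mul_one]
    have : ∑ i ∈ range k, (-l) * r ^ (i + 1) ≤ ∑ i ∈ range k, h (i + 1) * r ^ (i + 1) :=
      Finset.sum_le_sum fun i _ => mul_le_mul_of_nonneg_right (hm _) (by positivity)
    rw [← Finset.mul_sum] at this
    linarith
  have htail : ‖∑' m, h (m + M) * r ^ (m + M)‖ ≤ 4 * B * (3 / 4) ^ M := by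
    have hgeo : HasSum (fun m : ℕ => (B * (3 / 4) ^ M) * (3 / 4 : ℝ) ^ m) ((B * (3 / 4) ^ M) * (1 - 3 / 4)⁻¹) :=
      (hasSum_geometric_of_lt_one (by norm_num) (by norm_num)).mul_left _
    refine (tsum_of_norm_bounded hgeo fun m => ?_).trans (le_of_eq ?_)
    · rw [norm_mul, Real.norm_eq_abs, Real.norm_eq_abs, abs_of_pos (pow_pos hr0 _)]
      calc |h (m + M)| * r ^ (m + M) ≤ (B * (2 / 3) ^ (m + M)) * (9 / 8) ^ (m + M) := by
            refine mul_le_mul (hB _) (pow_le_pow_left₀ hr0.le hr2 _) (by positivity) (by positivity)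
        _ = B * ((2 / 3) * (9 / 8)) ^ (m + M) := by rw [mul_pow]; ring
        _ = (B * (3 / 4) ^ M) * (3 / 4 : ℝ) ^ m := by
            rw [show (2 / 3 : ℝ) * (9 / 8) = 3 / 4 by norm_num, pow_add]
            ring
    · norm_num
      ring
  have := neg_le_of_abs_le (Real.norm_eq_abs _ ▸ htail)
  linarith

theorem est_choice {B β : ℝ} (hB : 1 ≤ B) (hβ : 7 / 8 ≤ β) (hβ1 : β < 1) :
    ∃ M : ℕ, 1 ≤ M ∧ 4 * B * (3 / 4) ^ M ≤ 1 / 2 ∧ (2 - β) ^ M ≤ Real.exp 1 * (8 * B) ^ (4 * (1 - β)) := by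
  have hlog : 0 ≤ Real.log (8 * B) := Real.log_nonneg (by linarith)
  have h8 : 0 < 8 * B := by linarith
  refine ⟨⌈4 * Real.log (8 * B)⌉₊ + 1, by omega, ?_, ?_⟩
  · have h1 : (3 / 4 : ℝ) ≤ Real.exp (-(1 / 4)) := by
      have := Real.add_one_le_exp (-(1 / 4 : ℝ))
      linarith
    have h2 : 4 * Real.log (8 * B) ≤ ((⌈4 * Real.log (8 * B)⌉₊ + 1 : ℕ) : ℝ) := by
      push_cast
      linarith [Nat.le_ceil (4 * Real.log (8 * B))]
    generalize ⌈4 * Real.log (8 * B)⌉₊ + 1 = M at h2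
    have h3 : (3 / 4 : ℝ) ^ M ≤ (8 * B)⁻¹ := by
      calc (3 / 4 : ℝ) ^ M ≤ Real.exp (-(1 / 4)) ^ M := pow_le_pow_left₀ (by norm_num) h1 _
        _ = Real.exp (M * (-(1 / 4))) := by rw [Real.exp_nat_mul]
        _ ≤ Real.exp (-Real.log (8 * B)) := Real.exp_le_exp.mpr (by linarith)
        _ = (8 * B)⁻¹ := by rw [Real.exp_neg, Real.exp_log h8]
    calc 4 * B * (3 / 4) ^ M ≤ 4 * B * (8 * B)⁻¹ := mul_le_mul_of_nonneg_left h3 (by linarith)
      _ = 1 / 2 := by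
          field_simp
          norm_num
  · have h2 : ((⌈4 * Real.log (8 * B)⌉₊ + 1 : ℕ) : ℝ) ≤ 4 * Real.log (8 * B) + 2 := by
      push_cast
      linarith [(Nat.ceil_lt_add_one (by positivity : 0 ≤ 4 * Real.log (8 * B))).le]
    generalize ⌈4 * Real.log (8 * B)⌉₊ + 1 = M at h2
    have h1 : 2 - β ≤ Real.exp (1 - β) := by
      have := Real.add_one_le_exp (1 - β)
      linarith
    calc (2 - β) ^ M ≤ Real.exp (1 - β) ^ M := pow_le_pow_left₀ (by linarith) h1 _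
      _ = Real.exp (M * (1 - β)) := by rw [Real.exp_nat_mul]
      _ ≤ Real.exp (1 + Real.log (8 * B) * (4 * (1 - β))) := by
          refine Real.exp_le_exp.mpr ?_
          have := mul_le_mul_of_nonneg_right h2 (by linarith : 0 ≤ 1 - β)
          nlinarith
      _ = Real.exp 1 * (8 * B) ^ (4 * (1 - β)) := by
          rw [Real.exp_add, Real.rpow_def_of_pos h8]

theorem est_absc {a : ℕ → ℂ} (h : ∀ s : ℂ, 1 < s.re → LSeriesSummable a s) :
    LSeries.abscissaOfAbsConv a < ((2 : ℝ) : EReal) := by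
  have h1 : LSeries.abscissaOfAbsConv a ≤ ((1 : ℝ) : EReal) :=
    LSeries.abscissaOfAbsConv_le_of_forall_lt_LSeriesSummable fun y hy => h y (by simpa using hy)
  exact h1.trans_lt (by exact_mod_cast one_lt_two)

theorem est_b0 {a : ℕ → ℂ} (ha : ∀ n, 0 ≤ a n) (ha1 : a 1 = 1) (h : LSeriesSummable a 2) :
    1 ≤ (LSeries a 2).re := by
  have h2 : (1 : ℂ) ≤ LSeries a 2 := by
    have e : LSeries.term a 2 1 = 1 := by
      rw [LSeries.term_def]
      simp [ha1]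
    have hnn : ∀ n, 0 ≤ LSeries.term a 2 n := fun n => by
      have := LSeries.term_nonneg (ha n) (2 : ℝ)
      simpa using this
    rw [← e, LSeries]
    exact Summable.le_tsum h 1 fun j _ => hnn j
  have := (Complex.le_def.mp h2).1
  simpa using this

theorem est_main {P : ℂ → ℂ} {a : ℕ → ℂ} {B C β : ℝ} (hB : 0 ≤ B) (hP : Differentiable ℂ P)
    (ha : ∀ n, 0 ≤ a n) (ha1 : a 1 = 1)
    (hs : ∀ s : ℂ, 1 < s.re → LSeriesSummable a s ∧ LSeries a s = riemannZeta s * P s)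
    (hC : ∀ s : ℂ, ‖s - 2‖ ≤ 3 / 2 → ‖W s‖ ≤ C)
    (hPB : ∀ s : ℂ, ‖s - 2‖ ≤ 3 / 2 → ‖P s‖ ≤ B) (hβ : 7 / 8 ≤ β) (hβ1 : β < 1) {M : ℕ} (hM : 1 ≤ M) :
    1 - (P 1).re * ((2 - β) ^ M / (1 - β)) - 4 * ((C + 4) * B) * (3 / 4) ^ M ≤ (riemannZeta β * P β).re := by
  -- the coefficients
  have habs := est_absc (fun s h => (hs s h).1)
  have hb : ∀ m : ℕ, 0 ≤ ((-1 : ℂ) ^ m * iteratedDeriv m (LSeries a) 2).re := by
    intro m
    have h := LSeries.iteratedDeriv_alternating (fun n => ha n) habs m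
    have h' := (Complex.le_def.mp h).1
    simpa using h'
  have hfac : ∀ m : ℕ, (0 : ℝ) < (m.factorial : ℝ) := fun m => by exact_mod_cast m.factorial_pos
  set h : ℕ → ℂ := fun m => ((m.factorial : ℝ) : ℂ)⁻¹ * ((-1) ^ m * iteratedDeriv m (est_H P) 2) with hdef
  have hre : ∀ m, (h m).re = (m.factorial : ℝ)⁻¹ * ((-1 : ℂ) ^ m * iteratedDeriv m (LSeries a) 2).re - (P 1).re := by
    intro m
    rw [hdef]
    show (((m.factorial : ℝ) : ℂ)⁻¹ * ((-1) ^ m * iteratedDeriv m (est_H P) 2)).re = _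
    rw [est_coeff hP hs m, ← Complex.ofReal_inv, Complex.re_ofReal_mul, Complex.sub_re]
    have e : (P 1 * (m.factorial : ℂ)).re = (P 1).re * (m.factorial : ℝ) := by
      rw [← Complex.ofReal_natCast, Complex.re_mul_ofReal]
    rw [e]
    have := (hfac m).ne'
    field_simp
  have hnorm : ∀ m, ‖h m‖ ≤ ((C + 4) * B) * (2 / 3) ^ m := by
    intro m
    have hc := Complex.norm_iteratedDeriv_le_of_forall_mem_sphere_norm_le m (by norm_num : (0 : ℝ) < 3 / 2)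
      ((est_H_diff hP).diffContOnCl (s := Metric.ball (2 : ℂ) (3 / 2)))
      (fun z hz => est_H_norm hB hC hPB (mem_sphere_iff_norm.mp hz))
    show ‖((m.factorial : ℝ) : ℂ)⁻¹ * ((-1) ^ m * iteratedDeriv m (est_H P) 2)‖ ≤ _
    rw [norm_mul, norm_mul, norm_pow, norm_neg, norm_one, one_pow, one_mul, norm_inv, Complex.norm_real,
      Real.norm_eq_abs, abs_of_pos (hfac m)]
    calc (m.factorial : ℝ)⁻¹ * ‖iteratedDeriv m (est_H P) 2‖ ≤
          (m.factorial : ℝ)⁻¹ * (m.factorial * ((C + 4) * B) / (3 / 2) ^ m) :=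
            mul_le_mul_of_nonneg_left hc (inv_nonneg.mpr (hfac m).le)
      _ = ((C + 4) * B) * (2 / 3) ^ m := by
          have := (hfac m).ne'
          rw [show (2 / 3 : ℝ) = (3 / 2)⁻¹ by norm_num, inv_pow]
          field_simp
  have hsum : HasSum (fun m => (h m).re * (2 - β) ^ m) ((est_H P β).re) := by
    have h1 := Complex.hasSum_taylorSeries_of_entire (est_H_diff hP) 2 (β : ℂ)
    have h2 := Complex.hasSum_re h1
    refine h2.congr_fun ?_
    intro m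
    show (h m).re * (2 - β) ^ m = _
    have e1 : ((β : ℂ) - 2) ^ m = (-1) ^ m * (((2 - β) ^ m : ℝ) : ℂ) := by
      push_cast
      rw [← mul_pow]
      congr 1
      ring
    have e2 : ((m.factorial : ℂ)⁻¹ • ((β : ℂ) - 2) ^ m • iteratedDeriv m (est_H P) 2) =
        h m * (((2 - β) ^ m : ℝ) : ℂ) := by
      rw [e1, hdef]
      simp only [smul_eq_mul]
      push_cast
      ring
    rw [e2, Complex.re_mul_ofReal]
  have hmain := est_sum (r := 2 - β) (l := (P 1).re) (B := (C + 4) * B) (by linarith) (by linarith) hsum ?_ ?_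
    (fun m => (Complex.abs_re_le_norm _).trans (hnorm m)) hM
  · have hne : (β : ℂ) ≠ 1 := by
      intro hcon
      have : β = 1 := by exact_mod_cast hcon
      linarith
    have hb1 : 1 - β ≠ 0 := by linarith
    have e : (est_H P β).re = (riemannZeta β * P β).re + (P 1).re / (1 - β) := by
      rw [est_H_of_ne hne, Complex.sub_re]
      have e3 : (P 1 * ((β : ℂ) - 1)⁻¹) = P 1 * ((((β - 1)⁻¹ : ℝ)) : ℂ) := by push_cast; rfl
      rw [e3, Complex.re_mul_ofReal]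
      have hb2 : β - 1 ≠ 0 := by linarith
      have : (β - 1)⁻¹ = -(1 / (1 - β)) := by
        field_simp
        ring
      rw [this]
      ring
    rw [e] at hmain
    have e4 : (2 - β) - 1 = 1 - β := by ring
    rw [e4] at hmain
    have e5 : (P 1).re * ((2 - β) ^ M / (1 - β)) =
        (P 1).re * (((2 - β) ^ M - 1) / (1 - β)) + (P 1).re / (1 - β) := by
      field_simp
      ring
    rw [e5]
    linarith
  · rw [hre 0]
    have := est_b0 ha ha1 (hs 2 (by norm_num)).1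
    simp only [Nat.factorial_zero, Nat.cast_one, inv_one, pow_zero, iteratedDeriv_zero, one_mul]
    linarith
  · intro m
    rw [hre m]
    have := mul_nonneg (inv_nonneg.mpr (hfac m).le) (hb m)
    linarith

theorem est : ∃ c : ℝ, 0 < c ∧ ∀ (P : ℂ → ℂ) (a : ℕ → ℂ) (B : ℝ), Differentiable ℂ P → (∀ n, 0 ≤ a n) → a 1 = 1 →
    (∀ s : ℂ, 1 < s.re → LSeriesSummable a s ∧ LSeries a s = riemannZeta s * P s) → 1 ≤ B →
    (∀ s : ℂ, ‖s - 2‖ ≤ 3 / 2 → ‖P s‖ ≤ B) → ∀ β : ℝ, 7 / 8 ≤ β → β < 1 → (riemannZeta β * P β).re ≤ 0 →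
    c * (1 - β) * B ^ (-(4 * (1 - β))) ≤ ‖P 1‖ := by
  obtain ⟨C0, hC0⟩ : ∃ C : ℝ, ∀ s ∈ Metric.closedBall (2 : ℂ) (3 / 2), ‖W s‖ ≤ C :=
    (isCompact_closedBall (2 : ℂ) (3 / 2)).exists_bound_of_continuousOn W_differentiable.continuous.continuousOn
  obtain ⟨C, hC1, hC⟩ : ∃ C : ℝ, 0 ≤ C ∧ ∀ s : ℂ, ‖s - 2‖ ≤ 3 / 2 → ‖W s‖ ≤ C :=
    ⟨max C0 0, le_max_right _ _, fun s hs => (hC0 s (mem_closedBall_iff_norm.mpr hs)).trans (le_max_left _ _)⟩
  refine ⟨1 / (2 * Real.exp 1 * (8 * (C + 4))), by positivity, ?_⟩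
  intro P a B hP ha ha1 hs hB hPB β hβ hβ1 hneg
  have hB0 : 0 < B := by linarith
  have hB' : 1 ≤ (C + 4) * B := by nlinarith
  obtain ⟨M, hM1, hM2, hM3⟩ := est_choice hB' hβ hβ1
  have hm := est_main hB0.le hP ha ha1 hs hC hPB hβ hβ1 hM1
  have h1b : 0 < 1 - β := by linarith
  have hr : 0 < (2 - β) ^ M := pow_pos (by linarith) M
  have h1 : 1 / 2 ≤ (P 1).re * ((2 - β) ^ M / (1 - β)) := by linarith
  have h2 : (1 - β) / 2 ≤ (P 1).re * (2 - β) ^ M := by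
    rw [← mul_div_assoc, le_div_iff₀ h1b] at h1
    linarith
  have h3 : (P 1).re ≤ ‖P 1‖ := Complex.re_le_norm _
  have h4 : (2 - β) ^ M ≤ Real.exp 1 * ((8 * (C + 4)) * B ^ (4 * (1 - β))) := by
    refine hM3.trans (mul_le_mul_of_nonneg_left ?_ (Real.exp_pos 1).le)
    rw [show 8 * ((C + 4) * B) = (8 * (C + 4)) * B by ring, Real.mul_rpow (by positivity) hB0.le]
    refine mul_le_mul_of_nonneg_right ?_ (by positivity)
    calc (8 * (C + 4)) ^ (4 * (1 - β)) ≤ (8 * (C + 4)) ^ (1 : ℝ) :=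
          Real.rpow_le_rpow_of_exponent_le (by linarith) (by linarith)
      _ = 8 * (C + 4) := Real.rpow_one _
  have hBt : 0 < B ^ (4 * (1 - β)) := Real.rpow_pos_of_pos hB0 _
  rw [Real.rpow_neg hB0.le]
  have h5 : (1 - β) / 2 ≤ ‖P 1‖ * (Real.exp 1 * ((8 * (C + 4)) * B ^ (4 * (1 - β)))) :=
    h2.trans ((mul_le_mul_of_nonneg_right h3 hr.le).trans (mul_le_mul_of_nonneg_left h4 (norm_nonneg _)))
  have he : 0 < Real.exp 1 := Real.exp_pos 1
  have hC4 : 0 < C + 4 := by linarith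
  rw [show 1 / (2 * Real.exp 1 * (8 * (C + 4))) * (1 - β) * (B ^ (4 * (1 - β)))⁻¹ =
    (1 - β) / 2 / (Real.exp 1 * ((8 * (C + 4)) * B ^ (4 * (1 - β)))) by field_simp]
  rw [div_le_iff₀ (by positivity)]
  exact h5

end BVL
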