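import Pool.Agent.H17.ZetaB

/-!
# BV / L0U: upper bound for the principal character modulo `q`

`L(s,χ0) = ζ(s) ∏_{p ∣ q} (1 - p^{-s})` (`DirichletCharacter.LFunctionTrivChar_eq_mul_riemannZeta`; `LFunctionTrivChar q` is by
definition `LFunction (1 : DirichletCharacter ℂ q)`). For `Re s > 1`: `‖1 - p^{-s}‖ ≤ 1 + 1/p`, and
`∏_{p ∣ q} (1 + 1/p) = ∑_{d ∣ rad q} 1/d ≤ ∑_{d ≤ q} 1/d ≤ 1 + log q ≤ 2 L` (`Finset.prod_add_one` / `Finset.prod_one_add`:
the sum over subsets `T` of `q.primeFactors` of `1/∏ T`; `T ↦ ∏ T` is injective into `Icc 1 q`; `L ≥ log 3 ≥ 1`, `q ≤ e^L`).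
`ζ(s) = W(s) + 1/(s-1)`, `|W(s)| ≤ 15 log(|t|+3) ≤ 15 L` (`Pool.Agent.H17.ZB.W_bound`, `W_of_ne`), `|s-1| ≥ |t|`.
-/

open Finset

namespace BVL

open DirichletCharacter

lemma L0u_primes_prod {T : Finset ℕ} (hT : ∀ p ∈ T, p.Prime) : (∏ p ∈ T, p).primeFactors = T :=
  Nat.primeFactors_prod hT

lemma L0u_prod {q : ℕ} (hq : q ≠ 0) :
    ∏ p ∈ q.primeFactors, (1 + 1 / (p : ℝ)) ≤ 1 + Real.log q := by
  rw [Finset.prod_one_add]
  have h1 : ∑ T ∈ q.primeFactors.powerset, ∏ p ∈ T, (1 / (p : ℝ)) = ∑ T ∈ q.primeFactors.powerset, (((∏ p ∈ T, p : ℕ) : ℝ))⁻¹ := by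
    apply Finset.sum_congr rfl
    intro T _
    rw [Nat.cast_prod, ← Finset.prod_inv_distrib]
    simp
  rw [h1]
  have hinj : Set.InjOn (fun T : Finset ℕ => ∏ p ∈ T, p) (q.primeFactors.powerset : Set (Finset ℕ)) := by
    intro T hT T' hT' h
    have hT1 : ∀ p ∈ T, p.Prime := fun p hp => Nat.prime_of_mem_primeFactors (Finset.mem_powerset.1 (Finset.mem_coe.1 hT) hp)
    have hT2 : ∀ p ∈ T', p.Prime := fun p hp => Nat.prime_of_mem_primeFactors (Finset.mem_powerset.1 (Finset.mem_coe.1 hT') hp)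
    rw [← L0u_primes_prod hT1, ← L0u_primes_prod hT2]
    exact congrArg Nat.primeFactors h
  have h2 : ∑ T ∈ q.primeFactors.powerset, (((∏ p ∈ T, p : ℕ) : ℝ))⁻¹
      = ∑ d ∈ q.primeFactors.powerset.image (fun T : Finset ℕ => ∏ p ∈ T, p), ((d : ℝ))⁻¹ := by
    rw [Finset.sum_image hinj]
  rw [h2]
  have h3 : q.primeFactors.powerset.image (fun T : Finset ℕ => ∏ p ∈ T, p) ⊆ Finset.Icc 1 q := by
    intro d hd
    rw [Finset.mem_image] at hd
    obtain ⟨T, hT, rfl⟩ := hd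
    rw [Finset.mem_powerset] at hT
    have hdvd : ∏ p ∈ T, p ∣ q := by
      have := Finset.prod_dvd_prod_of_subset T q.primeFactors (fun p => p) hT
      exact this.trans (Nat.prod_primeFactors_dvd q)
    rw [Finset.mem_Icc]
    exact ⟨Nat.pos_of_dvd_of_pos hdvd (Nat.pos_of_ne_zero hq), Nat.le_of_dvd (Nat.pos_of_ne_zero hq) hdvd⟩
  have h4 : ∑ d ∈ q.primeFactors.powerset.image (fun T : Finset ℕ => ∏ p ∈ T, p), ((d : ℝ))⁻¹
      ≤ ∑ d ∈ Finset.Icc 1 q, ((d : ℝ))⁻¹ :=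
    Finset.sum_le_sum_of_subset_of_nonneg h3 (fun i _ _ => by positivity)
  refine h4.trans ?_
  have h5 := harmonic_le_one_add_log q
  rw [harmonic_eq_sum_Icc] at h5
  push_cast at h5
  exact h5

theorem L0u {q : ℕ} [NeZero q] {s : ℂ} {L : ℝ} (hL : (q : ℝ) * (|s.im| + 3) ≤ Real.exp L) (h1 : 1 < s.re)
    (h2 : s.re ≤ 2) (h3 : s.im ≠ 0) :
    ‖LFunction (1 : DirichletCharacter ℂ q) s‖ ≤ 2 * L * (1 / |s.im| + 15 * L) := by
  have hq : q ≠ 0 := NeZero.ne q
  have hq1 : (1 : ℝ) ≤ q := by exact_mod_cast Nat.one_le_iff_ne_zero.2 hq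
  have hs1 : s ≠ 1 := by
    intro h
    rw [h] at h1
    simp at h1
  have ht : 0 < |s.im| := abs_pos.2 h3
  have he : Real.log (|s.im| + 3) ≤ L := by
    rw [Real.log_le_iff_le_exp (by positivity)]
    refine le_trans ?_ hL
    nlinarith
  have he1 : 1 ≤ Real.log (|s.im| + 3) := Pool.Agent.H17.ZB.LL_ge_one s.im
  have hlq : Real.log q ≤ L := by
    rw [Real.log_le_iff_le_exp (by positivity)]
    refine le_trans ?_ hL
    nlinarith
  have hL1 : 1 ≤ L := he1.trans he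
  have hA : LFunction (1 : DirichletCharacter ℂ q) s = (∏ p ∈ q.primeFactors, (1 - (p : ℂ) ^ (-s))) * riemannZeta s :=
    LFunctionTrivChar_eq_mul_riemannZeta hs1
  rw [hA, norm_mul]
  have hP : ‖∏ p ∈ q.primeFactors, (1 - (p : ℂ) ^ (-s))‖ ≤ 2 * L := by
    rw [norm_prod]
    calc ∏ p ∈ q.primeFactors, ‖1 - (p : ℂ) ^ (-s)‖ ≤ ∏ p ∈ q.primeFactors, (1 + 1 / (p : ℝ)) := by
          apply Finset.prod_le_prod (fun _ _ => norm_nonneg _)
          intro p hp
          have hp0 : 0 < p := (Nat.prime_of_mem_primeFactors hp).pos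
          have hp0' : (0 : ℝ) < p := by exact_mod_cast hp0
          have hp1 : (1 : ℝ) ≤ p := by exact_mod_cast hp0
          refine (norm_sub_le _ _).trans ?_
          rw [norm_one]
          have h6 : ‖(p : ℂ) ^ (-s)‖ ≤ 1 / (p : ℝ) := by
            rw [← Complex.ofReal_natCast, Complex.norm_cpow_eq_rpow_re_of_pos hp0', Complex.neg_re, Real.rpow_neg hp0'.le,
              one_div]
            apply inv_anti₀ hp0'
            calc (p : ℝ) = (p : ℝ) ^ (1 : ℝ) := (Real.rpow_one _).symm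
              _ ≤ (p : ℝ) ^ s.re := Real.rpow_le_rpow_of_exponent_le hp1 h1.le
          linarith
      _ ≤ 1 + Real.log q := L0u_prod hq
      _ ≤ 2 * L := by linarith
  have hZ : ‖riemannZeta s‖ ≤ 1 / |s.im| + 15 * L := by
    have hW := Pool.Agent.H17.ZB.W_of_ne hs1
    have hWb := Pool.Agent.H17.ZB.W_bound (s := s) (by
      have : 0 < 1 / (2 * Pool.Agent.H17.ZB.LL s.im) := by
        have := Pool.Agent.H17.ZB.LL_pos s.im
        positivity
      linarith) (by linarith)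
    have e : riemannZeta s = 1 / (s - 1) + Pool.Agent.H17.ZB.W s := by
      rw [hW]; ring
    rw [e]
    refine (norm_add_le _ _).trans ?_
    have h7 : ‖1 / (s - 1)‖ ≤ 1 / |s.im| := by
      rw [norm_div, norm_one]
      apply one_div_le_one_div_of_le ht
      have := Complex.abs_im_le_norm (s - 1)
      simpa using this
    have h8 : ‖Pool.Agent.H17.ZB.W s‖ ≤ 15 * L := by
      refine hWb.trans ?_
      have : Pool.Agent.H17.ZB.LL s.im ≤ L := he
      linarith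
    linarith
  calc ‖∏ p ∈ q.primeFactors, (1 - (p : ℂ) ^ (-s))‖ * ‖riemannZeta s‖ ≤ (2 * L) * (1 / |s.im| + 15 * L) := by
        gcongr
    _ = 2 * L * (1 / |s.im| + 15 * L) := by ring

end BVL
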