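import Pool.Agent.H17.BV.T2b
import Pool.Agent.H69.LB.Vau

/-!
# BV / T2: the type II sum of Vaughan's identity, with the maximum over `y` inside (from T2B)

`a m = Λ(m)` (`≤ log m ≤ log(2N)`), `b k = betaV V k` (`|betaV V k| ≤ τ(k)`: `betaV_abs_le`; `= 0` for `k ≤ V`: `betaV_eq_zero`).
For `y ≤ N` and `m > y` the inner sum is empty, so `∑_{m ∈ Ioc U y} = ∑_{m ∈ Ioc U (2^J U)}` with `2^J U ≥ N` (`J = Nat.clog 2 N ≤ 2 log N + 1`-ish, `2^J ≥ N`), and
`Ioc U (2^J U)` is the disjoint union of the blocks `Ioc (2^j U) (2^{j+1} U)`, `j < J`. Blocks with `2^j U * V ≥ N`: for `m > 2^j U` we have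
`y/m ≤ N/m < V + ...`: `k ≤ y/m` gives `k m ≤ N ≤ 2^j U V < m V`, so `k < V` and the block vanishes. For the other blocks `M1 = 2^j U` satisfies
`U ≤ M1 ≤ N/V ≤ N`: T2B, `√N √M1 ≤ N/√V`, `√N √(N/M1) ≤ N/√U`. `mx_sum_le`-type triangle inequality, number of blocks `≤ C log N`: total exponent 7.
-/

open Finset H69LB

namespace BVL

theorem t2_blocks (g : ℕ → ℂ) (U J : ℕ) :
    ∑ m ∈ Ioc U (2 ^ J * U), g m = ∑ j ∈ range J, ∑ m ∈ Ioc (2 ^ j * U) (2 * (2 ^ j * U)), g m := by
  induction J with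
  | zero => simp
  | succ J ih =>
    rw [sum_range_succ, ← ih, pow_succ]
    have e : 2 ^ J * 2 * U = 2 * (2 ^ J * U) := by ring
    rw [e]
    exact (sum_Ioc_consecutive g (Nat.le_mul_of_pos_left U (by positivity))
      (Nat.le_mul_of_pos_left _ (by norm_num))).symm

theorem t2_J {N : ℕ} (hN : 2 ≤ N) : (Nat.clog 2 N : ℝ) ≤ 4 * Real.log N := by
  have h1 : 2 ^ (Nat.clog 2 N).pred < N := Nat.pow_pred_clog_lt_self (by norm_num) (by omega)
  have h0 : 0 < Nat.clog 2 N := Nat.clog_pos (by norm_num) hN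
  have hL2 : (1 / 2 : ℝ) ≤ Real.log 2 := by linarith [Real.log_two_gt_d9]
  have hN' : (2 : ℝ) ≤ N := by exact_mod_cast hN
  have h2 : ((Nat.clog 2 N).pred : ℝ) * Real.log 2 ≤ Real.log N := by
    rw [← Real.log_pow]
    refine Real.log_le_log (by positivity) ?_
    exact_mod_cast h1.le
  have h3 : Real.log 2 ≤ Real.log N := Real.log_le_log (by norm_num) hN'
  have h4 : ((Nat.clog 2 N).pred : ℝ) = (Nat.clog 2 N : ℝ) - 1 := by
    rw [Nat.pred_eq_sub_one, Nat.cast_sub h0]
    simp
  rw [h4] at h2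
  have h5 : (1 : ℝ) ≤ Nat.clog 2 N := by exact_mod_cast h0
  nlinarith

theorem t2 : ∃ C : ℝ, 0 ≤ C ∧ ∀ N Q U V : ℕ, 2 ≤ N → 1 ≤ U → 1 ≤ V →
    ∑ q ∈ Icc 1 Q, ∑ χ ∈ pc q, mx N (fun y => ‖∑ m ∈ Ioc U y, (ArithmeticFunction.vonMangoldt m : ℂ) *
        ∑ k ∈ Icc 1 (y / m), (betaV V k : ℂ) * χ ((m * k : ℕ) : ZMod q)‖)
      ≤ C * Real.log N ^ 7 * (N + Q * N * (1 / √U + 1 / √V) + Q ^ 2 * √N) := by
  obtain ⟨C, hC, hb⟩ := t2b
  refine ⟨4 * C, by positivity, ?_⟩
  intro N Q U V hN hU hV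
  set J := Nat.clog 2 N with hJ
  have hJN : N ≤ 2 ^ J := Nat.le_pow_clog (by norm_num) N
  have hN' : (2 : ℝ) ≤ N := by exact_mod_cast hN
  have hL0 : 0 ≤ Real.log N := Real.log_nonneg (by linarith)
  set B : ℝ := C * Real.log N ^ 6 * (N + Q * N * (1 / √U + 1 / √V) + Q ^ 2 * √N) with hB
  have hB0 : 0 ≤ B := by positivity
  -- the blocks
  let blk : (q : ℕ) → DirichletCharacter ℂ q → ℕ → ℕ → ℝ := fun q χ j y =>
    ‖∑ m ∈ Ioc (2 ^ j * U) (2 * (2 ^ j * U)), ∑ k ∈ Icc 1 (y / m),
      (ArithmeticFunction.vonMangoldt m : ℂ) * (betaV V k : ℂ) * χ ((m * k : ℕ) : ZMod q)‖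
  have h1 : ∀ (q : ℕ) (χ : DirichletCharacter ℂ q),
      mx N (fun y => ‖∑ m ∈ Ioc U y, (ArithmeticFunction.vonMangoldt m : ℂ) *
        ∑ k ∈ Icc 1 (y / m), (betaV V k : ℂ) * χ ((m * k : ℕ) : ZMod q)‖) ≤
      ∑ j ∈ range J, mx N (blk q χ j) := by
    intro q χ
    refine (mx_mono ?_).trans (mx_sum_le (range J) N (blk q χ))
    intro y hy
    have e1 : ∑ m ∈ Ioc U y, (ArithmeticFunction.vonMangoldt m : ℂ) *
        ∑ k ∈ Icc 1 (y / m), (betaV V k : ℂ) * χ ((m * k : ℕ) : ZMod q) =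
        ∑ m ∈ Ioc U (2 ^ J * U), (ArithmeticFunction.vonMangoldt m : ℂ) *
        ∑ k ∈ Icc 1 (y / m), (betaV V k : ℂ) * χ ((m * k : ℕ) : ZMod q) := by
      refine sum_subset ?_ ?_
      · refine Ioc_subset_Ioc_right ?_
        exact (hy.trans hJN).trans (Nat.le_mul_of_pos_right _ hU)
      · intro m hm hm'
        rw [mem_Ioc] at hm hm'
        have h2 : y < m := by
          by_contra h
          exact hm' ⟨hm.1, by omega⟩
        rw [Nat.div_eq_of_lt h2]
        simp
    rw [e1, t2_blocks]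
    refine (norm_sum_le _ _).trans (le_of_eq ?_)
    refine sum_congr rfl fun j _ => ?_
    simp only [blk]
    congr 1
    refine sum_congr rfl fun m _ => ?_
    rw [mul_sum]
    refine sum_congr rfl fun k _ => ?_
    ring
  -- each block
  have h2 : ∀ j, ∑ q ∈ Icc 1 Q, ∑ χ ∈ pc q, mx N (blk q χ j) ≤ B := by
    intro j
    set M := 2 ^ j * U with hM
    have hM1 : 1 ≤ M := Nat.mul_pos (by positivity) hU
    by_cases hc : N ≤ M * V
    · have h3 : ∀ (q : ℕ) (χ : DirichletCharacter ℂ q), mx N (blk q χ j) ≤ 0 := by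
        intro q χ
        refine mx_le fun y hy => ?_
        refine le_of_eq ?_
        simp only [blk]
        rw [norm_eq_zero]
        refine sum_eq_zero fun m hm => sum_eq_zero fun k hk => ?_
        rw [mem_Ioc] at hm
        rw [mem_Icc] at hk
        have h4 : k * m ≤ y := (Nat.le_div_iff_mul_le (by omega)).1 hk.2
        have h5 : k ≤ V := by
          by_contra h
          have h6 : M * V < m * V := Nat.mul_lt_mul_of_pos_right hm.1 hV
          have h7 : m * V ≤ k * m := by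
            rw [mul_comm k m]
            exact Nat.mul_le_mul_left m (by omega)
          omega
        rw [betaV_eq_zero h5]
        simp
      refine (sum_le_sum fun q _ => sum_le_sum fun χ _ => h3 q χ).trans ?_
      simpa using hB0
    · have hc' : M * V < N := by omega
      have hMN : M ≤ N := (Nat.le_mul_of_pos_right M hV).trans hc'.le
      have h3 := hb N Q M hN hM1 hMN (fun m => (ArithmeticFunction.vonMangoldt m : ℂ))
        (fun k => (betaV V k : ℂ)) (by
          intro m hm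
          rw [Complex.norm_real, Real.norm_of_nonneg ArithmeticFunction.vonMangoldt_nonneg]
          refine ArithmeticFunction.vonMangoldt_le_log.trans ?_
          rcases Nat.eq_zero_or_pos m with h | h
          · rw [h]
            simp only [CharP.cast_eq_zero, Real.log_zero]
            refine Real.log_nonneg ?_
            linarith
          · refine Real.log_le_log (by exact_mod_cast h) ?_
            exact_mod_cast hm) (by
          intro k
          rw [Complex.norm_real, Real.norm_eq_abs]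
          exact betaV_abs_le V k)
      refine h3.trans ?_
      rw [hB]
      refine mul_le_mul_of_nonneg_left ?_ (by positivity)
      have hM0 : (0 : ℝ) < M := by exact_mod_cast hM1
      have hU0 : (0 : ℝ) < U := by exact_mod_cast hU
      have hV0 : (0 : ℝ) < V := by exact_mod_cast hV
      have hN0 : (0 : ℝ) < N := by linarith
      have sN : √(N : ℝ) * √N = N := Real.mul_self_sqrt hN0.le
      have a1 : √(N : ℝ) * √M ≤ N * (1 / √V) := by
        have h4 : √(M : ℝ) * √V ≤ √N := by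
          rw [← Real.sqrt_mul hM0.le]
          refine Real.sqrt_le_sqrt ?_
          exact_mod_cast hc'.le
        have h5 : 0 < √(V : ℝ) := Real.sqrt_pos.2 hV0
        rw [mul_one_div, le_div_iff₀ h5]
        calc √(N : ℝ) * √M * √V = √N * (√M * √V) := by ring
          _ ≤ √N * √N := mul_le_mul_of_nonneg_left h4 (Real.sqrt_nonneg _)
          _ = N := sN
      have a2 : √(N : ℝ) * √((N : ℝ) / M) ≤ N * (1 / √U) := by
        have h4 : √((N : ℝ) / M) ≤ √((N : ℝ) / U) := by
          refine Real.sqrt_le_sqrt ?_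
          refine div_le_div_of_nonneg_left hN0.le hU0 ?_
          have : U ≤ M := Nat.le_mul_of_pos_left U (by positivity)
          exact_mod_cast this
        have h5 : √((N : ℝ) / U) = √N / √U := Real.sqrt_div hN0.le _
        calc √(N : ℝ) * √((N : ℝ) / M) ≤ √N * (√N / √U) := by
              rw [← h5]
              exact mul_le_mul_of_nonneg_left h4 (Real.sqrt_nonneg _)
          _ = (√N * √N) * (1 / √U) := by ring
          _ = N * (1 / √U) := by rw [sN]
      have a3 : (Q : ℝ) * √N * (√M + √((N : ℝ) / M)) ≤ Q * N * (1 / √U + 1 / √V) := by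
        calc (Q : ℝ) * √N * (√M + √((N : ℝ) / M)) = Q * (√N * √M + √N * √((N : ℝ) / M)) := by ring
          _ ≤ Q * (N * (1 / √V) + N * (1 / √U)) :=
            mul_le_mul_of_nonneg_left (add_le_add a1 a2) (by positivity)
          _ = _ := by ring
      linarith
  calc _ ≤ ∑ q ∈ Icc 1 Q, ∑ χ ∈ pc q, ∑ j ∈ range J, mx N (blk q χ j) :=
        sum_le_sum fun q _ => sum_le_sum fun χ _ => h1 q χ
    _ = ∑ j ∈ range J, ∑ q ∈ Icc 1 Q, ∑ χ ∈ pc q, mx N (blk q χ j) := by
        rw [sum_comm (s := range J)]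
        exact sum_congr rfl fun q _ => sum_comm
    _ ≤ ∑ _j ∈ range J, B := sum_le_sum fun j _ => h2 j
    _ = J * B := by simp
    _ ≤ (4 * Real.log N) * B := mul_le_mul_of_nonneg_right (t2_J hN) hB0
    _ = _ := by rw [hB]; ring

end BVL
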