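import Pool.Agent.H17.BV.T1
import Pool.Agent.H17.BV.T2
import Pool.Agent.H17.QPNT

/-!
# BV / LC: mean value theorem for `max_y |ψ(y,χ)|` over primitive characters (from T1, T2, Vaughan's identity)

`χ ∈ pc q` (primitive, `≠ 1`), `y ≤ N`, `g n = χ n [n > U]`. `ψ(y,χ) = ∑_{n ≤ min(y,U)} Λ(n)χ(n) + ∑_{n ≤ y} Λ(n) g(n)`; first part `≤ ψ(U) ≤ 6U`
(`Pool.Agent.H17.ZB.psi_le_six`). Second part: `vaughan U V y g` (`g n = 0` for `n ≤ U`) `=` type I part (T1, `≤ 4qV log N + 2qUV log(UV)`) `+`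
`∑_{m ∈ Ioc U y} Λ(m) ∑_{k ≤ y/m} betaV V k g(mk)`, and `g(mk) = χ(mk)` as `mk > U`. Take the maximum over `y ≤ N` and sum over `χ ∈ pc q`
(`|pc q| ≤ q`: `H69LB.card_pc_le` in H69/LB/Co3.lean, or `φ(q)` characters) and `q ≤ Q`:
`∑_q q (6U + 4 q V log N + 2 q U V log N) ≤ 12 Q^3 U V log N / log 2`-type bound (`log(UV) ≤ log N` as `UV ≤ N`; `∑_{q ≤ Q} q^2 ≤ Q^3`), plus T2.
-/

open Finset H69LB

namespace BVL

/-- The number of primitive characters. -/
theorem lc_card_pc (q : ℕ) (hq : 1 ≤ q) : (pc q).card ≤ q := by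
  classical
  have : NeZero q := ⟨by omega⟩
  calc (pc q).card ≤ (univ : Finset (DirichletCharacter ℂ q)).card := card_le_card (subset_univ _)
    _ = Nat.card (DirichletCharacter ℂ q) := by rw [card_univ, Nat.card_eq_fintype_card]
    _ = q.totient := DirichletCharacter.card_eq_totient_of_hasEnoughRootsOfUnity ℂ q
    _ ≤ q := Nat.totient_le q

/-- The small part of `ψ(y, χ)`. -/
theorem lc_small {q : ℕ} (χ : DirichletCharacter ℂ q) (U y : ℕ) :
    ‖∑ n ∈ Icc 1 y, (ArithmeticFunction.vonMangoldt n : ℂ) *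
      (if U < n then 0 else χ (n : ZMod q))‖ ≤ 6 * U := by
  have h1 : ∀ n ∈ Icc 1 y, ‖(ArithmeticFunction.vonMangoldt n : ℂ) *
      (if U < n then 0 else χ (n : ZMod q))‖ ≤ if n ≤ U then ArithmeticFunction.vonMangoldt n else 0 := by
    intro n _
    by_cases h : U < n
    · rw [if_pos h, if_neg (not_le.2 h), mul_zero, norm_zero]
    · rw [if_neg h, if_pos (not_lt.1 h), norm_mul, Complex.norm_real, Real.norm_eq_abs,
        abs_of_nonneg ArithmeticFunction.vonMangoldt_nonneg]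
      exact mul_le_of_le_one_right ArithmeticFunction.vonMangoldt_nonneg
        (DirichletCharacter.norm_le_one χ _)
  refine (norm_sum_le_of_le _ h1).trans ?_
  rw [← Finset.sum_filter]
  have h2 : (Icc 1 y).filter (fun n => n ≤ U) ⊆ Ioc 0 ⌊(U : ℝ)⌋₊ := by
    intro n hn
    rw [Finset.mem_filter, Finset.mem_Icc] at hn
    rw [Finset.mem_Ioc, Nat.floor_natCast]
    omega
  have h3 : Chebyshev.psi (U : ℝ) ≤ 6 * U :=
    Pool.Agent.H17.ZB.psi_le_six (Nat.cast_nonneg U)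
  refine le_trans ?_ h3
  unfold Chebyshev.psi
  exact Finset.sum_le_sum_of_subset_of_nonneg h2 fun _ _ _ => ArithmeticFunction.vonMangoldt_nonneg

/-- The bound for one character. -/
theorem lc_char {q : ℕ} [NeZero q] {χ : DirichletCharacter ℂ q} (hχ : χ ≠ 1) {N U V : ℕ}
    (hN : 2 ≤ N) (hU : 1 ≤ U) (hV : 1 ≤ V) :
    PM N χ ≤ (6 * U + (4 * q * V * Real.log N + 2 * q * (U * V) * Real.log (U * V))) +
      mx N (fun y => ‖∑ m ∈ Ioc U y, (ArithmeticFunction.vonMangoldt m : ℂ) *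
        ∑ k ∈ Icc 1 (y / m), (betaV V k : ℂ) * χ ((m * k : ℕ) : ZMod q)‖) := by
  unfold PM
  refine mx_le fun y hy => ?_
  let g : ℕ → ℂ := fun n => if U < n then χ (n : ZMod q) else 0
  have h0 : psiC χ y = ∑ n ∈ Icc 1 y, (ArithmeticFunction.vonMangoldt n : ℂ) *
      (if U < n then 0 else χ (n : ZMod q)) +
      ∑ n ∈ Icc 1 y, (ArithmeticFunction.vonMangoldt n : ℂ) * g n := by
    unfold psiC
    rw [← Finset.sum_add_distrib]
    refine Finset.sum_congr rfl fun n _ => ?_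
    show _ = _ + _ * (if U < n then χ (n : ZMod q) else 0)
    by_cases h : U < n
    · rw [if_pos h, if_pos h, mul_zero, zero_add]
    · rw [if_neg h, if_neg h, mul_zero, add_zero]
  have h1 := vaughan U V y g (fun n hn => if_neg (not_lt.2 hn))
  have h2 : ∑ m ∈ Ioc U y, (ArithmeticFunction.vonMangoldt m : ℂ) *
      ∑ k ∈ Icc 1 (y / m), (betaV V k : ℂ) * g (m * k) =
      ∑ m ∈ Ioc U y, (ArithmeticFunction.vonMangoldt m : ℂ) *
        ∑ k ∈ Icc 1 (y / m), (betaV V k : ℂ) * χ ((m * k : ℕ) : ZMod q) := by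
    refine Finset.sum_congr rfl fun m hm => ?_
    refine congrArg (fun z => (ArithmeticFunction.vonMangoldt m : ℂ) * z) ?_
    refine Finset.sum_congr rfl fun k hk => ?_
    rw [Finset.mem_Ioc] at hm
    rw [Finset.mem_Icc] at hk
    have h3 : U < m * k := by
      calc U < m := hm.1
        _ = m * 1 := (mul_one m).symm
        _ ≤ m * k := Nat.mul_le_mul_left m hk.1
    have h4 : g (m * k) = χ ((m * k : ℕ) : ZMod q) := if_pos h3
    rw [h4]
  have h3 := t1 hχ hN hU hV hy g fun n => rfl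
  have h4 := le_mx (N := N) (fun y => ‖∑ m ∈ Ioc U y, (ArithmeticFunction.vonMangoldt m : ℂ) *
        ∑ k ∈ Icc 1 (y / m), (betaV V k : ℂ) * χ ((m * k : ℕ) : ZMod q)‖) hy
  rw [h0, h1, h2]
  refine (norm_add_le _ _).trans ?_
  have h5 := norm_add_le (∑ d ∈ Icc 1 V, (ArithmeticFunction.moebius d : ℂ) *
      ∑ k ∈ Icc 1 (y / d), (Real.log k : ℂ) * g (d * k)
        - ∑ l ∈ Icc 1 (U * V), (cUV U V l : ℂ) * ∑ k ∈ Icc 1 (y / l), g (l * k))
      (∑ m ∈ Ioc U y, (ArithmeticFunction.vonMangoldt m : ℂ) *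
        ∑ k ∈ Icc 1 (y / m), (betaV V k : ℂ) * χ ((m * k : ℕ) : ZMod q))
  have h6 := lc_small χ U y
  have h7 : ‖∑ m ∈ Ioc U y, (ArithmeticFunction.vonMangoldt m : ℂ) *
        ∑ k ∈ Icc 1 (y / m), (betaV V k : ℂ) * χ ((m * k : ℕ) : ZMod q)‖ ≤
      mx N (fun y => ‖∑ m ∈ Ioc U y, (ArithmeticFunction.vonMangoldt m : ℂ) *
        ∑ k ∈ Icc 1 (y / m), (betaV V k : ℂ) * χ ((m * k : ℕ) : ZMod q)‖) := h4
  linarith

theorem lc : ∃ C : ℝ, 0 ≤ C ∧ ∀ N Q U V : ℕ, 2 ≤ N → 1 ≤ U → 1 ≤ V → U * V ≤ N →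
    ∑ q ∈ Icc 1 Q, XR N q ≤ C * Real.log N ^ 7 * (N + Q * N * (1 / √U + 1 / √V) + Q ^ 2 * √N + Q ^ 3 * (U * V)) := by
  obtain ⟨C, hC0, hC⟩ := t2
  refine ⟨C + 150, by linarith, fun N Q U V hN hU hV hUV => ?_⟩
  have h2 := hC N Q U V hN hU hV
  set L : ℝ := Real.log N with hL
  have hL1 : (0.6931 : ℝ) ≤ L := by
    have h3 : Real.log 2 ≤ Real.log N := Real.log_le_log (by norm_num) (by exact_mod_cast hN)
    have h4 := Real.log_two_gt_d9
    linarith
  have hL0 : 0 < L := by linarith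
  have hU1 : (1 : ℝ) ≤ U := by exact_mod_cast hU
  have hV1 : (1 : ℝ) ≤ V := by exact_mod_cast hV
  have hQ0 : (0 : ℝ) ≤ Q := Nat.cast_nonneg Q
  have hlog : Real.log (U * V) ≤ L := by
    refine Real.log_le_log (by positivity) ?_
    exact_mod_cast hUV
  have hlog0 : 0 ≤ Real.log (U * V) := Real.log_nonneg (by nlinarith)
  -- one modulus
  have h3 : ∀ q ∈ Icc 1 Q, XR N q ≤ 15 * Q ^ 2 * (U * V) * L + ∑ χ ∈ pc q,
      mx N (fun y => ‖∑ m ∈ Ioc U y, (ArithmeticFunction.vonMangoldt m : ℂ) *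
        ∑ k ∈ Icc 1 (y / m), (betaV V k : ℂ) * χ ((m * k : ℕ) : ZMod q)‖) := by
    intro q hq
    rw [Finset.mem_Icc] at hq
    have : NeZero q := ⟨by omega⟩
    have hq1 : (1 : ℝ) ≤ q := by exact_mod_cast hq.1
    have hqQ : (q : ℝ) ≤ Q := by exact_mod_cast hq.2
    unfold XR
    have h4 : ∀ χ ∈ pc q, PM N χ ≤ (6 * U + (4 * q * V * L +
        2 * q * (U * V) * Real.log (U * V))) +
        mx N (fun y => ‖∑ m ∈ Ioc U y, (ArithmeticFunction.vonMangoldt m : ℂ) *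
        ∑ k ∈ Icc 1 (y / m), (betaV V k : ℂ) * χ ((m * k : ℕ) : ZMod q)‖) := by
      intro χ hχ
      simp only [pc, Finset.mem_filter] at hχ
      exact lc_char hχ.2.2 hN hU hV
    refine (Finset.sum_le_sum h4).trans ?_
    rw [Finset.sum_add_distrib, Finset.sum_const, nsmul_eq_mul]
    refine add_le_add ?_ le_rfl
    have h5 : ((pc q).card : ℝ) ≤ q := by exact_mod_cast lc_card_pc q hq.1
    have h6 : (6 * U + (4 * q * V * L + 2 * q * (U * V) * Real.log (U * V)) : ℝ) ≤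
        15 * q * (U * V) * L := by
      have e1 : (6 : ℝ) * U ≤ 9 * L * (q * (U * V)) := by
        have e2 : (6 : ℝ) ≤ 9 * L := by linarith
        have e3 : (U : ℝ) ≤ q * (U * V) := by
          calc (U : ℝ) = 1 * (U * 1) := by ring
            _ ≤ q * (U * V) := by gcongr
        exact mul_le_mul e2 e3 (by positivity) (by positivity)
      have e4 : 4 * q * V * L ≤ 4 * L * (q * (U * V)) := by
        have e3 : (q * V : ℝ) ≤ q * (U * V) := by
          calc (q * V : ℝ) = q * (1 * V) := by ring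
            _ ≤ q * (U * V) := by gcongr
        calc 4 * q * V * L = 4 * L * (q * V) := by ring
          _ ≤ _ := by gcongr
      have e5 : 2 * q * (U * V) * Real.log (U * V) ≤ 2 * L * (q * (U * V)) := by
        calc 2 * q * (U * V) * Real.log (U * V) ≤ 2 * q * (U * V) * L := by gcongr
          _ = _ := by ring
      calc (6 * U + (4 * q * V * L + 2 * q * (U * V) * Real.log (U * V)) : ℝ)
          ≤ 9 * L * (q * (U * V)) + (4 * L * (q * (U * V)) + 2 * L * (q * (U * V))) := by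
            linarith
        _ = _ := by ring
    calc ((pc q).card : ℝ) * (6 * U + (4 * q * V * L + 2 * q * (U * V) * Real.log (U * V)))
        ≤ q * (15 * q * (U * V) * L) := mul_le_mul h5 h6 (by positivity) (by positivity)
      _ = 15 * q ^ 2 * (U * V) * L := by ring
      _ ≤ _ := by gcongr
  refine (Finset.sum_le_sum h3).trans ?_
  rw [Finset.sum_add_distrib, Finset.sum_const, nsmul_eq_mul, Nat.card_Icc, Nat.add_sub_cancel]
  have h4 : (Q : ℝ) * (15 * Q ^ 2 * (U * V) * L) ≤ 150 * L ^ 7 * (Q ^ 3 * (U * V)) := by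
    have e1 : (1 : ℝ) ≤ 10 * L ^ 6 := by
      have e2 : (0.6931 : ℝ) ^ 6 ≤ L ^ 6 := pow_le_pow_left₀ (by norm_num) hL1 6
      have e3 : (0.11 : ℝ) ≤ (0.6931 : ℝ) ^ 6 := by norm_num
      linarith
    calc (Q : ℝ) * (15 * Q ^ 2 * (U * V) * L) = 15 * L * (Q ^ 3 * (U * V)) * 1 := by ring
      _ ≤ 15 * L * (Q ^ 3 * (U * V)) * (10 * L ^ 6) := by gcongr
      _ = _ := by ring
  have h5 : (0 : ℝ) ≤ N + Q * N * (1 / √U + 1 / √V) + Q ^ 2 * √N := by positivity
  have h6 : (0 : ℝ) ≤ Q ^ 3 * (U * V) := by positivity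
  have hL7 : 0 ≤ L ^ 7 := by positivity
  calc (Q : ℝ) * (15 * Q ^ 2 * (U * V) * L) + ∑ q ∈ Icc 1 Q, ∑ χ ∈ pc q,
      mx N (fun y => ‖∑ m ∈ Ioc U y, (ArithmeticFunction.vonMangoldt m : ℂ) *
        ∑ k ∈ Icc 1 (y / m), (betaV V k : ℂ) * χ ((m * k : ℕ) : ZMod q)‖)
      ≤ 150 * L ^ 7 * (Q ^ 3 * (U * V)) +
        C * L ^ 7 * (N + Q * N * (1 / √U + 1 / √V) + Q ^ 2 * √N) := add_le_add h4 h2
    _ ≤ 150 * L ^ 7 * (N + Q * N * (1 / √U + 1 / √V) + Q ^ 2 * √N + Q ^ 3 * (U * V)) +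
        C * L ^ 7 * (N + Q * N * (1 / √U + 1 / √V) + Q ^ 2 * √N + Q ^ 3 * (U * V)) := by
        refine add_le_add ?_ ?_
        · exact mul_le_mul_of_nonneg_left (by linarith) (by positivity)
        · exact mul_le_mul_of_nonneg_left (by linarith) (by positivity)
    _ = _ := by ring

end BVL
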