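import Pool.Agent.H17.CharBound

/-!
# BV / LAP: approximate formula for `L(s,χ)` in the half plane `Re s > 0`

`S_N(s) = ∑_{n ≤ N} χ(n) n^{-s}`, `σ = Re s > 0`. Block sums: `‖∑_{N < n ≤ M} χ(n)‖ ≤ 2q`
(`Pool.Agent.H17.norm_sum_shift_le`; or difference of two sums `norm_sum_Icc_char_le`), and
`‖n^{-s} - (n+1)^{-s}‖ = ‖∫_n^{n+1} s t^{-s-1} dt‖ ≤ (‖s‖/σ) (n^{-σ} - (n+1)^{-σ})`.
Abel summation: for `1 ≤ N ≤ M`
`‖S_M(s) - S_N(s)‖ ≤ 2q (∑_{N < n < M} ‖n^{-s} - (n+1)^{-s}‖ + M^{-σ}) ≤ 4q (‖s‖/σ) N^{-σ}`  (as `‖s‖ ≥ σ`).   (1)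
So `S_N` is Cauchy, uniformly on every set `{σ ≥ c, ‖s‖ ≤ R}`, hence locally uniformly on `{Re s > 0}`; the limit `G` is
analytic there (`TendstoLocallyUniformlyOn.differentiableOn`), `G(s) = L(s,χ)` for `Re s > 1`
(`DirichletCharacter.LFunction_eq_LSeries`, the series converges absolutely), and `L(s,χ)` is entire
(`DirichletCharacter.differentiable_LFunction`), so `G = L` on `{Re s > 0}` by the identity theorem
(`AnalyticOnNhd.eqOn_of_preconnected_of_eventuallyEq`; `Pool.Agent.H17.ZB.re_pos_preconnected` in H17/ZetaA.lean is the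
connectedness). Let `M → ∞` in (1).
-/

open Finset

namespace BVL

open DirichletCharacter

theorem lap_pow_diff {n : ℕ} (hn : 1 ≤ n) {s : ℂ} (hs : 0 < s.re) :
    ‖((n + 1 : ℕ) : ℂ) ^ (-s) - (n : ℂ) ^ (-s)‖ ≤
      (‖s‖ / s.re) * ((n : ℝ) ^ (-s.re) - ((n + 1 : ℕ) : ℝ) ^ (-s.re)) := by
  have hn0 : (0 : ℝ) < n := by exact_mod_cast hn
  have hs0 : s ≠ 0 := by
    intro h
    rw [h] at hs
    simp at hs
  have hd : ∀ t : ℝ, 0 < t → HasDerivAt (fun t : ℝ => (t : ℂ) ^ (-s) - (n : ℂ) ^ (-s)) (-s * (t : ℂ) ^ (-s - 1)) t := by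
    intro t ht
    have h1 := hasDerivAt_ofReal_cpow_const (x := t) ht.ne' (r := -s) (neg_ne_zero.2 hs0)
    exact h1.sub_const _
  have hB : ∀ t : ℝ, 0 < t → HasDerivAt (fun t : ℝ => (‖s‖ / s.re) * ((n : ℝ) ^ (-s.re) - t ^ (-s.re)))
      (‖s‖ * t ^ (-s.re - 1)) t := by
    intro t ht
    have h1 := Real.hasDerivAt_rpow_const (x := t) (p := -s.re) (Or.inl ht.ne')
    have h2 := (h1.const_sub ((n : ℝ) ^ (-s.re))).const_mul (‖s‖ / s.re)
    have h3 : ‖s‖ / s.re * -(-s.re * t ^ (-s.re - 1)) = ‖s‖ * t ^ (-s.re - 1) := by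
      field_simp
    rw [h3] at h2
    exact h2
  have key := image_norm_le_of_norm_deriv_right_le_deriv_boundary'
    (f := fun t : ℝ => (t : ℂ) ^ (-s) - (n : ℂ) ^ (-s)) (f' := fun t : ℝ => -s * (t : ℂ) ^ (-s - 1))
    (a := (n : ℝ)) (b := (n : ℝ) + 1)
    (B := fun t : ℝ => (‖s‖ / s.re) * ((n : ℝ) ^ (-s.re) - t ^ (-s.re)))
    (B' := fun t : ℝ => ‖s‖ * t ^ (-s.re - 1))
    (fun t ht => (hd t (lt_of_lt_of_le hn0 ht.1)).continuousAt.continuousWithinAt)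
    (fun t ht => (hd t (lt_of_lt_of_le hn0 ht.1)).hasDerivWithinAt)
    (by simp)
    (fun t ht => (hB t (lt_of_lt_of_le hn0 ht.1)).continuousAt.continuousWithinAt)
    (fun t ht => (hB t (lt_of_lt_of_le hn0 ht.1)).hasDerivWithinAt)
    (fun t ht => by
      have ht0 : 0 < t := lt_of_lt_of_le hn0 ht.1
      rw [norm_mul, norm_neg, Complex.norm_cpow_eq_rpow_re_of_pos ht0]
      simp)
  have h4 := key (x := (n : ℝ) + 1) ⟨by linarith, le_refl _⟩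
  have h5 : (((n : ℝ) + 1 : ℝ) : ℂ) = ((n + 1 : ℕ) : ℂ) := by push_cast; ring
  have h6 : ((n : ℝ) + 1 : ℝ) = ((n + 1 : ℕ) : ℝ) := by push_cast; ring
  rw [h5, h6] at h4
  exact h4

theorem lap_abel {a f : ℕ → ℂ} {B : ℝ} (hS : ∀ N : ℕ, ‖∑ n ∈ Finset.Icc 1 N, a n‖ ≤ B) (K : ℕ) (hK : 1 ≤ K) :
    ‖∑ n ∈ Icc 1 K, a n * f n‖ ≤ B * ‖f K‖ + B * ∑ m ∈ Ico 1 K, ‖f (m + 1) - f m‖ := by
  have key : ∀ N : ℕ, 1 ≤ N → ∑ n ∈ Finset.Icc 1 N, a n * f n
      = (∑ n ∈ Finset.Icc 1 N, a n) * f N - ∑ m ∈ Finset.Ico 1 N, (∑ n ∈ Finset.Icc 1 m, a n) * (f (m + 1) - f m) := by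
    intro N hN
    induction N, hN using Nat.le_induction with
    | base => simp
    | succ n hn ih =>
      rw [Finset.sum_Icc_succ_top (by omega), ih, Finset.sum_Icc_succ_top (by omega),
        Finset.sum_Ico_succ_top (by omega)]
      ring
  rw [key K hK]
  refine (norm_sub_le _ _).trans ?_
  apply add_le_add
  · rw [norm_mul]
    exact mul_le_mul_of_nonneg_right (hS K) (norm_nonneg _)
  · rw [Finset.mul_sum]
    refine (norm_sum_le _ _).trans ?_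
    apply Finset.sum_le_sum
    intro m _
    rw [norm_mul]
    exact mul_le_mul_of_nonneg_right (hS m) (norm_nonneg _)

theorem lap_tele (g : ℕ → ℝ) (K : ℕ) (hK : 1 ≤ K) : ∑ m ∈ Ico 1 K, (g m - g (m + 1)) = g 1 - g K := by
  induction K, hK using Nat.le_induction with
  | base => simp
  | succ n hn ih =>
    rw [Finset.sum_Ico_succ_top (by omega), ih]
    ring

theorem lap_block {q : ℕ} [NeZero q] {χ : DirichletCharacter ℂ q} (hχ : χ ≠ 1) {N : ℕ} (hN : 1 ≤ N) (K : ℕ)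
    {s : ℂ} (hs : 0 < s.re) :
    ‖∑ n ∈ Icc 1 (N + K), χ n * (n : ℂ) ^ (-s) - ∑ n ∈ Icc 1 N, χ n * (n : ℂ) ^ (-s)‖ ≤
      4 * q * (‖s‖ / s.re) * (N : ℝ) ^ (-s.re) := by
  have hN0 : (0 : ℝ) < N := by exact_mod_cast hN
  have hsn : s.re ≤ ‖s‖ := (le_abs_self _).trans (Complex.abs_re_le_norm s)
  have hr1 : 1 ≤ ‖s‖ / s.re := by
    rw [le_div_iff₀ hs]
    linarith
  have hq0 : (0 : ℝ) ≤ q := Nat.cast_nonneg q
  have hpos : ∀ m : ℕ, 0 ≤ (m : ℝ) ^ (-s.re) := fun m => Real.rpow_nonneg (Nat.cast_nonneg m) _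
  rcases Nat.eq_zero_or_pos K with h0 | hK
  · subst h0
    rw [add_zero, sub_self, norm_zero]
    have := hpos N
    positivity
  have h1 : ∑ n ∈ Icc 1 (N + K), χ n * (n : ℂ) ^ (-s) - ∑ n ∈ Icc 1 N, χ n * (n : ℂ) ^ (-s) =
      ∑ n ∈ Icc 1 K, χ ((N + n : ℕ) : ZMod q) * (((N + n : ℕ) : ℂ)) ^ (-s) := by
    clear hK
    induction K with
    | zero => simp
    | succ K ih =>
      rw [Finset.sum_Icc_succ_top (by omega : 1 ≤ K + 1), ← ih, ← add_assoc,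
        Finset.sum_Icc_succ_top (by omega)]
      ring
  rw [h1]
  have h2 := lap_abel (a := fun n : ℕ => χ ((N + n : ℕ) : ZMod q)) (f := fun n : ℕ => (((N + n : ℕ) : ℂ)) ^ (-s))
    (Pool.Agent.H17.norm_sum_shift_le hχ N) K hK
  refine h2.trans ?_
  have h3 : ‖(((N + K : ℕ) : ℂ)) ^ (-s)‖ = ((N + K : ℕ) : ℝ) ^ (-s.re) := by
    have h : (0 : ℝ) < ((N + K : ℕ) : ℝ) := by
      have : 0 < N + K := by omega
      exact_mod_cast this
    have h' := Complex.norm_cpow_eq_rpow_re_of_pos h (-s)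
    rw [Complex.neg_re, Complex.ofReal_natCast] at h'
    exact h'
  have h4 : ∑ m ∈ Ico 1 K, ‖(((N + (m + 1) : ℕ) : ℂ)) ^ (-s) - (((N + m : ℕ) : ℂ)) ^ (-s)‖ ≤
      (‖s‖ / s.re) * (((N + 1 : ℕ) : ℝ) ^ (-s.re) - ((N + K : ℕ) : ℝ) ^ (-s.re)) := by
    have h5 := lap_tele (fun m : ℕ => ((N + m : ℕ) : ℝ) ^ (-s.re)) K hK
    rw [← h5, Finset.mul_sum]
    apply Finset.sum_le_sum
    intro m _
    have h6 := lap_pow_diff (n := N + m) (by omega) hs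
    exact h6
  have h7 : ((N + K : ℕ) : ℝ) ^ (-s.re) ≤ (N : ℝ) ^ (-s.re) := by
    apply Real.rpow_le_rpow_of_nonpos hN0
    · push_cast
      have : (0 : ℝ) ≤ K := Nat.cast_nonneg K
      linarith
    · linarith
  have h8 : ((N + 1 : ℕ) : ℝ) ^ (-s.re) ≤ (N : ℝ) ^ (-s.re) := by
    apply Real.rpow_le_rpow_of_nonpos hN0
    · push_cast
      linarith
    · linarith
  have h9 := hpos (N + K)
  have h10 : ∑ m ∈ Ico 1 K, ‖(((N + (m + 1) : ℕ) : ℂ)) ^ (-s) - (((N + m : ℕ) : ℂ)) ^ (-s)‖ ≤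
      (‖s‖ / s.re) * (N : ℝ) ^ (-s.re) := by
    refine h4.trans ?_
    apply mul_le_mul_of_nonneg_left _ (by linarith)
    linarith
  have h11 : (N : ℝ) ^ (-s.re) ≤ (‖s‖ / s.re) * (N : ℝ) ^ (-s.re) := le_mul_of_one_le_left (hpos N) hr1
  calc 2 * (q : ℝ) * ‖(((N + K : ℕ) : ℂ)) ^ (-s)‖ +
        2 * (q : ℝ) * ∑ m ∈ Ico 1 K, ‖(((N + (m + 1) : ℕ) : ℂ)) ^ (-s) - (((N + m : ℕ) : ℂ)) ^ (-s)‖
      ≤ 2 * (q : ℝ) * ((‖s‖ / s.re) * (N : ℝ) ^ (-s.re)) + 2 * (q : ℝ) * ((‖s‖ / s.re) * (N : ℝ) ^ (-s.re)) := by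
        apply add_le_add
        · apply mul_le_mul_of_nonneg_left _ (by positivity)
          rw [h3]
          linarith
        · exact mul_le_mul_of_nonneg_left h10 (by positivity)
    _ = 4 * q * (‖s‖ / s.re) * (N : ℝ) ^ (-s.re) := by ring

theorem lap_tend0 {c : ℝ} (hc : 0 < c) (C : ℝ) :
    Filter.Tendsto (fun N : ℕ => C * (N : ℝ) ^ (-c)) Filter.atTop (nhds 0) := by
  have h := (tendsto_rpow_neg_atTop hc).comp (tendsto_natCast_atTop_atTop (R := ℝ))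
  have h2 := h.const_mul C
  rw [mul_zero] at h2
  exact h2

theorem lap_lim {q : ℕ} [NeZero q] {χ : DirichletCharacter ℂ q} (hχ : χ ≠ 1) {s : ℂ} (hs : 0 < s.re) :
    ∃ g : ℂ, Filter.Tendsto (fun M : ℕ => ∑ n ∈ Icc 1 M, χ n * (n : ℂ) ^ (-s)) Filter.atTop (nhds g) := by
  have h1 : CauchySeq (fun M : ℕ => ∑ n ∈ Icc 1 (M + 1), χ n * (n : ℂ) ^ (-s)) := by
    apply cauchySeq_of_le_tendsto_0' (fun M : ℕ => (4 * q * (‖s‖ / s.re)) * ((M + 1 : ℕ) : ℝ) ^ (-s.re))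
    · intro n m hnm
      obtain ⟨K, rfl⟩ : ∃ K, m = n + K := ⟨m - n, by omega⟩
      rw [dist_comm, dist_eq_norm]
      have h2 := lap_block hχ (N := n + 1) (by omega) K hs
      have h3 : n + K + 1 = n + 1 + K := by omega
      rw [h3]
      exact h2
    · have h4 := lap_tend0 hs (4 * q * (‖s‖ / s.re))
      exact h4.comp (Filter.tendsto_add_atTop_nat 1)
  obtain ⟨g, hg⟩ := cauchySeq_tendsto_of_complete h1
  refine ⟨g, ?_⟩
  rw [← Filter.tendsto_add_atTop_iff_nat 1]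
  exact hg

/-- the limit of the partial sums -/
noncomputable def lapG {q : ℕ} (χ : DirichletCharacter ℂ q) (s : ℂ) : ℂ :=
  Filter.atTop.limUnder (fun M : ℕ => ∑ n ∈ Icc 1 M, χ n * (n : ℂ) ^ (-s))

theorem lap_G {q : ℕ} [NeZero q] {χ : DirichletCharacter ℂ q} (hχ : χ ≠ 1) {s : ℂ} (hs : 0 < s.re) :
    Filter.Tendsto (fun M : ℕ => ∑ n ∈ Icc 1 M, χ n * (n : ℂ) ^ (-s)) Filter.atTop (nhds (lapG χ s)) :=
  tendsto_nhds_limUnder (lap_lim hχ hs)

theorem lap_Gb {q : ℕ} [NeZero q] {χ : DirichletCharacter ℂ q} (hχ : χ ≠ 1) {N : ℕ} (hN : 1 ≤ N) {s : ℂ}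
    (hs : 0 < s.re) :
    ‖lapG χ s - ∑ n ∈ Icc 1 N, χ n * (n : ℂ) ^ (-s)‖ ≤ 4 * q * (‖s‖ / s.re) * (N : ℝ) ^ (-s.re) := by
  have h1 := ((lap_G hχ hs).sub_const (∑ n ∈ Icc 1 N, χ n * (n : ℂ) ^ (-s))).norm
  apply le_of_tendsto h1
  filter_upwards [Filter.eventually_ge_atTop N] with M hM
  obtain ⟨K, rfl⟩ : ∃ K, M = N + K := ⟨M - N, by omega⟩
  exact lap_block hχ hN K hs

theorem lap_open : IsOpen {s : ℂ | 0 < s.re} := isOpen_lt continuous_const Complex.continuous_re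

theorem lap_loc {q : ℕ} [NeZero q] {χ : DirichletCharacter ℂ q} (hχ : χ ≠ 1) :
    TendstoLocallyUniformlyOn (fun (M : ℕ) (s : ℂ) => ∑ n ∈ Icc 1 M, χ n * (n : ℂ) ^ (-s)) (lapG χ)
      Filter.atTop {s : ℂ | 0 < s.re} := by
  rw [Metric.tendstoLocallyUniformlyOn_iff]
  intro ε hε x hx
  have hx0 : 0 < x.re := hx
  refine ⟨{y : ℂ | x.re / 2 < y.re ∧ ‖y‖ < ‖x‖ + 1}, ?_, ?_⟩
  · apply mem_nhdsWithin_of_mem_nhds
    apply IsOpen.mem_nhds
    · exact (isOpen_lt continuous_const Complex.continuous_re).inter (isOpen_lt continuous_norm continuous_const)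
    · exact ⟨by simpa using hx0, by simp⟩
  · have h1 := lap_tend0 (half_pos hx0) (4 * q * ((‖x‖ + 1) / (x.re / 2)))
    have h2 := h1.eventually (gt_mem_nhds hε)
    filter_upwards [h2, Filter.eventually_ge_atTop 1] with M hM hM1 y hy
    have hy0 : 0 < y.re := lt_trans (half_pos hx0) hy.1
    rw [dist_eq_norm]
    refine lt_of_le_of_lt ((lap_Gb hχ hM1 hy0).trans ?_) hM
    have hM1' : (1 : ℝ) ≤ M := by exact_mod_cast hM1
    have h3 : (M : ℝ) ^ (-y.re) ≤ (M : ℝ) ^ (-(x.re / 2)) := by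
      apply Real.rpow_le_rpow_of_exponent_le hM1'
      linarith [hy.1]
    have h4 : ‖y‖ / y.re ≤ (‖x‖ + 1) / (x.re / 2) := by
      apply div_le_div₀
      · positivity
      · exact hy.2.le
      · exact half_pos hx0
      · exact hy.1.le
    have h5 : 0 ≤ (M : ℝ) ^ (-y.re) := Real.rpow_nonneg (by linarith) _
    have h6 : (0 : ℝ) ≤ q := Nat.cast_nonneg q
    have h7 : 0 ≤ ‖y‖ / y.re := by positivity
    have h8 : 4 * (q : ℝ) * (‖y‖ / y.re) ≤ 4 * q * ((‖x‖ + 1) / (x.re / 2)) :=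
      mul_le_mul_of_nonneg_left h4 (by positivity)
    exact mul_le_mul h8 h3 h5 (by positivity)

theorem lap_diff {q : ℕ} [NeZero q] {χ : DirichletCharacter ℂ q} (hχ : χ ≠ 1) :
    DifferentiableOn ℂ (lapG χ) {s : ℂ | 0 < s.re} := by
  apply (lap_loc hχ).differentiableOn _ lap_open
  filter_upwards with M
  apply Differentiable.differentiableOn
  apply Differentiable.fun_sum
  intro n hn
  have hn1 := (Finset.mem_Icc.1 hn).1
  have hn0 : (n : ℂ) ≠ 0 := by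
    have : n ≠ 0 := by omega
    exact_mod_cast this
  apply Differentiable.const_mul
  exact (differentiable_neg_iff.2 differentiable_id).const_cpow (Or.inl hn0)

theorem lap_one {q : ℕ} [NeZero q] {χ : DirichletCharacter ℂ q} (hχ : χ ≠ 1) {s : ℂ} (hs : 1 < s.re) :
    lapG χ s = LFunction χ s := by
  have h1 : LSeriesSummable (fun n : ℕ => χ n) s := LSeriesSummable_of_one_lt_re χ hs
  have h2 := h1.hasSum.tendsto_sum_nat
  have h3 : Filter.Tendsto (fun M : ℕ => ∑ n ∈ Icc 1 M, χ n * (n : ℂ) ^ (-s)) Filter.atTop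
      (nhds (∑' n : ℕ, LSeries.term (fun n : ℕ => χ n) s n)) := by
    have h4 := h2.comp (Filter.tendsto_add_atTop_nat 1)
    refine h4.congr ?_
    intro M
    simp only [Function.comp]
    rw [Finset.range_eq_Ico, Finset.sum_eq_sum_Ico_succ_bot (by omega), LSeries.term_zero, zero_add]
    have h5 : Finset.Ico (0 + 1) (M + 1) = Finset.Icc 1 M := by ext; simp
    rw [h5]
    apply Finset.sum_congr rfl
    intro n hn
    have hn0 : n ≠ 0 := by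
      have := (Finset.mem_Icc.1 hn).1
      omega
    rw [LSeries.term_of_ne_zero hn0, Complex.cpow_neg, div_eq_mul_inv]
  rw [LFunction_eq_LSeries χ hs]
  exact tendsto_nhds_unique (lap_G hχ (by linarith)) h3

theorem lap_eq {q : ℕ} [NeZero q] {χ : DirichletCharacter ℂ q} (hχ : χ ≠ 1) {s : ℂ} (hs : 0 < s.re) :
    lapG χ s = LFunction χ s := by
  have h1 : AnalyticOnNhd ℂ (lapG χ) {s : ℂ | 0 < s.re} := (lap_diff hχ).analyticOnNhd lap_open
  have h2 : AnalyticOnNhd ℂ (LFunction χ) {s : ℂ | 0 < s.re} :=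
    (differentiable_LFunction hχ).differentiableOn.analyticOnNhd lap_open
  have h3 : IsPreconnected {s : ℂ | 0 < s.re} := (convex_halfSpace_re_gt 0).isPreconnected
  have h4 : (2 : ℂ) ∈ {s : ℂ | 0 < s.re} := by simp
  have h5 : lapG χ =ᶠ[nhds (2 : ℂ)] LFunction χ := by
    have h6 : {s : ℂ | 1 < s.re} ∈ nhds (2 : ℂ) := by
      apply (isOpen_lt continuous_const Complex.continuous_re).mem_nhds
      simp
    filter_upwards [h6] with z hz
    exact lap_one hχ hz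
  exact h1.eqOn_of_preconnected_of_eventuallyEq h2 h3 h4 h5 hs

theorem lap {q : ℕ} [NeZero q] {χ : DirichletCharacter ℂ q} (hχ : χ ≠ 1) {N : ℕ} (hN : 1 ≤ N) {s : ℂ} (hs : 0 < s.re) :
    ‖LFunction χ s - ∑ n ∈ Icc 1 N, χ n * (n : ℂ) ^ (-s)‖ ≤ 4 * q * (‖s‖ / s.re) * (N : ℝ) ^ (-s.re) := by
  rw [← lap_eq hχ hs]
  exact lap_Gb hχ hN hs

end BVL
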