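import Pool.Agent.H17.BV.Lup
import Pool.Agent.H17.BV.L0u

/-!
# BV / LOW: lower bound for `|L(s,χ)|` to the left of `Re s = 1` (from LUP and L0U)

`s = σ + it`, `lam ∈ (0,1]`, `C2 = 120`. Note `L ≥ log 5 ≥ 1`. Always `1 - c lam/L^11 ≥ 1 - 1/(4L)` if `c ≤ 1/8`.
3-4-1: `DirichletCharacter.norm_LFunction_product_ge_one` (`x > 0`, `y = t`), with `‖L(1+x,χ0)‖ ≤ (1+x)/x ≤ 2/x`
(`Pool.Agent.H17.norm_LFunction_one_le`, `x ≤ 1`):
    `1 ≤ (2/x)^3 ‖L(1+x+it,χ)‖^4 ‖L(1+x+2it,χ^2)‖`,  `0 < x ≤ 1`.                                                   (1)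

(I) `χ^2 = 1` and `|t| ≤ τ := lam/(480 L^2)`: for `|σ - 1| ≤ τ` the derivative bound (LupD on the segment from `1` to `s`, convex:
`Convex.norm_image_sub_le_of_norm_deriv_le`) gives `‖L(s,χ) - L(1,χ)‖ ≤ 120 L^2 * 2τ = lam/2`, so `‖L(s,χ)‖ ≥ lam/2`. For `1 + τ ≤ σ ≤ 2`:
`‖L(s,χ)‖ ≥ (σ-1)/σ ≥ τ/2` (`Pool.Agent.H17.norm_LFunction_ge_trivial`).
(II) otherwise `‖L(1+x+2it,χ^2)‖ ≤ 60000 L^3/lam =: B`: if `χ^2 ≠ 1` by Lup (`≤ 30 L`), if `χ^2 = 1`, `|t| > τ` by L0u: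
`2L (1/(2τ) + 15L) ≤ 2L(240 L^2/lam + 15 L)`. By (1) `‖L(1+x+it,χ)‖^4 ≥ x^3/(8B) = x^3 lam/(480000 L^3)`.
Put `x0 = c1 lam/L^11` with `c1` so small that `x0^3 lam/(480000 L^3) ≥ (480 L^2 x0)^4`, i.e. `c1 * 480^4 * 480000 ≤ 1`
(`c1 = 1/10^17`). So for `x ≥ x0` (`x ≤ 1`): `‖L(1+x+it,χ)‖ ≥ 480 L^2 x0` (monotone in `x`). This is the claim for `σ ≥ 1 + x0`
(`c = c1`: `480 L^2 x0 = 480 c1 lam/L^9 ≥ c lam/L^9`). For `1 - x0 ≤ σ ≤ 1 + x0`: by LupD
`‖L(σ+it) - L(1+x0+it)‖ ≤ 120 L^2 * 2 x0`, so `‖L(σ+it,χ)‖ ≥ 240 L^2 x0 ≥ c lam/L^9`.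
-/

open Finset

namespace BVL

open DirichletCharacter

theorem low_seg {q : ℕ} [NeZero q] {χ : DirichletCharacter ℂ q} (hχ : χ ≠ 1) {L T : ℝ} {z w : ℂ}
    (hT : (q : ℝ) * (T + 4) ≤ Real.exp L) (hz : |z.im| ≤ T) (hw : |w.im| ≤ T)
    (hz1 : 1 - 1 / (4 * L) ≤ z.re) (hw1 : 1 - 1 / (4 * L) ≤ w.re) (hz2 : z.re ≤ 2) (hw2 : w.re ≤ 2) :
    ‖LFunction χ z - LFunction χ w‖ ≤ 120 * L ^ 2 * ‖z - w‖ := by
  set S : Set ℂ := {z | 1 - 1 / (4 * L) ≤ z.re ∧ z.re ≤ 2 ∧ -T ≤ z.im ∧ z.im ≤ T} with hS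
  have hconv : Convex ℝ S := by
    have e : S = {z : ℂ | 1 - 1 / (4 * L) ≤ z.re} ∩ {z : ℂ | z.re ≤ 2} ∩ {z : ℂ | -T ≤ z.im} ∩
        {z : ℂ | z.im ≤ T} := by
      ext z; simp [hS, and_assoc]
    rw [e]
    exact (((convex_halfSpace_re_ge _).inter (convex_halfSpace_re_le 2)).inter
      (convex_halfSpace_im_ge (-T))).inter (convex_halfSpace_im_le T)
  apply hconv.norm_image_sub_le_of_norm_deriv_le (𝕜 := ℂ) (f := LFunction χ)
  · intro u _
    exact (differentiable_LFunction hχ) u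
  · intro u hu
    apply LupD hχ _ hu.1 hu.2.1
    refine le_trans ?_ hT
    have h4 : |u.im| ≤ T := abs_le.mpr ⟨hu.2.2.1, hu.2.2.2⟩
    gcongr
  · exact ⟨hw1, hw2, (abs_le.mp hw).1, (abs_le.mp hw).2⟩
  · exact ⟨hz1, hz2, (abs_le.mp hz).1, (abs_le.mp hz).2⟩

theorem low_341 {q : ℕ} [NeZero q] {χ : DirichletCharacter ℂ q} {t M : ℝ} (hM : 0 < M)
    {x : ℝ} (hx : 0 < x) (hx1 : x ≤ 1)
    (hb : ‖LFunction (χ ^ 2) (1 + x + 2 * Complex.I * t)‖ ≤ M) :
    x ^ 3 / (8 * M) ≤ ‖LFunction χ (1 + x + Complex.I * t)‖ ^ 4 := by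
  have h1 := norm_LFunction_product_ge_one χ hx t
  rw [norm_mul, norm_mul, norm_pow, norm_pow] at h1
  have h2 : ‖LFunctionTrivChar q (1 + x)‖ ≤ 2 / x := by
    have h3 := Pool.Agent.H17.norm_LFunction_one_le (q := q) (s := 1 + x) (by simp; exact hx)
    have h4 : (1 + (x : ℂ)).re = 1 + x := by simp
    rw [h4] at h3
    refine h3.trans ?_
    rw [add_sub_cancel_left]
    gcongr
    linarith
  have h4 : ‖LFunctionTrivChar q (1 + x)‖ ^ 3 * ‖LFunction χ (1 + x + Complex.I * t)‖ ^ 4 *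
      ‖LFunction (χ ^ 2) (1 + x + 2 * Complex.I * t)‖
      ≤ (2 / x) ^ 3 * ‖LFunction χ (1 + x + Complex.I * t)‖ ^ 4 * M := by
    gcongr
  have h5 : 1 ≤ (2 / x) ^ 3 * ‖LFunction χ (1 + x + Complex.I * t)‖ ^ 4 * M := h1.trans h4
  rw [div_le_iff₀ (by positivity)]
  have h6 : (2 / x) ^ 3 = 8 / x ^ 3 := by rw [div_pow]; norm_num
  rw [h6] at h5
  have hx3 : 0 < x ^ 3 := by positivity
  rw [div_mul_eq_mul_div, div_mul_eq_mul_div, le_div_iff₀ hx3] at h5
  linarith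

/-- the point bound from 3-4-1 -/
theorem low_pt {q : ℕ} [NeZero q] {χ : DirichletCharacter ℂ q} {t L lam : ℝ} (hL : 1 ≤ L)
    (hlam : 0 < lam) {x : ℝ} (hx : lam / (10 ^ 17 * L ^ 11) ≤ x) (hx1 : x ≤ 1)
    (hb : ‖LFunction (χ ^ 2) (1 + x + 2 * Complex.I * t)‖ ≤ 60000 * L ^ 3 / lam) :
    480 * L ^ 2 * (lam / (10 ^ 17 * L ^ 11)) ≤ ‖LFunction χ (1 + x + Complex.I * t)‖ := by
  have hL0 : 0 < L := by linarith
  set x0 : ℝ := lam / (10 ^ 17 * L ^ 11) with hx0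
  have hx0pos : 0 < x0 := by rw [hx0]; positivity
  have hxpos : 0 < x := lt_of_lt_of_le hx0pos hx
  have h := low_341 (χ := χ) (t := t) (M := 60000 * L ^ 3 / lam) (by positivity) hxpos hx1 hb
  apply le_of_pow_le_pow_left₀ (n := 4) (by norm_num) (norm_nonneg _)
  refine le_trans ?_ h
  have h1 : x0 ^ 3 / (8 * (60000 * L ^ 3 / lam)) ≤ x ^ 3 / (8 * (60000 * L ^ 3 / lam)) := by
    gcongr
  refine le_trans ?_ h1
  have h2 : x0 * L ^ 11 * 10 ^ 17 = lam := by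
    rw [hx0]; field_simp
  have h3 : x0 ^ 3 / (8 * (60000 * L ^ 3 / lam)) = x0 ^ 3 * lam / (480000 * L ^ 3) := by
    field_simp
    norm_num
  rw [h3, le_div_iff₀ (by positivity)]
  have h4 : (480 * L ^ 2 * x0) ^ 4 * (480000 * L ^ 3) = x0 ^ 3 * (x0 * L ^ 11 * (480 ^ 4 * 480000)) := by ring
  rw [h4]
  have h5 : x0 * L ^ 11 * (480 ^ 4 * 480000) ≤ lam := by
    rw [← h2]
    have : 0 < x0 * L ^ 11 := by positivity
    nlinarith
  gcongr

theorem low : ∃ c : ℝ, 0 < c ∧ c ≤ 1 / 8 ∧ ∀ (q : ℕ) [NeZero q] (χ : DirichletCharacter ℂ q), χ ≠ 1 →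
    ∀ L lam : ℝ, 0 < lam → lam ≤ 1 → (χ ^ 2 = 1 → lam ≤ ‖LFunction χ 1‖) → ∀ s : ℂ,
    (q : ℝ) * (2 * |s.im| + 5) ≤ Real.exp L → 1 - c * lam / L ^ 11 ≤ s.re → s.re ≤ 2 →
    c * lam / L ^ 9 ≤ ‖LFunction χ s‖ := by
  refine ⟨1 / 10 ^ 17, by norm_num, by norm_num, ?_⟩
  intro q _ χ hχ L lam hlam hlam1 hone s hL hs1 hs2
  have hq1 : (1 : ℝ) ≤ q := by exact_mod_cast Nat.pos_of_neZero q
  have hq0 : (0 : ℝ) < q := by linarith
  have ht0 := abs_nonneg s.im
  have hL1 : 1 ≤ L := by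
    have h1 : (5 : ℝ) ≤ Real.exp L := by
      refine le_trans ?_ hL
      nlinarith
    by_contra h2
    push Not at h2
    have h3 : Real.exp L < Real.exp 1 := Real.exp_lt_exp.mpr h2
    have h4 := Real.exp_one_lt_d9
    linarith
  have hL0 : 0 < L := by linarith
  have hp11 : (1 : ℝ) ≤ L ^ 11 := one_le_pow₀ hL1
  have hp9 : (1 : ℝ) ≤ L ^ 9 := one_le_pow₀ hL1
  have hp2 : (1 : ℝ) ≤ L ^ 2 := one_le_pow₀ hL1
  have hp10 : (1 : ℝ) ≤ L ^ 10 := one_le_pow₀ hL1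
  set x0 : ℝ := lam / (10 ^ 17 * L ^ 11) with hx0
  have hx0e : 1 / 10 ^ 17 * lam / L ^ 11 = x0 := by
    rw [hx0]; field_simp
  rw [hx0e] at hs1
  have hx0pos : 0 < x0 := by rw [hx0]; positivity
  have hx0L : x0 * L ^ 11 * 10 ^ 17 = lam := by rw [hx0]; field_simp
  have hx0le : x0 ≤ 1 / (4 * L) := by
    rw [le_div_iff₀ (by positivity)]
    have h1 : L ≤ L ^ 11 := le_self_pow₀ hL1 (by norm_num)
    have h2 : x0 * L ≤ x0 * L ^ 11 := by gcongr
    nlinarith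
  have hx01 : x0 ≤ 1 := by
    refine hx0le.trans ?_
    rw [div_le_one (by positivity)]
    linarith
  have htgt : 1 / 10 ^ 17 * lam / L ^ 9 = L ^ 2 * x0 := by
    rw [hx0]; field_simp
  rw [htgt]
  have hT4 : (q : ℝ) * (|s.im| + 4) ≤ Real.exp L :=
    le_trans (mul_le_mul_of_nonneg_left (by linarith) hq0.le) hL
  have hs1' : 1 - 1 / (4 * L) ≤ s.re := by linarith
  have hse : s = 1 + ((s.re - 1 : ℝ) : ℂ) + Complex.I * (s.im : ℝ) := by
    apply Complex.ext <;> simp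
  -- main alternative
  by_cases hI : χ ^ 2 = 1 ∧ |s.im| ≤ lam / (480 * L ^ 2)
  · obtain ⟨hsq, ht⟩ := hI
    set τ : ℝ := lam / (480 * L ^ 2) with hτ
    have hτpos : 0 < τ := by rw [hτ]; positivity
    have hτL : τ * L ^ 2 * 480 = lam := by rw [hτ]; field_simp
    have hx0τ : x0 ≤ τ := by
      have h1 : L ^ 2 ≤ L ^ 11 := pow_le_pow_right₀ hL1 (by norm_num)
      have h2 : x0 * L ^ 2 ≤ x0 * L ^ 11 := by gcongr
      have h3 : x0 * L ^ 2 ≤ τ * L ^ 2 := by nlinarith [mul_pos hx0pos (by positivity : 0 < L ^ 11)]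
      exact le_of_mul_le_mul_right h3 (by positivity)
    by_cases hσ : s.re ≤ 1 + τ
    · have h1 := low_seg hχ (L := L) (T := |s.im|) (z := 1) (w := s) hT4 (by simp) le_rfl
        (by simp; positivity) hs1' (by simp) hs2
      have h2 : ‖(1 : ℂ) - s‖ ≤ 2 * τ := by
        have h3 := Complex.norm_le_abs_re_add_abs_im (1 - s)
        have h4 : |(1 - s).re| ≤ τ := by
          rw [Complex.sub_re, Complex.one_re, abs_le]
          constructor <;> linarith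
        have h5 : |(1 - s).im| ≤ τ := by
          rw [Complex.sub_im, Complex.one_im, zero_sub, abs_neg]
          exact ht
        linarith
      have h3 : ‖LFunction χ 1 - LFunction χ s‖ ≤ lam / 2 := by
        refine h1.trans ?_
        calc 120 * L ^ 2 * ‖(1 : ℂ) - s‖ ≤ 120 * L ^ 2 * (2 * τ) := by gcongr
          _ = lam / 2 := by rw [← hτL]; ring
      have h4 := hone hsq
      have h5 : ‖LFunction χ 1‖ ≤ ‖LFunction χ 1 - LFunction χ s‖ + ‖LFunction χ s‖ := by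
        calc ‖LFunction χ 1‖ = ‖(LFunction χ 1 - LFunction χ s) + LFunction χ s‖ := by
              rw [sub_add_cancel]
          _ ≤ _ := norm_add_le _ _
      have h6 : L ^ 2 * x0 ≤ L ^ 2 * τ := by gcongr
      nlinarith
    · push Not at hσ
      have h1 := Pool.Agent.H17.norm_LFunction_ge_trivial χ (s := s) (by linarith)
      refine le_trans ?_ h1
      rw [le_div_iff₀ (by linarith)]
      have h2 : L ^ 2 * x0 * s.re ≤ L ^ 2 * x0 * 2 := by gcongr
      have h3 : L ^ 2 * x0 * 2 ≤ τ := by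
        have h4 : L ^ 4 ≤ L ^ 11 := pow_le_pow_right₀ hL1 (by norm_num)
        have h5 : x0 * L ^ 4 ≤ x0 * L ^ 11 := by gcongr
        have h6 : L ^ 2 * x0 * 2 * L ^ 2 ≤ τ * L ^ 2 := by
          have h7 : L ^ 2 * x0 * 2 * L ^ 2 = 2 * (x0 * L ^ 4) := by ring
          rw [h7]
          nlinarith [mul_pos hx0pos (by positivity : 0 < L ^ 11)]
        exact le_of_mul_le_mul_right h6 (by positivity)
      linarith
  · -- case II
    have hB : ∀ x : ℝ, 0 < x → x ≤ 1 →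
        ‖LFunction (χ ^ 2) (1 + x + 2 * Complex.I * s.im)‖ ≤ 60000 * L ^ 3 / lam := by
      intro x hx hx1
      have hre : (1 + (x : ℂ) + 2 * Complex.I * (s.im : ℝ)).re = 1 + x := by simp
      have him : (1 + (x : ℂ) + 2 * Complex.I * (s.im : ℝ)).im = 2 * s.im := by simp
      have habs : |2 * s.im| = 2 * |s.im| := by rw [abs_mul, abs_two]
      have hT3 : (q : ℝ) * (|(1 + (x : ℂ) + 2 * Complex.I * (s.im : ℝ)).im| + 3) ≤ Real.exp L := by
        rw [him, habs]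
        refine le_trans ?_ hL
        gcongr
        norm_num
      by_cases hsq : χ ^ 2 = 1
      · have ht : lam / (480 * L ^ 2) < |s.im| := by
          by_contra h
          push Not at h
          exact hI ⟨hsq, h⟩
        have htpos : 0 < |s.im| := lt_trans (by positivity) ht
        have htne : s.im ≠ 0 := abs_pos.mp htpos
        rw [hsq]
        have h1 := L0u (q := q) (s := 1 + (x : ℂ) + 2 * Complex.I * (s.im : ℝ)) (L := L) hT3
          (by rw [hre]; linarith) (by rw [hre]; linarith)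
          (by rw [him]; exact mul_ne_zero two_ne_zero htne)
        refine h1.trans ?_
        rw [him, habs]
        have h2 : 1 / (2 * |s.im|) ≤ 240 * L ^ 2 / lam := by
          rw [div_le_div_iff₀ (by positivity) hlam]
          rw [div_lt_iff₀ (by positivity)] at ht
          nlinarith
        have h3 : 15 * L ≤ 15 * L ^ 2 / lam := by
          rw [le_div_iff₀ hlam]
          have : L * lam ≤ L * L := by gcongr; linarith
          nlinarith
        calc 2 * L * (1 / (2 * |s.im|) + 15 * L) ≤ 2 * L * (240 * L ^ 2 / lam + 15 * L ^ 2 / lam) := by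
              gcongr
          _ = 510 * L ^ 3 / lam := by field_simp; ring
          _ ≤ 60000 * L ^ 3 / lam := by gcongr; norm_num
      · have h1 := Lup (q := q) hsq (s := 1 + (x : ℂ) + 2 * Complex.I * (s.im : ℝ)) (L := L) hT3
          (by rw [hre]; have : 0 < 1 / (2 * L) := by positivity
              linarith) (by rw [hre]; linarith)
        refine h1.trans ?_
        rw [le_div_iff₀ hlam]
        have h2 : L ≤ L ^ 3 := le_self_pow₀ hL1 (by norm_num)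
        have h3 : L * lam ≤ L * 1 := by gcongr
        nlinarith
    by_cases hσ : 1 + x0 ≤ s.re
    · have h1 := low_pt (χ := χ) (t := s.im) hL1 hlam (x := s.re - 1) (by linarith) (by linarith)
        (hB (s.re - 1) (by linarith) (by linarith))
      rw [← hse] at h1
      refine le_trans ?_ h1
      have : 0 ≤ L ^ 2 * x0 := by positivity
      rw [← hx0]
      nlinarith
    · push Not at hσ
      have h1 := low_pt (χ := χ) (t := s.im) hL1 hlam (x := x0) le_rfl hx01 (hB x0 hx0pos hx01)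
      rw [← hx0] at h1
      have hre : (1 + (x0 : ℂ) + Complex.I * (s.im : ℝ)).re = 1 + x0 := by simp
      have him : (1 + (x0 : ℂ) + Complex.I * (s.im : ℝ)).im = s.im := by simp
      have h2 := low_seg hχ (L := L) (T := |s.im|) (z := 1 + (x0 : ℂ) + Complex.I * (s.im : ℝ)) (w := s) hT4
        (by rw [him]) le_rfl (by rw [hre]; have : 0 < 1 / (4 * L) := by positivity
                                 linarith) hs1' (by rw [hre]; linarith) hs2
      have h3 : ‖(1 + (x0 : ℂ) + Complex.I * (s.im : ℝ)) - s‖ ≤ 2 * x0 := by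
        have e : (1 + (x0 : ℂ) + Complex.I * (s.im : ℝ)) - s = ((1 + x0 - s.re : ℝ) : ℂ) := by
          apply Complex.ext <;> simp
        rw [e, Complex.norm_real, Real.norm_eq_abs, abs_le]
        constructor <;> linarith
      have h4 : ‖LFunction χ (1 + (x0 : ℂ) + Complex.I * (s.im : ℝ)) - LFunction χ s‖ ≤ 240 * L ^ 2 * x0 := by
        refine h2.trans ?_
        calc 120 * L ^ 2 * ‖(1 + (x0 : ℂ) + Complex.I * (s.im : ℝ)) - s‖ ≤ 120 * L ^ 2 * (2 * x0) := by gcongr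
          _ = _ := by ring
      have h5 : ‖LFunction χ (1 + (x0 : ℂ) + Complex.I * (s.im : ℝ))‖ ≤
          ‖LFunction χ (1 + (x0 : ℂ) + Complex.I * (s.im : ℝ)) - LFunction χ s‖ + ‖LFunction χ s‖ := by
        calc ‖LFunction χ (1 + (x0 : ℂ) + Complex.I * (s.im : ℝ))‖
            = ‖(LFunction χ (1 + (x0 : ℂ) + Complex.I * (s.im : ℝ)) - LFunction χ s) + LFunction χ s‖ := by
              rw [sub_add_cancel]
          _ ≤ _ := norm_add_le _ _
      have h6 : 0 ≤ L ^ 2 * x0 := by positivity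
      nlinarith

end BVL
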