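import Mathlib

/-!
# BV / OMG: divisor sums

`ω(n) = n.primeFactors.card`. Let `K ≥ 1` be a natural number with `2 max(C,1) ≤ K`.
(a) `K^{ω(m)} ≤ ∑_{d ∣ m} (K-1)^{ω(d)}` (sum over squarefree divisors gives equality: `K^{ω} = ∑_{T ⊆ primes} (K-1)^{|T|}`), so by induction on `K`
    `∑_{m ≤ z} K^{ω(m)}/m ≤ (1 + log z)^K` (`K = 1`: harmonic sum; step: `m = d e`).
(b) `m/φ(m) = ∏_{p ∣ m} p/(p-1) ≤ 2^{ω(m)}`, so `C^{ω(m)}/φ(m) ≤ (2C)^{ω(m)}/m ≤ K^{ω(m)}/m` for `C ≥ 1` (for `0 ≤ C < 1` replace `C` by 1).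
    `(1 + log z)^K ≤ C1 (log z)^K` for `z ≥ 2`. This is `omega_sum`.
(c) `omega_bound`: for `η > 0`: `K^{ω(r)} ≤ C1 r^η`: `K^{ω(r)} = ∏_{p ∣ r} K ≤ ∏_{p ∣ r, p ≤ K^{1/η}} K * ∏_{p ∣ r, p > K^{1/η}} p^η ≤ K^{K^{1/η}+1} r^η`.
-/

open Finset

namespace BVL

theorem omg_pow_le (K m : ℕ) (hm : m ≠ 0) :
    (K + 1 : ℝ) ^ m.primeFactors.card ≤ ∑ d ∈ m.divisors, (K : ℝ) ^ d.primeFactors.card := by
  have h1 : (K + 1 : ℝ) ^ m.primeFactors.card = ∑ t ∈ m.primeFactors.powerset, (K : ℝ) ^ t.card := by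
    have := Finset.sum_pow_mul_eq_add_pow (K : ℝ) 1 m.primeFactors
    rw [← this]
    apply Finset.sum_congr rfl
    intro t _
    rw [one_pow, mul_one]
  rw [h1]
  have hinj : Set.InjOn (fun t : Finset ℕ => ∏ p ∈ t, p) (m.primeFactors.powerset : Set (Finset ℕ)) := by
    intro s hs t ht hst
    have hs' := Finset.mem_powerset.mp (Finset.mem_coe.mp hs)
    have ht' := Finset.mem_powerset.mp (Finset.mem_coe.mp ht)
    have e1 := Nat.primeFactors_prod (s := s) (fun p hp => Nat.prime_of_mem_primeFactors (hs' hp))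
    have e2 := Nat.primeFactors_prod (s := t) (fun p hp => Nat.prime_of_mem_primeFactors (ht' hp))
    have hst' : ∏ p ∈ s, p = ∏ p ∈ t, p := hst
    rw [← e1, ← e2, hst']
  have h2 : ∑ t ∈ m.primeFactors.powerset, (K : ℝ) ^ t.card =
      ∑ d ∈ m.primeFactors.powerset.image (fun t : Finset ℕ => ∏ p ∈ t, p),
        (K : ℝ) ^ d.primeFactors.card := by
    rw [Finset.sum_image hinj]
    apply Finset.sum_congr rfl
    intro t ht
    have ht' := Finset.mem_powerset.mp ht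
    rw [Nat.primeFactors_prod (s := t) (fun p hp => Nat.prime_of_mem_primeFactors (ht' hp))]
  rw [h2]
  apply Finset.sum_le_sum_of_subset_of_nonneg
  · intro d hd
    obtain ⟨t, ht, rfl⟩ := Finset.mem_image.mp hd
    have ht' := Finset.mem_powerset.mp ht
    rw [Nat.mem_divisors]
    exact ⟨(Finset.prod_dvd_prod_of_subset _ _ _ ht').trans (Nat.prod_primeFactors_dvd m), hm⟩
  · intro d _ _
    positivity

theorem omg_harm (z : ℕ) : ∑ e ∈ Icc 1 z, (1 : ℝ) / e ≤ 1 + Real.log z := by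
  have h := harmonic_le_one_add_log z
  have e : ((harmonic z : ℚ) : ℝ) = ∑ e ∈ Icc 1 z, (1 : ℝ) / e := by
    rw [harmonic_eq_sum_Icc]
    push_cast
    apply Finset.sum_congr rfl
    intro i _
    rw [one_div]
  rwa [e] at h

theorem omg_step (K z : ℕ) :
    ∑ m ∈ Icc 1 z, (K + 1 : ℝ) ^ m.primeFactors.card / m ≤
      (∑ d ∈ Icc 1 z, (K : ℝ) ^ d.primeFactors.card / d) * ∑ e ∈ Icc 1 z, (1 : ℝ) / e := by
  have h1 : ∑ m ∈ Icc 1 z, (K + 1 : ℝ) ^ m.primeFactors.card / m ≤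
      ∑ m ∈ Icc 1 z, ∑ x ∈ m.divisorsAntidiagonal,
        ((K : ℝ) ^ x.1.primeFactors.card / x.1) * (1 / x.2) := by
    apply Finset.sum_le_sum
    intro m hm
    have hm1 : 1 ≤ m := (Finset.mem_Icc.mp hm).1
    have hm0 : m ≠ 0 := by omega
    have hmR : (0 : ℝ) < m := by exact_mod_cast hm1
    have e1 : ∑ x ∈ m.divisorsAntidiagonal, ((K : ℝ) ^ x.1.primeFactors.card / x.1) * (1 / x.2) =
        ∑ x ∈ m.divisorsAntidiagonal, ((K : ℝ) ^ x.1.primeFactors.card / m) := by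
      apply Finset.sum_congr rfl
      intro x hx
      have hx' := Nat.mem_divisorsAntidiagonal.mp hx
      have e2 : (m : ℝ) = x.1 * x.2 := by rw [← hx'.1]; push_cast; ring
      rw [e2, div_mul_div_comm, mul_one]
    rw [e1, ← Finset.sum_div, Nat.sum_divisorsAntidiagonal (fun d _ => (K : ℝ) ^ d.primeFactors.card)]
    exact div_le_div_of_nonneg_right (omg_pow_le K m hm0) hmR.le
  refine h1.trans ?_
  rw [Finset.sum_mul_sum, ← Finset.sum_product', Finset.sum_sigma']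
  have hinj : Set.InjOn (fun y : (_ : ℕ) × ℕ × ℕ => y.2)
      (((Icc 1 z).sigma fun m => m.divisorsAntidiagonal) : Set ((_ : ℕ) × ℕ × ℕ)) := by
    rintro ⟨m, x⟩ hx ⟨m', x'⟩ hx' hxx
    simp only at hxx
    subst hxx
    have a1 := (Nat.mem_divisorsAntidiagonal.mp (Finset.mem_sigma.mp (Finset.mem_coe.mp hx)).2).1
    have a2 := (Nat.mem_divisorsAntidiagonal.mp (Finset.mem_sigma.mp (Finset.mem_coe.mp hx')).2).1
    simp only at a1 a2
    have : m = m' := by rw [← a1, ← a2]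
    subst this
    rfl
  have h3 : ∑ y ∈ (Icc 1 z).sigma (fun m => m.divisorsAntidiagonal),
      ((K : ℝ) ^ y.2.1.primeFactors.card / y.2.1) * (1 / y.2.2) =
      ∑ x ∈ ((Icc 1 z).sigma (fun m => m.divisorsAntidiagonal)).image (fun y => y.2),
        ((K : ℝ) ^ x.1.primeFactors.card / x.1) * (1 / x.2) := by
    rw [Finset.sum_image hinj]
  rw [h3]
  apply Finset.sum_le_sum_of_subset_of_nonneg
  · intro x hx
    obtain ⟨⟨m, y⟩, hy, rfl⟩ := Finset.mem_image.mp hx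
    have hy' := Finset.mem_sigma.mp hy
    simp only at hy'
    have hm := Finset.mem_Icc.mp hy'.1
    have hd := Nat.mem_divisorsAntidiagonal.mp hy'.2
    rw [Finset.mem_product, Finset.mem_Icc, Finset.mem_Icc]
    have h0 : 0 < y.1 * y.2 := by rw [hd.1]; omega
    have p1 : 0 < y.1 := by
      rcases Nat.eq_zero_or_pos y.1 with h' | h'
      · rw [h'] at h0; simp at h0
      · exact h'
    have p2 : 0 < y.2 := by
      rcases Nat.eq_zero_or_pos y.2 with h' | h'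
      · rw [h'] at h0; simp at h0
      · exact h'
    have q1 : y.1 ≤ m := by
      calc y.1 = y.1 * 1 := (mul_one _).symm
        _ ≤ y.1 * y.2 := Nat.mul_le_mul_left _ p2
        _ = m := hd.1
    have q2 : y.2 ≤ m := by
      calc y.2 = 1 * y.2 := (one_mul _).symm
        _ ≤ y.1 * y.2 := Nat.mul_le_mul_right _ p1
        _ = m := hd.1
    exact ⟨⟨p1, q1.trans hm.2⟩, ⟨p2, q2.trans hm.2⟩⟩
  · intro x _ _
    positivity

theorem omg_sumK (K z : ℕ) (hz : 1 ≤ z) :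
    ∑ m ∈ Icc 1 z, ((K + 1 : ℕ) : ℝ) ^ m.primeFactors.card / m ≤ (1 + Real.log z) ^ (K + 1) := by
  induction K with
  | zero =>
    simpa using omg_harm z
  | succ K ih =>
    have h := omg_step (K + 1) z
    have hl : (0 : ℝ) ≤ 1 + Real.log z := by
      have := Real.log_nonneg (by exact_mod_cast hz : (1 : ℝ) ≤ z)
      linarith
    have h2 := mul_le_mul ih (omg_harm z) (Finset.sum_nonneg fun i _ => by positivity)
      (pow_nonneg hl _)
    have e : (((K + 1 + 1 : ℕ)) : ℝ) = ((K + 1 : ℕ) : ℝ) + 1 := by push_cast; ring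
    rw [e]
    refine h.trans (h2.trans (le_of_eq ?_))
    rw [← pow_succ]

theorem omg_tot (m : ℕ) (hm : 1 ≤ m) : (m : ℝ) ≤ 2 ^ m.primeFactors.card * (Nat.totient m : ℝ) := by
  have h := Nat.totient_eq_mul_prod_factors m
  have h' : (Nat.totient m : ℝ) = m * ∏ p ∈ m.primeFactors, (1 - (p : ℝ)⁻¹) := by
    have := congrArg (fun q : ℚ => (q : ℝ)) h
    push_cast at this
    exact this
  have h2 : ∏ p ∈ m.primeFactors, ((1 : ℝ) / 2) ≤ ∏ p ∈ m.primeFactors, (1 - (p : ℝ)⁻¹) := by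
    apply Finset.prod_le_prod
    · intro p _; norm_num
    · intro p hp
      have hp2 : (2 : ℝ) ≤ p := by exact_mod_cast (Nat.prime_of_mem_primeFactors hp).two_le
      have : (p : ℝ)⁻¹ ≤ 2⁻¹ := inv_anti₀ (by norm_num) hp2
      linarith
  rw [Finset.prod_const] at h2
  have hm0 : (0 : ℝ) ≤ m := Nat.cast_nonneg _
  have h3 : (m : ℝ) * (1 / 2) ^ m.primeFactors.card ≤ Nat.totient m := by
    rw [h']
    exact mul_le_mul_of_nonneg_left h2 hm0
  have h4 : (2 : ℝ) ^ m.primeFactors.card * (1 / 2) ^ m.primeFactors.card = 1 := by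
    rw [← mul_pow]; norm_num
  calc (m : ℝ) = 2 ^ m.primeFactors.card * (m * (1 / 2) ^ m.primeFactors.card) := by
        linear_combination (-(m : ℝ)) * h4
    _ ≤ _ := mul_le_mul_of_nonneg_left h3 (by positivity)

theorem omg_term {C : ℝ} (hC : 0 ≤ C) (K : ℕ) (hK : 2 * max C 1 ≤ K) (m : ℕ) (hm : 1 ≤ m) :
    C ^ m.primeFactors.card / (Nat.totient m : ℝ) ≤ (K : ℝ) ^ m.primeFactors.card / m := by
  have hm0 : (0 : ℝ) < m := by exact_mod_cast hm
  have ht : (0 : ℝ) < Nat.totient m := by exact_mod_cast Nat.totient_pos.mpr hm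
  rw [div_le_div_iff₀ ht hm0]
  have h1 := omg_tot m hm
  have h2 : C ^ m.primeFactors.card * 2 ^ m.primeFactors.card ≤ (K : ℝ) ^ m.primeFactors.card := by
    rw [← mul_pow]
    apply pow_le_pow_left₀ (by positivity)
    have := le_max_left C 1
    linarith
  calc C ^ m.primeFactors.card * m ≤ C ^ m.primeFactors.card *
        (2 ^ m.primeFactors.card * (Nat.totient m : ℝ)) :=
        mul_le_mul_of_nonneg_left h1 (by positivity)
    _ = (C ^ m.primeFactors.card * 2 ^ m.primeFactors.card) * (Nat.totient m : ℝ) := by ring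
    _ ≤ _ := mul_le_mul_of_nonneg_right h2 ht.le

theorem omega_sum {C : ℝ} (hC : 0 ≤ C) : ∃ C1 : ℝ, 0 ≤ C1 ∧ ∃ k : ℕ, ∀ z : ℕ, 2 ≤ z →
    ∑ m ∈ Icc 1 z, C ^ m.primeFactors.card / (Nat.totient m : ℝ) ≤ C1 * Real.log z ^ k := by
  obtain ⟨K, hK⟩ := exists_nat_ge (2 * max C 1)
  have hl2 : 0 < Real.log 2 := Real.log_pos (by norm_num)
  refine ⟨(1 / Real.log 2 + 1) ^ (K + 1), by positivity, K + 1, fun z hz => ?_⟩
  have hz1 : 1 ≤ z := by omega
  have hK1 : 2 * max C 1 ≤ ((K + 1 : ℕ) : ℝ) := by push_cast; linarith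
  have h1 : ∑ m ∈ Icc 1 z, C ^ m.primeFactors.card / (Nat.totient m : ℝ) ≤
      ∑ m ∈ Icc 1 z, ((K + 1 : ℕ) : ℝ) ^ m.primeFactors.card / m :=
    Finset.sum_le_sum fun m hm => omg_term hC (K + 1) hK1 m (Finset.mem_Icc.mp hm).1
  refine h1.trans ((omg_sumK K z hz1).trans ?_)
  rw [← mul_pow]
  have hz2 : Real.log 2 ≤ Real.log z := Real.log_le_log (by norm_num) (by exact_mod_cast hz)
  apply pow_le_pow_left₀ (by linarith)
  have : 1 ≤ Real.log z / Real.log 2 := by rwa [le_div_iff₀ hl2, one_mul]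
  calc 1 + Real.log z ≤ Real.log z / Real.log 2 + Real.log z := by linarith
    _ = (1 / Real.log 2 + 1) * Real.log z := by ring

theorem omega_bound {C : ℝ} (hC : 0 ≤ C) {η : ℝ} (hη : 0 < η) : ∃ C1 : ℝ, 0 ≤ C1 ∧ ∀ r : ℕ, 1 ≤ r →
    C ^ r.primeFactors.card / (Nat.totient r : ℝ) ≤ C1 * (r : ℝ) ^ (-1 + η) := by
  obtain ⟨K, hK⟩ := exists_nat_ge (2 * max C 1)
  have hK1 : (1 : ℝ) ≤ K := by
    have := le_max_right C 1
    linarith
  obtain ⟨B, hB⟩ := exists_nat_ge ((K : ℝ) ^ (1 / η))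
  refine ⟨(K : ℝ) ^ (B + 1), by positivity, fun r hr => ?_⟩
  have hr0 : (0 : ℝ) < r := by exact_mod_cast hr
  refine (omg_term hC K hK r hr).trans ?_
  have h1 : (K : ℝ) ^ r.primeFactors.card ≤ (K : ℝ) ^ (B + 1) * (r : ℝ) ^ η := by
    have a1 : (K : ℝ) ^ r.primeFactors.card = ∏ p ∈ r.primeFactors, (K : ℝ) := by
      rw [Finset.prod_const]
    have a2 : ∏ p ∈ r.primeFactors, (K : ℝ) ≤
        ∏ p ∈ r.primeFactors, ((if p ≤ B then (K : ℝ) else 1) * (p : ℝ) ^ η) := by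
      apply Finset.prod_le_prod
      · intro p _; positivity
      · intro p hp
        have hp1 : (1 : ℝ) ≤ p := by exact_mod_cast (Nat.prime_of_mem_primeFactors hp).one_le
        have hpe : (1 : ℝ) ≤ (p : ℝ) ^ η := Real.one_le_rpow hp1 hη.le
        split_ifs with hpB
        · nlinarith
        · rw [one_mul]
          have hpB' : (B : ℝ) ≤ p := by exact_mod_cast (not_le.mp hpB).le
          have : (K : ℝ) ^ (1 / η) ≤ p := hB.trans hpB'
          calc (K : ℝ) = ((K : ℝ) ^ (1 / η)) ^ η := by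
                rw [← Real.rpow_mul (by positivity), one_div, inv_mul_cancel₀ hη.ne', Real.rpow_one]
            _ ≤ (p : ℝ) ^ η := Real.rpow_le_rpow (by positivity) this hη.le
    have a3 : ∏ p ∈ r.primeFactors, (if p ≤ B then (K : ℝ) else 1) ≤ (K : ℝ) ^ (B + 1) := by
      rw [← Finset.prod_filter, Finset.prod_const]
      apply pow_le_pow_right₀ hK1
      have : (r.primeFactors.filter fun p => p ≤ B) ⊆ Finset.range (B + 1) := by
        intro p hp
        have := (Finset.mem_filter.mp hp).2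
        exact Finset.mem_range.mpr (by omega)
      have h := Finset.card_le_card this
      rwa [Finset.card_range] at h
    have a4 : ∏ p ∈ r.primeFactors, (p : ℝ) ^ η ≤ (r : ℝ) ^ η := by
      rw [Real.finsetProd_rpow _ _ (fun p _ => Nat.cast_nonneg p)]
      apply Real.rpow_le_rpow (by positivity) _ hη.le
      have h5 := Nat.le_of_dvd (by omega) (Nat.prod_primeFactors_dvd r)
      calc ∏ p ∈ r.primeFactors, (p : ℝ) = ((∏ p ∈ r.primeFactors, p : ℕ) : ℝ) := by push_cast; rfl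
        _ ≤ (r : ℝ) := by exact_mod_cast h5
    rw [a1]
    refine a2.trans ?_
    rw [Finset.prod_mul_distrib]
    exact mul_le_mul a3 a4 (by positivity) (by positivity)
  rw [Real.rpow_add hr0, Real.rpow_neg_one, div_eq_mul_inv]
  calc (K : ℝ) ^ r.primeFactors.card * (r : ℝ)⁻¹ ≤ ((K : ℝ) ^ (B + 1) * (r : ℝ) ^ η) * (r : ℝ)⁻¹ :=
        mul_le_mul_of_nonneg_right h1 (by positivity)
    _ = _ := by ring

end BVL
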