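import Pool.Agent.H17.BV.LC
import Pool.Agent.H17.BV.Omg
import Pool.Agent.H17.BV.Dyd

/-!
# BV / LRG: the contribution of large conductors (from LC, OMG, DYD)

We may assume `A ≥ 1`, `ε ≤ 1/4` (for `ε ≥ 1/2` there are no `r` with `1 < (log N)^B < r ≤ N^{1/2-ε}`; for `1/4 < ε < 1/2` the claim follows from `ε = 1/4`: fewer terms).
`η = ε/8`, OMG: `C^{ω(r)}/φ(r) ≤ C1 r^{-1+η}`. LC with `U = V = ⌊N^{ε/2}⌋` (`≥ N^{ε/2}/2`, `UV ≤ N^ε ≤ N`): for all `Q`,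
`∑_{r ≤ Q} XR N r ≤ C (log N)^7 (N + 2·2 Q N^{1-ε/4} + Q^2 N^{1/2} + Q^3 N^ε)`. DYD with `R1 = ⌊(log N)^B⌋`, `R = ⌊N^{1/2-ε}⌋` (`R1 ≤ R` for large `N`):
total `≤ C' (log N)^8 (N (log N)^{-B(1-η)}·2 + N^{η/2} (N^{1-ε/4}·4 + N^{1/2-ε} N^{1/2} + N^{1-2ε} N^ε))`, `R^η ≤ N^{η/2} = N^{ε/16}`. Take `B = 2(A + 9)` (`1 - η ≥ 1/2`):
first term `≤ N (log N)^{-A-9}·const`; the others are `≤ N^{1-ε/8}`-small.
-/

open Finset H69LB

namespace BVL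

theorem lrg_floor_half {x : ℝ} (hx : 1 ≤ x) : x / 2 ≤ (⌊x⌋₊ : ℝ) := by
  have h1 : (1 : ℝ) ≤ (⌊x⌋₊ : ℝ) := by
    have : 1 ≤ ⌊x⌋₊ := Nat.floor_pos.mpr hx
    exact_mod_cast this
  have h2 := Nat.lt_floor_add_one x
  by_cases h : x ≤ 2
  · linarith
  · linarith

/-- the bound for the sum of `XR` -/
theorem lrg_XR {ε : ℝ} (hε : 0 < ε) (hε1 : ε ≤ 1 / 4) : ∃ K : ℝ, 0 ≤ K ∧ ∀ N : ℕ, 2 ≤ N → ∀ Q : ℕ,
    ∑ r ∈ Icc 1 Q, XR N r ≤ K * Real.log N ^ 7 * N + 4 * (K * Real.log N ^ 7) * (N : ℝ) ^ (1 - ε / 4) * Q +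
      K * Real.log N ^ 7 * (N : ℝ) ^ (1 / 2 : ℝ) * Q ^ 2 + K * Real.log N ^ 7 * (N : ℝ) ^ ε * Q ^ 3 := by
  obtain ⟨K, hK, h⟩ := lc
  refine ⟨K, hK, ?_⟩
  intro N hN Q
  have hN1 : (1 : ℝ) ≤ (N : ℝ) := by
    have : 1 ≤ N := by omega
    exact_mod_cast this
  have hN0 : (0 : ℝ) < (N : ℝ) := by linarith
  set U : ℕ := ⌊(N : ℝ) ^ (ε / 2)⌋₊ with hU
  have hx1 : (1 : ℝ) ≤ (N : ℝ) ^ (ε / 2) := Real.one_le_rpow hN1 (by linarith)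
  have hx0 : (0 : ℝ) < (N : ℝ) ^ (ε / 2) := by linarith
  have hU1 : 1 ≤ U := Nat.floor_pos.mpr hx1
  have hUx : (U : ℝ) ≤ (N : ℝ) ^ (ε / 2) := Nat.floor_le hx0.le
  have hUU : (U : ℝ) * U ≤ (N : ℝ) ^ ε := by
    calc (U : ℝ) * U ≤ (N : ℝ) ^ (ε / 2) * (N : ℝ) ^ (ε / 2) :=
          mul_le_mul hUx hUx (Nat.cast_nonneg _) hx0.le
      _ = (N : ℝ) ^ ε := by
          rw [← Real.rpow_add hN0]
          congr 1
          ring
  have hUN : U * U ≤ N := by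
    have h1 : (N : ℝ) ^ ε ≤ (N : ℝ) ^ (1 : ℝ) := Real.rpow_le_rpow_of_exponent_le hN1 (by linarith)
    rw [Real.rpow_one] at h1
    have h2 : (U : ℝ) * U ≤ N := hUU.trans h1
    exact_mod_cast h2
  have hs : 1 / √(U : ℝ) ≤ 2 * (N : ℝ) ^ (-(ε / 4)) := by
    have h1 : (N : ℝ) ^ (ε / 2) / 2 ≤ (U : ℝ) := lrg_floor_half hx1
    have h2 : (N : ℝ) ^ (ε / 4) / 2 ≤ √(U : ℝ) := by
      apply Real.le_sqrt_of_sq_le
      have h3 : ((N : ℝ) ^ (ε / 4) / 2) ^ 2 = (N : ℝ) ^ (ε / 2) / 4 := by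
        rw [div_pow, ← Real.rpow_natCast, ← Real.rpow_mul hN0.le]
        have : ε / 4 * ((2 : ℕ) : ℝ) = ε / 2 := by push_cast; ring
        rw [this]
        norm_num
      rw [h3]
      linarith
    have h3 : 0 < (N : ℝ) ^ (ε / 4) / 2 := by positivity
    calc 1 / √(U : ℝ) ≤ 1 / ((N : ℝ) ^ (ε / 4) / 2) := one_div_le_one_div_of_le h3 h2
      _ = 2 * (N : ℝ) ^ (-(ε / 4)) := by
          rw [Real.rpow_neg hN0.le]
          field_simp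
  have h1 := h N Q U U hN hU1 hU1 hUN
  have hL : 0 ≤ K * Real.log N ^ 7 := mul_nonneg hK (pow_nonneg (Real.log_nonneg hN1) 7)
  refine h1.trans ?_
  have e1 : (Q : ℝ) * N * (1 / √(U : ℝ) + 1 / √(U : ℝ)) ≤ 4 * (N : ℝ) ^ (1 - ε / 4) * Q := by
    have h2 : (N : ℝ) * (N : ℝ) ^ (-(ε / 4)) = (N : ℝ) ^ (1 - ε / 4) := by
      rw [sub_eq_add_neg, Real.rpow_add hN0, Real.rpow_one]
    have h3 : (0 : ℝ) ≤ (Q : ℝ) * N := by positivity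
    calc (Q : ℝ) * N * (1 / √(U : ℝ) + 1 / √(U : ℝ)) ≤
          (Q : ℝ) * N * (2 * (N : ℝ) ^ (-(ε / 4)) + 2 * (N : ℝ) ^ (-(ε / 4))) :=
          mul_le_mul_of_nonneg_left (add_le_add hs hs) h3
      _ = 4 * ((N : ℝ) * (N : ℝ) ^ (-(ε / 4))) * Q := by ring
      _ = _ := by rw [h2]
  have e2 : (Q : ℝ) ^ 2 * √(N : ℝ) = (N : ℝ) ^ (1 / 2 : ℝ) * Q ^ 2 := by
    rw [Real.sqrt_eq_rpow]
    ring
  have e3 : (Q : ℝ) ^ 3 * ((U : ℝ) * U) ≤ (N : ℝ) ^ ε * Q ^ 3 := by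
    have : (0 : ℝ) ≤ (Q : ℝ) ^ 3 := by positivity
    nlinarith
  calc K * Real.log N ^ 7 * (N + Q * N * (1 / √(U : ℝ) + 1 / √(U : ℝ)) + Q ^ 2 * √(N : ℝ) + Q ^ 3 * (U * U))
      ≤ K * Real.log N ^ 7 * (N + 4 * (N : ℝ) ^ (1 - ε / 4) * Q + (N : ℝ) ^ (1 / 2 : ℝ) * Q ^ 2 +
          (N : ℝ) ^ ε * Q ^ 3) := by
        apply mul_le_mul_of_nonneg_left _ hL
        linarith [e1, e2, e3]
    _ = _ := by ring

theorem lrg_ev {ε : ℝ} (hε : 0 < ε) (a K : ℝ) : ∃ N0 : ℕ, ∀ N : ℕ, N0 ≤ N →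
    K * Real.log N ^ a ≤ (N : ℝ) ^ ε := by
  have h1 := (isLittleO_log_rpow_rpow_atTop a hε).bound (c := (|K| + 1)⁻¹) (by positivity)
  have h2 : ∀ᶠ N : ℕ in Filter.atTop, ‖Real.log (N : ℝ) ^ a‖ ≤ (|K| + 1)⁻¹ * ‖(N : ℝ) ^ ε‖ :=
    tendsto_natCast_atTop_atTop.eventually h1
  obtain ⟨N0, hN0⟩ := Filter.eventually_atTop.1 h2
  refine ⟨N0, fun N hN => ?_⟩
  have h3 := hN0 N hN
  have h4 : ‖(N : ℝ) ^ ε‖ = (N : ℝ) ^ ε := by
    rw [Real.norm_eq_abs, abs_of_nonneg (Real.rpow_nonneg (Nat.cast_nonneg _) _)]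
  rw [h4] at h3
  have h5 : (0 : ℝ) < |K| + 1 := by positivity
  have h6 : (|K| + 1) * ‖Real.log (N : ℝ) ^ a‖ ≤ (N : ℝ) ^ ε := by
    calc (|K| + 1) * ‖Real.log (N : ℝ) ^ a‖ ≤ (|K| + 1) * ((|K| + 1)⁻¹ * (N : ℝ) ^ ε) :=
          mul_le_mul_of_nonneg_left h3 h5.le
      _ = (N : ℝ) ^ ε := by
          rw [← mul_assoc, mul_inv_cancel₀ h5.ne', one_mul]
  have h7 : K * Real.log N ^ a ≤ |K| * ‖Real.log (N : ℝ) ^ a‖ := by
    calc K * Real.log N ^ a ≤ |K * Real.log N ^ a| := le_abs_self _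
      _ = |K| * ‖Real.log (N : ℝ) ^ a‖ := by rw [abs_mul, Real.norm_eq_abs]
  have h8 : 0 ≤ ‖Real.log (N : ℝ) ^ a‖ := norm_nonneg _
  nlinarith

theorem lrg_log (K : ℝ) : ∃ N0 : ℕ, ∀ N : ℕ, N0 ≤ N → K ≤ Real.log N := by
  have h1 : ∀ᶠ N : ℕ in Filter.atTop, K ≤ Real.log (N : ℝ) :=
    (Real.tendsto_log_atTop.comp tendsto_natCast_atTop_atTop).eventually_ge_atTop K
  exact Filter.eventually_atTop.1 h1

theorem lrg_core {ε : ℝ} (hε : 0 < ε) (hε1 : ε ≤ 1 / 4) {C : ℝ} (hC : 0 ≤ C) {A : ℝ} (hA : 1 ≤ A) :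
    ∃ B : ℝ, 0 ≤ B ∧ ∃ N0 : ℕ, ∀ N : ℕ, N0 ≤ N →
    ∑ r ∈ (Icc 1 ⌊(N : ℝ) ^ (1 / 2 - ε)⌋₊).filter (fun r : ℕ => Real.log N ^ B < (r : ℝ)),
      C ^ r.primeFactors.card / (Nat.totient r : ℝ) * XR N r ≤ N / Real.log N ^ A := by
  obtain ⟨K, hK, hXR⟩ := lrg_XR hε hε1
  obtain ⟨C1, hC1, hom⟩ := omega_bound hC (η := ε / 8) (by linarith)
  set B : ℝ := 2 * (A + 9) with hB
  have hB0 : 0 ≤ B := by rw [hB]; linarith
  obtain ⟨N1, hN1⟩ := lrg_log (max 1 (96 * K * C1))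
  obtain ⟨N2, hN2⟩ := lrg_ev (ε := 3 * ε / 16) (by linarith) (8 + A) (288 * K * C1)
  obtain ⟨N3, hN3⟩ := lrg_ev (ε := 1 / 2 - ε) (by linarith) B 1
  refine ⟨B, hB0, max 2 (max N1 (max N2 N3)), ?_⟩
  intro N hN
  have hN2' : 2 ≤ N := le_trans (le_max_left _ _) hN
  have hNN1 : N1 ≤ N := le_trans (le_trans (le_max_left _ _) (le_max_right _ _)) hN
  have hNN2 : N2 ≤ N := le_trans (le_trans (le_trans (le_max_left _ _) (le_max_right _ _)) (le_max_right _ _)) hN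
  have hNN3 : N3 ≤ N := le_trans (le_trans (le_trans (le_max_right _ _) (le_max_right _ _)) (le_max_right _ _)) hN
  have hx1 : (1 : ℝ) ≤ (N : ℝ) := by
    have : 1 ≤ N := by omega
    exact_mod_cast this
  have hx0 : (0 : ℝ) < (N : ℝ) := by linarith
  set L : ℝ := Real.log N with hL
  have hL1 : 1 ≤ L := le_trans (le_max_left _ _) (hN1 N hNN1)
  have hL0 : 0 < L := by linarith
  have hL2 : 96 * K * C1 ≤ L := le_trans (le_max_right _ _) (hN1 N hNN1)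
  have hL3 : 288 * K * C1 * L ^ (8 + A) ≤ (N : ℝ) ^ (3 * ε / 16) := hN2 N hNN2
  have hL4 : L ^ B ≤ (N : ℝ) ^ (1 / 2 - ε) := by
    have := hN3 N hNN3
    rwa [one_mul] at this
  set R1 : ℕ := ⌊L ^ B⌋₊ with hR1
  set R : ℕ := ⌊(N : ℝ) ^ (1 / 2 - ε)⌋₊ with hR
  have hLB1 : (1 : ℝ) ≤ L ^ B := Real.one_le_rpow hL1 hB0
  have hR11 : 1 ≤ R1 := Nat.floor_pos.mpr hLB1
  have hRR : R1 ≤ R := Nat.floor_le_floor hL4
  have hR0 : (1 : ℝ) ≤ (R : ℝ) := by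
    have : 1 ≤ R := hR11.trans hRR
    exact_mod_cast this
  have hRle : (R : ℝ) ≤ (N : ℝ) ^ (1 / 2 - ε) := Nat.floor_le (by positivity)
  have hKL : 0 ≤ K * L ^ 7 := by positivity
  -- step 1
  have s1 : ∑ r ∈ (Icc 1 R).filter (fun r : ℕ => L ^ B < (r : ℝ)),
      C ^ r.primeFactors.card / (Nat.totient r : ℝ) * XR N r ≤
      C1 * ∑ r ∈ Ioc R1 R, (r : ℝ) ^ (-1 + ε / 8) * XR N r := by
    rw [Finset.mul_sum]
    have t1 : ∀ r ∈ (Icc 1 R).filter (fun r : ℕ => L ^ B < (r : ℝ)),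
        C ^ r.primeFactors.card / (Nat.totient r : ℝ) * XR N r ≤
        C1 * ((r : ℝ) ^ (-1 + ε / 8) * XR N r) := by
      intro r hr
      rw [Finset.mem_filter, Finset.mem_Icc] at hr
      have := mul_le_mul_of_nonneg_right (hom r hr.1.1) (XR_nonneg N r)
      linarith
    refine (Finset.sum_le_sum t1).trans ?_
    apply Finset.sum_le_sum_of_subset_of_nonneg
    · intro r hr
      rw [Finset.mem_filter, Finset.mem_Icc] at hr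
      rw [Finset.mem_Ioc]
      refine ⟨?_, hr.1.2⟩
      have h1 : (R1 : ℝ) ≤ L ^ B := Nat.floor_le (by positivity)
      have h2 : (R1 : ℝ) < r := lt_of_le_of_lt h1 hr.2
      exact_mod_cast h2
    · intro r _ _
      have h1 : (0 : ℝ) ≤ (r : ℝ) ^ (-1 + ε / 8) := Real.rpow_nonneg (Nat.cast_nonneg _) _
      exact mul_nonneg hC1 (mul_nonneg h1 (XR_nonneg N r))
  -- step 2
  have s2 := dyd (X := fun r => XR N r) (fun r => XR_nonneg N r)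
    (a0 := K * L ^ 7 * N) (a1 := 4 * (K * L ^ 7) * (N : ℝ) ^ (1 - ε / 4))
    (a2 := K * L ^ 7 * (N : ℝ) ^ (1 / 2 : ℝ)) (a3 := K * L ^ 7 * (N : ℝ) ^ ε)
    (by positivity) (by positivity) (by positivity) (by positivity)
    hR11 hRR (fun Q _ => hXR N hN2' Q) (η := ε / 8) (by linarith) (by linarith)
  -- step 3
  have s3 : 8 * (Real.log R / Real.log 2 + 1) ≤ 24 * L := by
    have h1 : Real.log R ≤ L := by
      apply Real.log_le_log (by linarith)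
      calc (R : ℝ) ≤ (N : ℝ) ^ (1 / 2 - ε) := hRle
        _ ≤ (N : ℝ) ^ (1 : ℝ) := Real.rpow_le_rpow_of_exponent_le hx1 (by linarith)
        _ = N := Real.rpow_one _
    have h2 : (1 / 2 : ℝ) ≤ Real.log 2 := by
      have := Real.log_two_gt_d9
      linarith
    have h3 : Real.log R / Real.log 2 ≤ 2 * L := by
      rw [div_le_iff₀ (by linarith)]
      nlinarith
    linarith
  have s4 : (R1 : ℝ) ^ (-1 + ε / 8) ≤ 2 * L ^ (-(A + 9)) := by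
    have h1 : L ^ B / 2 ≤ (R1 : ℝ) := lrg_floor_half hLB1
    have h2 : 0 < L ^ B / 2 := by positivity
    have h3 : (R1 : ℝ) ^ (-1 + ε / 8) ≤ (L ^ B / 2) ^ (-1 + ε / 8) :=
      Real.rpow_le_rpow_of_nonpos h2 h1 (by linarith)
    have h4 : (L ^ B / 2) ^ (-1 + ε / 8) = L ^ (B * (-1 + ε / 8)) * (1 / 2 : ℝ) ^ (-1 + ε / 8) := by
      rw [div_eq_mul_one_div, Real.mul_rpow (by positivity) (by norm_num), ← Real.rpow_mul hL0.le]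
    have h5 : L ^ (B * (-1 + ε / 8)) ≤ L ^ (-(A + 9)) := by
      apply Real.rpow_le_rpow_of_exponent_le hL1
      rw [hB]
      nlinarith
    have h6 : (1 / 2 : ℝ) ^ (-1 + ε / 8) ≤ 2 := by
      have h7 : (1 / 2 : ℝ) ^ (-1 + ε / 8) ≤ (1 / 2 : ℝ) ^ (-1 : ℝ) :=
        Real.rpow_le_rpow_of_exponent_ge (by norm_num) (by norm_num) (by linarith)
      have h8 : (1 / 2 : ℝ) ^ (-1 : ℝ) = 2 := by
        rw [Real.rpow_neg_one]
        norm_num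
      linarith
    calc (R1 : ℝ) ^ (-1 + ε / 8) ≤ L ^ (B * (-1 + ε / 8)) * (1 / 2 : ℝ) ^ (-1 + ε / 8) := h3.trans h4.le
      _ ≤ L ^ (-(A + 9)) * 2 := mul_le_mul h5 h6 (by positivity) (by positivity)
      _ = _ := by ring
  have s5 : (R : ℝ) ^ (ε / 8) ≤ (N : ℝ) ^ (ε / 16) := by
    calc (R : ℝ) ^ (ε / 8) ≤ ((N : ℝ) ^ (1 / 2 - ε)) ^ (ε / 8) :=
          Real.rpow_le_rpow (by linarith) hRle (by linarith)
      _ = (N : ℝ) ^ ((1 / 2 - ε) * (ε / 8)) := by rw [← Real.rpow_mul hx0.le]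
      _ ≤ (N : ℝ) ^ (ε / 16) := by
          apply Real.rpow_le_rpow_of_exponent_le hx1
          nlinarith
  have s6 : (N : ℝ) ^ (1 / 2 : ℝ) * (R : ℝ) ≤ (N : ℝ) ^ (1 - ε / 4) := by
    calc (N : ℝ) ^ (1 / 2 : ℝ) * (R : ℝ) ≤ (N : ℝ) ^ (1 / 2 : ℝ) * (N : ℝ) ^ (1 / 2 - ε) :=
          mul_le_mul_of_nonneg_left hRle (by positivity)
      _ = (N : ℝ) ^ (1 - ε) := by
          rw [← Real.rpow_add hx0]
          congr 1
          ring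
      _ ≤ (N : ℝ) ^ (1 - ε / 4) := Real.rpow_le_rpow_of_exponent_le hx1 (by linarith)
  have s7 : (N : ℝ) ^ ε * (R : ℝ) ^ 2 ≤ (N : ℝ) ^ (1 - ε / 4) := by
    have h1 : (R : ℝ) ^ 2 ≤ (N : ℝ) ^ (1 - 2 * ε) := by
      calc (R : ℝ) ^ 2 ≤ ((N : ℝ) ^ (1 / 2 - ε)) ^ 2 := pow_le_pow_left₀ (by linarith) hRle 2
        _ = (N : ℝ) ^ (1 - 2 * ε) := by
            rw [← Real.rpow_natCast, ← Real.rpow_mul hx0.le]
            congr 1
            push_cast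
            ring
    calc (N : ℝ) ^ ε * (R : ℝ) ^ 2 ≤ (N : ℝ) ^ ε * (N : ℝ) ^ (1 - 2 * ε) :=
          mul_le_mul_of_nonneg_left h1 (by positivity)
      _ = (N : ℝ) ^ (1 - ε) := by
          rw [← Real.rpow_add hx0]
          congr 1
          ring
      _ ≤ (N : ℝ) ^ (1 - ε / 4) := Real.rpow_le_rpow_of_exponent_le hx1 (by linarith)
  have s8 : (R : ℝ) ^ (ε / 8) * (4 * (K * L ^ 7) * (N : ℝ) ^ (1 - ε / 4) +
      K * L ^ 7 * (N : ℝ) ^ (1 / 2 : ℝ) * R + K * L ^ 7 * (N : ℝ) ^ ε * R ^ 2) ≤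
      6 * (K * L ^ 7) * (N : ℝ) ^ (1 - 3 * ε / 16) := by
    have h1 : 4 * (K * L ^ 7) * (N : ℝ) ^ (1 - ε / 4) +
      K * L ^ 7 * (N : ℝ) ^ (1 / 2 : ℝ) * R + K * L ^ 7 * (N : ℝ) ^ ε * R ^ 2 ≤
      6 * (K * L ^ 7) * (N : ℝ) ^ (1 - ε / 4) := by
      have h2 := mul_le_mul_of_nonneg_left s6 hKL
      have h3 := mul_le_mul_of_nonneg_left s7 hKL
      have h4 : K * L ^ 7 * (N : ℝ) ^ (1 / 2 : ℝ) * R = K * L ^ 7 * ((N : ℝ) ^ (1 / 2 : ℝ) * R) := by ring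
      have h5 : K * L ^ 7 * (N : ℝ) ^ ε * R ^ 2 = K * L ^ 7 * ((N : ℝ) ^ ε * R ^ 2) := by ring
      rw [h4, h5]
      linarith
    calc _ ≤ (N : ℝ) ^ (ε / 16) * (6 * (K * L ^ 7) * (N : ℝ) ^ (1 - ε / 4)) :=
          mul_le_mul s5 h1 (by positivity) (by positivity)
      _ = 6 * (K * L ^ 7) * ((N : ℝ) ^ (ε / 16) * (N : ℝ) ^ (1 - ε / 4)) := by ring
      _ = _ := by
          rw [← Real.rpow_add hx0]
          congr 2
          ring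
  have s9 : K * L ^ 7 * N * (R1 : ℝ) ^ (-1 + ε / 8) ≤ 2 * (K * L ^ 7) * N * L ^ (-(A + 9)) := by
    have := mul_le_mul_of_nonneg_left s4 (show 0 ≤ K * L ^ 7 * N by positivity)
    linarith
  -- total
  have s10 : ∑ r ∈ Ioc R1 R, (r : ℝ) ^ (-1 + ε / 8) * XR N r ≤
      24 * L * (2 * (K * L ^ 7) * N * L ^ (-(A + 9)) + 6 * (K * L ^ 7) * (N : ℝ) ^ (1 - 3 * ε / 16)) := by
    refine s2.trans ?_
    apply mul_le_mul s3 (add_le_add s9 s8) (by positivity) (by positivity)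
  have s11 : L * (L ^ 7 * L ^ (-(A + 9))) = L ^ (-A) * L⁻¹ := by
    have h1 : L * (L ^ 7 * L ^ (-(A + 9))) = L ^ 8 * L ^ (-(A + 9)) := by ring
    rw [h1, ← Real.rpow_natCast, ← Real.rpow_neg_one L, ← Real.rpow_add hL0, ← Real.rpow_add hL0]
    congr 1
    push_cast
    ring
  have s12 : 48 * K * C1 * N * (L ^ (-A) * L⁻¹) ≤ N * L ^ (-A) / 2 := by
    have h1 : 0 < (N : ℝ) * L ^ (-A) := by positivity
    have h2 : 48 * K * C1 * L⁻¹ ≤ 1 / 2 := by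
      rw [← div_eq_mul_inv, div_le_iff₀ hL0]
      linarith
    calc 48 * K * C1 * N * (L ^ (-A) * L⁻¹) = (48 * K * C1 * L⁻¹) * (N * L ^ (-A)) := by ring
      _ ≤ 1 / 2 * (N * L ^ (-A)) := mul_le_mul_of_nonneg_right h2 h1.le
      _ = _ := by ring
  have s13 : 144 * K * C1 * (L * L ^ 7) * (N : ℝ) ^ (1 - 3 * ε / 16) ≤ N * L ^ (-A) / 2 := by
    have h1 : L * L ^ 7 = L ^ (8 + A) * L ^ (-A) := by
      rw [← Real.rpow_add hL0]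
      have : (8 + A + -A : ℝ) = ((8 : ℕ) : ℝ) := by push_cast; ring
      rw [this, Real.rpow_natCast]
      ring
    have h2 : (N : ℝ) ^ (1 - 3 * ε / 16) = N * (N : ℝ) ^ (-(3 * ε / 16)) := by
      rw [sub_eq_add_neg, Real.rpow_add hx0, Real.rpow_one]
    have h3 : 288 * K * C1 * L ^ (8 + A) * (N : ℝ) ^ (-(3 * ε / 16)) ≤ 1 := by
      have h4 : 0 < (N : ℝ) ^ (3 * ε / 16) := by positivity
      rw [Real.rpow_neg hx0.le, ← div_eq_mul_inv, div_le_one h4]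
      exact hL3
    rw [h1, h2]
    have h5 : 0 < (N : ℝ) * L ^ (-A) := by positivity
    calc 144 * K * C1 * (L ^ (8 + A) * L ^ (-A)) * (N * (N : ℝ) ^ (-(3 * ε / 16)))
        = (288 * K * C1 * L ^ (8 + A) * (N : ℝ) ^ (-(3 * ε / 16))) * (N * L ^ (-A) / 2) := by ring
      _ ≤ 1 * (N * L ^ (-A) / 2) := mul_le_mul_of_nonneg_right h3 (by positivity)
      _ = _ := by ring
  calc ∑ r ∈ (Icc 1 R).filter (fun r : ℕ => L ^ B < (r : ℝ)),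
      C ^ r.primeFactors.card / (Nat.totient r : ℝ) * XR N r ≤
      C1 * ∑ r ∈ Ioc R1 R, (r : ℝ) ^ (-1 + ε / 8) * XR N r := s1
    _ ≤ C1 * (24 * L * (2 * (K * L ^ 7) * N * L ^ (-(A + 9)) +
        6 * (K * L ^ 7) * (N : ℝ) ^ (1 - 3 * ε / 16))) := mul_le_mul_of_nonneg_left s10 hC1
    _ = 48 * K * C1 * N * (L * (L ^ 7 * L ^ (-(A + 9)))) +
        144 * K * C1 * (L * L ^ 7) * (N : ℝ) ^ (1 - 3 * ε / 16) := by ring
    _ ≤ N * L ^ (-A) / 2 + N * L ^ (-A) / 2 := by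
        rw [s11]
        exact add_le_add s12 s13
    _ = N / L ^ A := by
        rw [Real.rpow_neg hL0.le]
        ring

theorem lrg {ε : ℝ} (hε : 0 < ε) {C : ℝ} (hC : 0 ≤ C) (A : ℝ) : ∃ B : ℝ, 0 ≤ B ∧ ∃ N0 : ℕ, ∀ N : ℕ, N0 ≤ N →
    ∑ r ∈ (Icc 1 ⌊(N : ℝ) ^ (1 / 2 - ε)⌋₊).filter (fun r : ℕ => Real.log N ^ B < (r : ℝ)),
      C ^ r.primeFactors.card / (Nat.totient r : ℝ) * XR N r ≤ N / Real.log N ^ A := by
  have he0 : 0 < min ε (1 / 4) := lt_min hε (by norm_num)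
  obtain ⟨B, hB, N0, h⟩ := lrg_core he0 (min_le_right _ _) hC (A := max A 1) (le_max_right _ _)
  obtain ⟨N1, hN1⟩ := lrg_log 1
  refine ⟨B, hB, max 1 (max N0 N1), fun N hN => ?_⟩
  have hN1' : 1 ≤ N := le_trans (le_max_left _ _) hN
  have hN0' : N0 ≤ N := le_trans (le_trans (le_max_left _ _) (le_max_right _ _)) hN
  have hN1'' : N1 ≤ N := le_trans (le_trans (le_max_right _ _) (le_max_right _ _)) hN
  have hx1 : (1 : ℝ) ≤ (N : ℝ) := by exact_mod_cast hN1'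
  have hL1 : 1 ≤ Real.log N := hN1 N hN1''
  have h1 : ∑ r ∈ (Icc 1 ⌊(N : ℝ) ^ (1 / 2 - ε)⌋₊).filter (fun r : ℕ => Real.log N ^ B < (r : ℝ)),
      C ^ r.primeFactors.card / (Nat.totient r : ℝ) * XR N r ≤
      ∑ r ∈ (Icc 1 ⌊(N : ℝ) ^ (1 / 2 - min ε (1 / 4))⌋₊).filter (fun r : ℕ => Real.log N ^ B < (r : ℝ)),
      C ^ r.primeFactors.card / (Nat.totient r : ℝ) * XR N r := by
    apply Finset.sum_le_sum_of_subset_of_nonneg
    · intro r hr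
      rw [Finset.mem_filter, Finset.mem_Icc] at hr ⊢
      refine ⟨⟨hr.1.1, hr.1.2.trans (Nat.floor_le_floor ?_)⟩, hr.2⟩
      apply Real.rpow_le_rpow_of_exponent_le hx1
      have := min_le_left ε (1 / 4)
      linarith
    · intro r _ _
      exact mul_nonneg (by positivity) (XR_nonneg N r)
  refine h1.trans ((h N hN0').trans ?_)
  have h2 : Real.log N ^ A ≤ Real.log N ^ (max A 1) :=
    Real.rpow_le_rpow_of_exponent_le hL1 (le_max_left _ _)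
  have h3 : 0 < Real.log N ^ A := by positivity
  exact div_le_div_of_nonneg_left (by linarith) h3 h2

end BVL
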