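import Pool.Agent.H17.BV.Lap

/-!
# BV / LUP: upper bounds for `L(s,χ)` and `L'(s,χ)` near `Re s = 1` (from LAP)

`Lup`: `L ≥ log 3 > 1` (since `q(|t|+3) ≥ 3`). Take `N = ⌊e^L⌋ ≥ 3` (`N ≥ e^L - 1 ≥ (2/3) e^L`). As `1 - 1/(2L) ≤ σ`, `σ ≥ 1/2` and for
`n ≤ N`: `n^{-σ} ≤ n^{-1} n^{1/(2L)} ≤ e^{1/2} n^{-1}`, so `|∑_{n ≤ N}| ≤ e^{1/2} (1 + L)` (`harmonic_le_one_add_log`).
(If `σ ≥ 1` even `n^{-σ} ≤ n^{-1}`.) Remainder: `‖s‖ ≤ σ + |t| ≤ |t| + 3`, `‖s‖/σ ≤ 2(|t|+3)`, `N^{-σ} ≤ e^{1/2}/N ≤ (3/2) e^{1/2} e^{-L}`: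
`4q (‖s‖/σ) N^{-σ} ≤ 12 e^{1/2} q(|t|+3) e^{-L} ≤ 20`. Total `≤ 1.65 (1+L) + 20 ≤ 30 L`.
(careful with `3/2`: any constants work as long as the total is `≤ 30 L`.)

`LupD`: Cauchy on the circle of radius `1/(4L)` around `s` (`Complex.norm_deriv_le_of_forall_mem_sphere_norm_le`): there
`Re z ≥ 1 - 1/(2L)`, `Re z ≤ 3`, `|Im z| + 3 ≤ |Im s| + 4`: `≤ 30 L * 4 L`.

`Lcirc`: LAP with `N = 1`: `σ ≥ 1/2`, `‖s‖ ≤ 7/2`: `‖L(s,χ) - 1‖ ≤ 28 q`.
-/

open Finset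

namespace BVL

open DirichletCharacter

theorem Lup_exp_half : Real.exp (1 / 2) ≤ 1.65 := by
  have h1 : Real.exp (1 / 2) ^ 2 = Real.exp 1 := by
    rw [← Real.exp_nat_mul]
    norm_num
  have h2 := Real.exp_one_lt_d9
  have h3 := Real.exp_pos (1 / 2)
  nlinarith

theorem Lup_L1 {q : ℕ} [NeZero q] {t L c : ℝ} (hc : 3 ≤ c) (hL : (q : ℝ) * (|t| + c) ≤ Real.exp L) :
    1 ≤ L ∧ 3 ≤ Real.exp L := by
  have hq : (1 : ℝ) ≤ q := by
    have : 1 ≤ q := Nat.pos_of_ne_zero (NeZero.ne q)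
    exact_mod_cast this
  have h3 : 3 ≤ Real.exp L := by
    have := abs_nonneg t
    nlinarith
  refine ⟨?_, h3⟩
  have h1 := Real.exp_one_lt_d9
  have h2 : Real.exp 1 ≤ Real.exp L := by linarith
  exact Real.exp_le_exp.1 h2

/-- `n^{-σ} ≤ e^{1/2} / n` for `n ≤ e^L`, `σ ≥ 1 - 1/(2L)` -/
theorem Lup_pow {L σ : ℝ} (hL : 1 ≤ L) (hσ : 1 - 1 / (2 * L) ≤ σ) {n : ℕ} (hn : 1 ≤ n)
    (hnL : (n : ℝ) ≤ Real.exp L) : (n : ℝ) ^ (-σ) ≤ 1.65 * (n : ℝ)⁻¹ := by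
  have hn1 : (1 : ℝ) ≤ n := by exact_mod_cast hn
  have hn0 : (0 : ℝ) < n := by linarith
  have h1 : (n : ℝ) ^ (-σ) ≤ (n : ℝ) ^ (-1 + 1 / (2 * L)) :=
    Real.rpow_le_rpow_of_exponent_le hn1 (by linarith)
  refine h1.trans ?_
  rw [Real.rpow_add hn0, Real.rpow_neg_one, mul_comm]
  refine mul_le_mul_of_nonneg_right ?_ (by positivity)
  have h2 : (n : ℝ) ^ (1 / (2 * L)) ≤ (Real.exp L) ^ (1 / (2 * L)) :=
    Real.rpow_le_rpow hn0.le hnL (by positivity)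
  refine h2.trans ?_
  rw [← Real.exp_mul]
  have h3 : L * (1 / (2 * L)) = 1 / 2 := by
    field_simp
  rw [h3]
  exact Lup_exp_half

theorem Lup {q : ℕ} [NeZero q] {χ : DirichletCharacter ℂ q} (hχ : χ ≠ 1) {s : ℂ} {L : ℝ}
    (hL : (q : ℝ) * (|s.im| + 3) ≤ Real.exp L) (h1 : 1 - 1 / (2 * L) ≤ s.re) (h2 : s.re ≤ 3) :
    ‖LFunction χ s‖ ≤ 30 * L := by
  obtain ⟨hL1, hL3⟩ := Lup_L1 le_rfl hL
  have hq0 : (0 : ℝ) ≤ q := Nat.cast_nonneg q
  have hinv : 1 / (2 * L) ≤ 1 / 2 := by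
    rw [div_le_div_iff₀ (by linarith) (by norm_num)]
    linarith
  have hσ : 1 / 2 ≤ s.re := by linarith
  have hσ0 : 0 < s.re := by linarith
  obtain ⟨N, hN⟩ : ∃ N, N = ⌊Real.exp L⌋₊ := ⟨_, rfl⟩
  have hNle : (N : ℝ) ≤ Real.exp L := by
    rw [hN]
    exact Nat.floor_le (Real.exp_pos L).le
  have hN1 : 1 ≤ N := by
    rw [hN]
    exact Nat.le_floor (by push_cast; linarith)
  have hNge : 2 / 3 * Real.exp L ≤ N := by
    have := Nat.lt_floor_add_one (Real.exp L)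
    rw [← hN] at this
    linarith
  have hN0 : (0 : ℝ) < N := by
    have : (1 : ℝ) ≤ N := by exact_mod_cast hN1
    linarith
  have hlap := lap hχ hN1 hσ0
  -- the sum
  have hsum : ‖∑ n ∈ Icc 1 N, χ n * (n : ℂ) ^ (-s)‖ ≤ 1.65 * (1 + L) := by
    refine (norm_sum_le _ _).trans ?_
    have hterm : ∀ n ∈ Icc 1 N, ‖χ n * (n : ℂ) ^ (-s)‖ ≤ 1.65 * (n : ℝ)⁻¹ := by
      intro n hn
      rw [Finset.mem_Icc] at hn
      have hnpos : 0 < n := by omega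
      rw [norm_mul, Complex.norm_natCast_cpow_of_pos hnpos, Complex.neg_re]
      have hnN : (n : ℝ) ≤ N := by exact_mod_cast hn.2
      have h3 := Lup_pow hL1 h1 hn.1 (hnN.trans hNle)
      have h4 : ‖χ (n : ZMod q)‖ ≤ 1 := DirichletCharacter.norm_le_one χ _
      have h5 : (0 : ℝ) ≤ (n : ℝ) ^ (-s.re) := by positivity
      calc ‖χ (n : ZMod q)‖ * (n : ℝ) ^ (-s.re) ≤ 1 * (n : ℝ) ^ (-s.re) := by gcongr
        _ ≤ _ := by rw [one_mul]; exact h3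
    refine (Finset.sum_le_sum hterm).trans ?_
    rw [← Finset.mul_sum]
    refine mul_le_mul_of_nonneg_left ?_ (by norm_num)
    have h6 := harmonic_le_one_add_log N
    have h7 : (∑ n ∈ Icc 1 N, (n : ℝ)⁻¹) = ((harmonic N : ℚ) : ℝ) := by
      rw [harmonic_eq_sum_Icc]
      push_cast
      rfl
    rw [h7]
    refine h6.trans ?_
    have h8 : Real.log N ≤ L := by
      have := Real.log_le_log hN0 hNle
      rwa [Real.log_exp] at this
    linarith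
  -- the remainder
  have hrem : 4 * (q : ℝ) * (‖s‖ / s.re) * (N : ℝ) ^ (-s.re) ≤ 19.8 := by
    have a1 : ‖s‖ / s.re ≤ 2 * (|s.im| + 3) := by
      rw [div_le_iff₀ hσ0]
      have b1 : ‖s‖ ≤ |s.re| + |s.im| := Complex.norm_le_abs_re_add_abs_im s
      rw [abs_of_pos hσ0] at b1
      have b2 := abs_nonneg s.im
      nlinarith
    have a2 := Lup_pow hL1 h1 hN1 hNle
    have a3 : (N : ℝ)⁻¹ ≤ 3 / 2 * (Real.exp L)⁻¹ := by
      rw [← div_eq_mul_inv, inv_eq_one_div, div_le_div_iff₀ hN0 (Real.exp_pos L)]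
      linarith
    have b2 := abs_nonneg s.im
    have b3 : 0 ≤ ‖s‖ / s.re := by positivity
    have b4 := Real.exp_pos L
    calc 4 * (q : ℝ) * (‖s‖ / s.re) * (N : ℝ) ^ (-s.re)
        ≤ 4 * (q : ℝ) * (2 * (|s.im| + 3)) * (1.65 * (3 / 2 * (Real.exp L)⁻¹)) := by
          gcongr
          exact a2.trans (mul_le_mul_of_nonneg_left a3 (by norm_num))
      _ = 19.8 * (((q : ℝ) * (|s.im| + 3)) * (Real.exp L)⁻¹) := by ring
      _ ≤ 19.8 * (Real.exp L * (Real.exp L)⁻¹) := by gcongr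
      _ = 19.8 := by rw [mul_inv_cancel₀ b4.ne', mul_one]
  have hfin : ‖LFunction χ s‖ ≤ ‖LFunction χ s - ∑ n ∈ Icc 1 N, χ n * (n : ℂ) ^ (-s)‖ +
      ‖∑ n ∈ Icc 1 N, χ n * (n : ℂ) ^ (-s)‖ := by
    have := norm_add_le (LFunction χ s - ∑ n ∈ Icc 1 N, χ n * (n : ℂ) ^ (-s))
      (∑ n ∈ Icc 1 N, χ n * (n : ℂ) ^ (-s))
    rwa [sub_add_cancel] at this
  linarith

theorem LupD {q : ℕ} [NeZero q] {χ : DirichletCharacter ℂ q} (hχ : χ ≠ 1) {s : ℂ} {L : ℝ}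
    (hL : (q : ℝ) * (|s.im| + 4) ≤ Real.exp L) (h1 : 1 - 1 / (4 * L) ≤ s.re) (h2 : s.re ≤ 2) :
    ‖deriv (LFunction χ) s‖ ≤ 120 * L ^ 2 := by
  obtain ⟨hL1, -⟩ := Lup_L1 (by norm_num) hL
  have hq0 : (0 : ℝ) ≤ q := Nat.cast_nonneg q
  have hR : 0 < 1 / (4 * L) := by positivity
  have hR1 : 1 / (4 * L) ≤ 1 := by
    rw [div_le_one (by linarith)]
    linarith
  have hd := Complex.norm_deriv_le_of_forall_mem_sphere_norm_le (c := s) (R := 1 / (4 * L))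
    (C := 30 * L) (f := LFunction χ) hR (differentiable_LFunction hχ).diffContOnCl (by
      intro z hz
      rw [Metric.mem_sphere, dist_eq_norm] at hz
      have a1 : |z.re - s.re| ≤ 1 / (4 * L) := by
        have := Complex.abs_re_le_norm (z - s)
        rw [Complex.sub_re, hz] at this
        exact this
      have a2 : |z.im - s.im| ≤ 1 / (4 * L) := by
        have := Complex.abs_im_le_norm (z - s)
        rw [Complex.sub_im, hz] at this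
        exact this
      have a3 : |z.im| ≤ |s.im| + 1 := by
        have b1 : |z.im| ≤ |z.im - s.im| + |s.im| := by
          have := abs_add_le (z.im - s.im) s.im
          rwa [sub_add_cancel] at this
        linarith
      rw [abs_le] at a1
      have a4 : 1 / (2 * L) = 1 / (4 * L) + 1 / (4 * L) := by
        field_simp
        norm_num
      refine Lup hχ (le_trans ?_ hL) ?_ ?_
      · refine mul_le_mul_of_nonneg_left ?_ hq0
        linarith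
      · rw [a4]
        linarith [a1.1]
      · linarith [a1.2])
  refine hd.trans (le_of_eq ?_)
  field_simp
  norm_num

theorem Lcirc {q : ℕ} [NeZero q] {χ : DirichletCharacter ℂ q} (hχ : χ ≠ 1) {s : ℂ} (hs : ‖s - 2‖ ≤ 3 / 2) :
    ‖LFunction χ s‖ ≤ 29 * q := by
  have hq : (1 : ℝ) ≤ q := by
    have : 1 ≤ q := Nat.pos_of_ne_zero (NeZero.ne q)
    exact_mod_cast this
  have hre : 1 / 2 ≤ s.re := by
    have h1 := Complex.abs_re_le_norm (s - 2)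
    have h2 : (s - 2).re = s.re - 2 := by simp
    rw [h2] at h1
    have h3 := (abs_le.1 (h1.trans hs)).1
    linarith
  have hnorm : ‖s‖ ≤ 7 / 2 := by
    have h1 := norm_add_le (s - 2) 2
    rw [sub_add_cancel, Complex.norm_ofNat] at h1
    linarith
  have hσ0 : 0 < s.re := by linarith
  have h := lap hχ (le_refl 1) hσ0
  rw [Finset.Icc_self, Finset.sum_singleton, Nat.cast_one, Nat.cast_one, Nat.cast_one, map_one,
    Complex.one_cpow, Real.one_rpow, one_mul, mul_one] at h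
  have h3 : ‖s‖ / s.re ≤ 7 := by
    rw [div_le_iff₀ hσ0]
    linarith
  have h4 : ‖LFunction χ s‖ ≤ ‖LFunction χ s - 1‖ + 1 := by
    have := norm_add_le (LFunction χ s - 1) 1
    rwa [sub_add_cancel, norm_one] at this
  have h5 : 4 * (q : ℝ) * (‖s‖ / s.re) ≤ 4 * q * 7 := by gcongr
  linarith

end BVL
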