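import Pool.Agent.H17.BV.Defs

/-!
# BV / ORB: `ψ(y,χ)` and the primitive character

For `n` coprime to `q`: `χ(n) = χ*(n)` (`χ* = χ.primitiveCharacter`; `primitiveCharacter_apply_of_isCoprime` or `changeLevel_primitiveCharacter` with
`changeLevel_eq_cast_of_dvd`); for other `n`: `χ(n) = 0`, `|χ*(n)| ≤ 1`. So the difference is at most `∑_{n ≤ y, (n,q) > 1} Λ(n)`. `Λ(n) ≠ 0` and `(n,q) > 1` mean
`n = p^k` with `p ∣ q`, so the sum is at most `∑_{p ∣ q} (log p) #{k ≥ 1 : p^k ≤ y} ≤ ∑_{p ∣ q} log y` (`Nat.log p y * log p ≤ log y`)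
`≤ ω(q) log y ≤ (log q/log 2) log N ≤ 2 (log N)^2` (`2^{ω(q)} ≤ q`; `log 2 > 1/2`).
-/

open Finset H69LB

namespace BVL

open DirichletCharacter

theorem prim_diff_sum_p {p y : ℕ} (hp : p.Prime) (hy : 1 ≤ y) :
    ∑ n ∈ (Icc 1 y).filter (fun n => p ∣ n), ArithmeticFunction.vonMangoldt n ≤ Real.log y := by
  classical
  have h1 : ∑ n ∈ (Icc 1 y).filter (fun n => p ∣ n), ArithmeticFunction.vonMangoldt n
      ≤ ∑ n ∈ (Icc 1 (Nat.log p y)).image (fun k => p ^ k), ArithmeticFunction.vonMangoldt n := by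
    rw [← Finset.sum_filter_ne_zero]
    apply Finset.sum_le_sum_of_subset_of_nonneg
    · intro n hn
      rw [mem_filter, mem_filter, mem_Icc] at hn
      obtain ⟨⟨⟨hn1, hny⟩, hpn⟩, hne⟩ := hn
      have hpp : IsPrimePow n := ArithmeticFunction.vonMangoldt_ne_zero_iff.1 hne
      obtain ⟨r, k, hr, hk, hrk⟩ := hpp
      have hr' : r.Prime := Nat.prime_iff.2 hr
      have hpr : p ∣ r := hp.dvd_of_dvd_pow (hrk ▸ hpn)
      have hpr' : p = r := (Nat.prime_dvd_prime_iff_eq hp hr').1 hpr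
      rw [mem_image]
      refine ⟨k, ?_, by rw [hpr']; exact hrk⟩
      rw [mem_Icc]
      refine ⟨hk, ?_⟩
      apply Nat.le_log_of_pow_le hp.one_lt
      rw [hpr', hrk]; exact hny
    · intro n _ _
      exact ArithmeticFunction.vonMangoldt_nonneg
  refine h1.trans ?_
  rw [Finset.sum_image (fun a _ b _ h => Nat.pow_right_injective hp.two_le h)]
  have h2 : ∀ k ∈ Icc 1 (Nat.log p y), ArithmeticFunction.vonMangoldt (p ^ k) = Real.log p := by
    intro k hk
    rw [mem_Icc] at hk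
    rw [ArithmeticFunction.vonMangoldt_apply_pow (by omega),
      ArithmeticFunction.vonMangoldt_apply_prime hp]
  rw [Finset.sum_congr rfl h2, Finset.sum_const, Nat.card_Icc, nsmul_eq_mul, Nat.add_sub_cancel,
    ← Real.log_pow]
  apply Real.log_le_log
  · have : (0:ℝ) < p := by exact_mod_cast hp.pos
    positivity
  · exact_mod_cast Nat.pow_log_le_self p (by omega)

theorem prim_diff_card {q N : ℕ} (hq0 : q ≠ 0) (hq : q ≤ N) (hN : 2 ≤ N) :
    (q.primeFactors.card : ℝ) ≤ 2 * Real.log N := by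
  have h1 : 2 ^ q.primeFactors.card ≤ N := by
    calc 2 ^ q.primeFactors.card = ∏ _p ∈ q.primeFactors, 2 := by rw [Finset.prod_const]
      _ ≤ ∏ p ∈ q.primeFactors, p :=
          Finset.prod_le_prod' fun p hp => (Nat.prime_of_mem_primeFactors hp).two_le
      _ ≤ q := Nat.le_of_dvd (Nat.pos_of_ne_zero hq0) (Nat.prod_primeFactors_dvd q)
      _ ≤ N := hq
  have h2 : (q.primeFactors.card : ℝ) * Real.log 2 ≤ Real.log N := by
    rw [← Real.log_pow]
    apply Real.log_le_log (by positivity)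
    exact_mod_cast h1
  have h3 : (1:ℝ)/2 ≤ Real.log 2 := by have := Real.log_two_gt_d9; linarith
  have h4 : (0:ℝ) ≤ (q.primeFactors.card : ℝ) := Nat.cast_nonneg _
  nlinarith

theorem prim_diff {q : ℕ} [NeZero q] (χ : DirichletCharacter ℂ q) {y N : ℕ} (hy : y ≤ N) (hq : q ≤ N) (hN : 2 ≤ N) :
    ‖psiC χ y - psiC χ.primitiveCharacter y‖ ≤ 2 * Real.log N ^ 2 := by
  classical
  have hq0 : q ≠ 0 := NeZero.ne q
  rcases Nat.eq_zero_or_pos y with hy0 | hy0
  · subst hy0
    simp [psiC]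
    positivity
  have hlogy : Real.log y ≤ Real.log N :=
    Real.log_le_log (by exact_mod_cast hy0) (by exact_mod_cast hy)
  have hterm : ∀ n ∈ Icc 1 y, ‖(ArithmeticFunction.vonMangoldt n : ℂ) * χ n -
      (ArithmeticFunction.vonMangoldt n : ℂ) * χ.primitiveCharacter n‖ ≤
      ∑ p ∈ q.primeFactors, if p ∣ n then ArithmeticFunction.vonMangoldt n else 0 := by
    intro n hn
    rw [mem_Icc] at hn
    have hnn : ∀ p ∈ q.primeFactors, (0:ℝ) ≤ if p ∣ n then ArithmeticFunction.vonMangoldt n else 0 := by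
      intro p _
      split_ifs
      · exact ArithmeticFunction.vonMangoldt_nonneg
      · exact le_rfl
    by_cases hc : Nat.Coprime n q
    · have h1 : χ.primitiveCharacter ((n : ℤ) : ZMod χ.conductor) = χ ((n : ℤ) : ZMod q) :=
        primitiveCharacter_apply_of_isCoprime (χ := χ) (Nat.isCoprime_iff_coprime.2 hc)
      rw [Int.cast_natCast, Int.cast_natCast] at h1
      rw [h1, sub_self, norm_zero]
      exact Finset.sum_nonneg hnn
    · obtain ⟨p, hp, hpn, hpq⟩ := Nat.Prime.not_coprime_iff_dvd.1 hc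
      have h0 : χ (n : ZMod q) = 0 := by
        apply MulChar.map_nonunit
        rw [ZMod.isUnit_iff_coprime]
        exact hc
      rw [h0, mul_zero, zero_sub, norm_neg, norm_mul]
      have h2 : ‖χ.primitiveCharacter (n : ZMod χ.conductor)‖ ≤ 1 := DirichletCharacter.norm_le_one _ _
      have h3 : ‖((ArithmeticFunction.vonMangoldt n : ℝ) : ℂ)‖ = ArithmeticFunction.vonMangoldt n := by
        rw [Complex.norm_real, Real.norm_of_nonneg ArithmeticFunction.vonMangoldt_nonneg]
      calc ‖((ArithmeticFunction.vonMangoldt n : ℝ) : ℂ)‖ * ‖χ.primitiveCharacter (n : ZMod χ.conductor)‖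
          ≤ ‖((ArithmeticFunction.vonMangoldt n : ℝ) : ℂ)‖ * 1 :=
            mul_le_mul_of_nonneg_left h2 (norm_nonneg _)
        _ = if p ∣ n then ArithmeticFunction.vonMangoldt n else 0 := by
            rw [mul_one, h3, if_pos hpn]
        _ ≤ ∑ p ∈ q.primeFactors, if p ∣ n then ArithmeticFunction.vonMangoldt n else 0 :=
            Finset.single_le_sum hnn (Nat.mem_primeFactors.2 ⟨hp, hpq, hq0⟩)
  unfold psiC
  rw [← Finset.sum_sub_distrib]
  calc ‖∑ n ∈ Icc 1 y, ((ArithmeticFunction.vonMangoldt n : ℂ) * χ n -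
      (ArithmeticFunction.vonMangoldt n : ℂ) * χ.primitiveCharacter n)‖
      ≤ ∑ n ∈ Icc 1 y, ‖(ArithmeticFunction.vonMangoldt n : ℂ) * χ n -
      (ArithmeticFunction.vonMangoldt n : ℂ) * χ.primitiveCharacter n‖ := norm_sum_le _ _
    _ ≤ ∑ n ∈ Icc 1 y, ∑ p ∈ q.primeFactors, (if p ∣ n then ArithmeticFunction.vonMangoldt n else 0) :=
        Finset.sum_le_sum hterm
    _ = ∑ p ∈ q.primeFactors, ∑ n ∈ Icc 1 y, (if p ∣ n then ArithmeticFunction.vonMangoldt n else 0) :=
        Finset.sum_comm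
    _ ≤ ∑ p ∈ q.primeFactors, Real.log y := by
        apply Finset.sum_le_sum
        intro p hp
        rw [← Finset.sum_filter]
        exact prim_diff_sum_p (Nat.prime_of_mem_primeFactors hp) hy0
    _ = q.primeFactors.card * Real.log y := by rw [Finset.sum_const, nsmul_eq_mul]
    _ ≤ (2 * Real.log N) * Real.log N := by
        apply mul_le_mul (prim_diff_card hq0 hq hN) hlogy
        · exact Real.log_natCast_nonneg y
        · have := Real.log_natCast_nonneg N
          linarith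
    _ = 2 * Real.log N ^ 2 := by ring

end BVL
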