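import Pool.Agent.H17.BV.OrA
import Pool.Agent.H17.BV.OrB

/-!
# BV / ORTH: primes in a residue class by primitive characters (from ORA, ORB)

Orthogonality (`DirichletCharacter.sum_char_inv_mul_char_eq`): for `a` coprime to `q`,
`∑_{n ≤ y, n = a (q)} Λ(n) = (1/φ(q)) ∑_{χ mod q} χ(a)^{-1} ψ(y,χ)`, `|χ(a)^{-1}| = 1`. For every `χ` the difference of `ψ(y,χ)` and `ψ(y,χ*)` is at most
`2 (log N)^2` (ORB), and there are `φ(q)` characters (`DirichletCharacter.card_eq_totient_of_hasEnoughRootsOfUnity`-type lemma; `Nat.card`/`Fintype.card`), total `≤ 2 (log N)^2`.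
For `χ = 1`: `χ* = 1` modulo 1 and `ψ(y,1) = ∑_{n ≤ y} Λ(n)` (`χ(a)^{-1} = 1`). For `χ ≠ 1`: `‖ψ(y,χ*)‖ ≤ PM N χ*` and ORA with `F r χ = PM N χ`.
-/

open Finset H69LB

namespace BVL

theorem Orth_one {d : ℕ} (hd : d = 1) (n : ℕ) : (1 : DirichletCharacter ℂ d) (n : ZMod d) = 1 := by
  refine MulChar.one_apply ?_
  exact (ZMod.isUnit_iff_coprime n d).2 (by rw [hd]; exact Nat.coprime_one_right n)

theorem Orth_psi {q : ℕ} [NeZero q] (y : ℕ) :
    psiC (1 : DirichletCharacter ℂ q).primitiveCharacter y =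
      ((∑ n ∈ Icc 1 y, ArithmeticFunction.vonMangoldt n : ℝ) : ℂ) := by
  rw [DirichletCharacter.primitiveCharacter_one]
  unfold psiC
  push_cast
  refine Finset.sum_congr rfl fun n _ => ?_
  rw [Orth_one DirichletCharacter.conductor_one, mul_one]

theorem orth {q : ℕ} (hq : 1 ≤ q) {a y N : ℕ} (ha : Nat.Coprime a q) (hy : y ≤ N) (hqN : q ≤ N) (hN : 2 ≤ N) :
    |∑ n ∈ (Icc 1 y).filter (fun n => n ≡ a [MOD q]), ArithmeticFunction.vonMangoldt n -
      (∑ n ∈ Icc 1 y, ArithmeticFunction.vonMangoldt n) / (Nat.totient q : ℝ)| ≤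
    (∑ r ∈ q.divisors, XR N r) / (Nat.totient q : ℝ) + 2 * Real.log N ^ 2 := by
  classical
  have hne : NeZero q := ⟨by omega⟩
  have hua : IsUnit ((a : ℕ) : ZMod q) := (ZMod.isUnit_iff_coprime a q).2 ha
  obtain ⟨S, hS⟩ : ∃ S : ℝ, S = ∑ n ∈ (Icc 1 y).filter (fun n => n ≡ a [MOD q]),
    ArithmeticFunction.vonMangoldt n := ⟨_, rfl⟩
  obtain ⟨P, hP⟩ : ∃ P : ℝ, P = ∑ n ∈ Icc 1 y, ArithmeticFunction.vonMangoldt n := ⟨_, rfl⟩
  rw [← hS, ← hP]
  have h1 : ((Nat.totient q : ℝ) : ℂ) * (S : ℂ) =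
      ∑ χ : DirichletCharacter ℂ q, χ (((a : ℕ) : ZMod q)⁻¹) * psiC χ y := by
    have e1 : ∀ n : ℕ, ∑ χ : DirichletCharacter ℂ q, χ (((a : ℕ) : ZMod q)⁻¹) * χ ((n : ℕ) : ZMod q) =
        if ((a : ℕ) : ZMod q) = ((n : ℕ) : ZMod q) then (q.totient : ℂ) else 0 :=
      fun n => DirichletCharacter.sum_char_inv_mul_char_eq ℂ hua _
    have e2 : ((Nat.totient q : ℝ) : ℂ) * (S : ℂ) = ∑ n ∈ Icc 1 y,
        (ArithmeticFunction.vonMangoldt n : ℂ) *
          (if ((a : ℕ) : ZMod q) = ((n : ℕ) : ZMod q) then (q.totient : ℂ) else 0) := by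
      rw [hS, Finset.sum_filter]
      push_cast
      rw [Finset.mul_sum]
      refine Finset.sum_congr rfl fun n _ => ?_
      by_cases h : n ≡ a [MOD q]
      · rw [if_pos h, if_pos ((ZMod.natCast_eq_natCast_iff a n q).2 h.symm), mul_comm]
      · rw [if_neg h, if_neg (fun h' => h ((ZMod.natCast_eq_natCast_iff a n q).1 h').symm)]
        simp
    rw [e2]
    calc ∑ n ∈ Icc 1 y, (ArithmeticFunction.vonMangoldt n : ℂ) *
          (if ((a : ℕ) : ZMod q) = ((n : ℕ) : ZMod q) then (q.totient : ℂ) else 0)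
        = ∑ n ∈ Icc 1 y, ∑ χ : DirichletCharacter ℂ q, (ArithmeticFunction.vonMangoldt n : ℂ) *
            (χ (((a : ℕ) : ZMod q)⁻¹) * χ ((n : ℕ) : ZMod q)) := by
          refine Finset.sum_congr rfl fun n _ => ?_
          rw [← e1 n, Finset.mul_sum]
      _ = ∑ χ : DirichletCharacter ℂ q, ∑ n ∈ Icc 1 y, (ArithmeticFunction.vonMangoldt n : ℂ) *
            (χ (((a : ℕ) : ZMod q)⁻¹) * χ ((n : ℕ) : ZMod q)) := Finset.sum_comm
      _ = _ := by
          refine Finset.sum_congr rfl fun χ _ => ?_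
          unfold psiC
          rw [Finset.mul_sum]
          refine Finset.sum_congr rfl fun n _ => ?_
          ring
  have h3 : ∑ χ : DirichletCharacter ℂ q, χ (((a : ℕ) : ZMod q)⁻¹) * psiC χ.primitiveCharacter y =
      (P : ℂ) + ∑ χ ∈ (univ : Finset (DirichletCharacter ℂ q)).filter (fun χ => χ ≠ 1),
        χ (((a : ℕ) : ZMod q)⁻¹) * psiC χ.primitiveCharacter y := by
    rw [Finset.filter_ne', ← Finset.add_sum_erase univ _ (Finset.mem_univ (1 : DirichletCharacter ℂ q)),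
      Orth_psi, ← hP]
    have hu : IsUnit (((a : ℕ) : ZMod q)⁻¹) := by
      refine IsUnit.of_mul_eq_one (((a : ℕ) : ZMod q)) ?_
      exact ZMod.inv_mul_of_unit _ hua
    rw [MulChar.one_apply hu, one_mul]
  have h2 : ((Nat.totient q : ℝ) : ℂ) * (S : ℂ) - (P : ℂ) =
      ∑ χ : DirichletCharacter ℂ q, χ (((a : ℕ) : ZMod q)⁻¹) * (psiC χ y - psiC χ.primitiveCharacter y) +
      ∑ χ ∈ (univ : Finset (DirichletCharacter ℂ q)).filter (fun χ => χ ≠ 1),
        χ (((a : ℕ) : ZMod q)⁻¹) * psiC χ.primitiveCharacter y := by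
    have e1 : ∑ χ : DirichletCharacter ℂ q, χ (((a : ℕ) : ZMod q)⁻¹) *
        (psiC χ y - psiC χ.primitiveCharacter y) =
        ∑ χ : DirichletCharacter ℂ q, χ (((a : ℕ) : ZMod q)⁻¹) * psiC χ y -
        ∑ χ : DirichletCharacter ℂ q, χ (((a : ℕ) : ZMod q)⁻¹) * psiC χ.primitiveCharacter y := by
      rw [← Finset.sum_sub_distrib]
      refine Finset.sum_congr rfl fun χ _ => ?_
      ring
    rw [e1, h3, h1]
    ring
  have hφ : (0 : ℝ) < (Nat.totient q : ℝ) := by exact_mod_cast Nat.totient_pos.2 hq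
  have hcard : ((Finset.univ : Finset (DirichletCharacter ℂ q)).card : ℝ) = (Nat.totient q : ℝ) := by
    rw [Finset.card_univ, ← Nat.card_eq_fintype_card,
      DirichletCharacter.card_eq_totient_of_hasEnoughRootsOfUnity ℂ q]
  have h4 : ‖∑ χ : DirichletCharacter ℂ q, χ (((a : ℕ) : ZMod q)⁻¹) *
      (psiC χ y - psiC χ.primitiveCharacter y)‖ ≤ (Nat.totient q : ℝ) * (2 * Real.log N ^ 2) := by
    refine (norm_sum_le _ _).trans ?_
    have h5 : ∀ χ ∈ (univ : Finset (DirichletCharacter ℂ q)), ‖χ (((a : ℕ) : ZMod q)⁻¹) *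
        (psiC χ y - psiC χ.primitiveCharacter y)‖ ≤ 2 * Real.log N ^ 2 := by
      intro χ _
      rw [norm_mul]
      calc ‖χ (((a : ℕ) : ZMod q)⁻¹)‖ * ‖psiC χ y - psiC χ.primitiveCharacter y‖
          ≤ 1 * (2 * Real.log N ^ 2) :=
            mul_le_mul (DirichletCharacter.norm_le_one χ _) (prim_diff χ hy hqN hN) (norm_nonneg _)
              (by norm_num)
        _ = _ := one_mul _
    refine (Finset.sum_le_sum h5).trans (le_of_eq ?_)
    rw [Finset.sum_const, nsmul_eq_mul, hcard]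
  have h5 : ‖∑ χ ∈ (univ : Finset (DirichletCharacter ℂ q)).filter (fun χ => χ ≠ 1),
        χ (((a : ℕ) : ZMod q)⁻¹) * psiC χ.primitiveCharacter y‖ ≤ ∑ r ∈ q.divisors, XR N r := by
    refine (norm_sum_le _ _).trans ?_
    have h6 : ∀ χ ∈ (univ : Finset (DirichletCharacter ℂ q)).filter (fun χ => χ ≠ 1),
        ‖χ (((a : ℕ) : ZMod q)⁻¹) * psiC χ.primitiveCharacter y‖ ≤ PM N χ.primitiveCharacter := by
      intro χ _
      rw [norm_mul]
      calc ‖χ (((a : ℕ) : ZMod q)⁻¹)‖ * ‖psiC χ.primitiveCharacter y‖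
          ≤ 1 * PM N χ.primitiveCharacter :=
            mul_le_mul (DirichletCharacter.norm_le_one χ _) (le_PM _ hy) (norm_nonneg _) (by norm_num)
        _ = _ := one_mul _
    refine (Finset.sum_le_sum h6).trans ?_
    have h7 := cond_sum q (fun r χ => PM N χ) (fun r χ => PM_nonneg N χ)
    refine le_trans (le_of_eq ?_) h7
    refine Finset.sum_congr ?_ fun _ _ => rfl
    ext χ
    simp
  have h6 : |(Nat.totient q : ℝ) * S - P| ≤ ∑ r ∈ q.divisors, XR N r +
      (Nat.totient q : ℝ) * (2 * Real.log N ^ 2) := by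
    have e1 : |(Nat.totient q : ℝ) * S - P| = ‖((Nat.totient q : ℝ) : ℂ) * (S : ℂ) - (P : ℂ)‖ := by
      rw [← Complex.ofReal_mul, ← Complex.ofReal_sub, Complex.norm_real, Real.norm_eq_abs]
    rw [e1, h2]
    refine (norm_add_le _ _).trans ?_
    linarith
  have e : S - P / (Nat.totient q : ℝ) = ((Nat.totient q : ℝ) * S - P) / (Nat.totient q : ℝ) := by
    field_simp
  rw [e, abs_div, abs_of_pos hφ, div_le_iff₀ hφ]
  refine h6.trans (le_of_eq ?_)
  field_simp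

end BVL
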