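import Pool.Agent.H17.QPNT

/-!
# BV / SHP: from smooth sums to sharp sums

`g = bmp ≥ 0` (bump, support in `[-1,1]`, `I0 = ∫ bmp > 0`, H17/QPNT.lean), `gS v = bmp v`. For `u ∈ [a,b]` put
`S(u) = ∑' term c (1+x) n * gS((log n - u)/δ)` (finitely many nonzero terms: `|log n - u| ≤ δ` forces `n ≤ e^{b+1}`; `term c (1+x) n = c n / n^(1+x)`,
`n ≥ 1`), `J = ∫_a^b e^{(1+x)u} S(u) du`. `‖J‖ ≤ E ∫_a^b e^{(1+x)u} du ≤ E e^{(1+x)b} ≤ e E e^b` (`x b ≤ 1`).
Exchange (finite sum, `n ≤ N' = ⌊e^{b+1}⌋`): `J = ∑_{n ≤ N'} c(n) ω(n)`, `ω(n) = ∫_a^b e^{(1+x)(u - log n)} bmp((log n - u)/δ) du`.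
With `κ = ∫_ℝ e^{-(1+x)δ v} bmp(v) dv` (so `κ δ = ∫_ℝ e^{(1+x)(u - log n)} bmp((log n - u)/δ) du` by the substitution `u = log n - δ v`):
`0 ≤ ω(n) ≤ δ κ`, `ω(n) = δ κ` if `a + δ ≤ log n ≤ b - δ`, `ω(n) = 0` if `log n ≥ b + δ` or `log n ≤ a - δ`. `κ ≥ e^{-2δ} I0 ≥ e^{-1} I0` (`x ≤ 1`).
Hence `‖∑_{n ≤ e^b} c(n) - J/(δκ)‖ ≤ ∑_{log n < a+δ} Λ(n) + ∑_{b-δ < log n ≤ b+δ} Λ(n) ≤ 6 e^{a+δ} + (b+δ)(e^{b+δ} - e^{b-δ} + 1)`
(`Pool.Agent.H17.ZB.psi_le_six`; `Λ(n) ≤ log n`: `ArithmeticFunction.vonMangoldt_le_log`), and `e^{b+δ} - e^{b-δ} ≤ 2δ e^{b+δ} ≤ 4 δ e^b`.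
Compare `om`, `J_eq`, `J_bound`, `psi_upper` in H17/QPNT.lean (the same argument for `Λ - 1`).
-/

open Finset
open Pool.Agent.H17.ZB (gS)

namespace BVL

/-- the averaged weight at `l = log n` -/
noncomputable def shp_w (x δ a b l : ℝ) : ℝ :=
  ∫ u in a..b, Real.exp ((1 + x) * (u - l)) * Pool.Agent.H17.ZB.bmp ((l - u) / δ)

/-- the full mass -/
noncomputable def shp_M (x δ : ℝ) : ℝ :=
  ∫ v : ℝ, Real.exp (-((1 + x) * v)) * Pool.Agent.H17.ZB.bmp (v / δ)

open Pool.Agent.H17.ZB MeasureTheory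

theorem shp_int {x δ : ℝ} (hδ : 0 < δ) :
    Integrable (fun v : ℝ => Real.exp (-((1 + x) * v)) * bmp (v / δ)) := by
  have hc : Continuous (fun v : ℝ => Real.exp (-((1 + x) * v)) * bmp (v / δ)) := by
    have := bmp_cont
    fun_prop
  refine hc.integrable_of_hasCompactSupport ?_
  refine HasCompactSupport.intro (isCompact_Icc (a := -δ) (b := δ)) ?_
  intro v hv
  rw [bmp_zero, mul_zero]
  rw [abs_div, abs_of_pos hδ, le_div_iff₀ hδ, one_mul]
  rw [Set.mem_Icc, not_and_or, not_le, not_le] at hv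
  rcases hv with h | h
  · rw [abs_of_nonpos (by linarith)]; linarith
  · rw [abs_of_nonneg (by linarith)]; linarith

theorem shp_shift (x δ l : ℝ) :
    ∫ u : ℝ, Real.exp ((1 + x) * (u - l)) * bmp ((l - u) / δ) = shp_M x δ := by
  have h1 := integral_sub_left_eq_self
    (fun v : ℝ => Real.exp (-((1 + x) * v)) * bmp (v / δ)) volume l
  unfold shp_M
  rw [← h1]
  congr 1
  funext u
  congr 2
  ring

theorem shp_int2 {x δ : ℝ} (hδ : 0 < δ) (l : ℝ) :
    Integrable (fun u : ℝ => Real.exp ((1 + x) * (u - l)) * bmp ((l - u) / δ)) := by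
  have h := (shp_int (x := x) hδ).comp_sub_left l
  have e : (fun u : ℝ => Real.exp ((1 + x) * (u - l)) * bmp ((l - u) / δ)) =
      (fun u : ℝ => (fun v : ℝ => Real.exp (-((1 + x) * v)) * bmp (v / δ)) (l - u)) := by
    funext u
    show Real.exp ((1 + x) * (u - l)) * bmp ((l - u) / δ) =
      Real.exp (-((1 + x) * (l - u))) * bmp ((l - u) / δ)
    congr 2
    ring
  rw [e]
  exact h

theorem shp_w_nonneg {x δ a b l : ℝ} (hab : a ≤ b) : 0 ≤ shp_w x δ a b l := by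
  unfold shp_w
  refine intervalIntegral.integral_nonneg hab ?_
  intro u _
  have := bmp_nonneg ((l - u) / δ)
  positivity

theorem shp_w_le {x δ a b l : ℝ} (hδ : 0 < δ) (hab : a ≤ b) : shp_w x δ a b l ≤ shp_M x δ := by
  unfold shp_w
  rw [← shp_shift x δ l, intervalIntegral.integral_of_le hab]
  apply setIntegral_le_integral (shp_int2 hδ l)
  filter_upwards with u
  have := bmp_nonneg ((l - u) / δ)
  show 0 ≤ Real.exp ((1 + x) * (u - l)) * bmp ((l - u) / δ)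
  positivity

theorem shp_w_eq {x δ a b l : ℝ} (hδ : 0 < δ) (h1 : a + δ ≤ l) (h2 : l ≤ b - δ) :
    shp_w x δ a b l = shp_M x δ := by
  unfold shp_w
  rw [← shp_shift x δ l]
  apply intervalIntegral.integral_eq_integral_of_support_subset
  intro u hu
  rw [Function.mem_support] at hu
  by_contra hcon
  apply hu
  rw [bmp_zero, mul_zero]
  rw [abs_div, abs_of_pos hδ, le_div_iff₀ hδ, one_mul]
  rw [Set.mem_Ioc, not_and_or, not_lt, not_le] at hcon
  rcases hcon with h | h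
  · rw [abs_of_nonneg (by linarith)]; linarith
  · rw [abs_of_nonpos (by linarith)]; linarith

theorem shp_w_zero {x δ a b l : ℝ} (hδ : 0 < δ) (hab : a ≤ b) (h : b + δ ≤ l) :
    shp_w x δ a b l = 0 := by
  unfold shp_w
  have h1 : ∫ u in a..b, Real.exp ((1 + x) * (u - l)) * bmp ((l - u) / δ)
      = ∫ u in a..b, (0 : ℝ) := by
    apply intervalIntegral.integral_congr
    intro u hu
    rw [Set.uIcc_of_le hab] at hu
    show Real.exp ((1 + x) * (u - l)) * bmp ((l - u) / δ) = 0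
    rw [bmp_zero, mul_zero]
    rw [abs_div, abs_of_pos hδ, le_div_iff₀ hδ, one_mul, abs_of_nonneg (by linarith [hu.2])]
    linarith [hu.2]
  rw [h1]
  simp

theorem shp_M_ge {x δ : ℝ} (hx : 0 < x) (hx1 : x ≤ 1) (hδ : 0 < δ) (hδ1 : δ ≤ 1 / 2) :
    Real.exp (-1) * (δ * I0) ≤ shp_M x δ := by
  have h2 : ∫ v : ℝ, bmp (v / δ) = δ * I0 := by
    rw [MeasureTheory.Measure.integral_comp_div (fun w : ℝ => bmp w) δ, abs_of_pos hδ]
    rfl
  have h3 : Integrable (fun v : ℝ => bmp (v / δ)) := bmp_integrable.comp_div hδ.ne'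
  rw [← h2, ← MeasureTheory.integral_const_mul]
  unfold shp_M
  refine integral_mono (h3.const_mul _) (shp_int hδ) ?_
  intro v
  show Real.exp (-1) * bmp (v / δ) ≤ Real.exp (-((1 + x) * v)) * bmp (v / δ)
  by_cases hv : 1 ≤ |v / δ|
  · rw [bmp_zero hv]; simp
  · push Not at hv
    rw [abs_div, abs_of_pos hδ, div_lt_one hδ, abs_lt] at hv
    have h0 := bmp_nonneg (v / δ)
    refine mul_le_mul_of_nonneg_right (Real.exp_le_exp.mpr ?_) h0
    rcases le_or_gt 0 v with h | h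
    · nlinarith
    · nlinarith

theorem shp_fin {c : ℕ → ℂ} {x δ b u : ℝ} (hδ : 0 < δ) (hδ1 : δ ≤ 1 / 2) (hu : u ≤ b) :
    ∑' n : ℕ, LSeries.term c (1 + x) n * gS ((Real.log n - u) / δ) =
      ∑ n ∈ Icc 1 ⌊Real.exp (b + 1)⌋₊,
        LSeries.term c (1 + x) n * gS ((Real.log n - u) / δ) := by
  apply tsum_eq_sum
  intro n hn
  rw [Finset.mem_Icc, not_and_or, not_le, not_le] at hn
  rcases hn with h | h
  · have : n = 0 := by omega
    rw [this, LSeries.term_zero, zero_mul]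
  · rw [gS_apply, bmp_zero]
    · simp
    have h2 : Real.exp (b + 1) < n := (Nat.floor_lt (Real.exp_pos _).le).mp h
    have h3 : b + 1 < Real.log n := by
      rw [Real.lt_log_iff_exp_lt (by linarith [Real.exp_pos (b + 1)])]
      exact h2
    rw [abs_of_pos (by apply div_pos _ hδ; linarith), le_div_iff₀ hδ]
    linarith

theorem shp_term {c : ℕ → ℂ} {x δ u : ℝ} {n : ℕ} (hn : 1 ≤ n) :
    ((Real.exp ((1 + x) * u) : ℝ) : ℂ) *
        (LSeries.term c (1 + x) n * gS ((Real.log n - u) / δ)) =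
      c n * ((Real.exp ((1 + x) * (u - Real.log n)) * bmp ((Real.log n - u) / δ) : ℝ) : ℂ) := by
  have hn0 : (n : ℂ) ≠ 0 := by exact_mod_cast (by omega : n ≠ 0)
  rw [LSeries.term_of_ne_zero (by omega), gS_apply]
  have e1 : (n : ℂ) ^ (1 + (x : ℂ)) = ((Real.exp ((1 + x) * Real.log n) : ℝ) : ℂ) := by
    rw [Complex.cpow_def_of_ne_zero hn0, ← Complex.natCast_log]
    push_cast
    congr 1
    ring
  have e2 : Real.exp ((1 + x) * (u - Real.log n)) =
      Real.exp ((1 + x) * u) / Real.exp ((1 + x) * Real.log n) := by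
    rw [← Real.exp_sub]
    congr 1
    ring
  rw [e1, e2]
  have h3 : ((Real.exp ((1 + x) * Real.log n) : ℝ) : ℂ) ≠ 0 := by
    exact_mod_cast (Real.exp_pos _).ne'
  push_cast
  push_cast at h3
  field_simp

theorem shp_J {c : ℕ → ℂ} {x δ a b : ℝ} (hδ : 0 < δ) (hδ1 : δ ≤ 1 / 2) (hab : a ≤ b) :
    ∫ u in a..b, ((Real.exp ((1 + x) * u) : ℝ) : ℂ) *
        ∑' n : ℕ, LSeries.term c (1 + x) n * gS ((Real.log n - u) / δ) =
      ∑ n ∈ Icc 1 ⌊Real.exp (b + 1)⌋₊, c n * ((shp_w x δ a b (Real.log n) : ℝ) : ℂ) := by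
  have h1 : ∫ u in a..b, ((Real.exp ((1 + x) * u) : ℝ) : ℂ) *
        ∑' n : ℕ, LSeries.term c (1 + x) n * gS ((Real.log n - u) / δ) =
      ∫ u in a..b, ∑ n ∈ Icc 1 ⌊Real.exp (b + 1)⌋₊, c n *
        ((Real.exp ((1 + x) * (u - Real.log n)) * bmp ((Real.log n - u) / δ) : ℝ) : ℂ) := by
    apply intervalIntegral.integral_congr
    intro u hu
    rw [Set.uIcc_of_le hab] at hu
    show ((Real.exp ((1 + x) * u) : ℝ) : ℂ) *
        ∑' n : ℕ, LSeries.term c (1 + x) n * gS ((Real.log n - u) / δ) = _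
    rw [shp_fin hδ hδ1 hu.2, Finset.mul_sum]
    apply Finset.sum_congr rfl
    intro n hn
    exact shp_term (Finset.mem_Icc.1 hn).1
  rw [h1, intervalIntegral.integral_finsetSum]
  · apply Finset.sum_congr rfl
    intro n _
    rw [intervalIntegral.integral_const_mul]
    congr 1
    rw [intervalIntegral.integral_ofReal]
    rfl
  · intro n _
    apply IntervalIntegrable.const_mul
    apply Continuous.intervalIntegrable
    have := bmp_cont
    fun_prop

theorem shp_J_le {S : ℝ → ℂ} {x a b E : ℝ} (hx : 0 < x) (hxb : x * b ≤ 1)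
    (hab : a ≤ b) (hE0 : 0 ≤ E) (hE : ∀ u ∈ Set.Icc a b, ‖S u‖ ≤ E) :
    ‖∫ u in a..b, ((Real.exp ((1 + x) * u) : ℝ) : ℂ) * S u‖ ≤ Real.exp 1 * E * Real.exp b := by
  have h1 : ‖∫ u in a..b, ((Real.exp ((1 + x) * u) : ℝ) : ℂ) * S u‖ ≤
      ∫ u in a..b, Real.exp 1 * E * Real.exp u := by
    apply intervalIntegral.norm_integral_le_of_norm_le hab
    · filter_upwards with u hu
      have hu1 : u ∈ Set.Icc a b := ⟨hu.1.le, hu.2⟩
      rw [norm_mul, Complex.norm_real, Real.norm_eq_abs, abs_of_pos (Real.exp_pos _)]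
      have h2 : Real.exp ((1 + x) * u) ≤ Real.exp 1 * Real.exp u := by
        rw [← Real.exp_add]
        refine Real.exp_le_exp.mpr ?_
        nlinarith [hu.2]
      calc Real.exp ((1 + x) * u) * ‖S u‖ ≤ (Real.exp 1 * Real.exp u) * E :=
            mul_le_mul h2 (hE u hu1) (norm_nonneg _) (by positivity)
        _ = _ := by ring
    · apply Continuous.intervalIntegrable
      fun_prop
  refine h1.trans ?_
  rw [intervalIntegral.integral_const_mul, integral_exp]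
  have := Real.exp_pos a
  have h3 : 0 ≤ Real.exp 1 * E := by positivity
  nlinarith

theorem shp_coef {N A D P Q n : ℕ} {w M : ℝ} (hM : 0 < M) (hw0 : 0 ≤ w) (hw1 : w ≤ M)
    (hDP : D ≤ P) (hPQ : P ≤ Q) (h1 : A < n → n ≤ D → w = M) (h2 : Q < n → w = 0) :
    |(if n ≤ P then (1 : ℝ) else 0) - w / M| ≤
      (if n ≤ A then (1 : ℝ) else 0) + (if D < n ∧ n ≤ Q then (1 : ℝ) else 0) := by
  have k0 : 0 ≤ w / M := div_nonneg hw0 hM.le
  have k1 : w / M ≤ 1 := (div_le_one hM).2 hw1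
  have k2 : |(if n ≤ P then (1 : ℝ) else 0) - w / M| ≤ 1 := by
    rw [abs_le]
    split_ifs <;> constructor <;> linarith
  by_cases hA : n ≤ A
  · rw [if_pos hA]
    have : (0 : ℝ) ≤ (if D < n ∧ n ≤ Q then (1 : ℝ) else 0) := by split_ifs <;> norm_num
    linarith
  · push Not at hA
    rw [if_neg (by omega : ¬ n ≤ A)]
    by_cases hD : n ≤ D
    · rw [if_pos (by omega : n ≤ P), h1 hA hD, div_self hM.ne',
        if_neg (by omega : ¬ (D < n ∧ n ≤ Q))]
      simp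
    · push Not at hD
      by_cases hQ : n ≤ Q
      · rw [if_pos (⟨hD, hQ⟩ : D < n ∧ n ≤ Q)]
        linarith
      · push Not at hQ
        rw [if_neg (by omega : ¬ n ≤ P), h2 hQ, if_neg (by omega : ¬ (D < n ∧ n ≤ Q))]
        simp

theorem shp_sum {A D Q N : ℕ} :
    ∑ n ∈ Icc 1 N, ArithmeticFunction.vonMangoldt n *
      ((if n ≤ A then (1 : ℝ) else 0) + (if D < n ∧ n ≤ Q then (1 : ℝ) else 0)) ≤
    ∑ n ∈ Ioc 0 A, ArithmeticFunction.vonMangoldt n +
      ∑ n ∈ Ioc D Q, ArithmeticFunction.vonMangoldt n := by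
  have e : ∀ n ∈ Icc 1 N, ArithmeticFunction.vonMangoldt n *
      ((if n ≤ A then (1 : ℝ) else 0) + (if D < n ∧ n ≤ Q then (1 : ℝ) else 0)) =
      (if n ≤ A then ArithmeticFunction.vonMangoldt n else 0) +
      (if D < n ∧ n ≤ Q then ArithmeticFunction.vonMangoldt n else 0) := by
    intro n _
    split_ifs <;> ring
  rw [Finset.sum_congr rfl e, Finset.sum_add_distrib, ← Finset.sum_filter, ← Finset.sum_filter]
  refine add_le_add ?_ ?_
  · apply Finset.sum_le_sum_of_subset_of_nonneg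
    · intro n hn
      rw [Finset.mem_filter, Finset.mem_Icc] at hn
      rw [Finset.mem_Ioc]
      omega
    · intro n _ _
      exact ArithmeticFunction.vonMangoldt_nonneg
  · apply Finset.sum_le_sum_of_subset_of_nonneg
    · intro n hn
      rw [Finset.mem_filter, Finset.mem_Icc] at hn
      rw [Finset.mem_Ioc]
      omega
    · intro n _ _
      exact ArithmeticFunction.vonMangoldt_nonneg

theorem shp_tail {δ b : ℝ} (hδ : 0 < δ) (hδ1 : δ ≤ 1 / 2) (hb : 0 ≤ b) :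
    ∑ n ∈ Ioc ⌊Real.exp (b - δ)⌋₊ ⌊Real.exp (b + δ)⌋₊, ArithmeticFunction.vonMangoldt n ≤
      (1 + b) * (4 * δ * Real.exp b + 1) := by
  have hle : ⌊Real.exp (b - δ)⌋₊ ≤ ⌊Real.exp (b + δ)⌋₊ :=
    Nat.floor_le_floor (Real.exp_le_exp.mpr (by linarith))
  have h1 : ∑ n ∈ Ioc ⌊Real.exp (b - δ)⌋₊ ⌊Real.exp (b + δ)⌋₊,
      ArithmeticFunction.vonMangoldt n ≤
      ∑ n ∈ Ioc ⌊Real.exp (b - δ)⌋₊ ⌊Real.exp (b + δ)⌋₊, (1 + b) := by
    apply Finset.sum_le_sum
    intro n hn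
    rw [Finset.mem_Ioc] at hn
    have hn0 : (0 : ℝ) < n := by
      have : 0 < n := by omega
      exact_mod_cast this
    have h3 : (n : ℝ) ≤ Real.exp (b + δ) := (Nat.le_floor_iff (Real.exp_pos _).le).mp hn.2
    have h4 : Real.log n ≤ b + δ := (Real.log_le_iff_le_exp hn0).mpr h3
    have h5 : ArithmeticFunction.vonMangoldt n ≤ Real.log n :=
      ArithmeticFunction.vonMangoldt_le_log
    linarith
  refine h1.trans ?_
  rw [Finset.sum_const, Nat.card_Ioc, nsmul_eq_mul, Nat.cast_sub hle, mul_comm]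
  refine mul_le_mul_of_nonneg_left ?_ (by linarith)
  have h2 : (⌊Real.exp (b + δ)⌋₊ : ℝ) ≤ Real.exp (b + δ) := Nat.floor_le (Real.exp_pos _).le
  have h3 : Real.exp (b - δ) < ⌊Real.exp (b - δ)⌋₊ + 1 := Nat.lt_floor_add_one _
  have h4 : Real.exp (b + δ) = Real.exp b * Real.exp δ := Real.exp_add _ _
  have h5 : Real.exp (b - δ) = Real.exp b * Real.exp (-δ) := by
    rw [← Real.exp_add, sub_eq_add_neg]
  have h6 : Real.exp δ - Real.exp (-δ) ≤ 4 * δ := by
    have k1 : 1 - 2 * δ ≤ Real.exp (-(2 * δ)) := by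
      have := Real.add_one_le_exp (-(2 * δ))
      linarith
    have k2 : Real.exp (-δ) = Real.exp δ * Real.exp (-(2 * δ)) := by
      rw [← Real.exp_add]
      congr 1
      ring
    have k3 : Real.exp δ ≤ 2 := by
      have e1 : Real.exp δ ≤ Real.exp (1 / 2) := Real.exp_le_exp.mpr hδ1
      have e2 : Real.exp (1 / 2) * Real.exp (1 / 2) = Real.exp 1 := by
        rw [← Real.exp_add]
        norm_num
      have e3 := exp_one_lt_three
      have e4 := Real.exp_pos (1 / 2)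
      nlinarith
    have k4 := Real.exp_pos δ
    rw [k2]
    nlinarith
  have h7 := Real.exp_pos b
  nlinarith

theorem shp : ∃ C : ℝ, 0 < C ∧ ∀ c : ℕ → ℂ, (∀ n, ‖c n‖ ≤ ArithmeticFunction.vonMangoldt n) →
    ∀ x δ a b E : ℝ, 0 < x → x ≤ 1 → x * b ≤ 1 → 0 < δ → δ ≤ 1 / 2 → 0 ≤ a → a + 2 * δ ≤ b → 0 ≤ E →
    (∀ u ∈ Set.Icc a b, ‖∑' n : ℕ, LSeries.term c (1 + x) n * gS ((Real.log n - u) / δ)‖ ≤ E) →
    ‖∑ n ∈ Icc 1 ⌊Real.exp b⌋₊, c n‖ ≤ C * (E * Real.exp b / δ + Real.exp a + (1 + b) * (δ * Real.exp b + 1)) := by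
  have hI := I0_pos
  refine ⟨9 / I0 + 12, by positivity, ?_⟩
  intro c hc x δ a b E hx hx1 hxb hδ hδ1 ha hab hE0 hE
  have hab' : a ≤ b := by linarith
  have hb : 0 ≤ b := by linarith
  set M := shp_M x δ with hMdef
  have hM1 : Real.exp (-1) * (δ * I0) ≤ M := shp_M_ge hx hx1 hδ hδ1
  have hM : 0 < M := lt_of_lt_of_le (by positivity) hM1
  set N := ⌊Real.exp (b + 1)⌋₊ with hNdef
  set A := ⌊Real.exp (a + δ)⌋₊ with hAdef
  set D := ⌊Real.exp (b - δ)⌋₊ with hDdef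
  set P := ⌊Real.exp b⌋₊ with hPdef
  set Q := ⌊Real.exp (b + δ)⌋₊ with hQdef
  have hDP : D ≤ P := Nat.floor_le_floor (Real.exp_le_exp.mpr (by linarith))
  have hPQ : P ≤ Q := Nat.floor_le_floor (Real.exp_le_exp.mpr (by linarith))
  have hPN : P ≤ N := Nat.floor_le_floor (Real.exp_le_exp.mpr (by linarith))
  set J : ℂ := ∑ n ∈ Icc 1 N, c n * ((shp_w x δ a b (Real.log n) : ℝ) : ℂ) with hJdef
  have hJ : ‖J‖ ≤ Real.exp 1 * E * Real.exp b := by
    rw [hJdef, hNdef, ← shp_J hδ hδ1 hab']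
    exact shp_J_le hx hxb hab' hE0 hE
  have e0 : ∑ n ∈ Icc 1 P, c n = ∑ n ∈ Icc 1 N, c n * (((if n ≤ P then (1 : ℝ) else 0 : ℝ)) : ℂ) := by
    have : ∀ n ∈ Icc 1 N, c n * (((if n ≤ P then (1 : ℝ) else 0 : ℝ)) : ℂ) =
        if n ≤ P then c n else 0 := by
      intro n _
      split_ifs <;> simp
    rw [Finset.sum_congr rfl this, ← Finset.sum_filter]
    congr 1
    ext n
    rw [Finset.mem_filter, Finset.mem_Icc, Finset.mem_Icc]
    omega
  have e1 : ∑ n ∈ Icc 1 P, c n - J / (M : ℂ) = ∑ n ∈ Icc 1 N, c n *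
      (((if n ≤ P then (1 : ℝ) else 0) - shp_w x δ a b (Real.log n) / M : ℝ) : ℂ) := by
    rw [e0, hJdef, Finset.sum_div, ← Finset.sum_sub_distrib]
    apply Finset.sum_congr rfl
    intro n _
    push_cast
    ring
  have e2 : ‖∑ n ∈ Icc 1 P, c n - J / (M : ℂ)‖ ≤
      ∑ n ∈ Ioc 0 A, ArithmeticFunction.vonMangoldt n +
      ∑ n ∈ Ioc D Q, ArithmeticFunction.vonMangoldt n := by
    rw [e1]
    refine (norm_sum_le _ _).trans (le_trans (Finset.sum_le_sum ?_) (shp_sum (N := N)))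
    intro n hn
    have hn1 := (Finset.mem_Icc.1 hn).1
    have hn0 : (0 : ℝ) < n := by exact_mod_cast hn1
    rw [norm_mul, Complex.norm_real, Real.norm_eq_abs]
    refine mul_le_mul (hc n) ?_ (abs_nonneg _) ArithmeticFunction.vonMangoldt_nonneg
    refine shp_coef (N := N) hM (shp_w_nonneg hab') (shp_w_le hδ hab') hDP hPQ ?_ ?_
    · intro h1 h2
      have k1 : Real.exp (a + δ) < n := (Nat.floor_lt (Real.exp_pos _).le).mp h1
      have k2 : (n : ℝ) ≤ Real.exp (b - δ) := (Nat.le_floor_iff (Real.exp_pos _).le).mp h2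
      exact shp_w_eq hδ ((Real.le_log_iff_exp_le hn0).mpr k1.le)
        ((Real.log_le_iff_le_exp hn0).mpr k2)
    · intro h1
      have k1 : Real.exp (b + δ) < n := (Nat.floor_lt (Real.exp_pos _).le).mp h1
      exact shp_w_zero hδ hab' ((Real.le_log_iff_exp_le hn0).mpr k1.le)
  have e3 : ∑ n ∈ Ioc 0 A, ArithmeticFunction.vonMangoldt n ≤ 12 * Real.exp a := by
    have k1 : ∑ n ∈ Ioc 0 A, ArithmeticFunction.vonMangoldt n =
        Chebyshev.psi (Real.exp (a + δ)) := rfl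
    rw [k1]
    refine (psi_le_six (Real.exp_pos _).le).trans ?_
    rw [Real.exp_add]
    have k3 : Real.exp δ ≤ 2 := by
      have e1 : Real.exp δ ≤ Real.exp (1 / 2) := Real.exp_le_exp.mpr hδ1
      have e2 : Real.exp (1 / 2) * Real.exp (1 / 2) = Real.exp 1 := by
        rw [← Real.exp_add]
        norm_num
      have e3 := exp_one_lt_three
      have e4 := Real.exp_pos (1 / 2)
      nlinarith
    have k4 := Real.exp_pos a
    nlinarith
  have e4 := shp_tail hδ hδ1 hb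
  have e5 : ‖J / (M : ℂ)‖ ≤ 9 / I0 * (E * Real.exp b / δ) := by
    rw [norm_div, Complex.norm_real, Real.norm_eq_abs, abs_of_pos hM, div_le_iff₀ hM]
    have k1 : Real.exp 1 ≤ 9 * Real.exp (-1) := by
      have e1 : Real.exp 1 * Real.exp (-1) = 1 := by rw [← Real.exp_add]; norm_num
      have e2 := exp_one_lt_three
      have e3 := Real.exp_pos (-1)
      have e4 := Real.exp_pos 1
      nlinarith
    have k2 : 0 ≤ E * Real.exp b := by positivity
    calc ‖J‖ ≤ Real.exp 1 * E * Real.exp b := hJ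
      _ = Real.exp 1 * (E * Real.exp b) := by ring
      _ ≤ (9 * Real.exp (-1)) * (E * Real.exp b) := mul_le_mul_of_nonneg_right k1 k2
      _ = 9 / I0 * (E * Real.exp b / δ) * (Real.exp (-1) * (δ * I0)) := by
          field_simp
      _ ≤ 9 / I0 * (E * Real.exp b / δ) * M := mul_le_mul_of_nonneg_left hM1 (by positivity)
  have e6 : ‖∑ n ∈ Icc 1 P, c n‖ ≤ ‖∑ n ∈ Icc 1 P, c n - J / (M : ℂ)‖ + ‖J / (M : ℂ)‖ := by
    have := norm_add_le (∑ n ∈ Icc 1 P, c n - J / (M : ℂ)) (J / (M : ℂ))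
    rwa [sub_add_cancel] at this
  have p1 : 0 ≤ E * Real.exp b / δ := by positivity
  have p2 : 0 ≤ 9 / I0 := by positivity
  have p3 := Real.exp_pos a
  have p4 : 0 ≤ (1 + b) * (δ * Real.exp b) := by
    have := Real.exp_pos b
    positivity
  have p5 : 0 ≤ 9 / I0 * Real.exp a := by positivity
  have p6 : 0 ≤ 9 / I0 * ((1 + b) * (δ * Real.exp b + 1)) := by
    have := Real.exp_pos b
    positivity
  nlinarith

end BVL
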