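import Pool.Agent.H17.BV.Pos

/-!
# BV / SER: the Dirichlet series of `a4`

For `Re s > 1`: `zetaMul χ1` has Dirichlet series `ζ(s) L(s,χ1)` and is summable (`LSeriesSummable_zetaMul`;
`ArithmeticFunction.LSeries_mul'`/`LSeries_convolution`, see `BadChar.F_eq_LSeries` in Mathlib/NumberTheory/LSeries/Nonvanishing.lean for the
same computation). `n ↦ χ2(n) r(n)`, `r = zetaMul χ1 = ζ * χ1`: since `χ2` is completely multiplicative it equals the convolution of
`χ2` and `χ1χ2` (`n ≠ 0`: `χ2(n) ∑_{d ∣ n} χ1(d) = ∑_{d ∣ n} χ2(n/d) (χ1χ2)(d)`); its Dirichlet series is `L(s,χ2) L(s,χ1χ2)`.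
For every natural number `n`: `(changeLevel χ1 * changeLevel χ2)(n) = χ1(n) χ2(n)`: if `n` is coprime to `q1 q2` by
`changeLevel_eq_cast_of_dvd`, otherwise both sides are zero. `LFunction = LSeries` to the right of 1 (`LFunction_eq_LSeries`,
`LSeries_zeta_eq_riemannZeta`/`LSeries_one_eq_riemannZeta`).
-/

open scoped ComplexOrder

namespace BVL

open DirichletCharacter

open ArithmeticFunction hiding log in
theorem a4_series_zetaMul {q : ℕ} [NeZero q] (χ : DirichletCharacter ℂ q) {s : ℂ} (hs : 1 < s.re) :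
    LSeries (fun n => χ.zetaMul n) s = riemannZeta s * LFunction χ s := by
  rw [zetaMul, ← coe_mul, LSeries_convolution']
  · rw [χ.LFunction_eq_LSeries hs]
    congr 1
    · simp_rw [← LSeries_zeta_eq_riemannZeta hs, ← natCoe_apply]
    · exact (LSeries_congr χ.apply_eq_toArithmeticFunction_apply s).symm
  · exact LSeriesSummable_zeta_iff.mpr hs
  · exact (LSeriesSummable_congr _ fun h ↦ (χ.apply_eq_toArithmeticFunction_apply h).symm).mpr <|
      ZMod.LSeriesSummable_of_one_lt_re χ hs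

theorem a4_series_change {q1 q2 : ℕ} [NeZero q1] [NeZero q2] (χ1 : DirichletCharacter ℂ q1)
    (χ2 : DirichletCharacter ℂ q2) (n : ℕ) :
    (changeLevel (dvd_mul_right q1 q2) χ1 * changeLevel (dvd_mul_left q2 q1) χ2) (n : ZMod (q1 * q2)) =
      χ1 (n : ZMod q1) * χ2 (n : ZMod q2) := by
  rw [MulChar.mul_apply]
  by_cases h : n.Coprime (q1 * q2)
  · have hu : IsUnit ((n : ℕ) : ZMod (q1 * q2)) := (ZMod.isUnit_iff_coprime n (q1 * q2)).mpr h
    obtain ⟨u, hu'⟩ := hu
    rw [← hu', changeLevel_eq_cast_of_dvd, changeLevel_eq_cast_of_dvd, hu']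
    congr 2
    · exact ZMod.cast_natCast (dvd_mul_right q1 q2) n
    · exact ZMod.cast_natCast (dvd_mul_left q2 q1) n
  · have hu : ¬ IsUnit ((n : ℕ) : ZMod (q1 * q2)) := fun h' => h ((ZMod.isUnit_iff_coprime n (q1 * q2)).mp h')
    rw [MulChar.map_nonunit _ hu, zero_mul]
    rw [Nat.coprime_mul_iff_right, not_and_or] at h
    rcases h with h | h
    · rw [MulChar.map_nonunit χ1 (fun h' => h ((ZMod.isUnit_iff_coprime n q1).mp h')), zero_mul]
    · rw [MulChar.map_nonunit χ2 (fun h' => h ((ZMod.isUnit_iff_coprime n q2).mp h')), mul_zero]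

/-- the twisted function `n ↦ χ2(n) r(n)` -/
noncomputable def a4_series_tw {q1 q2 : ℕ} (χ1 : DirichletCharacter ℂ q1) (χ2 : DirichletCharacter ℂ q2) :
    ArithmeticFunction ℂ := ⟨fun n => χ2 n * χ1.zetaMul n, by simp⟩

theorem a4_series_tw_apply {q1 q2 : ℕ} (χ1 : DirichletCharacter ℂ q1) (χ2 : DirichletCharacter ℂ q2) (n : ℕ) :
    a4_series_tw χ1 χ2 n = χ2 n * χ1.zetaMul n := rfl

theorem a4_series_eq {q1 q2 : ℕ} (χ1 : DirichletCharacter ℂ q1) (χ2 : DirichletCharacter ℂ q2) :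
    a4 χ1 χ2 = χ1.zetaMul * a4_series_tw χ1 χ2 := rfl

theorem a4_series_twist {q1 q2 : ℕ} [NeZero q1] [NeZero q2] (χ1 : DirichletCharacter ℂ q1)
    (χ2 : DirichletCharacter ℂ q2) :
    a4_series_tw χ1 χ2 =
      toArithmeticFunction (fun n => χ2 n) * toArithmeticFunction (fun n =>
        (changeLevel (dvd_mul_right q1 q2) χ1 * changeLevel (dvd_mul_left q2 q1) χ2) n) := by
  ext n
  rw [a4_series_tw_apply, zetaMul, ArithmeticFunction.mul_apply, ArithmeticFunction.mul_apply, Finset.mul_sum]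
  refine Finset.sum_congr rfl fun x hx => ?_
  obtain ⟨hx, hn⟩ := Nat.mem_divisorsAntidiagonal.mp hx
  have h1 : x.1 ≠ 0 := by rintro h; apply hn; rw [← hx, h, zero_mul]
  have h2 : x.2 ≠ 0 := by rintro h; apply hn; rw [← hx, h, mul_zero]
  simp only [toArithmeticFunction, ArithmeticFunction.coe_mk, h1, h2, if_false,
    ArithmeticFunction.natCoe_apply, ArithmeticFunction.zeta_apply, a4_series_change]
  rw [← hx]
  push_cast
  rw [map_mul]
  ring

theorem a4_series {q1 q2 : ℕ} [NeZero q1] [NeZero q2] (χ1 : DirichletCharacter ℂ q1) (χ2 : DirichletCharacter ℂ q2)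
    {s : ℂ} (hs : 1 < s.re) : LSeriesSummable (fun n => a4 χ1 χ2 n) s ∧
    LSeries (fun n => a4 χ1 χ2 n) s = riemannZeta s * (LFunction χ1 s * LFunction χ2 s *
      LFunction (changeLevel (dvd_mul_right q1 q2) χ1 * changeLevel (dvd_mul_left q2 q1) χ2) s) := by
  have hS1 : LSeriesSummable (fun n => χ1.zetaMul n) s := χ1.LSeriesSummable_zetaMul hs
  have hA : ∀ {q : ℕ} [NeZero q] (χ : DirichletCharacter ℂ q),
      LSeriesSummable (fun n => toArithmeticFunction (fun n => χ n) n) s := fun χ =>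
    (LSeriesSummable_congr _ fun h ↦ (χ.apply_eq_toArithmeticFunction_apply h).symm).mpr <|
      ZMod.LSeriesSummable_of_one_lt_re χ hs
  have hS2 : LSeriesSummable (fun n => a4_series_tw χ1 χ2 n) s := by
    rw [a4_series_twist]
    exact ArithmeticFunction.LSeriesSummable_mul (hA χ2) (hA _)
  have hL2 : LSeries (fun n => a4_series_tw χ1 χ2 n) s =
      LFunction χ2 s *
      LFunction (changeLevel (dvd_mul_right q1 q2) χ1 * changeLevel (dvd_mul_left q2 q1) χ2) s := by
    rw [a4_series_twist, ArithmeticFunction.LSeries_mul' (hA χ2) (hA (changeLevel (dvd_mul_right q1 q2) χ1 * changeLevel (dvd_mul_left q2 q1) χ2)), LFunction_eq_LSeries _ hs,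
      LFunction_eq_LSeries _ hs]
    congr 1
    · exact (LSeries_congr (apply_eq_toArithmeticFunction_apply χ2) s).symm
    · exact (LSeries_congr (apply_eq_toArithmeticFunction_apply _) s).symm
  refine ⟨?_, ?_⟩
  · rw [a4_series_eq]
    exact ArithmeticFunction.LSeriesSummable_mul hS1 hS2
  · rw [a4_series_eq, ArithmeticFunction.LSeries_mul' hS1 hS2, hL2, a4_series_zetaMul χ1 hs]
    ring

end BVL
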