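import Pool.Agent.H17.BV.Lup
import Pool.Agent.H17.BV.Est
import Pool.Agent.H17.BV.Ser

/-!
# BV / SIEB: Siegel's theorem, case B: one real zero `β` is given (from EST, LUP, SER)

Let `χ ≠ 1` be primitive and real modulo `q`, and `χ12 = changeLevel χ1 * changeLevel χ` modulo `q1 q`.
If `χ12 = 1` then, `χ1^2 = 1`, `changeLevel χ = changeLevel χ1` modulo `q1 q`, so the conductors agree (`conductor_changeLevel`), `q = q1` by primitivity,
and then `χ = χ1` (`changeLevel_injective`): for this single character take `c ≤ ‖L(1,χ1)‖` (nonzero: `LFunction_apply_one_ne_zero`, and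
`q^{-(...)} ≤ 1`). Otherwise EST with `P = L(·,χ1) L(·,χ) L(·,χ12)`, `a = a4 χ1 χ`, `B = 29 q1 * 29 q * 29 q1 q ≤ 29^3 q1^2 q^2` (Lcirc), `P(β) = 0`:
`c0 (1-β) (29^3 q1^2)^{-1/2} q^{-8(1-β)} ≤ ‖P(1)‖` (`4(1-β) ≤ 1/2`), and by Lup at `s = 1`, `‖L(1,χ1)‖ ≤ 30 log(3 q1)`, `‖L(1,χ12)‖ ≤ 30 log(3 q1 q) ≤ C(q1,η) q^η`
(`Real.log_le_rpow_div`-type). So `‖L(1,χ)‖ ≥ c q^{-8(1-β) - η}`.
-/

open scoped ComplexOrder

namespace BVL

open DirichletCharacter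

theorem sieB_triv {q1 : ℕ} [NeZero q1] {χ1 : DirichletCharacter ℂ q1} (hp : χ1.IsPrimitive) (hsq : χ1 ^ 2 = 1)
    {q : ℕ} [NeZero q] {χ : DirichletCharacter ℂ q} (hpχ : χ.IsPrimitive)
    (h : changeLevel (dvd_mul_right q1 q) χ1 * changeLevel (dvd_mul_left q q1) χ = 1) :
    LFunction χ 1 = LFunction χ1 1 := by
  have : NeZero (q1 * q) := ⟨mul_ne_zero (NeZero.ne _) (NeZero.ne _)⟩
  have h2 : changeLevel (dvd_mul_right q1 q) χ1 * changeLevel (dvd_mul_right q1 q) χ1 = 1 := by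
    rw [← map_mul, ← pow_two, hsq, map_one]
  have h3 : changeLevel (dvd_mul_left q q1) χ = changeLevel (dvd_mul_right q1 q) χ1 :=
    mul_left_cancel (h.trans h2.symm)
  have h4 : q1 = q := by
    have e1 := conductor_changeLevel χ (dvd_mul_left q q1)
    have e2 := conductor_changeLevel χ1 (dvd_mul_right q1 q)
    rw [h3, e2] at e1
    rw [(isPrimitive_def _).1 hp, (isPrimitive_def _).1 hpχ] at e1
    exact e1
  subst h4
  have h5 : χ = χ1 := changeLevel_injective (dvd_mul_right q1 q1) h3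
  rw [h5]

theorem sieB_log {q1 q : ℕ} (h1 : 1 ≤ q1) (hq : 1 ≤ q) {η : ℝ} (hη : 0 < η) :
    30 * Real.log (3 * (q1 * q : ℕ)) ≤ 30 * (3 * (q1 : ℝ)) ^ η / η * (q : ℝ) ^ η := by
  have e1 : (0 : ℝ) < q1 := by exact_mod_cast h1
  have e2 : (0 : ℝ) < q := by exact_mod_cast hq
  have e3 := Real.log_le_rpow_div (x := 3 * ((q1 * q : ℕ) : ℝ)) (by positivity) hη
  have e4 : (3 * ((q1 * q : ℕ) : ℝ)) ^ η = (3 * (q1 : ℝ)) ^ η * (q : ℝ) ^ η := by
    push_cast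
    rw [← mul_assoc, Real.mul_rpow (by positivity) e2.le]
  rw [e4] at e3
  calc 30 * Real.log (3 * (q1 * q : ℕ)) ≤ 30 * ((3 * (q1 : ℝ)) ^ η * (q : ℝ) ^ η / η) := by
        exact mul_le_mul_of_nonneg_left e3 (by norm_num)
    _ = _ := by ring

/-- the main case: the two characters are different -/
theorem sieB_main {q1 : ℕ} [NeZero q1] {χ1 : DirichletCharacter ℂ q1} (hne : χ1 ≠ 1) (hsq : χ1 ^ 2 = 1)
    {β : ℝ} (h1 : 7 / 8 ≤ β) (h2 : β < 1) (h0 : LFunction χ1 β = 0) {η : ℝ} (hη : 0 < η) : ∃ c : ℝ, 0 < c ∧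
    ∀ (q : ℕ) [NeZero q] (χ : DirichletCharacter ℂ q), χ ≠ 1 → χ ^ 2 = 1 →
    changeLevel (dvd_mul_right q1 q) χ1 * changeLevel (dvd_mul_left q q1) χ ≠ 1 →
    c * (q : ℝ) ^ (-(8 * (1 - β) + η)) ≤ ‖LFunction χ 1‖ := by
  obtain ⟨c0, hc0, hest⟩ := est
  have hq1 : 1 ≤ q1 := Nat.one_le_iff_ne_zero.2 (NeZero.ne q1)
  have hq1r : (0 : ℝ) < q1 := by exact_mod_cast hq1
  have hq1' : (1 : ℝ) ≤ q1 := by exact_mod_cast hq1
  have hδ : 0 < 1 - β := by linarith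
  have hK : 0 < ‖LFunction χ1 1‖ := norm_pos_iff.2 (LFunction_apply_one_ne_zero hne)
  set K := ‖LFunction χ1 1‖ with hKdef
  set δ := 1 - β with hδdef
  set D : ℝ := 29 ^ 3 * (q1 : ℝ) ^ 2 with hD
  have hDpos : 0 < D := by positivity
  set E : ℝ := 30 * (3 * (q1 : ℝ)) ^ η / η with hE
  have hEpos : 0 < E := by positivity
  refine ⟨c0 * δ * D ^ (-(4 * δ)) / (K * E), by positivity, ?_⟩
  intro q _ χ hχ hχ2 h12
  have : NeZero (q1 * q) := ⟨mul_ne_zero (NeZero.ne _) (NeZero.ne _)⟩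
  have hq : 1 ≤ q := Nat.one_le_iff_ne_zero.2 (NeZero.ne q)
  have hqr : (0 : ℝ) < q := by exact_mod_cast hq
  have hq' : (1 : ℝ) ≤ q := by exact_mod_cast hq
  set χ12 := changeLevel (dvd_mul_right q1 q) χ1 * changeLevel (dvd_mul_left q q1) χ with hχ12
  have hdiff : Differentiable ℂ (fun s => LFunction χ1 s * LFunction χ s * LFunction χ12 s) :=
    ((differentiable_LFunction hne).mul (differentiable_LFunction hχ)).mul (differentiable_LFunction h12)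
  have hB : ∀ s : ℂ, ‖s - 2‖ ≤ 3 / 2 →
      ‖LFunction χ1 s * LFunction χ s * LFunction χ12 s‖ ≤ D * (q : ℝ) ^ 2 := by
    intro s hs
    rw [norm_mul, norm_mul]
    have a1 := Lcirc hne hs
    have a2 := Lcirc hχ hs
    have a3 := Lcirc h12 hs
    calc ‖LFunction χ1 s‖ * ‖LFunction χ s‖ * ‖LFunction χ12 s‖
        ≤ (29 * q1) * (29 * q) * (29 * (q1 * q : ℕ)) := by
          apply mul_le_mul (mul_le_mul a1 a2 (norm_nonneg _) (by positivity)) a3 (norm_nonneg _) (by positivity)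
      _ = D * (q : ℝ) ^ 2 := by
          rw [hD]; push_cast; ring
  have hB1 : 1 ≤ D * (q : ℝ) ^ 2 := by
    have b1 : (1 : ℝ) ≤ (q1 : ℝ) ^ 2 := one_le_pow₀ hq1'
    have b2 : (1 : ℝ) ≤ (q : ℝ) ^ 2 := one_le_pow₀ hq'
    have b3 : 1 ≤ D := by rw [hD]; nlinarith
    nlinarith
  have hzero : (riemannZeta β * (LFunction χ1 β * LFunction χ β * LFunction χ12 β)).re ≤ 0 := by
    rw [h0]; simp
  have hmain := hest (fun s => LFunction χ1 s * LFunction χ s * LFunction χ12 s) (fun n => a4 χ1 χ n)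
    (D * (q : ℝ) ^ 2) hdiff (fun n => a4_nonneg hsq hχ2 n) (a4_one χ1 χ) (fun s hs => a4_series χ1 χ hs) hB1 hB β h1 h2
    hzero
  simp only [norm_mul] at hmain
  rw [← hKdef] at hmain
  have hY : ‖LFunction χ12 1‖ ≤ E * (q : ℝ) ^ η := by
    have hlog : 0 < Real.log (3 * (q1 * q : ℕ)) := by
      apply Real.log_pos
      push_cast
      have : (1 : ℝ) ≤ (q1 : ℝ) * q := one_le_mul_of_one_le_of_one_le hq1' hq'
      linarith
    have hup := Lup h12 (s := 1) (L := Real.log (3 * (q1 * q : ℕ))) ?_ ?_ ?_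
    · exact hup.trans (sieB_log hq1 hq hη)
    · rw [Real.exp_log (by positivity)]
      simp only [Complex.one_im, abs_zero, zero_add]
      exact le_of_eq (mul_comm _ _)
    · simp only [Complex.one_re]
      have : 0 < 1 / (2 * Real.log (3 * (q1 * q : ℕ))) := by positivity
      linarith
    · simp only [Complex.one_re]; norm_num
  have hpow : (D * (q : ℝ) ^ 2) ^ (-(4 * δ)) = D ^ (-(4 * δ)) * (q : ℝ) ^ (-(8 * δ)) := by
    rw [Real.mul_rpow hDpos.le (by positivity), ← Real.rpow_natCast, ← Real.rpow_mul hqr.le]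
    congr 2
    push_cast
    ring
  rw [hpow] at hmain
  have hqη : 0 < (q : ℝ) ^ η := by positivity
  have hX : 0 ≤ ‖LFunction χ 1‖ := norm_nonneg _
  set X := ‖LFunction χ 1‖ with hXdef
  have hsplit : (q : ℝ) ^ (-(8 * δ + η)) = (q : ℝ) ^ (-(8 * δ)) / (q : ℝ) ^ η := by
    rw [neg_add, Real.rpow_add hqr, Real.rpow_neg hqr.le η, div_eq_mul_inv]
  rw [hsplit, div_mul_div_comm, div_le_iff₀ (by positivity)]
  calc c0 * δ * D ^ (-(4 * δ)) * (q : ℝ) ^ (-(8 * δ)) = c0 * δ * (D ^ (-(4 * δ)) * (q : ℝ) ^ (-(8 * δ))) := by ring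
    _ ≤ K * X * ‖LFunction χ12 1‖ := hmain
    _ ≤ K * X * (E * (q : ℝ) ^ η) := mul_le_mul_of_nonneg_left hY (by positivity)
    _ = X * (K * E * (q : ℝ) ^ η) := by ring

theorem sieB {q1 : ℕ} [NeZero q1] {χ1 : DirichletCharacter ℂ q1} (hp : χ1.IsPrimitive) (hne : χ1 ≠ 1) (hsq : χ1 ^ 2 = 1)
    {β : ℝ} (h1 : 7 / 8 ≤ β) (h2 : β < 1) (h0 : LFunction χ1 β = 0) {η : ℝ} (hη : 0 < η) : ∃ c : ℝ, 0 < c ∧
    ∀ (q : ℕ) [NeZero q] (χ : DirichletCharacter ℂ q), χ.IsPrimitive → χ ≠ 1 → χ ^ 2 = 1 →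
    c * (q : ℝ) ^ (-(8 * (1 - β) + η)) ≤ ‖LFunction χ 1‖ := by
  obtain ⟨c1, hc1, hmain⟩ := sieB_main hne hsq h1 h2 h0 hη
  have hK : 0 < ‖LFunction χ1 1‖ := norm_pos_iff.2 (LFunction_apply_one_ne_zero hne)
  refine ⟨min c1 ‖LFunction χ1 1‖, lt_min hc1 hK, ?_⟩
  intro q _ χ hpχ hχ hχ2
  have hq : 1 ≤ q := Nat.one_le_iff_ne_zero.2 (NeZero.ne q)
  have hq' : (1 : ℝ) ≤ q := by exact_mod_cast hq
  have hqp : 0 ≤ (q : ℝ) ^ (-(8 * (1 - β) + η)) := by positivity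
  by_cases h12 : changeLevel (dvd_mul_right q1 q) χ1 * changeLevel (dvd_mul_left q q1) χ = 1
  · rw [sieB_triv hp hsq hpχ h12]
    have h3 : (q : ℝ) ^ (-(8 * (1 - β) + η)) ≤ 1 :=
      Real.rpow_le_one_of_one_le_of_nonpos hq' (by linarith)
    calc min c1 ‖LFunction χ1 1‖ * (q : ℝ) ^ (-(8 * (1 - β) + η)) ≤ ‖LFunction χ1 1‖ * 1 :=
          mul_le_mul (min_le_right _ _) h3 hqp hK.le
      _ = _ := mul_one _
  · exact (mul_le_mul_of_nonneg_right (min_le_left _ _) hqp).trans (hmain q χ hχ hχ2 h12)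

end BVL
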