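import Pool.Agent.H17.BV.SieA
import Pool.Agent.H17.BV.SieB

/-!
# BV / SIE: Siegel's theorem (from SIEA and SIEB)

We may assume `η ≤ 1` (`q^{-η}` decreases with `η`). `β0 = 1 - η/16 ≥ 7/8`. If no primitive real `χ ≠ 1` has a zero in `[β0,1)`: SIEA with `β0`,
exponent `4(1-β0) = η/4`. Otherwise fix such a `χ1` with a zero `β ∈ [β0, 1)`: SIEB with `η/2`: exponent `8(1-β) + η/2 ≤ η`.
-/

namespace BVL

open DirichletCharacter

theorem siegel {η : ℝ} (hη : 0 < η) : ∃ c : ℝ, 0 < c ∧ ∀ (q : ℕ) [NeZero q] (χ : DirichletCharacter ℂ q),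
    χ.IsPrimitive → χ ≠ 1 → χ ^ 2 = 1 → c * (q : ℝ) ^ (-η) ≤ ‖LFunction χ 1‖ := by
  obtain ⟨e, he⟩ : ∃ e : ℝ, e = min η 1 := ⟨_, rfl⟩
  have he0 : 0 < e := by rw [he]; exact lt_min hη one_pos
  have he1 : e ≤ 1 := by rw [he]; exact min_le_right _ _
  have heη : e ≤ η := by rw [he]; exact min_le_left _ _
  have hmono : ∀ (c : ℝ) (q : ℕ) (s : ℝ), 0 < c → 1 ≤ q → s ≤ η →
      c * (q : ℝ) ^ (-η) ≤ c * (q : ℝ) ^ (-s) := by
    intro c q s hc hq hs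
    refine mul_le_mul_of_nonneg_left ?_ hc.le
    exact Real.rpow_le_rpow_of_exponent_le (by exact_mod_cast hq) (by linarith)
  by_cases h : ∃ (q1 : ℕ) (_ : NeZero q1) (χ1 : DirichletCharacter ℂ q1) (β : ℝ),
      χ1.IsPrimitive ∧ χ1 ≠ 1 ∧ χ1 ^ 2 = 1 ∧ 1 - e / 16 ≤ β ∧ β < 1 ∧ LFunction χ1 β = 0
  · obtain ⟨q1, hq1, χ1, β, hp, hne, hsq, hb1, hb2, h0⟩ := h
    obtain ⟨c, hc, hC⟩ := sieB hp hne hsq (by linarith) hb2 h0 (half_pos he0)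
    refine ⟨c, hc, ?_⟩
    intro q hq χ h1 h2 h3
    have := hC q χ h1 h2 h3
    exact (hmono c q _ hc (Nat.one_le_iff_ne_zero.2 (NeZero.ne q)) (by linarith)).trans this
  · obtain ⟨c, hc, hC⟩ := sieA (β := 1 - e / 16) (by linarith) (by linarith)
    refine ⟨c, hc, ?_⟩
    intro q hq χ h1 h2 h3
    have := hC q χ h2 h3 (fun σ hs1 hs2 h0 => h ⟨q, hq, χ, σ, h1, h2, h3, hs1, hs2, h0⟩)
    exact (hmono c q _ hc (Nat.one_le_iff_ne_zero.2 (NeZero.ne q)) (by linarith)).trans this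

end BVL
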