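import Pool.Agent.H17.BV.Low
import Pool.Agent.H17.BV.Ctr
import Pool.Agent.H17.QPNT
import Pool.Agent.H17.Smooth

/-!
# BV / SMC: smooth sums of `χ(n) Λ(n)` over short multiplicative intervals (from LOW, LUP, CTR)

CTR with `g = Pool.Agent.H17.ZB.gS` (`gS_sup`), `a = chiLam χ`, `K = FF χ = -L'/L` (H17/Smooth.lean: `FF_eq`, `LFunction_ne_zero_right`;
`LSeriesSummable` of `chiLam`: `DirichletCharacter.LSeriesSummable_twist_vonMangoldt`; `K` is differentiable where `L ≠ 0`, since `L(s,χ)` is entire).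
`κ = c lam/(2 L^11)`, `c` from LOW (`κ ≤ 1/16`; `L ≥ log 7 > 1`). For `-κ ≤ Re w ≤ 0`, `|Im w| ≤ T`, `s = 1+x+w`: `1 - κ ≤ Re s ≤ 3/2`, and
`q(2|Im s|+5) ≤ e^L`, so `‖L(s,χ)‖ ≥ c lam/L^9` (LOW) and `‖L'(s,χ)‖ ≤ 120 L^2` (LupD, `q(|Im s|+4) ≤ e^L`, `1 - κ ≥ 1 - 1/(4L)`):
`‖K‖ ≤ (120/c) L^11/lam =: B`.
`S`: `∑ ‖term a (1+x) n‖ ≤ ∑ Λ(n) n^{-1-x} = Re K_ζ(1+x) + ζ(1+x)`-type: with `Pool.Agent.H17.ZB.K_eq_right`
(`K s = LSeries Λ s - LSeries 1 s`, `Re s > 1`) and `K_region` (`‖K(1+x)‖ ≤ 9C`), `ζ(1+x) = ∑ n^{-1-x} ≤ 1 + 1/x` (`norm_LSeries_triv_le` in H17/CharBound: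
`≤ (1+x)/x`): `S ≤ C'/x` (all terms are nonnegative reals).
-/

open Pool.Agent.H17 Pool.Agent.H17.ZB

namespace BVL

open DirichletCharacter

theorem smc_S : ∃ C : ℝ, 0 < C ∧ ∀ (q : ℕ) (χ : DirichletCharacter ℂ q), ∀ x : ℝ, 0 < x → x ≤ 1 / 2 →
    ∑' n : ℕ, ‖LSeries.term (chiLam χ) (1 + x) n‖ ≤ C / x := by
  obtain ⟨κ, C, hκ, hκ8, hC, hK⟩ := K_region
  refine ⟨9 * C + 2, by positivity, fun q χ x hx hx1 => ?_⟩
  have hre : (1 + (x : ℂ)).re = 1 + x := by simp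
  have him : (1 + (x : ℂ)).im = 0 := by simp
  have hs : 1 < (1 + (x : ℂ)).re := by rw [hre]; linarith
  set Lam : ℕ → ℂ := fun n => ((ArithmeticFunction.vonMangoldt n : ℝ) : ℂ) with hLam
  have hLs : LSeriesSummable Lam (1 + x) := ArithmeticFunction.LSeriesSummable_vonMangoldt hs
  set v : ℕ → ℝ := fun n => ‖LSeries.term Lam (1 + x) n‖ with hv
  have hvs : Summable v := hLs.norm
  have hterm : ∀ n : ℕ, LSeries.term Lam (1 + x) n = ((v n : ℝ) : ℂ) := by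
    intro n
    rcases Nat.eq_zero_or_pos n with rfl | hn
    · simp [hv]
    have hn0 : n ≠ 0 := by omega
    have h1 : LSeries.term Lam (1 + x) n = ((ArithmeticFunction.vonMangoldt n / (n : ℝ) ^ (1 + x) : ℝ) : ℂ) := by
      rw [LSeries.term_of_ne_zero hn0]
      have h2 : ((n : ℂ) ^ (1 + (x : ℂ))) = (((n : ℝ) ^ (1 + x) : ℝ) : ℂ) := by
        rw [Complex.ofReal_cpow (by positivity)]
        push_cast
        rfl
      rw [h2]
      push_cast
      rfl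
    rw [hv]
    simp only
    rw [h1, Complex.norm_real, Real.norm_of_nonneg]
    have := ArithmeticFunction.vonMangoldt_nonneg (n := n)
    positivity
  have hle : ∀ n : ℕ, ‖LSeries.term (chiLam χ) (1 + x) n‖ ≤ v n := by
    intro n
    rcases Nat.eq_zero_or_pos n with rfl | hn
    · simp [hv]
    have hn0 : n ≠ 0 := by omega
    rw [hv]
    simp only
    rw [LSeries.term_of_ne_zero hn0, LSeries.term_of_ne_zero hn0, norm_div, norm_div]
    apply div_le_div_of_nonneg_right _ (norm_nonneg _)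
    unfold chiLam
    simp only [Pi.mul_apply]
    rw [norm_mul]
    have h3 : ‖χ (n : ZMod q)‖ ≤ 1 := DirichletCharacter.norm_le_one χ _
    calc ‖χ (n : ZMod q)‖ * ‖((ArithmeticFunction.vonMangoldt n : ℝ) : ℂ)‖
        ≤ 1 * ‖((ArithmeticFunction.vonMangoldt n : ℝ) : ℂ)‖ := by gcongr
      _ = _ := one_mul _
  have hsum1 : Summable (fun n => ‖LSeries.term (chiLam χ) (1 + x) n‖) :=
    Summable.of_nonneg_of_le (fun _ => norm_nonneg _) hle hvs
  have h4 : ∑' n : ℕ, ‖LSeries.term (chiLam χ) (1 + x) n‖ ≤ ∑' n, v n := hsum1.tsum_le_tsum hle hvs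
  have h5 : ((∑' n, v n : ℝ) : ℂ) = LSeries Lam (1 + x) := by
    unfold LSeries
    rw [Complex.ofReal_tsum]
    exact tsum_congr fun n => (hterm n).symm
  have h6 : ∑' n, v n = ‖LSeries Lam (1 + x)‖ := by
    rw [← h5, Complex.norm_real, Real.norm_of_nonneg]
    exact tsum_nonneg fun n => norm_nonneg _
  have h7 : LSeries Lam (1 + x) = K (1 + x) + LSeries 1 (1 + x) := by
    rw [K_eq_right hs]
    ring
  have h8 : ‖K (1 + x)‖ ≤ 9 * C := by
    have h9 := (hK (1 + x) (by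
      rw [him, hre]
      have := LL_pos 0
      have h10 : 0 < κ / LL 0 ^ 9 := by positivity
      linarith) (by rw [hre]; linarith)).2
    rw [him] at h9
    refine h9.trans (le_of_eq ?_)
    norm_num
    ring
  have h9 : ‖LSeries (1 : ℕ → ℂ) (1 + x)‖ ≤ (1 + x) / x := by
    have := norm_LSeries_triv_le (f := (1 : ℕ → ℂ)) (fun n => by simp) hs
    rw [hre] at this
    refine this.trans (le_of_eq ?_)
    congr 1
    ring
  rw [h6, h7] at h4
  refine h4.trans ((norm_add_le _ _).trans ((add_le_add h8 h9).trans ?_))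
  rw [le_div_iff₀ hx, add_mul, div_mul_cancel₀ _ hx.ne']
  nlinarith

theorem smc_FF {q : ℕ} [NeZero q] {χ : DirichletCharacter ℂ q} (hχ : χ ≠ 1) {s : ℂ} (h : LFunction χ s ≠ 0) :
    DifferentiableAt ℂ (FF χ) s := by
  unfold FF
  exact (((deriv_LFunction_differentiable hχ) s).neg).div ((differentiable_LFunction hχ) s) h

theorem smc : ∃ C c : ℝ, 0 < C ∧ 0 < c ∧ c ≤ 1 ∧ ∀ (q : ℕ) [NeZero q] (χ : DirichletCharacter ℂ q), χ ≠ 1 →
    ∀ lam : ℝ, 0 < lam → lam ≤ 1 → (χ ^ 2 = 1 → lam ≤ ‖LFunction χ 1‖) → ∀ x T L δ u : ℝ, 0 < x → x ≤ 1 / 2 → 1 ≤ T →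
    (q : ℝ) * (2 * T + 5) ≤ Real.exp L → 0 < δ → δ ≤ 1 → 0 ≤ u →
    ‖∑' n : ℕ, LSeries.term (chiLam χ) (1 + x) n * gS ((Real.log n - u) / δ)‖
      ≤ C * (L ^ 11 / lam * T * Real.exp (-(c * lam / L ^ 11 * u)) + (L ^ 11 / lam + 1 / x) * ((δ ^ 7)⁻¹ * (T ^ 7)⁻¹)) := by
  obtain ⟨C0, hC0, hctr⟩ := contourG gS_sup
  obtain ⟨c, hc, hc8, hlow⟩ := low
  obtain ⟨C1, hC1, hS⟩ := smc_S
  refine ⟨C0 * (120 / c + C1), c, by positivity, hc, by linarith, ?_⟩
  intro q _ χ hχ lam hlam hlam1 hreal x T L δ u hx hx1 hT hL hδ hδ1 hu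
  have hq1 : (1 : ℝ) ≤ q := by exact_mod_cast Nat.pos_of_neZero q
  have hT0 : 0 < T := by linarith
  have hL1 : 1 ≤ L := by
    have h1 : Real.exp 1 ≤ Real.exp L := by
      have := Real.exp_one_lt_d9
      have h2 : (7 : ℝ) ≤ q * (2 * T + 5) := by nlinarith
      linarith
    exact Real.exp_le_exp.mp h1
  have hL0 : 0 < L := by linarith
  have hL11 : 1 ≤ L ^ 11 := one_le_pow₀ hL1
  set κ : ℝ := c * lam / L ^ 11 with hκ
  have hκ0 : 0 < κ := by positivity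
  have hκ1 : κ ≤ 1 / 8 := by
    rw [hκ, div_le_iff₀ (by positivity)]
    nlinarith
  have hκL : κ ≤ 1 / (4 * L) := by
    rw [hκ, div_le_div_iff₀ (by positivity) (by positivity)]
    have h1 : L ≤ L ^ 11 := le_self_pow₀ hL1 (by norm_num)
    have h2 : c * lam ≤ 1 / 8 := by nlinarith
    calc c * lam * (4 * L) ≤ 1 / 8 * (4 * L) := by gcongr
      _ ≤ 1 * L ^ 11 := by linarith
  set B : ℝ := 120 / c * (L ^ 11 / lam) with hB
  have hB0 : 0 ≤ B := by positivity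
  have hreg : ∀ w : ℂ, -κ ≤ w.re → w.re ≤ 0 → |w.im| ≤ T →
      DifferentiableAt ℂ (FF χ) (1 + x + w) ∧ ‖FF χ (1 + x + w)‖ ≤ B := by
    intro w h1 h2 h3
    have him : (1 + (x : ℂ) + w).im = w.im := by simp
    have hre : (1 + (x : ℂ) + w).re = 1 + x + w.re := by simp
    have hb1 : (q : ℝ) * (2 * |(1 + (x : ℂ) + w).im| + 5) ≤ Real.exp L := by
      rw [him]
      refine le_trans ?_ hL
      gcongr
    have hb2 : (q : ℝ) * (|(1 + (x : ℂ) + w).im| + 4) ≤ Real.exp L := by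
      refine le_trans ?_ hb1
      have := abs_nonneg (1 + (x : ℂ) + w).im
      gcongr
      · linarith
      · norm_num
    have hlo := hlow q χ hχ L lam hlam hlam1 hreal (1 + x + w) hb1 (by rw [hre, ← hκ]; linarith) (by rw [hre]; linarith)
    have hlo0 : 0 < c * lam / L ^ 9 := by positivity
    have hne : LFunction χ (1 + x + w) ≠ 0 := by
      intro h0
      rw [h0, norm_zero] at hlo
      linarith
    refine ⟨smc_FF hχ hne, ?_⟩
    have hd := LupD hχ hb2 (by rw [hre]; linarith) (by rw [hre]; linarith)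
    unfold FF
    rw [norm_div, norm_neg]
    calc ‖deriv (LFunction χ) (1 + x + w)‖ / ‖LFunction χ (1 + x + w)‖
        ≤ (120 * L ^ 2) / (c * lam / L ^ 9) := by gcongr
      _ = B := by
          rw [hB]
          field_simp
  have h1 := hctr (chiLam χ) (FF χ) (fun s hs => ⟨LSeriesSummable_twist_vonMangoldt χ hs,
    smc_FF hχ (LFunction_ne_zero_right χ hs), FF_eq χ hs⟩) x κ T B (C1 / x) hx hx1 hκ0 (by linarith) hT hB0
    (hS q χ x hx hx1) hreg δ u hδ hδ1 hu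
  refine h1.trans ?_
  rw [mul_assoc C0 (120 / c + C1)]
  apply mul_le_mul_of_nonneg_left _ hC0.le
  have hE0 : 0 < Real.exp (-(κ * u)) := Real.exp_pos _
  have hX0 : 0 ≤ (δ ^ 7)⁻¹ * (T ^ 7)⁻¹ := by positivity
  have hR0 : 0 < L ^ 11 / lam := by positivity
  have hx0' : 0 < 1 / x := by positivity
  have a1 : δ * B * T * Real.exp (-(κ * u)) ≤ (120 / c + C1) * (L ^ 11 / lam * T * Real.exp (-(κ * u))) := by
    calc δ * B * T * Real.exp (-(κ * u)) ≤ 1 * B * T * Real.exp (-(κ * u)) := by gcongr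
      _ = 120 / c * (L ^ 11 / lam * T * Real.exp (-(κ * u))) := by rw [hB]; ring
      _ ≤ _ := by
          apply mul_le_mul_of_nonneg_right _ (by positivity)
          linarith
  have a2 : (B + C1 / x) ≤ (120 / c + C1) * (L ^ 11 / lam + 1 / x) := by
    have : 0 < 120 / c := by positivity
    rw [hB]
    have e1 : C1 / x = C1 * (1 / x) := by ring
    rw [e1]
    nlinarith [mul_pos this hx0', mul_pos hC1 hR0]
  calc δ * B * T * Real.exp (-(κ * u)) + (B + C1 / x) * ((δ ^ 7)⁻¹ * (T ^ 7)⁻¹)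
      ≤ (120 / c + C1) * (L ^ 11 / lam * T * Real.exp (-(κ * u)))
        + ((120 / c + C1) * (L ^ 11 / lam + 1 / x)) * ((δ ^ 7)⁻¹ * (T ^ 7)⁻¹) := by gcongr
    _ = _ := by ring

end BVL
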