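import Pool.Agent.H17.BV.Defs
import Pool.Agent.H17.BV.Sie
import Pool.Agent.H17.BV.Smc
import Pool.Agent.H17.BV.Shp

/-!
# BV / SW: the Siegel-Walfisz theorem (from SIE, SMC, SHP)

We may assume `A, B ≥ 1`. `ℓ = log N` large. `χ ∈ pc q`, `1 ≤ q ≤ ℓ^B`: primitive, `χ ≠ 1`.
`lam`: SIE with `η = 1/(4B)`: if `χ^2 = 1`, `‖L(1,χ)‖ ≥ c0 q^{-η} ≥ c0 ℓ^{-1/4}`; take `lam = min(c0,1) ℓ^{-1/4}`.
`δ = ℓ^{-(A+3)}`, `T = ℓ^{D}` with `D = 2A + 7` (any `D` with `7 D ≥ 8(A+3) + A + 2`... e.g. `D = 3A + 9`), `x = 1/ℓ`, `L = log(q(2T+5)) ≤ (B + D + 1) log ℓ` (`exp L = q(2T+5)`), so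
`L^11/lam ≤ ℓ^{1/2}` and `lam/L^11 ≥ ℓ^{-1/2}` for large `N`.
For `u ∈ [ℓ/2 - ..., ℓ]`, `u ≥ ℓ/4`: SMC gives `‖S(u)‖ ≤ C (ℓ^{1/2} T e^{-c ℓ^{1/2}/4} + 2 ℓ δ^{-7} T^{-7}) ≤ ℓ^{-(2A+5)} =: E` for large `N`.
Let `y ≤ N`. If `y ≤ N ℓ^{-(A+1)}`: `‖ψ(y,χ)‖ ≤ ψ(y) ≤ 6y ≤ N ℓ^{-A}` (`ψ`: `Chebyshev.psi`, `Pool.Agent.H17.ZB.psi_le_six`; or `|χ| ≤ 1`). Otherwise SHP with `b = log y`
(`⌊exp b⌋ = y`; `x b ≤ 1`), `a = ℓ/4`, `c n = chiLam χ n`: `‖ψ(y,χ)‖ ≤ C' (E N ℓ^{A+3} + N^{1/4} + (1+ℓ)(N ℓ^{-(A+3)} + 1)) ≤ N ℓ^{-A}` for large `N`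
(`a + 2δ ≤ b` because `y ≥ N ℓ^{-(A+1)} ≥ N^{1/2}`).
-/

open Finset H69LB

namespace BVL

private theorem sw_ev (b s : ℝ) (hb : 0 < b) :
    ∀ᶠ t : ℝ in Filter.atTop, Real.exp (-(b * t)) ≤ t ^ (-s) := by
  have h := tendsto_rpow_mul_exp_neg_mul_atTop_nhds_zero s b hb
  filter_upwards [h.eventually (gt_mem_nhds zero_lt_one), Filter.eventually_gt_atTop 0] with t ht ht0
  rw [Real.rpow_neg ht0.le, ← one_div, le_div_iff₀ (Real.rpow_pos_of_pos ht0 s)]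
  have h1 : t ^ s * Real.exp (-b * t) < 1 := ht
  have h2 : -(b * t) = -b * t := by ring
  rw [h2, mul_comm]
  exact h1.le

private theorem sw_ev2 (b s : ℝ) (hb : 0 < b) :
    ∀ᶠ l : ℝ in Filter.atTop, Real.exp (-(b * l ^ (1 / 2 : ℝ))) ≤ l ^ (-s) := by
  have h := (tendsto_rpow_atTop (by norm_num : (0 : ℝ) < 1 / 2)).eventually (sw_ev b (2 * s) hb)
  filter_upwards [h, Filter.eventually_gt_atTop 0] with l hl hl0
  refine hl.trans (le_of_eq ?_)
  rw [← Real.rpow_mul hl0.le]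
  congr 1
  ring

private theorem sw_ev3 (K c1 : ℝ) (hK : 0 < K) (hc1 : 0 < c1) (hc1' : c1 ≤ 1) :
    ∀ᶠ l : ℝ in Filter.atTop, (K * Real.log l) ^ 11 / (c1 * l ^ (-(1 / 4) : ℝ)) ≤ l ^ (1 / 2 : ℝ) := by
  have hε : 0 < c1 / K := by positivity
  have h := (isLittleO_log_rpow_atTop (by norm_num : (0 : ℝ) < 1 / 44)).bound hε
  filter_upwards [h, Filter.eventually_ge_atTop 1] with l hl hl1
  have hl0 : 0 < l := by linarith
  have hlog : 0 ≤ Real.log l := Real.log_nonneg hl1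
  have hp : 0 < l ^ (1 / 44 : ℝ) := Real.rpow_pos_of_pos hl0 _
  rw [Real.norm_of_nonneg hlog, Real.norm_of_nonneg hp.le] at hl
  have h1 : K * Real.log l ≤ c1 * l ^ (1 / 44 : ℝ) := by
    have := mul_le_mul_of_nonneg_left hl hK.le
    refine this.trans (le_of_eq ?_)
    field_simp
  have h2 : (K * Real.log l) ^ 11 ≤ (c1 * l ^ (1 / 44 : ℝ)) ^ 11 :=
    pow_le_pow_left₀ (by positivity) h1 11
  have h44 : (l ^ (1 / 44 : ℝ)) ^ 11 = l ^ (1 / 4 : ℝ) := by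
    rw [← Real.rpow_natCast, ← Real.rpow_mul hl0.le]
    norm_num
  have h3 : (c1 * l ^ (1 / 44 : ℝ)) ^ 11 = c1 ^ 11 * l ^ (1 / 4 : ℝ) := by
    rw [mul_pow, h44]
  have h4 : c1 ^ 11 ≤ c1 := by
    have := pow_le_pow_of_le_one hc1.le hc1' (by norm_num : 1 ≤ 11)
    simpa using this
  have hq : 0 < l ^ (1 / 4 : ℝ) := Real.rpow_pos_of_pos hl0 _
  have hq' : 0 < l ^ (-(1 / 4) : ℝ) := Real.rpow_pos_of_pos hl0 _
  rw [div_le_iff₀ (by positivity)]
  have h5 : l ^ (1 / 2 : ℝ) * (c1 * l ^ (-(1 / 4) : ℝ)) = c1 * l ^ (1 / 4 : ℝ) := by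
    have : l ^ (1 / 2 : ℝ) * l ^ (-(1 / 4) : ℝ) = l ^ (1 / 4 : ℝ) := by
      rw [← Real.rpow_add hl0]
      norm_num
    calc l ^ (1 / 2 : ℝ) * (c1 * l ^ (-(1 / 4) : ℝ)) = c1 * (l ^ (1 / 2 : ℝ) * l ^ (-(1 / 4) : ℝ)) := by ring
      _ = _ := by rw [this]
  rw [h5]
  calc (K * Real.log l) ^ 11 ≤ c1 ^ 11 * l ^ (1 / 4 : ℝ) := by rw [← h3]; exact h2
    _ ≤ c1 * l ^ (1 / 4 : ℝ) := mul_le_mul_of_nonneg_right h4 hq.le

private theorem sw_psiC {q : ℕ} (χ : DirichletCharacter ℂ q) (y : ℕ) :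
    psiC χ y = ∑ n ∈ Icc 1 y, Pool.Agent.H17.chiLam χ n := by
  unfold psiC Pool.Agent.H17.chiLam
  refine Finset.sum_congr rfl fun n _ => ?_
  simp only [Pi.mul_apply]
  ring

private theorem sw_cl {q : ℕ} (χ : DirichletCharacter ℂ q) (n : ℕ) :
    ‖Pool.Agent.H17.chiLam χ n‖ ≤ ArithmeticFunction.vonMangoldt n := by
  unfold Pool.Agent.H17.chiLam
  simp only [Pi.mul_apply]
  rw [norm_mul, Complex.norm_real, Real.norm_of_nonneg ArithmeticFunction.vonMangoldt_nonneg]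
  exact mul_le_of_le_one_left ArithmeticFunction.vonMangoldt_nonneg (χ.norm_le_one _)

private theorem sw_small {q : ℕ} (χ : DirichletCharacter ℂ q) (y : ℕ) : ‖psiC χ y‖ ≤ 6 * y := by
  rw [sw_psiC]
  have h1 : ‖∑ n ∈ Icc 1 y, Pool.Agent.H17.chiLam χ n‖ ≤ ∑ n ∈ Icc 1 y, ArithmeticFunction.vonMangoldt n :=
    (norm_sum_le _ _).trans (Finset.sum_le_sum fun n _ => sw_cl χ n)
  have h2 := Pool.Agent.H17.ZB.psi_le_six (x := (y : ℝ)) (Nat.cast_nonneg y)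
  have h3 : Chebyshev.psi (y : ℝ) = ∑ n ∈ Icc 1 y, ArithmeticFunction.vonMangoldt n := by
    unfold Chebyshev.psi
    rw [Nat.floor_natCast]
    refine Finset.sum_congr ?_ fun _ _ => rfl
    ext n
    simp only [Finset.mem_Ioc, Finset.mem_Icc]
    omega
  rw [h3] at h2
  exact h1.trans h2

/-- the pointwise estimate with abstract inputs -/
private theorem sw_core {A C C' c c1 B D : ℝ} (hA : 1 ≤ A) (hD : D = 2 * A + 4)
    (hC : 0 < C) (hC' : 0 < C') (hc : 0 < c) (hc1 : 0 < c1) (hc1' : c1 ≤ 1)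
    {l : ℝ} (hl8 : 8 ≤ l) (hl3 : 3 * C ≤ l) (hl6 : 6 * C' ≤ l)
    (e1 : Real.exp (-(c / 4 * l ^ (1 / 2 : ℝ))) ≤ l ^ (-(1 / 2 + D + 2 * A + 5)))
    (e2 : Real.exp (-(3 / 4 * l)) ≤ l ^ (-(A + 3)))
    (e3 : ((B + D + 1) * Real.log l) ^ 11 / (c1 * l ^ (-(1 / 4) : ℝ)) ≤ l ^ (1 / 2 : ℝ))
    (e4 : (A + 1) * Real.log l ≤ l / 2)
    (smc' : ∀ (q : ℕ) [NeZero q] (χ : DirichletCharacter ℂ q), χ ≠ 1 →
    ∀ lam : ℝ, 0 < lam → lam ≤ 1 → (χ ^ 2 = 1 → lam ≤ ‖DirichletCharacter.LFunction χ 1‖) →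
    ∀ x T L δ u : ℝ, 0 < x → x ≤ 1 / 2 → 1 ≤ T →
    (q : ℝ) * (2 * T + 5) ≤ Real.exp L → 0 < δ → δ ≤ 1 → 0 ≤ u →
    ‖∑' n : ℕ, LSeries.term (Pool.Agent.H17.chiLam χ) (1 + x) n * Pool.Agent.H17.ZB.gS ((Real.log n - u) / δ)‖
      ≤ C * (L ^ 11 / lam * T * Real.exp (-(c * lam / L ^ 11 * u)) + (L ^ 11 / lam + 1 / x) * ((δ ^ 7)⁻¹ * (T ^ 7)⁻¹)))
    (shp' : ∀ c : ℕ → ℂ, (∀ n, ‖c n‖ ≤ ArithmeticFunction.vonMangoldt n) →
    ∀ x δ a b E : ℝ, 0 < x → x ≤ 1 → x * b ≤ 1 → 0 < δ → δ ≤ 1 / 2 → 0 ≤ a → a + 2 * δ ≤ b → 0 ≤ E →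
    (∀ u ∈ Set.Icc a b, ‖∑' n : ℕ, LSeries.term c (1 + x) n * Pool.Agent.H17.ZB.gS ((Real.log n - u) / δ)‖ ≤ E) →
    ‖∑ n ∈ Icc 1 ⌊Real.exp b⌋₊, c n‖ ≤ C' * (E * Real.exp b / δ + Real.exp a + (1 + b) * (δ * Real.exp b + 1)))
    {q : ℕ} [NeZero q] {χ : DirichletCharacter ℂ q} (hχ : χ ≠ 1) (hq : (q : ℝ) ≤ l ^ B)
    (hlam : χ ^ 2 = 1 → c1 * l ^ (-(1 / 4) : ℝ) ≤ ‖DirichletCharacter.LFunction χ 1‖)
    {N y : ℕ} (hN : Real.exp l = N) (hy : y ≤ N) : ‖psiC χ y‖ ≤ N * l ^ (-A) := by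
  have hl0 : 0 < l := by linarith
  have hl1 : 1 ≤ l := by linarith
  have hN0 : (0 : ℝ) < N := by rw [← hN]; exact Real.exp_pos _
  have hyN : (y : ℝ) ≤ N := by exact_mod_cast hy
  have hpA1 : l ^ (-A) = l * l ^ (-(A + 1)) := by
    have : l * l ^ (-(A + 1)) = l ^ (1 : ℝ) * l ^ (-(A + 1)) := by rw [Real.rpow_one]
    rw [this, ← Real.rpow_add hl0]
    congr 1
    ring
  have hP1 : 0 < l ^ (-(A + 1)) := Real.rpow_pos_of_pos hl0 _
  by_cases hcase : (y : ℝ) ≤ N * l ^ (-(A + 1))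
  · refine (sw_small χ y).trans ?_
    rw [hpA1]
    have h1 : 0 ≤ (N : ℝ) * l ^ (-(A + 1)) := mul_nonneg hN0.le hP1.le
    have h2 := mul_le_mul_of_nonneg_right hl8 h1
    clear smc' shp' e1 e2 e3 e4
    linarith
  · rw [not_le] at hcase
    have hy0 : (0 : ℝ) < y := lt_trans (by positivity) hcase
    set b := Real.log y with hb
    have heb : Real.exp b = y := Real.exp_log hy0
    have hbl : b ≤ l := by
      rw [hb, ← Real.log_exp l, hN]
      exact Real.log_le_log hy0 hyN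
    have hb2 : l / 2 ≤ b := by
      have h1 : Real.log (N * l ^ (-(A + 1))) ≤ b := Real.log_le_log (by positivity) hcase.le
      rw [Real.log_mul hN0.ne' hP1.ne', ← hN, Real.log_exp, Real.log_rpow hl0] at h1
      linarith
    -- parameters
    obtain ⟨δ, hδ⟩ : ∃ δ, δ = l ^ (-(A + 3)) := ⟨_, rfl⟩
    obtain ⟨T, hT⟩ : ∃ T, T = l ^ D := ⟨_, rfl⟩
    have hδ0 : 0 < δ := by rw [hδ]; exact Real.rpow_pos_of_pos hl0 _
    have hδ1 : δ ≤ 1 / 2 := by
      have h1 : l ^ (-(A + 3)) ≤ l ^ (-1 : ℝ) := Real.rpow_le_rpow_of_exponent_le hl1 (by linarith)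
      have h2 : l ^ (-1 : ℝ) = 1 / l := by rw [Real.rpow_neg_one, one_div]
      have h3 : 1 / l ≤ 1 / 8 := one_div_le_one_div_of_le (by norm_num) hl8
      rw [hδ]
      linarith
    have hT1 : 1 ≤ T := by
      rw [hT]
      exact Real.one_le_rpow hl1 (by linarith)
    have hqpos : (1 : ℝ) ≤ q := by exact_mod_cast Nat.one_le_iff_ne_zero.mpr (NeZero.ne q)
    obtain ⟨L, hL⟩ : ∃ L, L = Real.log (q * (2 * T + 5)) := ⟨_, rfl⟩
    have hLpos : 0 < (q : ℝ) * (2 * T + 5) := by positivity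
    have hexpL : Real.exp L = q * (2 * T + 5) := by rw [hL, Real.exp_log hLpos]
    have hL0 : 0 < L := by
      rw [hL]
      apply Real.log_pos
      have h1 : (1 : ℝ) < 2 * T + 5 := by linarith
      exact h1.trans_le (le_mul_of_one_le_left (by linarith) hqpos)
    have hLle : L ≤ (B + D + 1) * Real.log l := by
      have h1 : (q : ℝ) * (2 * T + 5) ≤ l ^ (B + D + 1) := by
        have h2 : 2 * T + 5 ≤ T * l := by
          have h0 := mul_le_mul_of_nonneg_left hl8 (by linarith : (0 : ℝ) ≤ T)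
          linarith
        have h3 : (q : ℝ) * (2 * T + 5) ≤ l ^ B * (T * l) :=
          mul_le_mul hq h2 (by positivity) (by positivity)
        refine h3.trans (le_of_eq ?_)
        rw [hT, Real.rpow_add hl0, Real.rpow_add hl0, Real.rpow_one]
        ring
      rw [hL, ← Real.log_rpow hl0]
      exact Real.log_le_log hLpos h1
    obtain ⟨lam, hlamd⟩ : ∃ lam, lam = c1 * l ^ (-(1 / 4) : ℝ) := ⟨_, rfl⟩
    have hq4 : 0 < l ^ (-(1 / 4) : ℝ) := Real.rpow_pos_of_pos hl0 _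
    have hlam0 : 0 < lam := by rw [hlamd]; positivity
    have hlam1 : lam ≤ 1 := by
      rw [hlamd]
      have h1 : l ^ (-(1 / 4) : ℝ) ≤ 1 := Real.rpow_le_one_of_one_le_of_nonpos hl1 (by norm_num)
      exact mul_le_one₀ hc1' hq4.le h1
    have hLl : L ^ 11 / lam ≤ l ^ (1 / 2 : ℝ) := by
      refine le_trans ?_ e3
      rw [← hlamd]
      exact div_le_div_of_nonneg_right (pow_le_pow_left₀ hL0.le hLle 11) hlam0.le
    have hsq1 : 1 ≤ l ^ (1 / 2 : ℝ) := Real.one_le_rpow hl1 (by norm_num)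
    have hsq : l ^ (1 / 2 : ℝ) * l ^ (1 / 2 : ℝ) = l := by
      rw [← Real.rpow_add hl0]
      norm_num
    have hsql : l ^ (1 / 2 : ℝ) ≤ l := by
      have h0 := mul_le_mul_of_nonneg_left hsq1 (zero_le_one.trans hsq1)
      rw [mul_one, hsq] at h0
      exact h0
    have hLl0 : 0 < L ^ 11 / lam := by positivity
    have hlL : (l ^ (1 / 2 : ℝ))⁻¹ ≤ lam / L ^ 11 := by
      have h1 : lam / L ^ 11 = (L ^ 11 / lam)⁻¹ := by rw [inv_div]
      rw [h1]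
      exact inv_anti₀ hLl0 hLl
    -- the bound for smooth sums
    have hE : ∀ u ∈ Set.Icc (l / 4) b, ‖∑' n : ℕ, LSeries.term (Pool.Agent.H17.chiLam χ) (1 + (1 / l : ℝ)) n *
        Pool.Agent.H17.ZB.gS ((Real.log n - u) / δ)‖ ≤ l ^ (-(2 * A + 4)) := by
      intro u hu
      have hu0 : 0 ≤ u := by linarith [hu.1]
      have hx : (0 : ℝ) < 1 / l := by positivity
      have hx2 : 1 / l ≤ 1 / 2 := one_div_le_one_div_of_le (by norm_num) (by linarith)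
      have h := smc' q χ hχ lam hlam0 hlam1 (by rw [hlamd]; exact hlam) (1 / l) T L δ u hx hx2 hT1
        hexpL.ge hδ0 (by linarith) hu0
      have hcast : (((1 / l : ℝ)) : ℂ) = ((1 / l : ℝ) : ℂ) := rfl
      refine h.trans ?_
      -- first term
      have t1 : Real.exp (-(c * lam / L ^ 11 * u)) ≤ l ^ (-(1 / 2 + D + 2 * A + 5)) := by
        refine le_trans ?_ e1
        rw [Real.exp_le_exp, neg_le_neg_iff]
        have h1 : c / 4 * l ^ (1 / 2 : ℝ) = c * (l ^ (1 / 2 : ℝ))⁻¹ * (l / 4) := by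
          have h0 : l ^ (1 / 2 : ℝ) ≠ 0 := by positivity
          have h01 : l / 4 = (l ^ (1 / 2 : ℝ) * l ^ (1 / 2 : ℝ)) / 4 := by rw [hsq]
          rw [h01]
          field_simp
        rw [h1]
        have h2 : c * lam / L ^ 11 = c * (lam / L ^ 11) := by ring
        rw [h2]
        exact mul_le_mul (mul_le_mul_of_nonneg_left hlL hc.le) hu.1 (by positivity) (by positivity)
      have t2 : L ^ 11 / lam * T * Real.exp (-(c * lam / L ^ 11 * u)) ≤ l ^ (-(2 * A + 5)) := by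
        have h1 : L ^ 11 / lam * T ≤ l ^ (1 / 2 : ℝ) * T := mul_le_mul_of_nonneg_right hLl (by linarith)
        have h2 := mul_le_mul h1 t1 (Real.exp_pos _).le (by positivity)
        refine h2.trans (le_of_eq ?_)
        rw [hT, ← Real.rpow_add hl0, ← Real.rpow_add hl0]
        congr 1
        ring
      have t3 : L ^ 11 / lam + 1 / (1 / l) ≤ 2 * l := by
        rw [one_div_one_div]
        linarith
      have t4 : (δ ^ 7)⁻¹ * (T ^ 7)⁻¹ ≤ l ^ (-(2 * A + 6)) := by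
        have h1 : (δ ^ 7)⁻¹ = l ^ (7 * (A + 3)) := by
          rw [hδ, ← Real.rpow_natCast, ← Real.rpow_mul hl0.le, ← Real.rpow_neg hl0.le]
          congr 1
          push_cast
          ring
        have h2 : (T ^ 7)⁻¹ = l ^ (-(7 * D)) := by
          rw [hT, ← Real.rpow_natCast, ← Real.rpow_mul hl0.le, ← Real.rpow_neg hl0.le]
          congr 1
          push_cast
          ring
        rw [h1, h2, ← Real.rpow_add hl0]
        apply Real.rpow_le_rpow_of_exponent_le hl1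
        rw [hD]
        linarith
      have t5 : (L ^ 11 / lam + 1 / (1 / l)) * ((δ ^ 7)⁻¹ * (T ^ 7)⁻¹) ≤ 2 * l ^ (-(2 * A + 5)) := by
        have h1 := mul_le_mul t3 t4 (by positivity) (by positivity)
        refine h1.trans (le_of_eq ?_)
        have h2 : l ^ (-(2 * A + 5)) = l ^ (1 : ℝ) * l ^ (-(2 * A + 6)) := by
          rw [← Real.rpow_add hl0]
          congr 1
          ring
        rw [h2, Real.rpow_one]
        ring
      have t6 : l ^ (-(2 * A + 4)) = l * l ^ (-(2 * A + 5)) := by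
        have h2 : l * l ^ (-(2 * A + 5)) = l ^ (1 : ℝ) * l ^ (-(2 * A + 5)) := by rw [Real.rpow_one]
        rw [h2, ← Real.rpow_add hl0]
        congr 1
        ring
      have hP : 0 < l ^ (-(2 * A + 5)) := Real.rpow_pos_of_pos hl0 _
      rw [t6]
      have t7 := mul_le_mul_of_nonneg_left (add_le_add t2 t5) hC.le
      refine t7.trans ?_
      have t8 := mul_le_mul_of_nonneg_right hl3 hP.le
      clear smc' shp' e1 e2 e3 e4 t7 t6 t5 t4 t3 t2 t1 h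
      linarith
    have hmain := shp' (Pool.Agent.H17.chiLam χ) (sw_cl χ) (1 / l) δ (l / 4) b (l ^ (-(2 * A + 4)))
      (by positivity) (by
        rw [div_le_one hl0]
        exact hl1) (by
        rw [one_div, inv_mul_le_iff₀ hl0]
        linarith) hδ0 hδ1 (by positivity) (by linarith) (by positivity) hE
    rw [heb, Nat.floor_natCast, ← sw_psiC] at hmain
    refine hmain.trans ?_
    -- final inequality
    have f1 : l ^ (-(2 * A + 4)) * y / δ ≤ N * l ^ (-(A + 1)) := by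
      rw [div_le_iff₀ hδ0, hδ]
      have h1 : l ^ (-(2 * A + 4)) = l ^ (-(A + 1)) * l ^ (-(A + 3)) := by
        rw [← Real.rpow_add hl0]
        congr 1
        ring
      rw [h1]
      have h2 : 0 < l ^ (-(A + 3)) := Real.rpow_pos_of_pos hl0 _
      have h3 := mul_le_mul_of_nonneg_left hyN (by positivity : 0 ≤ l ^ (-(A + 1)) * l ^ (-(A + 3)))
      linarith
    have hP3 : l ^ (-(A + 3)) ≤ l ^ (-(A + 1)) := Real.rpow_le_rpow_of_exponent_le hl1 (by linarith)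
    have f2 : Real.exp (l / 4) ≤ N * l ^ (-(A + 1)) := by
      have h1 : Real.exp (l / 4) = Real.exp l * Real.exp (-(3 / 4 * l)) := by
        rw [← Real.exp_add]
        congr 1
        ring
      rw [h1, hN]
      exact mul_le_mul_of_nonneg_left (e2.trans hP3) hN0.le
    have f3 : 1 ≤ N * l ^ (-(A + 3)) := by
      have h1 : Real.exp l * Real.exp (-(3 / 4 * l)) ≤ N * l ^ (-(A + 3)) := by
        rw [hN]
        exact mul_le_mul_of_nonneg_left e2 hN0.le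
      refine le_trans ?_ h1
      rw [← Real.exp_add]
      apply Real.one_le_exp
      linarith
    have f4 : (1 + b) * (δ * y + 1) ≤ 4 * (N * l ^ (-(A + 1))) := by
      have h1 : 1 + b ≤ 2 * l := by linarith
      have h2 : δ * y + 1 ≤ 2 * (N * l ^ (-(A + 3))) := by
        have h3 : δ * y ≤ N * l ^ (-(A + 3)) := by
          rw [hδ, mul_comm]
          exact mul_le_mul_of_nonneg_right hyN (Real.rpow_pos_of_pos hl0 _).le
        linarith
      have h4 := mul_le_mul h1 h2 (by positivity) (by positivity)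
      refine h4.trans ?_
      have h5 : l * l ^ (-(A + 3)) ≤ l ^ (-(A + 1)) := by
        have h6 : l * l ^ (-(A + 3)) = l ^ (1 : ℝ) * l ^ (-(A + 3)) := by rw [Real.rpow_one]
        rw [h6, ← Real.rpow_add hl0]
        exact Real.rpow_le_rpow_of_exponent_le hl1 (by linarith)
      have h7 := mul_le_mul_of_nonneg_left h5 hN0.le
      linarith
    have f5 := mul_le_mul_of_nonneg_left (add_le_add (add_le_add f1 f2) f4) hC'.le
    refine f5.trans ?_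
    rw [hpA1]
    have h0 : 0 ≤ (N : ℝ) * l ^ (-(A + 1)) := mul_nonneg hN0.le hP1.le
    have h1 := mul_le_mul_of_nonneg_right hl6 h0
    clear smc' shp' e1 e2 e3 e4 f5 f4 f3 f2 f1 hmain hE
    linarith

private theorem sw_ge (A B : ℝ) (hA : 1 ≤ A) (hB : 1 ≤ B) :
    ∃ N0 : ℕ, ∀ N : ℕ, N0 ≤ N → ∀ q : ℕ, 1 ≤ q → (q : ℝ) ≤ Real.log N ^ B →
    ∀ χ ∈ pc q, PM N χ ≤ N * Real.log N ^ (-A) := by
  obtain ⟨c0, hc0, hsie⟩ := siegel (η := 1 / (4 * B)) (by positivity)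
  obtain ⟨C, c, hC, hc, hc1, hsmc⟩ := smc
  obtain ⟨C', hC', hshp⟩ := shp
  have hc1p : 0 < min c0 1 := lt_min hc0 one_pos
  have hev : ∀ᶠ l : ℝ in Filter.atTop, 8 ≤ l ∧ 3 * C ≤ l ∧ 6 * C' ≤ l ∧
      Real.exp (-(c / 4 * l ^ (1 / 2 : ℝ))) ≤ l ^ (-(1 / 2 + (2 * A + 4) + 2 * A + 5)) ∧
      Real.exp (-(3 / 4 * l)) ≤ l ^ (-(A + 3)) ∧
      ((B + (2 * A + 4) + 1) * Real.log l) ^ 11 / (min c0 1 * l ^ (-(1 / 4) : ℝ)) ≤ l ^ (1 / 2 : ℝ) ∧
      (A + 1) * Real.log l ≤ l / 2 := by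
    have h4 : ∀ᶠ l : ℝ in Filter.atTop, (A + 1) * Real.log l ≤ l / 2 := by
      have hε : 0 < 1 / (2 * (A + 1)) := by positivity
      have h := Real.isLittleO_log_id_atTop.bound hε
      filter_upwards [h, Filter.eventually_ge_atTop 1] with l hl hl1
      rw [Real.norm_of_nonneg (Real.log_nonneg hl1), id, Real.norm_of_nonneg (by linarith)] at hl
      have h5 := mul_le_mul_of_nonneg_left hl (by linarith : 0 ≤ A + 1)
      refine h5.trans (le_of_eq ?_)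
      have : A + 1 ≠ 0 := by positivity
      field_simp
    filter_upwards [Filter.eventually_ge_atTop 8, Filter.eventually_ge_atTop (3 * C),
      Filter.eventually_ge_atTop (6 * C'), sw_ev2 (c / 4) (1 / 2 + (2 * A + 4) + 2 * A + 5) (by positivity),
      sw_ev (3 / 4) (A + 3) (by norm_num),
      sw_ev3 (B + (2 * A + 4) + 1) (min c0 1) (by linarith) hc1p (min_le_right _ _), h4] with l a1 a2 a3 a4 a5 a6 a7
    exact ⟨a1, a2, a3, a4, a5, a6, a7⟩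
  have hlog : Filter.Tendsto (fun N : ℕ => Real.log (N : ℝ)) Filter.atTop Filter.atTop :=
    Real.tendsto_log_atTop.comp tendsto_natCast_atTop_atTop
  obtain ⟨N1, hN1⟩ := Filter.eventually_atTop.mp (hlog.eventually hev)
  refine ⟨max N1 1, fun N hN q hq hqB χ hχ => ?_⟩
  obtain ⟨a1, a2, a3, a4, a5, a6, a7⟩ := hN1 N ((le_max_left _ _).trans hN)
  have hN1' : 1 ≤ N := (le_max_right _ _).trans hN
  have hNpos : (0 : ℝ) < N := by exact_mod_cast hN1'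
  have : NeZero q := ⟨by omega⟩
  obtain ⟨hprim, hne⟩ : χ.IsPrimitive ∧ χ ≠ 1 := by
    simpa only [pc, Finset.mem_filter, Finset.mem_univ, true_and] using hχ
  unfold PM
  refine mx_le fun y hy => ?_
  refine sw_core (B := B) (D := 2 * A + 4) hA rfl hC hC' hc hc1p (min_le_right _ _) a1 a2 a3 a4 a5 a6 a7
    hsmc hshp hne hqB ?_ (Real.exp_log hNpos) hy
  intro h2
  refine le_trans ?_ (hsie q χ hprim hne h2)
  have hl0 : 0 < Real.log N := by linarith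
  have hqpos : (0 : ℝ) < q := by exact_mod_cast hq
  have h3 : Real.log N ^ (-(1 / 4) : ℝ) ≤ (q : ℝ) ^ (-(1 / (4 * B))) := by
    have h4 : (q : ℝ) ^ (1 / (4 * B)) ≤ (Real.log N ^ B) ^ (1 / (4 * B)) :=
      Real.rpow_le_rpow hqpos.le hqB (by positivity)
    have h5 : (Real.log N ^ B) ^ (1 / (4 * B)) = Real.log N ^ (1 / 4 : ℝ) := by
      rw [← Real.rpow_mul hl0.le]
      congr 1
      have : B ≠ 0 := by positivity
      field_simp
    rw [h5] at h4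
    rw [Real.rpow_neg hl0.le, Real.rpow_neg hqpos.le]
    exact inv_anti₀ (Real.rpow_pos_of_pos hqpos _) h4
  exact mul_le_mul (min_le_left _ _) h3 (Real.rpow_pos_of_pos hl0 _).le hc0.le

theorem sw (A B : ℝ) : ∃ N0 : ℕ, ∀ N : ℕ, N0 ≤ N → ∀ q : ℕ, 1 ≤ q → (q : ℝ) ≤ Real.log N ^ B →
    ∀ χ ∈ pc q, PM N χ ≤ N / Real.log N ^ A := by
  obtain ⟨N0, h⟩ := sw_ge (max A 1) (max B 1) (le_max_right _ _) (le_max_right _ _)
  refine ⟨max N0 3, fun N hN q hq hqB χ hχ => ?_⟩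
  have hN3 : 3 ≤ N := (le_max_right _ _).trans hN
  have hl1 : 1 ≤ Real.log N := by
    have h3 : (3 : ℝ) ≤ N := by exact_mod_cast hN3
    rw [Real.le_log_iff_exp_le (by linarith)]
    have := Real.exp_one_lt_d9
    linarith
  have hl0 : 0 < Real.log N := by linarith
  have h1 := h N ((le_max_left _ _).trans hN) q hq
    (hqB.trans (Real.rpow_le_rpow_of_exponent_le hl1 (le_max_left _ _))) χ hχ
  refine h1.trans ?_
  rw [div_eq_mul_inv, ← Real.rpow_neg hl0.le]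
  apply mul_le_mul_of_nonneg_left _ (Nat.cast_nonneg N)
  exact Real.rpow_le_rpow_of_exponent_le hl1 (neg_le_neg (le_max_left _ _))

end BVL
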