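import Pool.Agent.H17.BV.Lrg
import Pool.Agent.H17.BV.Orth
import Pool.Agent.H17.BV.SW
import Pool.Agent.H17.QPNT2

/-!
# BV / MAIN: the Bombieri-Vinogradov theorem for `ψ`, divisor weights, all `y ≤ N` (from LRG, ORTH, SW, PNT)

`C' = max(|C|, 1)`, `w(q) = C'^{ω(q)}/φ(q)`, `R = ⌊N^{1/2-ε}⌋ ≤ N`, `D = mx N |ψ(y) - y|`, `S1 = ∑_{m ≤ R} w(m) ≤ C1 (log N)^k` (OMG).
`E q = (∑_{r ∣ q} XR N r)/φ(q) + D/φ(q) + 2 (log N)^2` (for `q ≥ 1`; put `E 0 = 0` or use the same formula: everything is nonnegative). The pointwise bound is ORTH plus `|ψ(y) - y| ≤ D`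
(`ψ(y) = ∑_{n ≤ y} Λ(n)`). Sum: `|C|^{ω(q)} ≤ C'^{ω(q)}`, and for `q = r m`: `w(rm) ≤ w(r) w(m)` (`ω(rm) ≤ ω(r) + ω(m)`, `φ(rm) ≥ φ(r)φ(m)`), so
`∑_{q ≤ R} w(q) ∑_{r ∣ q} XR N r ≤ S1 ∑_{r ≤ R} w(r) XR N r`.
Large `r > (log N)^B` (`B` from LRG for `A + k + 1`): LRG. Small `r ≤ (log N)^B`: SW with exponent `A'`: `XR N r ≤ |pc r| N/(log N)^{A'} ≤ r N/(log N)^{A'}` (`card_pc_le`, H69/LB/Co3.lean;
`XR N 1 = 0`), `w(r) ≤ C'^{ω(r)} ≤ C1 r ≤ C1 (log N)^B` (OMG `omega_bound` with `η = 1`: `w(r) ≤ C1`), so the sum is at most `C1 (log N)^{3B} N/(log N)^{A'}`: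
`A' = A + k + 3B + 1`. `D ≤ N/(log N)^{A+k+1}`: `Pool.Agent.H17.ZB.psi_error_log` (for `y ≤ N/(log N)^{..}` use `|ψ(y) - y| ≤ 7y`; for larger `y` `log y ≥ (log N)/2`).
`2 (log N)^2 ∑_{q ≤ R} C'^{ω(q)} ≤ 2 (log N)^2 R S1 ≤ N^{3/4}`-small (`φ(q) ≤ q ≤ R`).
-/

open Finset H69LB

namespace BVL

theorem bv_psi_grow (K : ℝ) (a : ℕ) : ∃ N0 : ℕ, ∀ N : ℕ, N0 ≤ N → K * Real.log N ^ a ≤ Real.sqrt N := by
  have hK : 0 < 1 / (|K| + 1) := by positivity
  have h := (isLittleO_log_rpow_rpow_atTop (a : ℝ) (show (0 : ℝ) < 1 / 2 by norm_num)).def hK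
  have h2 := (tendsto_natCast_atTop_atTop (R := ℝ)).eventually h
  obtain ⟨N0, hN0⟩ := Filter.eventually_atTop.mp h2
  refine ⟨max N0 1, fun N hN => ?_⟩
  have h3 := hN0 N (by omega)
  have hN1 : (1 : ℝ) ≤ N := by exact_mod_cast (le_max_right N0 1).trans hN
  have hl : 0 ≤ Real.log N := Real.log_nonneg hN1
  rw [Real.rpow_natCast, Real.norm_of_nonneg (by positivity), Real.norm_of_nonneg (by positivity),
    ← Real.sqrt_eq_rpow] at h3
  have hs : 0 ≤ Real.sqrt N := Real.sqrt_nonneg _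
  have h4 : K * Real.log N ^ a ≤ |K| * (1 / (|K| + 1) * Real.sqrt N) :=
    mul_le_mul (le_abs_self K) h3 (by positivity) (abs_nonneg K)
  refine h4.trans ?_
  have h5 : |K| * (1 / (|K| + 1)) ≤ 1 := by
    rw [mul_one_div, div_le_one (by positivity)]
    linarith
  calc |K| * (1 / (|K| + 1) * Real.sqrt N) = (|K| * (1 / (|K| + 1))) * Real.sqrt N := by ring
    _ ≤ 1 * Real.sqrt N := mul_le_mul_of_nonneg_right h5 hs
    _ = _ := one_mul _

theorem bv_psi_cheb (y : ℕ) : ∑ n ∈ Icc 1 y, ArithmeticFunction.vonMangoldt n = Chebyshev.psi (y : ℝ) := by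
  rw [Chebyshev.psi, Nat.floor_natCast]
  rfl

theorem bv_psi_D (A2 : ℕ) : ∃ K : ℝ, 0 ≤ K ∧ ∃ N0 : ℕ, ∀ N : ℕ, N0 ≤ N →
    mx N (fun y => |∑ n ∈ Icc 1 y, ArithmeticFunction.vonMangoldt n - (y : ℝ)|) ≤ K * (N / Real.log N ^ A2) := by
  obtain ⟨C, hC, h⟩ := Pool.Agent.H17.ZB.psi_error_log A2
  obtain ⟨N1, hN1⟩ := bv_psi_grow 7 A2
  refine ⟨1 + C * 2 ^ A2, by positivity, max N1 5, fun N hN => ?_⟩
  have hN5 : 5 ≤ N := by omega
  have hNr : (5 : ℝ) ≤ N := by exact_mod_cast hN5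
  have hl : 0 < Real.log N := Real.log_pos (by linarith)
  have hla : 0 < Real.log N ^ A2 := by positivity
  have hg := hN1 N (by omega)
  have hs : 0 ≤ Real.sqrt N := Real.sqrt_nonneg _
  have hss : Real.sqrt N * Real.sqrt N = N := Real.mul_self_sqrt (by linarith)
  have hs2 : 2 ≤ Real.sqrt N := by
    rw [Real.le_sqrt (by norm_num) (by linarith)]
    linarith
  have hq : 7 * Real.sqrt N ≤ N / Real.log N ^ A2 := by
    rw [le_div_iff₀ hla]
    nlinarith
  apply mx_le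
  intro y hy
  show |∑ n ∈ Icc 1 y, ArithmeticFunction.vonMangoldt n - (y : ℝ)| ≤ (1 + C * 2 ^ A2) * (N / Real.log N ^ A2)
  rw [bv_psi_cheb]
  have hyN : (y : ℝ) ≤ N := by exact_mod_cast hy
  have hy0 : (0 : ℝ) ≤ y := Nat.cast_nonneg y
  have hpos : 0 ≤ N / Real.log N ^ A2 := by positivity
  rcases le_or_gt (y : ℝ) (Real.sqrt N) with h1 | h1
  · have h6 := Pool.Agent.H17.ZB.psi_le_six hy0
    have h7 : 0 ≤ Chebyshev.psi (y : ℝ) := Chebyshev.psi_nonneg _
    have h8 : |Chebyshev.psi (y : ℝ) - y| ≤ 7 * y := by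
      rw [abs_le]
      constructor <;> linarith
    have h9 : 0 ≤ C * 2 ^ A2 * (N / Real.log N ^ A2) := by positivity
    calc |Chebyshev.psi (y : ℝ) - y| ≤ 7 * y := h8
      _ ≤ 7 * Real.sqrt N := by linarith
      _ ≤ N / Real.log N ^ A2 := hq
      _ ≤ (1 + C * 2 ^ A2) * (N / Real.log N ^ A2) := by linarith
  · have hy2 : (2 : ℝ) ≤ y := by linarith
    have h6 := h y hy2
    have hly : Real.log N / 2 ≤ Real.log y := by
      have := Real.log_le_log (by linarith : (0 : ℝ) < Real.sqrt N) h1.le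
      rwa [Real.log_sqrt (by linarith)] at this
    have h7 : (Real.log N / 2) ^ A2 ≤ Real.log y ^ A2 := pow_le_pow_left₀ (by positivity) hly _
    calc |Chebyshev.psi (y : ℝ) - y| ≤ C * y / Real.log y ^ A2 := h6
      _ ≤ C * N / (Real.log N / 2) ^ A2 := by
          apply div_le_div₀ (by positivity) (by nlinarith) (by positivity) h7
      _ = C * 2 ^ A2 * (N / Real.log N ^ A2) := by
          rw [div_pow]
          field_simp
      _ ≤ (1 + C * 2 ^ A2) * (N / Real.log N ^ A2) := by linarith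

theorem bv_psi_w {C : ℝ} (hC : 1 ≤ C) {r m : ℕ} (hr : 1 ≤ r) (hm : 1 ≤ m) :
    C ^ (r * m).primeFactors.card / (Nat.totient (r * m) : ℝ) ≤
      (C ^ r.primeFactors.card / (Nat.totient r : ℝ)) * (C ^ m.primeFactors.card / (Nat.totient m : ℝ)) := by
  have hC0 : 0 < C := by linarith
  have h1 : (r * m).primeFactors.card ≤ r.primeFactors.card + m.primeFactors.card := by
    rw [Nat.primeFactors_mul (by omega) (by omega)]
    exact Finset.card_union_le _ _
  have h2 : (Nat.totient r : ℝ) * (Nat.totient m : ℝ) ≤ (Nat.totient (r * m) : ℝ) := by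
    exact_mod_cast Nat.totient_super_multiplicative r m
  have h3 : (0 : ℝ) < (Nat.totient r : ℝ) * (Nat.totient m : ℝ) := by
    have := Nat.totient_pos.mpr hr
    have := Nat.totient_pos.mpr hm
    positivity
  rw [div_mul_div_comm, ← pow_add]
  exact div_le_div₀ (by positivity) (pow_le_pow_right₀ hC h1) h3 h2

theorem bv_psi_T1 {C : ℝ} (hC : 1 ≤ C) (R : ℕ) (X : ℕ → ℝ) (hX : ∀ r, 0 ≤ X r) :
    ∑ q ∈ Icc 1 R, C ^ q.primeFactors.card / (Nat.totient q : ℝ) * ∑ r ∈ q.divisors, X r ≤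
      (∑ m ∈ Icc 1 R, C ^ m.primeFactors.card / (Nat.totient m : ℝ)) *
        ∑ r ∈ Icc 1 R, C ^ r.primeFactors.card / (Nat.totient r : ℝ) * X r := by
  classical
  have hC0 : 0 < C := by linarith
  have h1 : ∀ q ∈ Icc 1 R, C ^ q.primeFactors.card / (Nat.totient q : ℝ) * ∑ r ∈ q.divisors, X r =
      ∑ r ∈ Icc 1 R, (if r ∣ q then C ^ q.primeFactors.card / (Nat.totient q : ℝ) * X r else 0) := by
    intro q hq
    rw [Finset.mem_Icc] at hq
    rw [← Finset.sum_filter, Finset.mul_sum]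
    refine Finset.sum_congr ?_ (fun _ _ => rfl)
    ext r
    rw [Nat.mem_divisors, Finset.mem_filter, Finset.mem_Icc]
    constructor
    · rintro ⟨h, _⟩
      exact ⟨⟨Nat.pos_of_dvd_of_pos h (by omega), (Nat.le_of_dvd (by omega) h).trans hq.2⟩, h⟩
    · rintro ⟨_, h⟩
      exact ⟨h, by omega⟩
  rw [Finset.sum_congr rfl h1, Finset.sum_comm, Finset.mul_sum]
  apply Finset.sum_le_sum
  intro r hr
  rw [Finset.mem_Icc] at hr
  rw [← Finset.sum_filter, Finset.sum_mul]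
  calc ∑ q ∈ (Icc 1 R).filter (fun q => r ∣ q), C ^ q.primeFactors.card / (Nat.totient q : ℝ) * X r
      ≤ ∑ q ∈ (Icc 1 R).filter (fun q => r ∣ q), C ^ (q / r).primeFactors.card / (Nat.totient (q / r) : ℝ) *
          (C ^ r.primeFactors.card / (Nat.totient r : ℝ) * X r) := by
        apply Finset.sum_le_sum
        intro q hq
        rw [Finset.mem_filter, Finset.mem_Icc] at hq
        obtain ⟨⟨hq1, hq2⟩, m, rfl⟩ := hq
        have hm : 1 ≤ m := by
          rcases Nat.eq_zero_or_pos m with h | h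
          · subst h; omega
          · exact h
        rw [Nat.mul_div_cancel_left m (by omega)]
        have := mul_le_mul_of_nonneg_right (bv_psi_w hC hr.1 hm) (hX r)
        calc _ ≤ _ := this
          _ = _ := by ring
    _ = ∑ m ∈ Icc 1 (R / r), C ^ m.primeFactors.card / (Nat.totient m : ℝ) *
          (C ^ r.primeFactors.card / (Nat.totient r : ℝ) * X r) := by
        refine Finset.sum_nbij' (fun q => q / r) (fun m => r * m) ?_ ?_ ?_ ?_ ?_
        · intro q hq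
          rw [Finset.mem_filter, Finset.mem_Icc] at hq
          rw [Finset.mem_Icc]
          exact ⟨Nat.div_pos (Nat.le_of_dvd (by omega) hq.2) (by omega), Nat.div_le_div_right hq.1.2⟩
        · intro m hm
          rw [Finset.mem_Icc] at hm
          rw [Finset.mem_filter, Finset.mem_Icc]
          refine ⟨⟨Nat.mul_pos (by omega) (by omega), ?_⟩, Dvd.intro m rfl⟩
          calc r * m ≤ r * (R / r) := Nat.mul_le_mul_left r hm.2
            _ ≤ R := Nat.mul_div_le R r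
        · intro q hq
          rw [Finset.mem_filter] at hq
          exact Nat.mul_div_cancel' hq.2
        · intro m _
          exact Nat.mul_div_cancel_left m (by omega)
        · intro q _
          rfl
    _ ≤ _ := by
        apply Finset.sum_le_sum_of_subset_of_nonneg
        · exact Finset.Icc_subset_Icc_right (Nat.div_le_self R r)
        · intro m _ _
          have := hX r
          positivity

theorem bv_psi_card (q : ℕ) (hq : 1 ≤ q) : (pc q).card ≤ q := by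
  classical
  have : NeZero q := ⟨by omega⟩
  calc (pc q).card ≤ (univ : Finset (DirichletCharacter ℂ q)).card := card_le_card (subset_univ _)
    _ = Nat.card (DirichletCharacter ℂ q) := by rw [card_univ, Nat.card_eq_fintype_card]
    _ = q.totient := DirichletCharacter.card_eq_totient_of_hasEnoughRootsOfUnity ℂ q
    _ ≤ q := Nat.totient_le q

theorem bv_psi_small {C C2 B A' : ℝ} (hC2 : 0 ≤ C2)
    (hW : ∀ r : ℕ, 1 ≤ r → C ^ r.primeFactors.card / (Nat.totient r : ℝ) ≤ C2)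
    (N R : ℕ) (hl : 0 ≤ Real.log N)
    (hS : ∀ q : ℕ, 1 ≤ q → (q : ℝ) ≤ Real.log N ^ B → ∀ χ ∈ pc q, PM N χ ≤ N / Real.log N ^ A') :
    ∑ r ∈ (Icc 1 R).filter (fun r : ℕ => ¬ (Real.log N ^ B < (r : ℝ))),
      C ^ r.primeFactors.card / (Nat.totient r : ℝ) * XR N r ≤
      C2 * (Real.log N ^ B * Real.log N ^ B) * (N / Real.log N ^ A') := by
  have hLB : 0 ≤ Real.log N ^ B := Real.rpow_nonneg hl _
  have hq : 0 ≤ (N : ℝ) / Real.log N ^ A' := div_nonneg (Nat.cast_nonneg _) (Real.rpow_nonneg hl _)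
  have h1 : ∀ r ∈ (Icc 1 R).filter (fun r : ℕ => ¬ (Real.log N ^ B < (r : ℝ))),
      C ^ r.primeFactors.card / (Nat.totient r : ℝ) * XR N r ≤ C2 * (Real.log N ^ B * (N / Real.log N ^ A')) := by
    intro r hr
    rw [Finset.mem_filter, Finset.mem_Icc, not_lt] at hr
    have h2 : XR N r ≤ Real.log N ^ B * (N / Real.log N ^ A') := by
      calc XR N r ≤ ∑ χ ∈ pc r, (N / Real.log N ^ A') := Finset.sum_le_sum (hS r hr.1.1 hr.2)
        _ = ((pc r).card : ℝ) * (N / Real.log N ^ A') := by rw [Finset.sum_const, nsmul_eq_mul]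
        _ ≤ Real.log N ^ B * (N / Real.log N ^ A') := by
            apply mul_le_mul_of_nonneg_right _ hq
            have : ((pc r).card : ℝ) ≤ r := by exact_mod_cast bv_psi_card r hr.1.1
            linarith [hr.2]
    exact mul_le_mul (hW r hr.1.1) h2 (XR_nonneg N r) hC2
  refine (Finset.sum_le_sum h1).trans ?_
  rw [Finset.sum_const, nsmul_eq_mul]
  have h3 : (((Icc 1 R).filter (fun r : ℕ => ¬ (Real.log N ^ B < (r : ℝ)))).card : ℝ) ≤ Real.log N ^ B := by
    have h4 : (Icc 1 R).filter (fun r : ℕ => ¬ (Real.log N ^ B < (r : ℝ))) ⊆ Icc 1 ⌊Real.log N ^ B⌋₊ := by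
      intro r hr
      rw [Finset.mem_filter, Finset.mem_Icc, not_lt] at hr
      rw [Finset.mem_Icc]
      exact ⟨hr.1.1, Nat.le_floor hr.2⟩
    have h5 := Finset.card_le_card h4
    rw [Nat.card_Icc, Nat.add_sub_cancel] at h5
    calc (((Icc 1 R).filter (fun r : ℕ => ¬ (Real.log N ^ B < (r : ℝ)))).card : ℝ)
        ≤ (⌊Real.log N ^ B⌋₊ : ℝ) := by exact_mod_cast h5
      _ ≤ _ := Nat.floor_le hLB
  calc _ ≤ Real.log N ^ B * (C2 * (Real.log N ^ B * (N / Real.log N ^ A'))) :=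
        mul_le_mul_of_nonneg_right h3 (by positivity)
    _ = _ := by ring

theorem bv_psi_T3 {C : ℝ} (hC : 0 ≤ C) (R : ℕ) :
    ∑ q ∈ Icc 1 R, C ^ q.primeFactors.card ≤
      R * ∑ q ∈ Icc 1 R, C ^ q.primeFactors.card / (Nat.totient q : ℝ) := by
  rw [Finset.mul_sum]
  apply Finset.sum_le_sum
  intro q hq
  rw [Finset.mem_Icc] at hq
  have h1 : (0 : ℝ) < (Nat.totient q : ℝ) := by exact_mod_cast Nat.totient_pos.mpr hq.1
  have h2 : (Nat.totient q : ℝ) ≤ R := by exact_mod_cast (Nat.totient_le q).trans hq.2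
  have h3 : 0 ≤ C ^ q.primeFactors.card := by positivity
  rw [mul_div_assoc', le_div_iff₀ h1]
  nlinarith

theorem bv_psi {ε : ℝ} (hε : 0 < ε) (A C : ℝ) : ∃ N0 : ℕ, ∀ N : ℕ, N0 ≤ N → ∃ E : ℕ → ℝ, (∀ q, 0 ≤ E q) ∧
    (∀ q : ℕ, 1 ≤ q → (q : ℝ) ≤ (N : ℝ) ^ (1 / 2 - ε) → ∀ a : ℕ, Nat.Coprime a q → ∀ y : ℕ, y ≤ N →
      |∑ n ∈ (Icc 1 y).filter (fun n => n ≡ a [MOD q]), ArithmeticFunction.vonMangoldt n -
        y / (Nat.totient q : ℝ)| ≤ E q) ∧
    ∑ q ∈ Icc 1 ⌊(N : ℝ) ^ (1 / 2 - ε)⌋₊, |C| ^ q.primeFactors.card * E q ≤ N / Real.log N ^ A := by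
  obtain ⟨C', hC'def⟩ : ∃ C' : ℝ, C' = max |C| 1 := ⟨_, rfl⟩
  have hC'1 : 1 ≤ C' := by rw [hC'def]; exact le_max_right _ _
  have hCC' : |C| ≤ C' := by rw [hC'def]; exact le_max_left _ _
  have hC'0 : 0 ≤ C' := by linarith
  obtain ⟨C1, hC1, k, hS⟩ := omega_sum hC'0
  obtain ⟨C2, hC2, hW⟩ := omega_bound hC'0 one_pos
  have hW' : ∀ r : ℕ, 1 ≤ r → C' ^ r.primeFactors.card / (Nat.totient r : ℝ) ≤ C2 := by
    intro r hr
    have := hW r hr
    rwa [show (-1 + 1 : ℝ) = 0 by norm_num, Real.rpow_zero, mul_one] at this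
  obtain ⟨An, hAn⟩ : ∃ An : ℕ, A ≤ An := exists_nat_ge A
  obtain ⟨B, hB, N1, hL⟩ := lrg hε hC'0 ((An + k + 1 : ℕ) : ℝ)
  obtain ⟨N2, hSW⟩ := sw (((An + k + 1 : ℕ) : ℝ) + (B + B)) B
  obtain ⟨K, hK, N3, hD⟩ := bv_psi_D (An + k + 1)
  obtain ⟨N4, hG⟩ := bv_psi_grow (2 * C1) (2 + k + (An + 1))
  refine ⟨max (max (max N1 N2) (max N3 N4)) (max 3 ⌈Real.exp (C1 * (1 + C2) + C1 * K + 1)⌉₊), ?_⟩
  intro N hN
  have hN1 := hL N (by omega)
  have hN2 := hSW N (by omega)
  have hN3 := hD N (by omega)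
  have hN4 := hG N (by omega)
  have hN5 : 3 ≤ N := by omega
  have hN6 : ⌈Real.exp (C1 * (1 + C2) + C1 * K + 1)⌉₊ ≤ N := by omega
  have hNr : (3 : ℝ) ≤ N := by exact_mod_cast hN5
  have hN0 : (0 : ℝ) < N := by linarith
  have hll : C1 * (1 + C2) + C1 * K + 1 ≤ Real.log N := by
    rw [Real.le_log_iff_exp_le hN0]
    exact (Nat.le_ceil _).trans (by exact_mod_cast hN6)
  have hl1 : 1 ≤ Real.log N := by
    have : 0 ≤ C1 * (1 + C2) + C1 * K := by positivity
    linarith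
  have hl0 : 0 < Real.log N := by linarith
  generalize hl : Real.log N = l at *
  obtain ⟨R, hR⟩ : ∃ R : ℕ, R = ⌊(N : ℝ) ^ (1 / 2 - ε)⌋₊ := ⟨_, rfl⟩
  have hRs : (R : ℝ) ≤ Real.sqrt N := by
    rw [hR, Real.sqrt_eq_rpow]
    refine (Nat.floor_le (by positivity)).trans ?_
    exact Real.rpow_le_rpow_of_exponent_le (by linarith) (by linarith)
  have hsN : Real.sqrt N * Real.sqrt N = N := Real.mul_self_sqrt hN0.le
  have hs1 : 1 ≤ Real.sqrt N := by
    rw [Real.le_sqrt (by norm_num) hN0.le]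
    linarith
  have hRN : R ≤ N := by
    have : (R : ℝ) ≤ N := by nlinarith
    exact_mod_cast this
  rw [← hR] at hN1 ⊢
  obtain ⟨D, hDdef⟩ : ∃ D : ℝ, D = mx N (fun y => |∑ n ∈ Icc 1 y, ArithmeticFunction.vonMangoldt n - (y : ℝ)|) :=
    ⟨_, rfl⟩
  rw [← hDdef] at hN3
  have hD0 : 0 ≤ D := by rw [hDdef]; exact mx_nonneg (fun y => abs_nonneg _)
  have hS1 : ∑ m ∈ Icc 1 R, C' ^ m.primeFactors.card / (Nat.totient m : ℝ) ≤ C1 * l ^ k := by
    have h1 := hS N (by omega)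
    rw [hl] at h1
    refine le_trans ?_ h1
    apply Finset.sum_le_sum_of_subset_of_nonneg (Finset.Icc_subset_Icc_right hRN)
    intro m _ _
    positivity
  refine ⟨fun q => (∑ r ∈ q.divisors, XR N r) / (Nat.totient q : ℝ) + D / (Nat.totient q : ℝ) + 2 * l ^ 2, ?_, ?_, ?_⟩
  · intro q
    have : 0 ≤ ∑ r ∈ q.divisors, XR N r := Finset.sum_nonneg (fun r _ => XR_nonneg N r)
    positivity
  · intro q hq hqN a ha y hy
    have hqN' : q ≤ N := by
      have h1 : (q : ℝ) ≤ N := by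
        refine hqN.trans ?_
        calc (N : ℝ) ^ (1 / 2 - ε) ≤ (N : ℝ) ^ (1 : ℝ) :=
              Real.rpow_le_rpow_of_exponent_le (by linarith) (by linarith)
          _ = N := Real.rpow_one _
      exact_mod_cast h1
    have h1 := orth hq ha hy hqN' (by omega)
    rw [hl] at h1
    have hphi : (0 : ℝ) < (Nat.totient q : ℝ) := by exact_mod_cast Nat.totient_pos.mpr hq
    have h2 : |(∑ n ∈ Icc 1 y, ArithmeticFunction.vonMangoldt n) / (Nat.totient q : ℝ) - y / (Nat.totient q : ℝ)| ≤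
        D / (Nat.totient q : ℝ) := by
      rw [← sub_div, abs_div, abs_of_pos hphi]
      apply div_le_div_of_nonneg_right _ hphi.le
      rw [hDdef]
      exact le_mx (fun y => |∑ n ∈ Icc 1 y, ArithmeticFunction.vonMangoldt n - (y : ℝ)|) hy
    have h3 := abs_sub_le (∑ n ∈ (Icc 1 y).filter (fun n => n ≡ a [MOD q]), ArithmeticFunction.vonMangoldt n)
      ((∑ n ∈ Icc 1 y, ArithmeticFunction.vonMangoldt n) / (Nat.totient q : ℝ)) (y / (Nat.totient q : ℝ))
    show _ ≤ (∑ r ∈ q.divisors, XR N r) / (Nat.totient q : ℝ) + D / (Nat.totient q : ℝ) + 2 * l ^ 2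
    linarith
  · have hT1 : ∑ q ∈ Icc 1 R, C' ^ q.primeFactors.card / (Nat.totient q : ℝ) * ∑ r ∈ q.divisors, XR N r ≤
        (C1 * l ^ k) * ((1 + C2) * (N / l ^ (An + k + 1))) := by
      refine (bv_psi_T1 hC'1 R (XR N) (XR_nonneg N)).trans ?_
      apply mul_le_mul hS1 _ _ (by positivity)
      · rw [← Finset.sum_filter_add_sum_filter_not (Icc 1 R) (fun r : ℕ => l ^ B < (r : ℝ))]
        have h2 := bv_psi_small (C := C') (A' := ((An + k + 1 : ℕ) : ℝ) + (B + B)) hC2 hW' N R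
          (by rw [hl]; exact hl0.le) (by rw [hl]; exact hN2)
        rw [hl] at h2
        have h3 : C2 * (l ^ B * l ^ B) * (N / l ^ (((An + k + 1 : ℕ) : ℝ) + (B + B))) = C2 * (N / l ^ (An + k + 1)) := by
          rw [Real.rpow_add hl0, Real.rpow_add hl0, Real.rpow_natCast]
          have : 0 < l ^ B := Real.rpow_pos_of_pos hl0 B
          field_simp
        rw [h3] at h2
        rw [Real.rpow_natCast] at hN1
        linarith
      · apply Finset.sum_nonneg
        intro r _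
        have := XR_nonneg N r
        positivity
    have hT3 : ∑ q ∈ Icc 1 R, C' ^ q.primeFactors.card ≤ Real.sqrt N * (C1 * l ^ k) := by
      refine (bv_psi_T3 hC'0 R).trans ?_
      exact mul_le_mul hRs hS1 (Finset.sum_nonneg (fun m _ => by positivity)) (by positivity)
    have hsum : ∑ q ∈ Icc 1 R, |C| ^ q.primeFactors.card *
          ((∑ r ∈ q.divisors, XR N r) / (Nat.totient q : ℝ) + D / (Nat.totient q : ℝ) + 2 * l ^ 2) ≤
        (∑ q ∈ Icc 1 R, C' ^ q.primeFactors.card / (Nat.totient q : ℝ) * ∑ r ∈ q.divisors, XR N r) +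
        (∑ q ∈ Icc 1 R, C' ^ q.primeFactors.card / (Nat.totient q : ℝ)) * D +
        (∑ q ∈ Icc 1 R, C' ^ q.primeFactors.card) * (2 * l ^ 2) := by
      rw [Finset.sum_mul, Finset.sum_mul, ← Finset.sum_add_distrib, ← Finset.sum_add_distrib]
      apply Finset.sum_le_sum
      intro q _
      have h0 : 0 ≤ ∑ r ∈ q.divisors, XR N r := Finset.sum_nonneg (fun r _ => XR_nonneg N r)
      have h1 : |C| ^ q.primeFactors.card ≤ C' ^ q.primeFactors.card := pow_le_pow_left₀ (abs_nonneg C) hCC' _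
      calc |C| ^ q.primeFactors.card *
          ((∑ r ∈ q.divisors, XR N r) / (Nat.totient q : ℝ) + D / (Nat.totient q : ℝ) + 2 * l ^ 2)
          ≤ C' ^ q.primeFactors.card *
          ((∑ r ∈ q.divisors, XR N r) / (Nat.totient q : ℝ) + D / (Nat.totient q : ℝ) + 2 * l ^ 2) :=
            mul_le_mul_of_nonneg_right h1 (by positivity)
        _ = _ := by ring
    refine hsum.trans ?_
    have hlk : 0 < l ^ k := by positivity
    have hla : 0 < l ^ (An + 1) := by positivity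
    have e1 : (C1 * l ^ k) * ((1 + C2) * (N / l ^ (An + k + 1))) = C1 * (1 + C2) * (N / l ^ (An + 1)) := by
      rw [show An + k + 1 = (An + 1) + k by omega, pow_add l (An + 1) k]
      field_simp
    have e2 : (∑ q ∈ Icc 1 R, C' ^ q.primeFactors.card / (Nat.totient q : ℝ)) * D ≤ C1 * K * (N / l ^ (An + 1)) := by
      calc (∑ q ∈ Icc 1 R, C' ^ q.primeFactors.card / (Nat.totient q : ℝ)) * D
          ≤ (C1 * l ^ k) * (K * (N / l ^ (An + k + 1))) := mul_le_mul hS1 hN3 hD0 (by positivity)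
        _ = C1 * K * (N / l ^ (An + 1)) := by
          rw [show An + k + 1 = (An + 1) + k by omega, pow_add l (An + 1) k]
          field_simp
    have e3 : (∑ q ∈ Icc 1 R, C' ^ q.primeFactors.card) * (2 * l ^ 2) ≤ N / l ^ (An + 1) := by
      calc (∑ q ∈ Icc 1 R, C' ^ q.primeFactors.card) * (2 * l ^ 2)
          ≤ (Real.sqrt N * (C1 * l ^ k)) * (2 * l ^ 2) := mul_le_mul_of_nonneg_right hT3 (by positivity)
        _ ≤ N / l ^ (An + 1) := by
          rw [le_div_iff₀ hla]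
          have h5 := mul_le_mul_of_nonneg_left hN4 (Real.sqrt_nonneg N)
          rw [hsN, pow_add, pow_add] at h5
          calc Real.sqrt N * (C1 * l ^ k) * (2 * l ^ 2) * l ^ (An + 1)
              = Real.sqrt N * (2 * C1 * (l ^ 2 * l ^ k * l ^ (An + 1))) := by ring
            _ ≤ (N : ℝ) := h5
    have e4 : (C1 * (1 + C2) + C1 * K + 1) * (N / l ^ (An + 1)) ≤ N / l ^ An := by
      have h6 : (N : ℝ) / l ^ An = l * (N / l ^ (An + 1)) := by
        rw [pow_succ]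
        field_simp
      rw [h6]
      exact mul_le_mul_of_nonneg_right hll (by positivity)
    have e5 : (N : ℝ) / l ^ An ≤ N / l ^ A := by
      apply div_le_div_of_nonneg_left hN0.le (Real.rpow_pos_of_pos hl0 A)
      rw [← Real.rpow_natCast]
      exact Real.rpow_le_rpow_of_exponent_le hl1 hAn
    rw [e1] at hT1
    linarith

end BVL
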