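import Pool.Agent.H17.BV.Defs

/-!
# BV / ORA: sorting the characters modulo `q` by their conductors

The map `χ ↦ (χ.conductor, χ.primitiveCharacter)` from the characters modulo `q` with `χ ≠ 1` to `(q.divisors).sigma pc` is well defined
(`conductor_dvd_level`, `primitiveCharacter_isPrimitive`, `χ.primitiveCharacter ≠ 1` because otherwise `χ = changeLevel 1 = 1`:
`changeLevel_primitiveCharacter`, `changeLevel_one`) and injective (`χ = changeLevel _ χ.primitiveCharacter`). So the left side is a sum of nonnegative terms over an injective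
image in the index set of the right side (`Finset.sum_sigma`, `Finset.sum_image`, `Finset.sum_le_sum_of_subset_of_nonneg`; or
`Finset.sum_le_sum_of_injOn`).
-/

open Finset H69LB

namespace BVL

open DirichletCharacter

open Classical in
theorem cond_sum (q : ℕ) [NeZero q] (F : (r : ℕ) → DirichletCharacter ℂ r → ℝ) (hF : ∀ r χ, 0 ≤ F r χ) :
    ∑ χ ∈ (univ : Finset (DirichletCharacter ℂ q)).filter (fun χ => χ ≠ 1), F χ.conductor χ.primitiveCharacter ≤
      ∑ r ∈ q.divisors, ∑ χ ∈ pc r, F r χ := by
  rw [Finset.sum_sigma' q.divisors pc (fun r χ => F r χ)]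
  let g : DirichletCharacter ℂ q → (Σ r : ℕ, DirichletCharacter ℂ r) :=
    fun χ => ⟨χ.conductor, χ.primitiveCharacter⟩
  have hinj : Function.Injective g := by
    intro χ ψ h
    have key : ∀ (a b : Σ r : ℕ, DirichletCharacter ℂ r) (ha : a.1 ∣ q) (hb : b.1 ∣ q), a = b →
        changeLevel ha a.2 = changeLevel hb b.2 := by
      intro a b ha hb hab
      subst hab
      rfl
    have h1 := key (g χ) (g ψ) χ.conductor_dvd_level ψ.conductor_dvd_level h
    have h2 : changeLevel χ.conductor_dvd_level χ.primitiveCharacter =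
        changeLevel ψ.conductor_dvd_level ψ.primitiveCharacter := h1
    rwa [changeLevel_primitiveCharacter, changeLevel_primitiveCharacter] at h2
  have hsub : ((univ : Finset (DirichletCharacter ℂ q)).filter (fun χ => χ ≠ 1)).image g ⊆
      q.divisors.sigma pc := by
    intro x hx
    rw [mem_image] at hx
    obtain ⟨χ, hχ, rfl⟩ := hx
    rw [mem_filter] at hχ
    rw [mem_sigma]
    refine ⟨Nat.mem_divisors.2 ⟨χ.conductor_dvd_level, NeZero.ne q⟩, ?_⟩
    rw [pc, mem_filter]
    refine ⟨mem_univ _, primitiveCharacter_isPrimitive χ, fun h1 => hχ.2 ?_⟩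
    have h2 : χ.primitiveCharacter = 1 := h1
    rw [← changeLevel_primitiveCharacter χ, h2, changeLevel_one]
  calc _ = ∑ x ∈ ((univ : Finset (DirichletCharacter ℂ q)).filter (fun χ => χ ≠ 1)).image g,
        F x.1 x.2 := by
        rw [sum_image (fun a _ b _ h => hinj h)]
    _ ≤ ∑ x ∈ q.divisors.sigma pc, F x.1 x.2 :=
        sum_le_sum_of_subset_of_nonneg hsub (fun x _ _ => hF x.1 x.2)

end BVL
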