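import Pool.Agent.H17.BV.Tht
import Pool.Agent.H17.QPNT2

/-!
# BV / PII: Bombieri-Vinogradov for `π(y; q, a)` (from THT)

`Li(y) = ∫_2^y dt/log t` (`Pool.Agent.H17.ZB.Li`). Abel summation with `f(n) = 1/log n`, `2 ≤ n ≤ y`: with `θ(n) = n/φ(q) + O(E q)`:
`π(y;q,a) = ∑_{2 ≤ n ≤ y} (θ(n) - θ(n-1))/log n = θ(y)/log y + ∑_{2 ≤ n < y} θ(n) (1/log n - 1/log(n+1))` (`θ(1) = 0`), the same identity for `n - 1` in place of `θ(n)`...
precisely `∑_{2 ≤ n ≤ y} 1/log n = y/log y - 1/log 2 + ∑_{2 ≤ n < y} n (1/log n - 1/log(n+1))`, hence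
`|π(y;q,a) - (1/φ(q)) ∑_{2 ≤ n ≤ y} 1/log n| ≤ E q (1/log y + 1/log 2 - 1/log y) + 1/log 2 ≤ 2 E q + 2`, and `|∑_{2 ≤ n ≤ y} 1/log n - Li(y)| ≤ 1/log 2` (monotone).
So `E'(q) = 2 E q + 4`; `∑_q |C|^{ω(q)} * 4` is small (OMG).
-/

open Finset

namespace BVL

theorem bv_pi_parts (d : ℕ → ℝ) : ∀ y : ℕ, 2 ≤ y → ∑ k ∈ Icc 2 y, d k * (1 / Real.log k) =
    (∑ k ∈ Icc 2 y, d k) * (1 / Real.log y) +
      ∑ n ∈ Ico 2 y, (∑ k ∈ Icc 2 n, d k) * (1 / Real.log n - 1 / Real.log ((n + 1 : ℕ) : ℝ)) := by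
  intro y hy
  induction y, hy using Nat.le_induction with
  | base => simp
  | succ y hy ih =>
    rw [Finset.sum_Icc_succ_top (by omega), ih, Finset.sum_Icc_succ_top (by omega), Finset.sum_Ico_succ_top hy]
    ring

theorem bv_pi_tel : ∀ y : ℕ, 2 ≤ y → ∑ n ∈ Ico 2 y, (1 / Real.log n - 1 / Real.log ((n + 1 : ℕ) : ℝ)) =
    1 / Real.log 2 - 1 / Real.log y := by
  intro y hy
  induction y, hy using Nat.le_induction with
  | base => simp
  | succ y hy ih =>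
    rw [Finset.sum_Ico_succ_top hy, ih]
    ring

theorem bv_pi_abel {d : ℕ → ℝ} {B : ℝ} {y : ℕ} (hy : 2 ≤ y)
    (hB : ∀ n, 2 ≤ n → n ≤ y → |∑ k ∈ Icc 2 n, d k| ≤ B) :
    |∑ k ∈ Icc 2 y, d k * (1 / Real.log k)| ≤ B * (1 / Real.log 2) := by
  rw [bv_pi_parts d y hy]
  have hly : 0 < Real.log y := Real.log_pos (by exact_mod_cast (by omega : 1 < y))
  have h1 : |(∑ k ∈ Icc 2 y, d k) * (1 / Real.log y)| ≤ B * (1 / Real.log y) := by
    rw [abs_mul, abs_of_pos (by positivity : 0 < 1 / Real.log y)]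
    exact mul_le_mul_of_nonneg_right (hB y hy le_rfl) (by positivity)
  have h2 : |∑ n ∈ Ico 2 y, (∑ k ∈ Icc 2 n, d k) * (1 / Real.log n - 1 / Real.log ((n + 1 : ℕ) : ℝ))| ≤
      ∑ n ∈ Ico 2 y, B * (1 / Real.log n - 1 / Real.log ((n + 1 : ℕ) : ℝ)) := by
    refine (Finset.abs_sum_le_sum_abs _ _).trans (Finset.sum_le_sum fun n hn => ?_)
    obtain ⟨hn1, hn2⟩ := Finset.mem_Ico.mp hn
    have hln : 0 < Real.log n := Real.log_pos (by exact_mod_cast (by omega : 1 < n))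
    have hle : Real.log n ≤ Real.log ((n + 1 : ℕ) : ℝ) := by
      refine Real.log_le_log (by exact_mod_cast (by omega : 0 < n)) ?_
      exact_mod_cast Nat.le_succ n
    have h3 : 0 ≤ 1 / Real.log n - 1 / Real.log ((n + 1 : ℕ) : ℝ) := by
      have := one_div_le_one_div_of_le hln hle
      linarith
    rw [abs_mul, abs_of_nonneg h3]
    exact mul_le_mul_of_nonneg_right (hB n hn1 hn2.le) h3
  rw [← Finset.mul_sum, bv_pi_tel y hy] at h2
  refine (abs_add_le _ _).trans ((add_le_add h1 h2).trans (le_of_eq ?_))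
  ring

theorem bv_pi_Li {y : ℕ} (hy : 2 ≤ y) :
    |∑ k ∈ Icc 2 y, (1 / Real.log (k : ℝ)) - Pool.Agent.H17.ZB.Li y| ≤ 1 / Real.log 2 := by
  have hanti : AntitoneOn (fun t : ℝ => 1 / Real.log t) (Set.Icc ((2 : ℕ) : ℝ) (y : ℝ)) := by
    intro s hs t ht hst
    have h1 : (2 : ℝ) ≤ s := by simpa using hs.1
    have h2 : 0 < Real.log s := Real.log_pos (by linarith)
    exact one_div_le_one_div_of_le h2 (Real.log_le_log (by linarith) hst)
  have h1 := hanti.sum_le_integral_Ico hy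
  have h2 := hanti.integral_le_sum_Ico hy
  have hLi : Pool.Agent.H17.ZB.Li y = ∫ t in ((2 : ℕ) : ℝ)..(y : ℝ), 1 / Real.log t := by
    unfold Pool.Agent.H17.ZB.Li
    norm_num
  have h3 : ∑ k ∈ Icc 2 y, (1 / Real.log (k : ℝ)) = ∑ k ∈ Ico 2 y, (1 / Real.log (k : ℝ)) + 1 / Real.log y := by
    rw [← Finset.sum_Ico_succ_top hy (fun k : ℕ => 1 / Real.log (k : ℝ))]
    refine Finset.sum_congr ?_ fun _ _ => rfl
    ext k
    simp only [Finset.mem_Icc, Finset.mem_Ico]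
    omega
  have h4 : ∑ k ∈ Icc 2 y, (1 / Real.log (k : ℝ)) = 1 / Real.log 2 + ∑ k ∈ Ico 2 y, (1 / Real.log ((k + 1 : ℕ) : ℝ)) := by
    have h5 := bv_pi_tel y hy
    rw [Finset.sum_sub_distrib] at h5
    rw [h3]
    linarith
  have hly : 0 < Real.log y := Real.log_pos (by exact_mod_cast (by omega : 1 < y))
  have h6 : 0 < 1 / Real.log (y : ℝ) := by positivity
  rw [hLi, abs_le]
  constructor
  · have h7 : (0 : ℝ) < 1 / Real.log 2 := by
      have := Real.log_pos (by norm_num : (1 : ℝ) < 2)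
      positivity
    rw [h3]
    linarith
  · rw [h4]
    linarith

theorem bv_pi_one {q a y : ℕ} (hq : 1 ≤ q) (hy : 2 ≤ y) {E : ℝ} (hE0 : 0 ≤ E)
    (hE : ∀ n : ℕ, n ≤ y → |∑ p ∈ (Icc 1 n).filter (fun p => p.Prime ∧ p ≡ a [MOD q]), Real.log p -
        n / (Nat.totient q : ℝ)| ≤ E) :
    |((((Icc 1 y).filter (fun p => p.Prime ∧ p ≡ a [MOD q])).card : ℕ) : ℝ) -
        Pool.Agent.H17.ZB.Li y / (Nat.totient q : ℝ)| ≤ 2 * E + 4 := by
  classical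
  have hφ1 : (1 : ℝ) ≤ (Nat.totient q : ℝ) := by exact_mod_cast Nat.totient_pos.mpr hq
  have hφ0 : (0 : ℝ) < (Nat.totient q : ℝ) := by linarith
  have hφi : 1 / (Nat.totient q : ℝ) ≤ 1 := by
    rw [div_le_one hφ0]; exact hφ1
  have hφi0 : 0 < 1 / (Nat.totient q : ℝ) := by positivity
  have hl2 := Real.log_two_gt_d9
  have hl20 : 0 < Real.log 2 := by linarith
  have hl2i : 1 / Real.log 2 ≤ 2 := by
    rw [div_le_iff₀ hl20]; linarith
  have hl2i0 : 0 < 1 / Real.log 2 := by positivity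
  let t : ℕ → ℝ := fun n => if n.Prime ∧ n ≡ a [MOD q] then Real.log n else 0
  have hIcc : ∀ n : ℕ, 1 ≤ n → Icc 1 n = insert 1 (Icc 2 n) := by
    intro n hn
    ext k
    simp only [Finset.mem_Icc, Finset.mem_insert]
    omega
  have ht1 : ∀ n : ℕ, 1 ≤ n → ∑ p ∈ (Icc 1 n).filter (fun p => p.Prime ∧ p ≡ a [MOD q]), Real.log p = ∑ k ∈ Icc 2 n, t k := by
    intro n hn
    rw [Finset.sum_filter, hIcc n hn, Finset.sum_insert (by simp)]
    simp [t, Nat.not_prime_one]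
  have hcount : ((((Icc 1 y).filter (fun p => p.Prime ∧ p ≡ a [MOD q])).card : ℕ) : ℝ) =
      ∑ k ∈ Icc 2 y, t k * (1 / Real.log k) := by
    rw [Finset.card_filter, hIcc y (by omega), Finset.sum_insert (by simp)]
    push_cast
    simp only [Nat.not_prime_one, false_and, if_false, zero_add]
    refine Finset.sum_congr rfl fun k hk => ?_
    have hk2 : 2 ≤ k := (Finset.mem_Icc.mp hk).1
    have hlk : 0 < Real.log k := Real.log_pos (by exact_mod_cast (by omega : 1 < k))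
    by_cases h : k.Prime ∧ k ≡ a [MOD q]
    · rw [if_pos h]
      change (1 : ℝ) = (if k.Prime ∧ k ≡ a [MOD q] then Real.log k else 0) * (1 / Real.log k)
      rw [if_pos h, mul_one_div_cancel hlk.ne']
    · rw [if_neg h]
      change (0 : ℝ) = (if k.Prime ∧ k ≡ a [MOD q] then Real.log k else 0) * (1 / Real.log k)
      rw [if_neg h, zero_mul]
  have hD : ∀ n, 2 ≤ n → n ≤ y → |∑ k ∈ Icc 2 n, (t k - 1 / (Nat.totient q : ℝ))| ≤ E + 1 := by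
    intro n hn1 hn2
    have h1 := hE n hn2
    rw [ht1 n (by omega)] at h1
    have h2 : ∑ k ∈ Icc 2 n, (t k - 1 / (Nat.totient q : ℝ)) =
        (∑ k ∈ Icc 2 n, t k - n / (Nat.totient q : ℝ)) + 1 / (Nat.totient q : ℝ) := by
      rw [Finset.sum_sub_distrib, Finset.sum_const, Nat.card_Icc, nsmul_eq_mul]
      have h3 : ((n + 1 - 2 : ℕ) : ℝ) = n - 1 := by
        rw [Nat.cast_sub (by omega)]; push_cast; ring
      rw [h3]
      ring
    rw [h2]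
    refine (abs_add_le _ _).trans ?_
    rw [abs_of_pos hφi0]
    linarith
  have h1 := bv_pi_abel hy hD
  have h2 := bv_pi_Li hy
  have h3 : ∑ k ∈ Icc 2 y, (t k - 1 / (Nat.totient q : ℝ)) * (1 / Real.log k) =
      ∑ k ∈ Icc 2 y, t k * (1 / Real.log k) - (1 / (Nat.totient q : ℝ)) * ∑ k ∈ Icc 2 y, (1 / Real.log (k : ℝ)) := by
    rw [Finset.mul_sum, ← Finset.sum_sub_distrib]
    refine Finset.sum_congr rfl fun k _ => ?_
    ring
  rw [h3] at h1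
  rw [hcount]
  set S1 := ∑ k ∈ Icc 2 y, t k * (1 / Real.log (k : ℝ)) with hS1
  set S2 := ∑ k ∈ Icc 2 y, (1 / Real.log (k : ℝ)) with hS2
  have h4 : S1 - Pool.Agent.H17.ZB.Li y / (Nat.totient q : ℝ) =
      (S1 - 1 / (Nat.totient q : ℝ) * S2) + 1 / (Nat.totient q : ℝ) * (S2 - Pool.Agent.H17.ZB.Li y) := by
    ring
  rw [h4]
  refine (abs_add_le _ _).trans ?_
  have h5 : |1 / (Nat.totient q : ℝ) * (S2 - Pool.Agent.H17.ZB.Li y)| ≤ 1 * (1 / Real.log 2) := by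
    rw [abs_mul, abs_of_pos hφi0]
    exact mul_le_mul hφi h2 (abs_nonneg _) (by norm_num)
  have h6 : (E + 1) * (1 / Real.log 2) ≤ (E + 1) * 2 := mul_le_mul_of_nonneg_left hl2i (by linarith)
  linarith

theorem bv_pi_small (C : ℝ) : ∃ C1 : ℝ, 0 ≤ C1 ∧ ∀ (ε : ℝ), 0 < ε → ∀ N : ℕ, 1 ≤ N →
    ∑ q ∈ Icc 1 ⌊(N : ℝ) ^ (1 / 2 - ε)⌋₊, |C| ^ q.primeFactors.card ≤ C1 * (N : ℝ) ^ (3 / 4 : ℝ) := by
  obtain ⟨C1, hC1, h⟩ := omega_bound (abs_nonneg C) (by norm_num : (0 : ℝ) < 1 / 2)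
  refine ⟨C1, hC1, fun ε hε N hN => ?_⟩
  have hN1 : (1 : ℝ) ≤ N := by exact_mod_cast hN
  set z : ℝ := (N : ℝ) ^ (1 / 2 - ε) with hz
  have hz0 : 0 ≤ z := by positivity
  have hzN : z ≤ (N : ℝ) ^ (1 / 2 : ℝ) := Real.rpow_le_rpow_of_exponent_le hN1 (by linarith)
  have h1 : ∀ q ∈ Icc 1 ⌊z⌋₊, |C| ^ q.primeFactors.card ≤ C1 * z ^ (1 / 2 : ℝ) := by
    intro q hq
    obtain ⟨hq1, hq2⟩ := Finset.mem_Icc.mp hq
    have hqz : (q : ℝ) ≤ z := (Nat.cast_le.mpr hq2).trans (Nat.floor_le hz0)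
    have hq0 : (0 : ℝ) < q := by exact_mod_cast hq1
    have h2 := h q hq1
    have hφ0 : (0 : ℝ) < (Nat.totient q : ℝ) := by exact_mod_cast Nat.totient_pos.mpr hq1
    have hφq : (Nat.totient q : ℝ) ≤ q := by exact_mod_cast Nat.totient_le q
    rw [div_le_iff₀ hφ0] at h2
    refine h2.trans ?_
    calc C1 * (q : ℝ) ^ (-1 + 1 / 2 : ℝ) * (Nat.totient q : ℝ) ≤ C1 * (q : ℝ) ^ (-1 + 1 / 2 : ℝ) * q := by gcongr
      _ = C1 * ((q : ℝ) ^ (-1 + 1 / 2 : ℝ) * (q : ℝ) ^ (1 : ℝ)) := by rw [Real.rpow_one]; ring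
      _ = C1 * (q : ℝ) ^ (1 / 2 : ℝ) := by
          rw [← Real.rpow_add hq0]
          norm_num
      _ ≤ C1 * z ^ (1 / 2 : ℝ) := by
          refine mul_le_mul_of_nonneg_left (Real.rpow_le_rpow hq0.le hqz (by norm_num)) hC1
  refine (Finset.sum_le_sum h1).trans ?_
  rw [Finset.sum_const, Nat.card_Icc, nsmul_eq_mul, Nat.add_sub_cancel]
  calc (⌊z⌋₊ : ℝ) * (C1 * z ^ (1 / 2 : ℝ)) ≤ (N : ℝ) ^ (1 / 2 : ℝ) * (C1 * ((N : ℝ) ^ (1 / 2 : ℝ)) ^ (1 / 2 : ℝ)) := by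
        refine mul_le_mul ((Nat.floor_le hz0).trans hzN) ?_ (by positivity) (by positivity)
        exact mul_le_mul_of_nonneg_left (Real.rpow_le_rpow hz0 hzN (by norm_num)) hC1
    _ = C1 * (N : ℝ) ^ (3 / 4 : ℝ) := by
        rw [← Real.rpow_mul (by linarith)]
        have h3 : (3 / 4 : ℝ) = 1 / 2 + 1 / 2 * (1 / 2) := by norm_num
        rw [h3, Real.rpow_add (by linarith)]
        ring

theorem bv_pi {ε : ℝ} (hε : 0 < ε) (A C : ℝ) : ∃ N0 : ℕ, ∀ N : ℕ, N0 ≤ N → ∃ E : ℕ → ℝ, (∀ q, 0 ≤ E q) ∧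
    (∀ q : ℕ, 1 ≤ q → (q : ℝ) ≤ (N : ℝ) ^ (1 / 2 - ε) → ∀ a : ℕ, Nat.Coprime a q → ∀ y : ℕ, 2 ≤ y → y ≤ N →
      |((((Icc 1 y).filter (fun p => p.Prime ∧ p ≡ a [MOD q])).card : ℕ) : ℝ) -
        Pool.Agent.H17.ZB.Li y / (Nat.totient q : ℝ)| ≤ E q) ∧
    ∑ q ∈ Icc 1 ⌊(N : ℝ) ^ (1 / 2 - ε)⌋₊, |C| ^ q.primeFactors.card * E q ≤ N / Real.log N ^ A := by
  obtain ⟨N1, h1⟩ := bv_theta hε (A + 1) C
  obtain ⟨C1, hC1, h2⟩ := bv_pi_small C
  have hlo := (isLittleO_log_rpow_rpow_atTop (A + 1) (by norm_num : (0 : ℝ) < 1 / 4)).bound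
    (show (0 : ℝ) < 1 / (4 * C1 + 1) by positivity)
  have hev : ∀ᶠ N : ℕ in Filter.atTop, ‖Real.log (N : ℝ) ^ (A + 1)‖ ≤ 1 / (4 * C1 + 1) * ‖(N : ℝ) ^ (1 / 4 : ℝ)‖ :=
    tendsto_natCast_atTop_atTop.eventually hlo
  have hev2 : ∀ᶠ N : ℕ in Filter.atTop, 3 ≤ Real.log (N : ℝ) :=
    (Real.tendsto_log_atTop.comp tendsto_natCast_atTop_atTop).eventually_ge_atTop 3
  obtain ⟨N2, hN2⟩ := Filter.eventually_atTop.mp (hev.and hev2)
  refine ⟨max (max N1 N2) 2, fun N hN => ?_⟩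
  have hNN1 : N1 ≤ N := (le_max_left _ _).trans ((le_max_left _ _).trans hN)
  have hNN2 : N2 ≤ N := (le_max_right _ _).trans ((le_max_left _ _).trans hN)
  have hN2' : 2 ≤ N := (le_max_right _ _).trans hN
  obtain ⟨E, hE0, hE1, hE2⟩ := h1 N hNN1
  obtain ⟨h3, h4⟩ := hN2 N hNN2
  have hNpos : (0 : ℝ) < N := by exact_mod_cast (by omega : 0 < N)
  have hlog0 : 0 < Real.log (N : ℝ) := by linarith
  refine ⟨fun q => 2 * E q + 4, fun q => by have := hE0 q; linarith, ?_, ?_⟩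
  · intro q hq hqz a ha y hy hyN
    exact bv_pi_one hq hy (hE0 q) fun n hn => hE1 q hq hqz a ha n (hn.trans hyN)
  · have h5 : ∑ q ∈ Icc 1 ⌊(N : ℝ) ^ (1 / 2 - ε)⌋₊, |C| ^ q.primeFactors.card * (2 * E q + 4) =
        2 * ∑ q ∈ Icc 1 ⌊(N : ℝ) ^ (1 / 2 - ε)⌋₊, |C| ^ q.primeFactors.card * E q +
          4 * ∑ q ∈ Icc 1 ⌊(N : ℝ) ^ (1 / 2 - ε)⌋₊, |C| ^ q.primeFactors.card := by
      rw [Finset.mul_sum, Finset.mul_sum, ← Finset.sum_add_distrib]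
      refine Finset.sum_congr rfl fun q _ => ?_
      ring
    rw [h5]
    have h6 := h2 ε hε N (by omega)
    have hL : 0 < Real.log (N : ℝ) ^ (A + 1) := Real.rpow_pos_of_pos hlog0 _
    rw [Real.norm_of_nonneg hL.le, Real.norm_of_nonneg (by positivity)] at h3
    have h7 : 4 * (C1 * (N : ℝ) ^ (3 / 4 : ℝ)) ≤ N / Real.log N ^ (A + 1) := by
      rw [le_div_iff₀ hL]
      have hN34 : (N : ℝ) ^ (3 / 4 : ℝ) * (N : ℝ) ^ (1 / 4 : ℝ) = N := by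
        rw [← Real.rpow_add hNpos]
        norm_num
      calc 4 * (C1 * (N : ℝ) ^ (3 / 4 : ℝ)) * Real.log N ^ (A + 1) ≤
          4 * (C1 * (N : ℝ) ^ (3 / 4 : ℝ)) * (1 / (4 * C1 + 1) * (N : ℝ) ^ (1 / 4 : ℝ)) := by gcongr
        _ = (4 * C1 / (4 * C1 + 1)) * ((N : ℝ) ^ (3 / 4 : ℝ) * (N : ℝ) ^ (1 / 4 : ℝ)) := by ring
        _ = (4 * C1 / (4 * C1 + 1)) * N := by rw [hN34]
        _ ≤ 1 * N := by
            refine mul_le_mul_of_nonneg_right ?_ hNpos.le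
            rw [div_le_one (by positivity)]
            linarith
        _ = N := one_mul _
    have h8 : 2 * (N / Real.log N ^ (A + 1)) + N / Real.log N ^ (A + 1) ≤ N / Real.log N ^ A := by
      rw [Real.rpow_add hlog0, Real.rpow_one]
      have hLA : 0 < Real.log (N : ℝ) ^ A := Real.rpow_pos_of_pos hlog0 _
      have h9 : 2 * (N / (Real.log N ^ A * Real.log N)) + N / (Real.log N ^ A * Real.log N) =
          (3 / Real.log N) * (N / Real.log N ^ A) := by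
        field_simp
        ring
      rw [h9]
      have h10 : 3 / Real.log N ≤ 1 := by
        rw [div_le_one hlog0]; exact h4
      calc 3 / Real.log N * (N / Real.log N ^ A) ≤ 1 * (N / Real.log N ^ A) := by gcongr
        _ = _ := one_mul _
    linarith

end BVL
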