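import Mathlib

/-!
# BV / POS: nonnegative coefficients of `ζ(s) L(s,χ1) L(s,χ2) L(s,χ1χ2)` for real characters

`a4 χ1 χ2 = r * (χ2 r)` (Dirichlet convolution), `r = zetaMul χ1 = 1 * χ1` (Mathlib, `DirichletCharacter.zetaMul`, multiplicative:
`isMultiplicative_zetaMul`, nonnegative on prime powers for `χ1^2 = 1`). `n ↦ χ2(n) r(n)` is multiplicative, so `a4` is; hence it suffices that
`a4(p^k) = ∑_{j ≤ k} r(p^{k-j}) χ2(p)^j r(p^j) ≥ 0` (`ArithmeticFunction.IsMultiplicative.multiplicative_factorization`,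
`Nat.divisorsAntidiagonal` of a prime power: `Nat.sum_divisorsAntidiagonal..`/`Nat.Prime.divisorsAntidiagonal..`; see the proof of
`zetaMul_nonneg`). With `e1 = χ1(p), e2 = χ2(p) ∈ {0,1,-1}` (`MulChar.isQuadratic_iff_sq_eq_one`), `r(p^i) = ∑_{l ≤ i} e1^l ≥ 0`:
* `e2 = 0`: only `j = 0`; `e2 = 1`: all terms nonnegative.
* `e2 = -1, e1 = -1`: `r(p^i) = 1` for even `i`, `0` for odd `i`: terms with odd `j` vanish.
* `e2 = -1, e1 = 0`: `r = 1`: `∑_{j ≤ k} (-1)^j ∈ {0,1}`.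
* `e2 = -1, e1 = 1`: `r(p^i) = i+1`: `∑_{j ≤ k} (-1)^j (k-j+1)(j+1)` is `k/2 + 1` for even `k` and `0` for odd `k` (for odd `k` the terms `j` and
  `k - j` cancel; for `k = 2m` induction, or: `f(k) = ∑_{j ≤ k} (-1)^j (k-j+1)(j+1)` satisfies `f(k+2) - f(k) = 1 + ...`; simplest: prove by
  induction on `k` the pair `f(k)` and `g(k) = ∑_{j ≤ k} (-1)^j (j+1)`: `f(k+1) = f(k) + g(k+1)`, `g(2m) = m+1`, `g(2m+1) = -(m+1)`).
-/

open scoped ComplexOrder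

namespace BVL

open DirichletCharacter

/-- the coefficients of `ζ(s) L(s,χ1) L(s,χ2) L(s,χ1χ2)` -/
noncomputable def a4 {q1 q2 : ℕ} (χ1 : DirichletCharacter ℂ q1) (χ2 : DirichletCharacter ℂ q2) : ArithmeticFunction ℂ :=
  χ1.zetaMul * ⟨fun n => χ2 n * χ1.zetaMul n, by simp⟩

theorem a4_nonneg_G (k : ℕ) : 4 * ∑ j ∈ Finset.range (k + 1), (-1 : ℤ) ^ j * (j + 1) = 1 + (-1) ^ k * (2 * k + 3) := by
  induction k with
  | zero => norm_num
  | succ k ih =>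
    rw [Finset.sum_range_succ, mul_add, ih, pow_succ]
    push_cast
    ring

theorem a4_nonneg_H (k : ℕ) : 2 * ∑ j ∈ Finset.range (k + 1), (-1 : ℤ) ^ j * ((j : ℤ) + 1) ^ 2 = (-1 : ℤ) ^ k * ((k : ℤ) + 1) * ((k : ℤ) + 2) := by
  induction k with
  | zero => norm_num
  | succ k ih =>
    rw [Finset.sum_range_succ, mul_add, ih, pow_succ]
    push_cast
    ring

theorem a4_nonneg_sum (k : ℕ) : 0 ≤ ∑ j ∈ Finset.range (k + 1), ((k - j : ℤ) + 1) * ((-1 : ℤ) ^ j * (j + 1)) := by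
  have h1 : ∑ j ∈ Finset.range (k + 1), ((k - j : ℤ) + 1) * ((-1 : ℤ) ^ j * (j + 1)) =
      (k + 2) * (∑ j ∈ Finset.range (k + 1), (-1 : ℤ) ^ j * (j + 1)) - ∑ j ∈ Finset.range (k + 1), (-1 : ℤ) ^ j * ((j : ℤ) + 1) ^ 2 := by
    rw [Finset.mul_sum, ← Finset.sum_sub_distrib]
    refine Finset.sum_congr rfl fun j _ => ?_
    ring
  have h2 := a4_nonneg_G k
  have h3 := a4_nonneg_H k
  have h4 : 4 * ∑ j ∈ Finset.range (k + 1), ((k - j : ℤ) + 1) * ((-1 : ℤ) ^ j * (j + 1)) = (k + 2) * (1 + (-1) ^ k) := by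
    rw [h1]
    linear_combination (k + 2 : ℤ) * h2 - 2 * h3
  have h5 : (0 : ℤ) ≤ 1 + (-1) ^ k := by
    rcases neg_one_pow_eq_or ℤ k with h | h <;> rw [h] <;> norm_num
  have h6 : (0 : ℤ) ≤ (k + 2) * (1 + (-1) ^ k) := mul_nonneg (by positivity) h5
  linarith

/-- the prime power value as an integer -/
theorem a4_nonneg_int (e1 e2 : ℤ) (h1 : e1 = 0 ∨ e1 = 1 ∨ e1 = -1) (h2 : e2 = 0 ∨ e2 = 1 ∨ e2 = -1) (k : ℕ) :
    0 ≤ ∑ j ∈ Finset.range (k + 1),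
      (∑ l ∈ Finset.range (k - j + 1), e1 ^ l) * (e2 ^ j * ∑ l ∈ Finset.range (j + 1), e1 ^ l) := by
  have hR : ∀ i : ℕ, 0 ≤ ∑ l ∈ Finset.range (i + 1), e1 ^ l := by
    intro i
    rcases h1 with h | h | h
    · refine Finset.sum_nonneg fun l _ => ?_
      rw [h]; positivity
    · refine Finset.sum_nonneg fun l _ => ?_
      rw [h]; positivity
    · rw [h, neg_one_geom_sum]
      split_ifs <;> norm_num
  rcases h2 with h2 | h2 | h2
  · refine Finset.sum_nonneg fun j _ => mul_nonneg (hR _) (mul_nonneg ?_ (hR _))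
    rw [h2]; positivity
  · refine Finset.sum_nonneg fun j _ => mul_nonneg (hR _) (mul_nonneg ?_ (hR _))
    rw [h2]; positivity
  · subst h2
    rcases h1 with h1 | h1 | h1
    · subst h1
      have h3 : ∀ i : ℕ, ∑ l ∈ Finset.range (i + 1), (0 : ℤ) ^ l = 1 := by
        intro i
        rw [Finset.sum_range_succ']
        simp
      simp only [h3, one_mul, mul_one]
      rw [neg_one_geom_sum]
      split_ifs <;> norm_num
    · subst h1
      have h3 : ∀ i : ℕ, ∑ l ∈ Finset.range (i + 1), (1 : ℤ) ^ l = i + 1 := by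
        intro i
        simp
      simp only [h3]
      refine (a4_nonneg_sum k).trans_eq (Finset.sum_congr rfl fun j hj => ?_)
      rw [Nat.cast_sub (by simpa [Nat.lt_succ_iff] using hj)]
    · subst h1
      refine Finset.sum_nonneg fun j _ => ?_
      rcases Nat.even_or_odd j with hj | hj
      · rw [hj.neg_one_pow, one_mul]
        exact mul_nonneg (hR _) (hR _)
      · have h4 : ∑ l ∈ Finset.range (j + 1), (-1 : ℤ) ^ l = 0 := by
          rw [neg_one_geom_sum, if_pos hj.add_one]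
        rw [h4]
        simp

theorem a4_nonneg_val {q : ℕ} {χ : DirichletCharacter ℂ q} (h : χ ^ 2 = 1) (p : ℕ) :
    ∃ e : ℤ, (e = 0 ∨ e = 1 ∨ e = -1) ∧ χ p = e := by
  rcases MulChar.isQuadratic_iff_sq_eq_one.mpr h p with h | h | h
  · exact ⟨0, Or.inl rfl, by rw [h]; norm_num⟩
  · exact ⟨1, Or.inr (Or.inl rfl), by rw [h]; norm_num⟩
  · exact ⟨-1, Or.inr (Or.inr rfl), by rw [h]; norm_num⟩

theorem a4_nonneg_zm {q : ℕ} (χ : DirichletCharacter ℂ q) {p : ℕ} (hp : p.Prime) (i : ℕ) :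
    χ.zetaMul (p ^ i) = ∑ l ∈ Finset.range (i + 1), χ p ^ l := by
  have h : χ.zetaMul (p ^ i) = ∑ d ∈ (p ^ i).divisors, toArithmeticFunction (χ ·) d :=
    ArithmeticFunction.coe_zeta_mul_apply
  rw [h, Nat.sum_divisors_prime_pow hp]
  refine Finset.sum_congr rfl fun l _ => ?_
  have h2 : toArithmeticFunction (χ ·) (p ^ l) = if p ^ l = 0 then 0 else χ ((p ^ l : ℕ)) := rfl
  rw [h2, if_neg (pow_ne_zero _ hp.ne_zero), Nat.cast_pow, map_pow]

theorem a4_nonneg_mult {q1 q2 : ℕ} (χ1 : DirichletCharacter ℂ q1) (χ2 : DirichletCharacter ℂ q2) :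
    (a4 χ1 χ2).IsMultiplicative := by
  refine χ1.isMultiplicative_zetaMul.mul ?_
  constructor
  · simp [χ1.isMultiplicative_zetaMul.map_one]
  · intro m n hmn
    simp only [ArithmeticFunction.coe_mk, Nat.cast_mul, map_mul, χ1.isMultiplicative_zetaMul.map_mul_of_coprime hmn]
    ring

theorem a4_nonneg_apply {q1 q2 : ℕ} (χ1 : DirichletCharacter ℂ q1) (χ2 : DirichletCharacter ℂ q2) (n : ℕ) :
    a4 χ1 χ2 n = ∑ x ∈ n.divisorsAntidiagonal, χ1.zetaMul x.1 * (χ2 x.2 * χ1.zetaMul x.2) :=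
  ArithmeticFunction.mul_apply

theorem a4_nonneg_pp {q1 q2 : ℕ} {χ1 : DirichletCharacter ℂ q1} {χ2 : DirichletCharacter ℂ q2} (h1 : χ1 ^ 2 = 1)
    (h2 : χ2 ^ 2 = 1) {p : ℕ} (hp : p.Prime) (k : ℕ) : 0 ≤ a4 χ1 χ2 (p ^ k) := by
  obtain ⟨e1, he1, hv1⟩ := a4_nonneg_val h1 p
  obtain ⟨e2, he2, hv2⟩ := a4_nonneg_val h2 p
  have h3 := a4_nonneg_int e1 e2 he1 he2 k
  have h4 : a4 χ1 χ2 (p ^ k) = ((∑ j ∈ Finset.range (k + 1),
      (∑ l ∈ Finset.range (k - j + 1), e1 ^ l) * (e2 ^ j * ∑ l ∈ Finset.range (j + 1), e1 ^ l) : ℤ) : ℂ) := by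
    rw [a4_nonneg_apply]
    rw [Nat.sum_divisorsAntidiagonal' (f := fun a b => χ1.zetaMul a * (χ2 b * χ1.zetaMul b)), Nat.sum_divisors_prime_pow hp]
    push_cast
    refine Finset.sum_congr rfl fun j hj => ?_
    have hjk : j ≤ k := by simpa [Nat.lt_succ_iff] using hj
    rw [Nat.pow_div hjk hp.pos, a4_nonneg_zm χ1 hp, a4_nonneg_zm χ1 hp, hv1]
    rw [map_pow, hv2]
  rw [h4]
  have h5 : (0 : ℝ) ≤ ((∑ j ∈ Finset.range (k + 1),
      (∑ l ∈ Finset.range (k - j + 1), e1 ^ l) * (e2 ^ j * ∑ l ∈ Finset.range (j + 1), e1 ^ l) : ℤ) : ℝ) := by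
    exact_mod_cast h3
  have h6 := Complex.zero_le_real.mpr h5
  rwa [Complex.ofReal_intCast] at h6

theorem a4_nonneg {q1 q2 : ℕ} {χ1 : DirichletCharacter ℂ q1} {χ2 : DirichletCharacter ℂ q2} (h1 : χ1 ^ 2 = 1)
    (h2 : χ2 ^ 2 = 1) (n : ℕ) : 0 ≤ a4 χ1 χ2 n := by
  rcases eq_or_ne n 0 with rfl | hn
  · simp only [ArithmeticFunction.map_zero, le_refl]
  · rw [(a4_nonneg_mult χ1 χ2).multiplicative_factorization _ hn]
    exact Finset.prod_nonneg fun p hp => a4_nonneg_pp h1 h2 (Nat.prime_of_mem_primeFactors hp) _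

theorem a4_one {q1 q2 : ℕ} (χ1 : DirichletCharacter ℂ q1) (χ2 : DirichletCharacter ℂ q2) : a4 χ1 χ2 1 = 1 :=
  (a4_nonneg_mult χ1 χ2).map_one

end BVL
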