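import Pool.Agent.H69.LB.Defs
import Pool.Agent.H17.QPNT

/-!
# BV / SEPY: sharp cutoffs by an integral over `n^{2πiξ}`, uniformly in the cutoff

`g = Pool.Agent.H17.ZB.gS` (Schwartz, `gS v = bmp v ≥ 0`, support in `[-1,1]`, `∫ = I0 > 0`), `w = 𝓕 g`: integrable, `‖w(ξ)‖ ≤ ∫ ‖g‖ =: w0`,
`g(t) = ∫ w(ξ) e(ξ t) dξ` for all `t` (Fourier inversion for Schwartz functions, see the proof of `H69LB.sep` in H69/LB/Sep.lean).
`b = 1/(4N)`, `L = log N + 2`. For `1 ≤ y ≤ N` let `h(t) = (1/(b I0)) ∫_{s=-1}^{log y + b} g((t-s)/b) ds`.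
(i) `h(log n) = 1` for `1 ≤ n ≤ y` (the bump `s ↦ g((log n - s)/b)` has its support in `[log n - b, log n + b] ⊆ [-1, log y + b]`),
    `h(log n) = 0` for `n ≥ y+1` (`log n - log y ≥ log(1 + 1/y) ≥ 1/(2y) ≥ 2b`, so `log n - s ≥ b` for all `s` in the range).
(ii) `g((t-s)/b) = ∫ w(ξ) e(ξ(t-s)/b) dξ = b ∫ w(bξ) e(ξ(t-s)) dξ`, Fubini: `h(t) = (1/I0) ∫ w(bξ) e(ξt) (∫_{-1}^{log y+b} e(-ξ s) ds) dξ`.
(iii) `|∫_{-1}^{log y + b} e(-ξ s) ds| ≤ min(L, 1/(π|ξ|)) ≤ 2L/(1 + L|ξ|)`.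
So with `κ(ξ) = (1/I0) ‖w(bξ)‖ * 2L/(1 + L|ξ|)`:
`∑_{i : ν i ≤ y} z_i = ∑_{i} z_i h(log (ν i)) = (1/I0) ∫ w(bξ) (∫ e(-ξs) ds) ∑_i z_i e(ξ log ν i) dξ`, norm `≤ ∫ κ(ξ) ‖∑_i z_i e(ξ log ν_i)‖ dξ`.
`∫ κ ≤ (1/I0) (w0 ∫_{|ξ| ≤ N} 2L/(1+L|ξ|) dξ + (2/N) ∫ ‖w(bξ)‖ dξ) ≤ (1/I0) (4 w0 log(1 + L N) + 8 ∫ ‖w‖)`, and `log(1+LN) ≤ C log N` for `N ≥ 2`.
`y = 0`: the left side is empty (`ν i ≥ 1`).
-/

open Finset H69LB MeasureTheory

namespace BVL

open scoped FourierTransform SchwartzMap in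
lemma sepy_w : ∃ w : ℝ → ℂ, Continuous w ∧ Integrable w ∧ (∃ w0 : ℝ, 0 ≤ w0 ∧ ∀ ξ, ‖w ξ‖ ≤ w0) ∧
    ∀ t : ℝ, ((Pool.Agent.H17.ZB.bmp t : ℝ) : ℂ) = ∫ ξ, w ξ * ee (ξ * t) := by
  let f : 𝓢(ℝ, ℂ) := Pool.Agent.H17.ZB.gS
  refine ⟨fun ξ => (𝓕 f) ξ, (𝓕 f).continuous, (𝓕 f).integrable, ?_, fun η => ?_⟩
  · obtain ⟨C, hC, h⟩ := (𝓕 f).decay 0 0
    refine ⟨C, hC.le, fun ξ => ?_⟩
    have := h ξ
    simpa using this
  · have h1 : (𝓕⁻ (𝓕 f)) η = f η := by rw [FourierTransform.fourierInv_fourier_eq f]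
    rw [SchwartzMap.fourierInv_coe, Real.fourierInv_eq'] at h1
    have h2 : f η = ((Pool.Agent.H17.ZB.bmp η : ℝ) : ℂ) := rfl
    rw [← h2, ← h1]
    refine integral_congr_ae (Filter.Eventually.of_forall fun ξ => ?_)
    simp only [smul_eq_mul]
    rw [mul_comm]
    congr 1
    unfold ee
    congr 1
    simp
    ring

lemma sepy_ee_norm (t : ℝ) : ‖ee t‖ = 1 := by
  unfold ee
  rw [show (2 * Real.pi * t * Complex.I : ℂ) = ((2 * Real.pi * t : ℝ) : ℂ) * Complex.I by push_cast; ring]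
  exact Complex.norm_exp_ofReal_mul_I _

lemma sepy_ee_add (s t : ℝ) : ee (s + t) = ee s * ee t := by
  unfold ee
  rw [← Complex.exp_add]
  congr 1
  push_cast
  ring

lemma sepy_ee_cont : Continuous ee := by
  unfold ee
  fun_prop

lemma sepy_scale {w : ℝ → ℂ} (hw : ∀ t : ℝ, ((Pool.Agent.H17.ZB.bmp t : ℝ) : ℂ) = ∫ ξ, w ξ * ee (ξ * t))
    {b : ℝ} (hb : 0 < b) (u : ℝ) :
    ((Pool.Agent.H17.ZB.bmp (u / b) : ℝ) : ℂ) = (b : ℂ) * ∫ ξ, w (b * ξ) * ee (ξ * u) := by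
  have h := Measure.integral_comp_mul_left (fun ξ => w ξ * ee (ξ * (u / b))) b
  have e : (fun ξ => (fun ξ => w ξ * ee (ξ * (u / b))) (b * ξ)) = fun ξ => w (b * ξ) * ee (ξ * u) := by
    funext ξ
    simp only
    congr 2
    field_simp
  rw [e] at h
  rw [h, hw (u / b), abs_of_pos (inv_pos.mpr hb), Complex.real_smul, ← mul_assoc]
  push_cast
  rw [mul_inv_cancel₀ (by exact_mod_cast hb.ne'), one_mul]

lemma sepy_int_ee {ξ Y L : ℝ} (hY : -1 ≤ Y) (hL : Y + 1 ≤ L) :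
    ‖∫ s in (-1)..Y, ee (-(ξ * s))‖ ≤ 2 * L / (1 + L * |ξ|) := by
  have hL0 : 0 ≤ L := by linarith
  have h1 : ‖∫ s in (-1)..Y, ee (-(ξ * s))‖ ≤ L := by
    have := intervalIntegral.norm_integral_le_of_norm_le_const (a := -1) (b := Y) (C := 1)
      (f := fun s => ee (-(ξ * s))) (fun s _ => (sepy_ee_norm _).le)
    rw [one_mul, abs_of_nonneg (by linarith)] at this
    linarith
  rcases le_or_gt (L * |ξ|) 1 with h | h
  · refine h1.trans ?_
    rw [le_div_iff₀ (by positivity)]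
    nlinarith
  · have hξ : ξ ≠ 0 := by
      rintro rfl
      simp at h
      linarith
    have hξ' : 0 < |ξ| := abs_pos.mpr hξ
    have hLpos : 0 < L := by
      by_contra hc
      have : L = 0 := by linarith
      rw [this] at h
      simp at h
      linarith
    have h2 : ∫ s in (-1)..Y, ee (-(ξ * s)) = (ee (-(ξ * Y)) - ee (-(ξ * (-1)))) / (-(2 * Real.pi * ξ) * Complex.I) := by
      have hc : (-(2 * Real.pi * ξ) * Complex.I : ℂ) ≠ 0 := by
        refine mul_ne_zero (neg_ne_zero.mpr ?_) Complex.I_ne_zero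
        exact_mod_cast (by positivity : (2 * Real.pi * ξ) ≠ 0)
      have := integral_exp_mul_complex (a := -1) (b := Y) hc
      rw [show (fun s : ℝ => ee (-(ξ * s))) = fun s : ℝ => Complex.exp ((-(2 * Real.pi * ξ) * Complex.I) * s) from ?_]
      · rw [this]
        unfold ee
        congr 3
        · push_cast; ring
        · push_cast; ring
      · funext s
        unfold ee
        congr 1
        push_cast
        ring
    rw [h2, norm_div]
    have h3 : ‖(-(2 * Real.pi * ξ) * Complex.I : ℂ)‖ = 2 * Real.pi * |ξ| := by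
      rw [norm_mul, norm_neg, Complex.norm_I, mul_one]
      rw [show (2 * Real.pi * ξ : ℂ) = ((2 * Real.pi * ξ : ℝ) : ℂ) by push_cast; ring, Complex.norm_real, Real.norm_eq_abs,
        abs_mul, abs_of_pos (by positivity : (0:ℝ) < 2 * Real.pi)]
    rw [h3]
    have h4 : ‖ee (-(ξ * Y)) - ee (-(ξ * (-1)))‖ ≤ 2 := by
      refine (norm_sub_le _ _).trans ?_
      rw [sepy_ee_norm, sepy_ee_norm]
      norm_num
    have hpi : 3 < Real.pi := Real.pi_gt_three
    rw [div_le_div_iff₀ (by positivity) (by positivity)]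
    have h5 : 1 + L * |ξ| ≤ 2 * (L * |ξ|) := by linarith
    calc ‖ee (-(ξ * Y)) - ee (-(ξ * (-1)))‖ * (1 + L * |ξ|) ≤ 2 * (2 * (L * |ξ|)) :=
          mul_le_mul h4 h5 (by positivity) (by norm_num)
      _ ≤ 2 * L * (2 * Real.pi * |ξ|) := by
          have : 0 < L * |ξ| := by positivity
          nlinarith

lemma sepy_bump_one {b Y : ℝ} (hb : 0 < b) {u : ℝ} (h1 : -1 ≤ u - b) (h2 : u + b ≤ Y) :
    ∫ s in (-1)..Y, Pool.Agent.H17.ZB.bmp ((u - s) / b) = b * Pool.Agent.H17.ZB.I0 := by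
  rw [intervalIntegral.integral_eq_integral_of_support_subset]
  · have e1 : ∫ s, Pool.Agent.H17.ZB.bmp ((u - s) / b) = ∫ s, Pool.Agent.H17.ZB.bmp (s / b) :=
      integral_sub_left_eq_self (fun s => Pool.Agent.H17.ZB.bmp (s / b)) volume u
    rw [e1, Measure.integral_comp_div (fun v => Pool.Agent.H17.ZB.bmp v) b, abs_of_pos hb, smul_eq_mul]
    rfl
  · intro s hs
    rw [Function.mem_support] at hs
    have h : |(u - s) / b| < 1 := by
      by_contra hc
      exact hs (Pool.Agent.H17.ZB.bmp_zero (not_lt.mp hc))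
    rw [abs_div, abs_of_pos hb, div_lt_one hb, abs_lt] at h
    constructor <;> linarith [h.1, h.2]

lemma sepy_bump_zero {b Y : ℝ} (hb : 0 < b) {u : ℝ} (hY : -1 ≤ Y) (h2 : Y + b ≤ u) :
    ∫ s in (-1)..Y, Pool.Agent.H17.ZB.bmp ((u - s) / b) = 0 := by
  have : ∫ s in (-1)..Y, Pool.Agent.H17.ZB.bmp ((u - s) / b) = ∫ s in (-1)..Y, (0 : ℝ) := by
    refine intervalIntegral.integral_congr fun s hs => ?_
    rw [Set.uIcc_of_le hY] at hs
    apply Pool.Agent.H17.ZB.bmp_zero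
    have : b ≤ u - s := by linarith [hs.2]
    rw [abs_of_nonneg (div_nonneg (by linarith) hb.le), le_div_iff₀ hb]
    linarith
  rw [this]
  simp


/-- the weighted kernel has small mass -/
lemma sepy_mass {w : ℝ → ℂ} (_hwc : Continuous w) (hwi : Integrable w) {w0 : ℝ} (hw0 : 0 ≤ w0)
    (hwb : ∀ ξ, ‖w ξ‖ ≤ w0) {N : ℕ} (hN : 2 ≤ N) :
    Integrable (fun ξ : ℝ => ‖w (1 / (4 * N) * ξ)‖ * (2 * (Real.log N + 2) / (1 + (Real.log N + 2) * |ξ|))) ∧
    ∫ ξ : ℝ, ‖w (1 / (4 * N) * ξ)‖ * (2 * (Real.log N + 2) / (1 + (Real.log N + 2) * |ξ|)) ≤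
      4 * w0 * (3 * Real.log N) + 8 * ∫ ξ, ‖w ξ‖ := by
  have hN' : (2 : ℝ) ≤ N := by exact_mod_cast hN
  have hlog : 0 < Real.log N := Real.log_pos (by linarith)
  set L : ℝ := Real.log N + 2 with hL
  have hLp : 0 < L := by positivity
  set b : ℝ := 1 / (4 * N) with hb
  have hbp : 0 < b := by positivity
  have hwbi : Integrable (fun ξ : ℝ => ‖w (b * ξ)‖) := (hwi.comp_mul_left' hbp.ne').norm
  have hk0 : ∀ ξ : ℝ, 0 ≤ 2 * L / (1 + L * |ξ|) := fun ξ => by positivity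
  have hk1 : ∀ ξ : ℝ, 2 * L / (1 + L * |ξ|) ≤ 2 * L := fun ξ => by
    apply div_le_self (by positivity)
    have : 0 ≤ L * |ξ| := by positivity
    linarith
  have hkc : Continuous (fun ξ : ℝ => 2 * L / (1 + L * |ξ|)) := by
    apply Continuous.div continuous_const (by fun_prop)
    intro ξ
    have : 0 ≤ L * |ξ| := by positivity
    positivity
  have hint : Integrable (fun ξ : ℝ => ‖w (b * ξ)‖ * (2 * L / (1 + L * |ξ|))) := by
    refine (hwbi.mul_const (2 * L)).mono' ?_ ?_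
    · exact (hwbi.aestronglyMeasurable).mul hkc.aestronglyMeasurable
    · refine Filter.Eventually.of_forall fun ξ => ?_
      rw [Real.norm_eq_abs, abs_of_nonneg (mul_nonneg (norm_nonneg _) (hk0 ξ))]
      exact mul_le_mul_of_nonneg_left (hk1 ξ) (norm_nonneg _)
  refine ⟨hint, ?_⟩
  have hset : MeasurableSet (Set.Ioc (-(N:ℝ)) N) := measurableSet_Ioc
  have hindi : Integrable (fun ξ : ℝ => (Set.Ioc (-(N:ℝ)) N).indicator (fun ξ => w0 * (2 * L / (1 + L * |ξ|))) ξ) := by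
    rw [integrable_indicator_iff hset]
    exact ((continuous_const.mul hkc).integrableOn_Icc (a := -(N:ℝ)) (b := N)).mono_set Set.Ioc_subset_Icc_self
  have hR : Integrable (fun ξ : ℝ => (Set.Ioc (-(N:ℝ)) N).indicator (fun ξ => w0 * (2 * L / (1 + L * |ξ|))) ξ +
      2 / N * ‖w (b * ξ)‖) := hindi.add (hwbi.const_mul _)
  have hle : ∫ ξ : ℝ, ‖w (b * ξ)‖ * (2 * L / (1 + L * |ξ|)) ≤
      ∫ ξ : ℝ, ((Set.Ioc (-(N:ℝ)) N).indicator (fun ξ => w0 * (2 * L / (1 + L * |ξ|))) ξ + 2 / N * ‖w (b * ξ)‖) := by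
    refine integral_mono hint hR fun ξ => ?_
    by_cases hξ : ξ ∈ Set.Ioc (-(N:ℝ)) N
    · simp only [Set.indicator_of_mem hξ]
      have h1 : ‖w (b * ξ)‖ * (2 * L / (1 + L * |ξ|)) ≤ w0 * (2 * L / (1 + L * |ξ|)) :=
        mul_le_mul_of_nonneg_right (hwb _) (hk0 ξ)
      have h2 : 0 ≤ 2 / N * ‖w (b * ξ)‖ := by positivity
      linarith
    · simp only [Set.indicator_of_notMem hξ, zero_add]
      have hξ' : (N : ℝ) ≤ |ξ| := by
        rw [Set.mem_Ioc, not_and_or, not_lt, not_le] at hξ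
        rcases hξ with h | h
        · rw [abs_of_nonpos (by linarith)]; linarith
        · rw [abs_of_pos (by linarith)]; exact h.le
      rw [mul_comm]
      refine mul_le_mul_of_nonneg_right ?_ (norm_nonneg _)
      rw [div_le_div_iff₀ (by positivity) (by positivity)]
      nlinarith
  have hI1 : ∫ ξ : ℝ, (Set.Ioc (-(N:ℝ)) N).indicator (fun ξ => w0 * (2 * L / (1 + L * |ξ|))) ξ =
      w0 * (4 * Real.log (1 + L * N)) := by
    rw [integral_indicator hset, ← intervalIntegral.integral_of_le (by linarith), intervalIntegral.integral_const_mul]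
    congr 1
    have hii : ∀ p q : ℝ, IntervalIntegrable (fun ξ : ℝ => 2 * L / (1 + L * |ξ|)) volume p q := fun p q =>
      hkc.intervalIntegrable p q
    rw [← intervalIntegral.integral_add_adjacent_intervals (hii (-(N:ℝ)) 0) (hii 0 N)]
    have hpos : ∫ ξ in (0:ℝ)..N, 2 * L / (1 + L * |ξ|) = 2 * Real.log (1 + L * N) := by
      have hder : ∀ x ∈ Set.uIcc (0:ℝ) N, HasDerivAt (fun x => 2 * Real.log (1 + L * x)) (2 * L / (1 + L * |x|)) x := by
        intro x hx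
        rw [Set.uIcc_of_le (by linarith)] at hx
        have hx0 : 0 ≤ x := hx.1
        have h1 : HasDerivAt (fun x : ℝ => 1 + L * x) L x := by
          simpa using ((hasDerivAt_id x).const_mul L).const_add 1
        have h2 := (h1.log (by positivity)).const_mul 2
        rw [abs_of_nonneg hx0]
        rw [mul_div_assoc]
        exact h2
      rw [intervalIntegral.integral_eq_sub_of_hasDerivAt hder (hii 0 N)]
      simp
    have hneg : ∫ ξ in (-(N:ℝ))..0, 2 * L / (1 + L * |ξ|) = ∫ ξ in (0:ℝ)..N, 2 * L / (1 + L * |ξ|) := by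
      have := intervalIntegral.integral_comp_neg (a := (-(N:ℝ))) (b := 0) (fun ξ : ℝ => 2 * L / (1 + L * |ξ|))
      simp only [abs_neg, neg_zero, neg_neg] at this
      exact this
    rw [hneg, hpos]
    ring
  have hI2 : ∫ ξ : ℝ, 2 / N * ‖w (b * ξ)‖ = 8 * ∫ ξ, ‖w ξ‖ := by
    rw [integral_const_mul]
    have := Measure.integral_comp_mul_left (fun ξ => ‖w ξ‖) b
    rw [this, abs_of_pos (inv_pos.mpr hbp), smul_eq_mul, ← mul_assoc]
    congr 1
    rw [hb]
    field_simp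
    norm_num
  have hlogle : Real.log (1 + L * N) ≤ 3 * Real.log N := by
    have h1 : Real.log N ≤ N - 1 := Real.log_le_sub_one_of_pos (by linarith)
    have h2 : 1 + L * N ≤ (N : ℝ) ^ 3 := by
      have : L ≤ N + 1 := by linarith
      nlinarith [mul_le_mul_of_nonneg_right this (by linarith : (0:ℝ) ≤ N), mul_nonneg (by linarith : (0:ℝ) ≤ N - 2) (by positivity : (0:ℝ) ≤ (N:ℝ)^2), sq_nonneg ((N:ℝ) - 2)]
    calc Real.log (1 + L * N) ≤ Real.log ((N : ℝ) ^ 3) := Real.log_le_log (by positivity) h2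
      _ = 3 * Real.log N := by rw [Real.log_pow]; push_cast; ring
  calc _ ≤ _ := hle
    _ = w0 * (4 * Real.log (1 + L * N)) + 8 * ∫ ξ, ‖w ξ‖ := by
        rw [integral_add hindi (hwbi.const_mul _), hI1, hI2]
    _ ≤ _ := by
        have := mul_le_mul_of_nonneg_left hlogle hw0
        linarith

theorem sepy : ∃ C : ℝ, 0 ≤ C ∧ ∀ N : ℕ, 2 ≤ N → ∃ κ : ℝ → ℝ, (∀ ξ, 0 ≤ κ ξ) ∧ Integrable κ ∧
    ∫ ξ, κ ξ ≤ C * Real.log N ∧ ∀ {ι : Type} (I : Finset ι) (ν : ι → ℕ) (z : ι → ℂ), (∀ i ∈ I, 1 ≤ ν i ∧ ν i ≤ N) →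
    ∀ y : ℕ, y ≤ N → ‖∑ i ∈ I.filter (fun i => ν i ≤ y), z i‖ ≤
      ∫ ξ, κ ξ * ‖∑ i ∈ I, z i * ee (ξ * Real.log (ν i))‖ := by
  obtain ⟨w, hwc, hwi, ⟨w0, hw0, hwb⟩, hinv⟩ := sepy_w
  have hI0 : 0 < Pool.Agent.H17.ZB.I0 := Pool.Agent.H17.ZB.I0_pos
  set J : ℝ := Pool.Agent.H17.ZB.I0 with hJ
  have hlog2 : 0 < Real.log 2 := Real.log_pos (by norm_num)
  have hW : 0 ≤ ∫ ξ, ‖w ξ‖ := integral_nonneg fun _ => norm_nonneg _
  refine ⟨1 / J * (12 * w0 + 8 * (∫ ξ, ‖w ξ‖) / Real.log 2), by positivity, fun N hN => ?_⟩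
  have hN' : (2 : ℝ) ≤ N := by exact_mod_cast hN
  have hlog : Real.log 2 ≤ Real.log N := Real.log_le_log (by norm_num) hN'
  have hlogp : 0 < Real.log N := by linarith
  obtain ⟨hm1, hm2⟩ := sepy_mass hwc hwi hw0 hwb hN
  set L : ℝ := Real.log N + 2 with hL
  have hLp : 0 < L := by positivity
  set b : ℝ := 1 / (4 * N) with hb
  have hbp : 0 < b := by positivity
  have hb8 : b ≤ 1 / 8 := by
    rw [hb]
    apply one_div_le_one_div_of_le (by norm_num)
    linarith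
  have hk0 : ∀ ξ : ℝ, 0 ≤ 2 * L / (1 + L * |ξ|) := fun ξ => by positivity
  refine ⟨fun ξ => 1 / J * (‖w (b * ξ)‖ * (2 * L / (1 + L * |ξ|))), fun ξ => ?_, hm1.const_mul _, ?_, ?_⟩
  · exact mul_nonneg (by positivity) (mul_nonneg (norm_nonneg _) (hk0 ξ))
  · rw [integral_const_mul, mul_assoc]
    refine mul_le_mul_of_nonneg_left ?_ (by positivity)
    refine hm2.trans ?_
    have h1 : 8 * ∫ ξ, ‖w ξ‖ ≤ 8 * (∫ ξ, ‖w ξ‖) / Real.log 2 * Real.log N := by
      rw [div_mul_eq_mul_div, le_div_iff₀ hlog2]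
      exact mul_le_mul_of_nonneg_left hlog (by positivity)
    nlinarith
  intro ι I ν z hν y hy
  rcases Nat.eq_zero_or_pos y with rfl | hy0
  · have he : I.filter (fun i => ν i ≤ 0) = ∅ := by
      apply Finset.filter_eq_empty_iff.mpr
      intro i hi
      have := (hν i hi).1
      omega
    rw [he, Finset.sum_empty, norm_zero]
    refine integral_nonneg fun ξ => ?_
    exact mul_nonneg (mul_nonneg (by positivity) (mul_nonneg (norm_nonneg _) (hk0 ξ))) (norm_nonneg _)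
  have hy1 : (1 : ℝ) ≤ y := by exact_mod_cast hy0
  have hyN : (y : ℝ) ≤ N := by exact_mod_cast hy
  have hly0 : 0 ≤ Real.log y := Real.log_nonneg hy1
  have hlyN : Real.log y ≤ Real.log N := Real.log_le_log (by linarith) hyN
  set Y : ℝ := Real.log y + b with hY
  have hY1 : -1 ≤ Y := by linarith
  have hYL : Y + 1 ≤ L := by linarith
  set F : ℝ → ℂ := fun ξ => ∑ i ∈ I, z i * ee (ξ * Real.log (ν i)) with hF
  have hFc : Continuous F := by
    apply continuous_finsetSum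
    intro i _
    exact continuous_const.mul (sepy_ee_cont.comp (by fun_prop))
  have hFb : ∀ ξ, ‖F ξ‖ ≤ ∑ i ∈ I, ‖z i‖ := fun ξ => by
    refine (norm_sum_le _ _).trans (Finset.sum_le_sum fun i _ => ?_)
    rw [norm_mul, sepy_ee_norm, mul_one]
  set B : ℝ := ∑ i ∈ I, ‖z i‖ with hB
  have hB0 : 0 ≤ B := Finset.sum_nonneg fun _ _ => norm_nonneg _
  -- the cutoff
  have hcut : ∀ i ∈ I, ∫ s in (-1)..Y, Pool.Agent.H17.ZB.bmp ((Real.log (ν i) - s) / b) =
      if ν i ≤ y then b * J else 0 := by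
    intro i hi
    obtain ⟨h1, h2⟩ := hν i hi
    have h1' : (1 : ℝ) ≤ ν i := by exact_mod_cast h1
    have hl0 : 0 ≤ Real.log (ν i) := Real.log_nonneg h1'
    split_ifs with hc
    · apply sepy_bump_one hbp
      · linarith
      · have : Real.log (ν i) ≤ Real.log y := Real.log_le_log (by linarith) (by exact_mod_cast hc)
        linarith
    · apply sepy_bump_zero hbp hY1
      have h3 : (y : ℝ) + 1 ≤ ν i := by exact_mod_cast (by omega : y + 1 ≤ ν i)
      have h4 : Real.log ((y : ℝ) + 1) ≤ Real.log (ν i) := Real.log_le_log (by linarith) h3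
      have h5 : 1 / ((y : ℝ) + 1) ≤ Real.log ((y : ℝ) + 1) - Real.log y := by
        rw [← Real.log_div (by linarith) (by linarith)]
        have := Real.one_sub_inv_le_log_of_pos (x := ((y : ℝ) + 1) / y) (by positivity)
        refine le_trans (le_of_eq ?_) this
        field_simp
        ring
      have h6 : (y : ℝ) + 1 ≤ N := h3.trans (by exact_mod_cast h2)
      have h7 : 1 / (N : ℝ) ≤ 1 / ((y : ℝ) + 1) := one_div_le_one_div_of_le (by linarith) h6
      have h8 : b + b ≤ 1 / (N : ℝ) := by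
        rw [hb]
        have : (1 : ℝ) / (4 * N) + 1 / (4 * N) = 1 / 2 * (1 / N) := by field_simp; norm_num
        rw [this]
        have : 0 < 1 / (N : ℝ) := by positivity
        linarith
      linarith
  -- the identity
  have hcont : ∀ i, Continuous (fun s : ℝ => ((Pool.Agent.H17.ZB.bmp ((Real.log (ν i) - s) / b) : ℝ) : ℂ)) := fun i =>
    Complex.continuous_ofReal.comp (Pool.Agent.H17.ZB.bmp_cont.comp (by fun_prop))
  have hid1 : ((b * J : ℝ) : ℂ) * ∑ i ∈ I.filter (fun i => ν i ≤ y), z i =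
      ∫ s in (-1)..Y, ∑ i ∈ I, z i * ((Pool.Agent.H17.ZB.bmp ((Real.log (ν i) - s) / b) : ℝ) : ℂ) := by
    rw [intervalIntegral.integral_finsetSum]
    · rw [Finset.sum_filter, Finset.mul_sum]
      refine Finset.sum_congr rfl fun i hi => ?_
      rw [intervalIntegral.integral_const_mul, intervalIntegral.integral_ofReal, hcut i hi]
      split_ifs
      · ring
      · simp
    · intro i _
      exact (continuous_const.mul (hcont i)).intervalIntegrable _ _
  have hid2 : ∀ s : ℝ, ∑ i ∈ I, z i * ((Pool.Agent.H17.ZB.bmp ((Real.log (ν i) - s) / b) : ℝ) : ℂ) =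
      (b : ℂ) * ∫ ξ, w (b * ξ) * ee (-(ξ * s)) * F ξ := by
    intro s
    have hi : ∀ u : ℝ, Integrable (fun ξ => w (b * ξ) * ee (ξ * u)) := fun u => by
      refine (hwi.comp_mul_left' hbp.ne').norm.mono' ?_ ?_
      · exact ((hwc.comp (by fun_prop)).mul (sepy_ee_cont.comp (by fun_prop))).aestronglyMeasurable
      · refine Filter.Eventually.of_forall fun ξ => ?_
        rw [norm_mul, sepy_ee_norm, mul_one]
    have e : (fun ξ => w (b * ξ) * ee (-(ξ * s)) * F ξ) =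
        fun ξ => ∑ i ∈ I, z i * (w (b * ξ) * ee (ξ * (Real.log (ν i) - s))) := by
      funext ξ
      rw [hF]
      simp only
      rw [Finset.mul_sum]
      refine Finset.sum_congr rfl fun i _ => ?_
      rw [show ξ * (Real.log (ν i) - s) = -(ξ * s) + ξ * Real.log (ν i) by ring, sepy_ee_add]
      ring
    rw [e, integral_finsetSum _ (fun i _ => (hi _).const_mul _), Finset.mul_sum]
    refine Finset.sum_congr rfl fun i _ => ?_
    rw [integral_const_mul, sepy_scale hinv hbp]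
    ring
  have hid3 : ((b * J : ℝ) : ℂ) * ∑ i ∈ I.filter (fun i => ν i ≤ y), z i =
      (b : ℂ) * ∫ ξ, w (b * ξ) * F ξ * ∫ s in (-1)..Y, ee (-(ξ * s)) := by
    rw [hid1]
    simp_rw [hid2]
    rw [intervalIntegral.integral_const_mul]
    congr 1
    rw [intervalIntegral.integral_of_le hY1, integral_integral_swap]
    · refine integral_congr_ae (Filter.Eventually.of_forall fun ξ => ?_)
      simp only
      rw [intervalIntegral.integral_of_le hY1, ← integral_const_mul]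
      refine integral_congr_ae (Filter.Eventually.of_forall fun s => ?_)
      simp only
      ring
    · have hfin : Integrable (fun _ : ℝ => (1 : ℝ)) (volume.restrict (Set.Ioc (-1) Y)) := integrable_const _
      have hp := hfin.mul_prod ((hwi.comp_mul_left' hbp.ne').norm.mul_const B)
      refine hp.mono' ?_ ?_
      · apply Continuous.aestronglyMeasurable
        have h1 : Continuous (fun p : ℝ × ℝ => w (b * p.2)) := hwc.comp (by fun_prop)
        have h2 : Continuous (fun p : ℝ × ℝ => ee (-(p.2 * p.1))) := sepy_ee_cont.comp (by fun_prop)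
        have h3 : Continuous (fun p : ℝ × ℝ => F p.2) := hFc.comp (by fun_prop)
        exact (h1.mul h2).mul h3
      · refine Filter.Eventually.of_forall fun p => ?_
        simp only [Function.uncurry]
        rw [norm_mul, norm_mul, sepy_ee_norm, mul_one, one_mul]
        exact mul_le_mul_of_nonneg_left (hFb _) (norm_nonneg _)
  have hid4 : ((J : ℝ) : ℂ) * ∑ i ∈ I.filter (fun i => ν i ≤ y), z i =
      ∫ ξ, w (b * ξ) * F ξ * ∫ s in (-1)..Y, ee (-(ξ * s)) := by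
    have hbne : (b : ℂ) ≠ 0 := by exact_mod_cast hbp.ne'
    apply mul_left_cancel₀ hbne
    rw [← hid3]
    push_cast
    ring
  have hmain : J * ‖∑ i ∈ I.filter (fun i => ν i ≤ y), z i‖ ≤
      ∫ ξ, ‖w (b * ξ)‖ * (2 * L / (1 + L * |ξ|)) * ‖F ξ‖ := by
    have h1 : J * ‖∑ i ∈ I.filter (fun i => ν i ≤ y), z i‖ =
        ‖((J : ℝ) : ℂ) * ∑ i ∈ I.filter (fun i => ν i ≤ y), z i‖ := by
      rw [norm_mul, Complex.norm_real, Real.norm_eq_abs, abs_of_pos hI0]
    rw [h1, hid4]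
    refine (norm_integral_le_integral_norm _).trans ?_
    refine integral_mono_of_nonneg (Filter.Eventually.of_forall fun ξ => norm_nonneg _) ?_
      (Filter.Eventually.of_forall fun ξ => ?_)
    · refine (hm1.mul_const B).mono' ?_ ?_
      · exact hm1.aestronglyMeasurable.mul hFc.norm.aestronglyMeasurable
      · refine Filter.Eventually.of_forall fun ξ => ?_
        have h0 : 0 ≤ ‖w (b * ξ)‖ * (2 * L / (1 + L * |ξ|)) := mul_nonneg (norm_nonneg _) (hk0 ξ)
        rw [Real.norm_eq_abs, abs_of_nonneg (mul_nonneg h0 (norm_nonneg _))]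
        exact mul_le_mul_of_nonneg_left (hFb ξ) h0
    · simp only
      rw [norm_mul, norm_mul]
      have h2 := sepy_int_ee (ξ := ξ) hY1 hYL
      calc ‖w (b * ξ)‖ * ‖F ξ‖ * ‖∫ s in (-1)..Y, ee (-(ξ * s))‖ ≤ ‖w (b * ξ)‖ * ‖F ξ‖ * (2 * L / (1 + L * |ξ|)) :=
            mul_le_mul_of_nonneg_left h2 (by positivity)
        _ = _ := by ring
  have hfinal : ∫ ξ, 1 / J * (‖w (b * ξ)‖ * (2 * L / (1 + L * |ξ|))) * ‖F ξ‖ =
      1 / J * ∫ ξ, ‖w (b * ξ)‖ * (2 * L / (1 + L * |ξ|)) * ‖F ξ‖ := by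
    rw [← integral_const_mul]
    refine integral_congr_ae (Filter.Eventually.of_forall fun ξ => ?_)
    simp only
    ring
  rw [hfinal, one_div, ← div_eq_inv_mul, le_div_iff₀ hI0, mul_comm]
  exact hmain

end BVL
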