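import Pool.Agent.H17.BV.Lup
import Pool.Agent.H17.BV.Est

/-!
# BV / SIEA: Siegel's theorem, case A: characters without real zeros in `[β, 1)` (from EST and LUP)

`L(σ,χ)` is real for real `σ > 0`: by LAP it is the limit of the sums `∑_{n ≤ N} χ(n) n^{-σ}`, which are real (`χ(n) ∈ {0,1,-1}` as
`χ^2 = 1`, `MulChar.isQuadratic_iff_sq_eq_one`; or Mathlib). It does not vanish for `σ ≥ 1` (`LFunction_ne_zero_of_one_le_re`) nor on `[β,1)`
(hypothesis), it is continuous and positive at `σ = 2` (e.g. `LSeries`, `Re L(2,χ) ≥ 1 - ∑_{n ≥ 2} n^{-2} > 0`; or: its real part is nonzero and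
`≥ 1/2`-type bound; or: `ζ(σ) L(σ,χ) = LSeries (zetaMul χ) σ > 0` for `σ > 1` by `LSeries.positive` and `zetaMul_nonneg`, and `ζ(σ) > 0`), so
`L(β,χ) > 0` (intermediate value theorem). `ζ(β) < 0`: `Pool.Agent.H17.ZB.zeta_eq` with `N = 1`: `ζ(β) = 1 + 1/(β-1) - β RN 1 β`,
`‖RN 1 β‖ ≤ 1/β` (`RN_norm_le`), so `Re ζ(β) ≤ 2 - 8 < 0`; also `ζ(β)` is real (or use: `ζ(β)P(β)` real part `= Re ζ(β) * L(β,χ)` as `L(β,χ)` is real).
Apply EST to `P = LFunction χ`, `a = zetaMul χ` (`zetaMul χ 1 = 1`, `LSeriesSummable_zetaMul`, series `ζ(s) L(s,χ)` as in SER), `B = 29 q`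
(Lcirc): `‖L(1,χ)‖ ≥ c (1-β) (29 q)^{-4(1-β)} ≥ c (1-β) 29^{-1} q^{-4(1-β)}`.
-/

open scoped ComplexOrder

namespace BVL

open DirichletCharacter

theorem sieA_series {q : ℕ} [NeZero q] (χ : DirichletCharacter ℂ q) {s : ℂ} (hs : 1 < s.re) :
    LSeriesSummable (fun n => χ.zetaMul n) s ∧
      LSeries (fun n => χ.zetaMul n) s = riemannZeta s * LFunction χ s := by
  refine ⟨χ.LSeriesSummable_zetaMul hs, ?_⟩
  have h1 : LSeries (fun n => χ.zetaMul n) s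
      = LSeries (fun n => (ArithmeticFunction.zeta n : ℂ)) s * LSeries (fun n => χ n) s := by
    have h2 : LSeries (fun n => χ.zetaMul n) s = LSeries (⇑(χ.zetaMul)) s := rfl
    rw [h2, zetaMul, ← ArithmeticFunction.coe_mul, LSeries_convolution']
    · congr 1
      exact LSeries_congr (fun {n} hn => (χ.apply_eq_toArithmeticFunction_apply hn).symm) s
    · exact ArithmeticFunction.LSeriesSummable_zeta_iff.mpr hs
    · exact (LSeriesSummable_congr _ fun h ↦ (χ.apply_eq_toArithmeticFunction_apply h).symm).mpr <|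
        ZMod.LSeriesSummable_of_one_lt_re χ hs
  rw [h1, ArithmeticFunction.LSeries_zeta_eq_riemannZeta hs, χ.LFunction_eq_LSeries hs]

theorem sieA_im {q : ℕ} [NeZero q] {χ : DirichletCharacter ℂ q} (hχ : χ ≠ 1) (hχ2 : χ ^ 2 = 1) {σ : ℝ}
    (hσ : 0 < σ) : (LFunction χ σ).im = 0 := by
  have hre : ((σ : ℂ)).re = σ := Complex.ofReal_re σ
  have hS : ∀ N : ℕ, (∑ n ∈ Finset.Icc 1 N, χ n * (n : ℂ) ^ (-(σ : ℂ))).im = 0 := by
    intro N
    rw [Complex.im_sum]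
    apply Finset.sum_eq_zero
    intro n _
    have h1 : (n : ℂ) ^ (-(σ : ℂ)) = (((n : ℝ) ^ (-σ) : ℝ) : ℂ) := by
      rw [Complex.ofReal_cpow (Nat.cast_nonneg n)]
      push_cast
      rfl
    rw [h1]
    rcases MulChar.isQuadratic_iff_sq_eq_one.mpr hχ2 n with h | h | h
    · rw [h]; simp
    · rw [h, one_mul, Complex.ofReal_im]
    · rw [h, neg_one_mul, Complex.neg_im, Complex.ofReal_im, neg_zero]
  have hb : ∀ N : ℕ, 1 ≤ N → |(LFunction χ σ).im| ≤ 4 * q * (‖(σ : ℂ)‖ / σ) * (N : ℝ) ^ (-σ) := by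
    intro N hN
    have h2 := lap hχ hN (s := (σ : ℂ)) (by rw [hre]; exact hσ)
    rw [hre] at h2
    refine le_trans ?_ h2
    have h3 := Complex.abs_im_le_norm (LFunction χ σ - ∑ n ∈ Finset.Icc 1 N, χ n * (n : ℂ) ^ (-(σ : ℂ)))
    rw [Complex.sub_im, hS N, sub_zero] at h3
    exact h3
  have hlim : Filter.Tendsto (fun N : ℕ => 4 * (q : ℝ) * (‖(σ : ℂ)‖ / σ) * (N : ℝ) ^ (-σ)) Filter.atTop (nhds 0) := by
    have h4 : Filter.Tendsto (fun N : ℕ => (N : ℝ) ^ (-σ)) Filter.atTop (nhds 0) :=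
      (tendsto_rpow_neg_atTop hσ).comp tendsto_natCast_atTop_atTop
    have h5 := h4.const_mul (4 * (q : ℝ) * (‖(σ : ℂ)‖ / σ))
    rw [mul_zero] at h5
    exact h5
  have h6 : |(LFunction χ σ).im| ≤ 0 := by
    apply ge_of_tendsto hlim
    filter_upwards [Filter.eventually_ge_atTop 1] with N hN
    exact hb N hN
  exact abs_eq_zero.mp (le_antisymm h6 (abs_nonneg _))

theorem sieA_two {q : ℕ} [NeZero q] {χ : DirichletCharacter ℂ q} (hχ2 : χ ^ 2 = 1) :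
    0 < (LFunction χ ((2 : ℝ) : ℂ)).re := by
  have h2 : 1 < (((2 : ℝ) : ℂ)).re := by
    rw [Complex.ofReal_re]; norm_num
  obtain ⟨hs, he⟩ := sieA_series χ h2
  have hpos : 0 < LSeries (fun n => χ.zetaMul n) ((2 : ℝ) : ℂ) := by
    apply LSeries.positive (fun n => zetaMul_nonneg hχ2 n)
    · rw [χ.isMultiplicative_zetaMul.map_one]
      exact zero_lt_one
    · have h3 : LSeries.abscissaOfAbsConv (fun n => χ.zetaMul n) ≤ (1 : ℝ) :=
        LSeries.abscissaOfAbsConv_le_of_forall_lt_LSeriesSummable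
          fun y hy => (sieA_series χ (s := (y : ℂ)) (by rw [Complex.ofReal_re]; exact hy)).1
      refine lt_of_le_of_lt h3 ?_
      exact_mod_cast (by norm_num : (1 : ℝ) < 2)
  rw [he] at hpos
  have hz : riemannZeta ((2 : ℝ) : ℂ) = ((Real.pi ^ 2 / 6 : ℝ) : ℂ) := by
    have := riemannZeta_two
    push_cast
    exact this
  rw [hz] at hpos
  have h4 := (Complex.lt_def.mp hpos).1
  rw [Complex.zero_re, Complex.re_ofReal_mul] at h4
  have h5 : 0 < Real.pi ^ 2 / 6 := by positivity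
  exact (mul_pos_iff_of_pos_left h5).mp h4

theorem sieA_pos {q : ℕ} [NeZero q] {χ : DirichletCharacter ℂ q} (hχ : χ ≠ 1) (hχ2 : χ ^ 2 = 1) {β : ℝ}
    (h1 : 7 / 8 ≤ β) (h2 : β < 1) (hz : ∀ σ : ℝ, β ≤ σ → σ < 1 → LFunction χ σ ≠ 0) :
    0 < (LFunction χ β).re := by
  by_contra hneg
  push Not at hneg
  have hcont : Continuous (fun σ : ℝ => (LFunction χ (σ : ℂ)).re) :=
    Complex.continuous_re.comp ((differentiable_LFunction hχ).continuous.comp Complex.continuous_ofReal)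
  have hivt := intermediate_value_Icc (by linarith : β ≤ 2) hcont.continuousOn
  have hmem : (0 : ℝ) ∈ Set.Icc ((fun σ : ℝ => (LFunction χ (σ : ℂ)).re) β) ((fun σ : ℝ => (LFunction χ (σ : ℂ)).re) 2) :=
    ⟨hneg, (sieA_two hχ2).le⟩
  obtain ⟨σ, hσ, h0⟩ := hivt hmem
  have h0' : (LFunction χ (σ : ℂ)).re = 0 := h0
  have him := sieA_im hχ hχ2 (σ := σ) (by linarith [hσ.1])
  have hzero : LFunction χ (σ : ℂ) = 0 := Complex.ext h0' him
  rcases lt_or_ge σ 1 with h | h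
  · exact hz σ hσ.1 h hzero
  · exact LFunction_ne_zero_of_one_le_re χ (.inl hχ) (by rw [Complex.ofReal_re]; exact h) hzero

theorem sieA_zeta {β : ℝ} (h1 : 7 / 8 ≤ β) (h2 : β < 1) : (riemannZeta β).re ≤ 0 := by
  have hb : 0 < ((β : ℂ)).re := by rw [Complex.ofReal_re]; linarith
  have hne : (β : ℂ) ≠ 1 := by
    intro h
    have : β = 1 := by exact_mod_cast h
    linarith
  rw [Pool.Agent.H17.ZB.zeta_eq (N := 1) le_rfl hb hne]
  have h3 := Pool.Agent.H17.ZB.RN_norm_le (N := 1) le_rfl hb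
  rw [Complex.ofReal_re, Nat.cast_one, Real.one_rpow] at h3
  have h4 : ‖(β : ℂ) * Pool.Agent.H17.ZB.RN 1 β‖ ≤ 1 := by
    rw [norm_mul, Complex.norm_real, Real.norm_eq_abs, abs_of_pos (by linarith)]
    calc β * ‖Pool.Agent.H17.ZB.RN 1 β‖ ≤ β * (1 / β) := mul_le_mul_of_nonneg_left h3 (by linarith)
      _ = 1 := by
        rw [mul_one_div_cancel (by linarith)]
  have h5 := (abs_le.mp ((Complex.abs_re_le_norm _).trans h4)).1
  have h6 : (∑ n ∈ Finset.Icc (1 : ℕ) 1, (n : ℂ) ^ (-(β : ℂ))) = 1 := by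
    simp
  have h7 : ((1 : ℕ) : ℂ) ^ (1 - (β : ℂ)) / ((β : ℂ) - 1) = ((1 / (β - 1) : ℝ) : ℂ) := by
    push_cast
    rw [Complex.one_cpow]
  rw [h6, h7, Complex.sub_re, Complex.add_re, Complex.one_re, Complex.ofReal_re]
  have h8 : 1 / (β - 1) ≤ -8 := by
    rw [div_le_iff_of_neg (by linarith)]
    linarith
  linarith

theorem sieA {β : ℝ} (h1 : 7 / 8 ≤ β) (h2 : β < 1) : ∃ c : ℝ, 0 < c ∧ ∀ (q : ℕ) [NeZero q] (χ : DirichletCharacter ℂ q),
    χ ≠ 1 → χ ^ 2 = 1 → (∀ σ : ℝ, β ≤ σ → σ < 1 → LFunction χ σ ≠ 0) →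
    c * (q : ℝ) ^ (-(4 * (1 - β))) ≤ ‖LFunction χ 1‖ := by
  obtain ⟨c, hc, hest⟩ := est
  have h1β : 0 < 1 - β := by linarith
  refine ⟨c * (1 - β) * (29 : ℝ) ^ (-(4 * (1 - β))), by positivity, ?_⟩
  intro q _ χ hχ hχ2 hz
  have hq : (1 : ℝ) ≤ q := by
    exact_mod_cast Nat.pos_of_ne_zero (NeZero.ne q)
  have hB : (1 : ℝ) ≤ 29 * q := by linarith
  have hre : (riemannZeta β * LFunction χ β).re ≤ 0 := by
    rw [Complex.mul_re, sieA_im hχ hχ2 (by linarith), mul_zero, sub_zero]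
    exact mul_nonpos_of_nonpos_of_nonneg (sieA_zeta h1 h2) (sieA_pos hχ hχ2 h1 h2 hz).le
  have h := hest (LFunction χ) (fun n => χ.zetaMul n) (29 * q) (differentiable_LFunction hχ)
    (fun n => zetaMul_nonneg hχ2 n) χ.isMultiplicative_zetaMul.map_one
    (fun s hs => sieA_series χ hs) hB (fun s hs => Lcirc hχ hs) β h1 h2 hre
  refine le_trans (le_of_eq ?_) h
  rw [Real.mul_rpow (by norm_num) (by linarith)]
  ring

end BVL
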