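import Pool.Agent.H17.CharBound
import Pool.Agent.H69.LB.Vau

/-!
# BV / T1: the type I sums of Vaughan's identity (trivial bound for character sums)

`g n = χ n` for `n > U`, `0` otherwise; `g(dk) = χ(d) χ(k) [dk > U]`, `dk > U` iff `k > U/d` (natural division). `B = q`:
`‖∑_{k ≤ K} χ(k)‖ ≤ q` and `‖∑_{k ≤ K} χ(k) log k‖ ≤ 2 q log K` (`Pool.Agent.H17.norm_sum_Icc_char_le`, `norm_sum_mul_mono_le` with weights `log n`).
For `1 ≤ d ≤ V`: the inner sum is a difference of two initial segments (`k ≤ y/d` and `k ≤ min(U/d, y/d)`), so it is at most `4 q log N`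
(`log (y/d) ≤ log N`); `|μ(d)| ≤ 1`: total `≤ 4 q V log N`.
For `1 ≤ l ≤ UV`: `|cUV U V l| ≤ log l ≤ log(UV)` (`cUV_abs_le`), inner sum `≤ 2q`: total `≤ 2 q U V log(UV)`.
-/

open Finset H69LB

namespace BVL

theorem t1_diff (a : ℕ → ℂ) (M K : ℕ) : ∑ k ∈ Icc 1 K, (if M < k then a k else 0)
    = ∑ k ∈ Icc 1 K, a k - ∑ k ∈ Icc 1 (min M K), a k := by
  have h1 := Finset.sum_filter_add_sum_filter_not (Icc 1 K) (fun k => M < k) a
  have h2 : (Icc 1 K).filter (fun k => ¬ M < k) = Icc 1 (min M K) := by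
    ext k
    simp only [mem_filter, mem_Icc, le_min_iff]
    omega
  rw [h2] at h1
  rw [← Finset.sum_filter, ← h1]
  ring

theorem t1_seg {q : ℕ} [NeZero q] {χ : DirichletCharacter ℂ q} (hχ : χ ≠ 1) {K N : ℕ} (hK : K ≤ N) :
    ‖∑ k ∈ Icc 1 K, χ (k : ZMod q) * ((Real.log k : ℝ) : ℂ)‖ ≤ 2 * q * Real.log N := by
  have hN0 : 0 ≤ Real.log N := Real.log_natCast_nonneg N
  rcases Nat.eq_zero_or_pos K with rfl | hK1
  · simp only [zero_lt_one, Finset.Icc_eq_empty_of_lt, Finset.sum_empty, norm_zero]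
    positivity
  · have h1 := Pool.Agent.H17.norm_sum_mul_mono_le (a := fun n : ℕ => χ (n : ZMod q))
      (w := fun n : ℕ => Real.log n) (B := q)
      (Pool.Agent.H17.norm_sum_Icc_char_le hχ) (fun n _ => Real.log_natCast_nonneg n)
      (fun n hn => by
        apply Real.log_le_log
        · exact_mod_cast hn
        · push_cast; linarith) K hK1
    refine h1.trans ?_
    have h2 : Real.log K ≤ Real.log N :=
      Real.log_le_log (by exact_mod_cast hK1) (by exact_mod_cast hK)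
    gcongr

theorem t1_g {q : ℕ} {χ : DirichletCharacter ℂ q} {U : ℕ} (g : ℕ → ℂ)
    (hg : ∀ n, g n = if U < n then χ (n : ZMod q) else 0) {d : ℕ} (hd : 1 ≤ d) (k : ℕ) :
    g (d * k) = χ (d : ZMod q) * (if U / d < k then χ (k : ZMod q) else 0) := by
  rw [hg]
  have h1 : (U < d * k) ↔ (U / d < k) := by
    rw [Nat.div_lt_iff_lt_mul (by omega), mul_comm]
  by_cases h : U / d < k
  · rw [if_pos (h1.mpr h), if_pos h]
    push_cast
    rw [map_mul]
  · rw [if_neg (fun h' => h (h1.mp h')), if_neg h, mul_zero]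

theorem t1_one {q : ℕ} [NeZero q] {χ : DirichletCharacter ℂ q} (hχ : χ ≠ 1) {U : ℕ} (g : ℕ → ℂ)
    (hg : ∀ n, g n = if U < n then χ (n : ZMod q) else 0) {d : ℕ} (hd : 1 ≤ d) (K : ℕ) :
    ‖∑ k ∈ Icc 1 K, g (d * k)‖ ≤ 2 * q := by
  have h1 : ∑ k ∈ Icc 1 K, g (d * k)
      = χ (d : ZMod q) * (∑ k ∈ Icc 1 K, χ (k : ZMod q) - ∑ k ∈ Icc 1 (min (U / d) K), χ (k : ZMod q)) := by
    rw [← t1_diff (fun k => χ (k : ZMod q)), Finset.mul_sum]
    exact Finset.sum_congr rfl (fun k _ => t1_g g hg hd k)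
  rw [h1, norm_mul]
  have h2 := Pool.Agent.H17.norm_sum_Icc_char_le hχ K
  have h3 := Pool.Agent.H17.norm_sum_Icc_char_le hχ (min (U / d) K)
  have h4 := χ.norm_le_one (d : ZMod q)
  have h5 : ‖∑ k ∈ Icc 1 K, χ (k : ZMod q) - ∑ k ∈ Icc 1 (min (U / d) K), χ (k : ZMod q)‖ ≤ 2 * q :=
    (norm_sub_le _ _).trans (by linarith)
  calc _ ≤ 1 * (2 * (q : ℝ)) := mul_le_mul h4 h5 (norm_nonneg _) zero_le_one
    _ = _ := one_mul _

theorem t1_log {q : ℕ} [NeZero q] {χ : DirichletCharacter ℂ q} (hχ : χ ≠ 1) {U N : ℕ} (g : ℕ → ℂ)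
    (hg : ∀ n, g n = if U < n then χ (n : ZMod q) else 0) {d : ℕ} (hd : 1 ≤ d) {K : ℕ} (hK : K ≤ N) :
    ‖∑ k ∈ Icc 1 K, (Real.log k : ℂ) * g (d * k)‖ ≤ 4 * q * Real.log N := by
  have h1 : ∑ k ∈ Icc 1 K, (Real.log k : ℂ) * g (d * k)
      = χ (d : ZMod q) * (∑ k ∈ Icc 1 K, χ (k : ZMod q) * ((Real.log k : ℝ) : ℂ)
        - ∑ k ∈ Icc 1 (min (U / d) K), χ (k : ZMod q) * ((Real.log k : ℝ) : ℂ)) := by
    rw [← t1_diff (fun k : ℕ => χ (k : ZMod q) * ((Real.log k : ℝ) : ℂ)), Finset.mul_sum]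
    refine Finset.sum_congr rfl (fun k _ => ?_)
    rw [t1_g g hg hd k]
    split_ifs
    · ring
    · ring
  rw [h1, norm_mul]
  have h2 := t1_seg hχ hK
  have h3 := t1_seg (K := min (U / d) K) hχ ((min_le_right _ _).trans hK)
  have h4 := χ.norm_le_one (d : ZMod q)
  have h5 : ‖∑ k ∈ Icc 1 K, χ (k : ZMod q) * ((Real.log k : ℝ) : ℂ)
        - ∑ k ∈ Icc 1 (min (U / d) K), χ (k : ZMod q) * ((Real.log k : ℝ) : ℂ)‖ ≤ 4 * q * Real.log N :=
    (norm_sub_le _ _).trans (by linarith)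
  calc _ ≤ 1 * (4 * q * Real.log N) := mul_le_mul h4 h5 (norm_nonneg _) zero_le_one
    _ = _ := one_mul _

theorem t1 {q : ℕ} [NeZero q] {χ : DirichletCharacter ℂ q} (hχ : χ ≠ 1) {N U V y : ℕ} (hN : 2 ≤ N) (hU : 1 ≤ U)
    (hV : 1 ≤ V) (hy : y ≤ N) (g : ℕ → ℂ) (hg : ∀ n, g n = if U < n then χ (n : ZMod q) else 0) :
    ‖∑ d ∈ Icc 1 V, (ArithmeticFunction.moebius d : ℂ) * ∑ k ∈ Icc 1 (y / d), (Real.log k : ℂ) * g (d * k)
        - ∑ l ∈ Icc 1 (U * V), (cUV U V l : ℂ) * ∑ k ∈ Icc 1 (y / l), g (l * k)‖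
      ≤ 4 * q * V * Real.log N + 2 * q * (U * V) * Real.log (U * V) := by
  have hN0 : 0 ≤ Real.log N := Real.log_natCast_nonneg N
  have hA : ‖∑ d ∈ Icc 1 V, (ArithmeticFunction.moebius d : ℂ) * ∑ k ∈ Icc 1 (y / d), (Real.log k : ℂ) * g (d * k)‖
      ≤ 4 * q * V * Real.log N := by
    refine (norm_sum_le _ _).trans ?_
    have h1 : ∀ d ∈ Icc 1 V, ‖(ArithmeticFunction.moebius d : ℂ) * ∑ k ∈ Icc 1 (y / d), (Real.log k : ℂ) * g (d * k)‖
        ≤ 4 * q * Real.log N := by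
      intro d hd
      rw [mem_Icc] at hd
      rw [norm_mul]
      have h2 := t1_log hχ g hg hd.1 (K := y / d) (N := N) ((Nat.div_le_self _ _).trans hy)
      have h3 : ‖(ArithmeticFunction.moebius d : ℂ)‖ ≤ 1 := by
        rw [Complex.norm_intCast]
        exact_mod_cast ArithmeticFunction.abs_moebius_le_one (n := d)
      calc _ ≤ 1 * (4 * q * Real.log N) := mul_le_mul h3 h2 (norm_nonneg _) zero_le_one
        _ = _ := one_mul _
    refine (Finset.sum_le_sum h1).trans ?_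
    rw [Finset.sum_const, Nat.card_Icc, nsmul_eq_mul, Nat.add_sub_cancel]
    exact le_of_eq (by ring)
  have hB : ‖∑ l ∈ Icc 1 (U * V), (cUV U V l : ℂ) * ∑ k ∈ Icc 1 (y / l), g (l * k)‖
      ≤ 2 * q * (U * V) * Real.log (U * V) := by
    refine (norm_sum_le _ _).trans ?_
    have h1 : ∀ l ∈ Icc 1 (U * V), ‖(cUV U V l : ℂ) * ∑ k ∈ Icc 1 (y / l), g (l * k)‖
        ≤ Real.log (U * V) * (2 * q) := by
      intro l hl
      rw [mem_Icc] at hl
      rw [norm_mul]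
      have h2 := t1_one hχ g hg hl.1 (y / l)
      have h3 : ‖(cUV U V l : ℂ)‖ ≤ Real.log (U * V) := by
        rw [Complex.norm_real, Real.norm_eq_abs]
        have hl0 : (0 : ℝ) < l := by exact_mod_cast hl.1
        have hl1 : (l : ℝ) ≤ (U : ℝ) * V := by exact_mod_cast hl.2
        exact (cUV_abs_le U V hl.1).trans (Real.log_le_log hl0 hl1)
      exact mul_le_mul h3 h2 (norm_nonneg _) ((norm_nonneg _).trans h3)
    refine (Finset.sum_le_sum h1).trans ?_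
    rw [Finset.sum_const, Nat.card_Icc, nsmul_eq_mul, Nat.add_sub_cancel]
    push_cast
    exact le_of_eq (by ring)
  exact (norm_sub_le _ _).trans (add_le_add hA hB)

end BVL
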