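import Pool.Agent.H17.BV.Defs
import Pool.Agent.H17.BV.Sepy
import Pool.Agent.H69.LB.Lsm
import Pool.Agent.H69.LB.Div

/-!
# BV / T2B: one dyadic block of the bilinear sum, with the maximum over `y` inside (from SEPY and LSM)

Fix `N ≥ 2`, `1 ≤ M1 ≤ N`, `K = N / M1` (natural division). For `y ≤ N` the pairs `(m,k)`, `M1 < m ≤ 2 M1`, `1 ≤ k ≤ y/m` are the pairs in
`I = Ioc M1 (2M1) ×ˢ Icc 1 K` with `m k ≤ y` (`k ≤ y/m ≤ N/M1`), and `m k ≤ 2 M1 K ≤ 2N`. SEPY for `2N` (`y ≤ N ≤ 2N`), index set `I`,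
`ν (m,k) = m k`, `z = a m b k χ(mk)`: with `κ ≥ 0`, `∫ κ ≤ C0 log(2N) ≤ 2 C0 log N`,
`‖∑_m ∑_{k ≤ y/m} a_m b_k χ(mk)‖ ≤ ∫ κ(ξ) ‖A_ξ(χ)‖ ‖B_ξ(χ)‖ dξ`, `A_ξ(χ) = ∑_{m ≤ 2M1} [m > M1] a_m e(ξ log m) χ(m)`, `B_ξ(χ) = ∑_{k ≤ K} b_k e(ξ log k) χ(k)`
(`log(mk) = log m + log k`, `e` multiplicative, `χ` multiplicative). The right side does not depend on `y`, so it bounds `mx N`.
Sum over `q ≤ Q`, `χ ∈ pc q` (finite sums under the integral; integrable: `κ` integrable times a bounded continuous function), Cauchy-Schwarz and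
LSM (`|e| = 1`) for each `ξ`:
`∑∑ ‖A_ξ‖ ‖B_ξ‖ ≤ ((Q^2 + 26 M1) ∑ ‖a_m‖^2)^{1/2} ((Q^2 + 13 K) ∑_{k ≤ K} ‖b_k‖^2)^{1/2}`.
`∑_{M1 < m ≤ 2M1} ‖a_m‖^2 ≤ M1 (2 log N)^2` (for `m ≤ 2N`: hypothesis `‖a_m‖ ≤ log(2N) ≤ 2 log N`), `∑_{k ≤ K} τ(k)^2 ≤ C1 K (1+log K)^3 ≤ C K (log N)^3` (a bound with any power of
the logarithm will do: see H69/LB/Div.lean and H69/LB/Ty2.lean, where `∑ τ^2` is bounded; here `(log N)^3` or `(log N)^4` is available, as the final exponent is 6).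
`M1 K ≤ N`, `K ≤ N/M1`: product of the two roots `≤ C (log N)^{5/2..3} (N (Q^2 + 26 M1)(Q^2 + 13 N/M1))^{1/2}`, and
`(N (Q^4 + Q^2(26 M1 + 13 N/M1) + 338 N))^{1/2} ≤ √N Q^2 + 6 Q √N (√M1 + √(N/M1)) + 19 N`. In all `(log N)^{1+1+2}·...`: the total power of `log N` is at most 6
(`log N ≥ log 2`, so lower powers are fine with another constant).
-/

open Finset H69LB MeasureTheory

namespace BVL

theorem t2b_norm_ee (t : ℝ) : ‖ee t‖ = 1 := by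
  unfold ee
  have h : (2 * Real.pi * t * Complex.I : ℂ) = ((2 * Real.pi * t : ℝ) : ℂ) * Complex.I := by
    push_cast; ring
  rw [h, Complex.norm_exp_ofReal_mul_I]

theorem t2b_ee_add (s t : ℝ) : ee (s + t) = ee s * ee t := by
  unfold ee
  rw [← Complex.exp_add]
  congr 1
  push_cast; ring

theorem t2b_ee_cont : Continuous ee := by
  unfold ee; fun_prop

/-- integration of a uniform bound -/
theorem t2b_unif {κ : ℝ → ℝ} (hκ : ∀ ξ, 0 ≤ κ ξ) (hκi : Integrable κ) {ι : Type} (P : Finset ι)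
    (G H : ι → ℝ → ℂ) (hG : ∀ p, Continuous (G p)) (hH : ∀ p, Continuous (H p)) (CG CH : ι → ℝ)
    (hGb : ∀ p ξ, ‖G p ξ‖ ≤ CG p) (hHb : ∀ p ξ, ‖H p ξ‖ ≤ CH p) (lhs : ι → ℝ)
    (hl : ∀ p ∈ P, lhs p ≤ ∫ ξ, κ ξ * (‖G p ξ‖ * ‖H p ξ‖))
    {B : ℝ} (hB : ∀ ξ, ∑ p ∈ P, ‖G p ξ‖ * ‖H p ξ‖ ≤ B) :
    ∑ p ∈ P, lhs p ≤ (∫ ξ, κ ξ) * B := by
  have hint : ∀ p, Integrable (fun ξ => κ ξ * (‖G p ξ‖ * ‖H p ξ‖)) := by
    intro p
    refine hκi.mul_bdd (c := CG p * CH p) ?_ ?_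
    · exact ((hG p).norm.mul (hH p).norm).aestronglyMeasurable
    · refine Filter.Eventually.of_forall fun ξ => ?_
      rw [Real.norm_of_nonneg (by positivity)]
      exact mul_le_mul (hGb p ξ) (hHb p ξ) (norm_nonneg _) ((norm_nonneg _).trans (hGb p ξ))
  calc ∑ p ∈ P, lhs p ≤ ∑ p ∈ P, ∫ ξ, κ ξ * (‖G p ξ‖ * ‖H p ξ‖) := sum_le_sum hl
    _ = ∫ ξ, ∑ p ∈ P, κ ξ * (‖G p ξ‖ * ‖H p ξ‖) := by
        rw [integral_finsetSum]
        exact fun p hp => hint p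
    _ ≤ ∫ ξ, κ ξ * B := by
        refine integral_mono (integrable_finsetSum _ fun p hp => hint p)
          (hκi.mul_const _) fun ξ => ?_
        have h2 := mul_le_mul_of_nonneg_left (hB ξ) (hκ ξ)
        refine le_trans (le_of_eq ?_) h2
        rw [mul_sum]
    _ = (∫ ξ, κ ξ) * B := by rw [integral_mul_const]

/-- rearrangement of the pairs -/
theorem t2b_cut {N M1 y : ℕ} (hM1 : 1 ≤ M1) (hy : y ≤ N) (f : ℕ → ℕ → ℂ) :
    ∑ m ∈ Ioc M1 (2 * M1), ∑ k ∈ Icc 1 (y / m), f m k =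
      ∑ p ∈ (Ioc M1 (2 * M1) ×ˢ Icc 1 (N / M1)).filter (fun p => p.1 * p.2 ≤ y), f p.1 p.2 := by
  rw [sum_filter, sum_product]
  refine sum_congr rfl fun m hm => ?_
  rw [← sum_filter]
  refine sum_congr ?_ fun _ _ => rfl
  rw [mem_Ioc] at hm
  have hm0 : 0 < m := by omega
  ext k
  rw [mem_filter, mem_Icc, mem_Icc, Nat.le_div_iff_mul_le hm0]
  constructor
  · rintro ⟨h1, h2⟩
    refine ⟨⟨h1, ?_⟩, by rw [mul_comm]; exact h2⟩
    have h3 : k ≤ y / m := (Nat.le_div_iff_mul_le hm0).2 h2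
    exact h3.trans ((Nat.div_le_div_right hy).trans (Nat.div_le_div_left hm.1.le hM1))
  · rintro ⟨⟨h1, -⟩, h2⟩
    exact ⟨h1, by rw [mul_comm]; exact h2⟩

/-- separation of the two variables -/
theorem t2b_sep (S T : Finset ℕ) (hS : ∀ m ∈ S, 1 ≤ m) (hT : ∀ k ∈ T, 1 ≤ k) (a b : ℕ → ℂ) {q : ℕ}
    (χ : DirichletCharacter ℂ q) (ξ : ℝ) :
    ∑ p ∈ S ×ˢ T, a p.1 * b p.2 * χ ((p.1 * p.2 : ℕ) : ZMod q) *
        ee (ξ * Real.log ((p.1 * p.2 : ℕ) : ℝ)) =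
      (∑ m ∈ S, a m * ee (ξ * Real.log m) * χ m) * (∑ k ∈ T, b k * ee (ξ * Real.log k) * χ k) := by
  rw [sum_product, sum_mul_sum]
  refine sum_congr rfl fun m hm => sum_congr rfl fun k hk => ?_
  have hm0 : (m : ℝ) ≠ 0 := by have := hS m hm; positivity
  have hk0 : (k : ℝ) ≠ 0 := by have := hT k hk; positivity
  have e1 : ξ * Real.log ((m * k : ℕ) : ℝ) = ξ * Real.log m + ξ * Real.log k := by
    push_cast
    rw [Real.log_mul hm0 hk0]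
    ring
  show a m * b k * χ ((m * k : ℕ) : ZMod q) * ee (ξ * Real.log ((m * k : ℕ) : ℝ)) = _
  rw [e1, t2b_ee_add]
  push_cast
  rw [map_mul]
  ring

/-- the large sieve for a sum over `(M1, 2 M1]` -/
theorem t2b_lsA (Q M1 : ℕ) (c : ℕ → ℂ) {L : ℝ} (hc : ∀ m ∈ Ioc M1 (2 * M1), ‖c m‖ ≤ L) :
    ∑ p ∈ (Icc 1 Q).sigma (fun q => pc q), ‖∑ m ∈ Ioc M1 (2 * M1), c m * p.2 m‖ ^ 2 ≤
      ((Q : ℝ) ^ 2 + 13 * (2 * M1 : ℕ)) * (M1 * L ^ 2) := by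
  have hsub : Ioc M1 (2 * M1) ⊆ Icc 1 (2 * M1) := by
    intro m hm
    rw [mem_Ioc] at hm
    rw [mem_Icc]
    omega
  have h1 : ∀ (q : ℕ) (χ : DirichletCharacter ℂ q), ∑ m ∈ Ioc M1 (2 * M1), c m * χ m =
      ∑ m ∈ Icc 1 (2 * M1), (if m ∈ Ioc M1 (2 * M1) then c m else 0) * χ m := by
    intro q χ
    rw [← sum_subset hsub (f := fun m => (if m ∈ Ioc M1 (2 * M1) then c m else 0) * χ m)]
    · refine sum_congr rfl fun m hm => ?_
      rw [if_pos hm]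
    · intro m _ hm
      rw [if_neg hm, zero_mul]
  rw [sum_sigma]
  have h2 : ∑ q ∈ Icc 1 Q, ∑ χ ∈ pc q, ‖∑ m ∈ Ioc M1 (2 * M1), c m * χ m‖ ^ 2 =
      ∑ q ∈ Icc 1 Q, ∑ χ ∈ pc q, ‖∑ m ∈ Icc 1 (2 * M1),
        (if m ∈ Ioc M1 (2 * M1) then c m else 0) * χ m‖ ^ 2 :=
    sum_congr rfl fun q _ => sum_congr rfl fun χ _ => by rw [h1]
  refine (le_of_eq h2).trans ((LSM Q (2 * M1) _).trans ?_)
  refine mul_le_mul_of_nonneg_left ?_ (by positivity)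
  rw [← sum_subset hsub (f := fun m => ‖(if m ∈ Ioc M1 (2 * M1) then c m else 0)‖ ^ 2)]
  · calc ∑ m ∈ Ioc M1 (2 * M1), ‖(if m ∈ Ioc M1 (2 * M1) then c m else 0)‖ ^ 2
        ≤ ∑ m ∈ Ioc M1 (2 * M1), L ^ 2 := by
          refine sum_le_sum fun m hm => ?_
          rw [if_pos hm]
          exact pow_le_pow_left₀ (norm_nonneg _) (hc m hm) 2
      _ = M1 * L ^ 2 := by
          rw [sum_const, Nat.card_Ioc, nsmul_eq_mul]
          congr 2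
          omega
  · intro m _ hm
    rw [if_neg hm, norm_zero]
    norm_num

/-- the elementary inequality -/
theorem t2b_num {N M1 K q lam L l : ℝ} (hN : 2 ≤ N) (hM1 : 1 ≤ M1) (hK : 1 ≤ K)
    (hMK : M1 * K ≤ N) (hq : 0 ≤ q) (hlam : 1 / 2 ≤ lam) (hL0 : 0 ≤ L) (hL : L ≤ 2 * lam) (hl0 : 0 ≤ l)
    (hl : l ≤ 3 * lam) :
    √((q ^ 2 + 26 * M1) * (M1 * L ^ 2)) * √((q ^ 2 + 13 * K) * (K * l ^ 3)) ≤
      285 * lam ^ 3 * (N + q * √N * (√M1 + √(N / M1)) + q ^ 2 * √N) := by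
  have hN0 : 0 < N := by linarith
  have hM0 : 0 < M1 := by linarith
  have hK0 : 0 < K := by linarith
  have hlam0 : 0 ≤ lam := by linarith
  have hKN : K ≤ N / M1 := by
    rw [le_div_iff₀ hM0]
    linarith
  rw [← Real.sqrt_mul (by positivity)]
  refine Real.sqrt_le_iff.mpr ⟨by positivity, ?_⟩
  have hL2 : L ^ 2 ≤ 4 * lam ^ 2 := by
    have := pow_le_pow_left₀ hL0 hL 2
    nlinarith
  have hl3 : l ^ 3 ≤ 54 * lam ^ 4 := by
    have h1 := pow_le_pow_left₀ hl0 hl 3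
    have h2 : lam ^ 3 ≤ 2 * lam ^ 4 := by
      have h3 : 0 ≤ lam ^ 3 * (2 * lam - 1) := mul_nonneg (by positivity) (by linarith)
      nlinarith
    have h4 : (3 * lam) ^ 3 = 27 * lam ^ 3 := by ring
    rw [h4] at h1
    linarith
  have hA : (q ^ 2 + 26 * M1) * (M1 * L ^ 2) * ((q ^ 2 + 13 * K) * (K * l ^ 3)) ≤
      (q ^ 2 + 26 * M1) * (M1 * (4 * lam ^ 2)) * ((q ^ 2 + 13 * (N / M1)) * (K * (54 * lam ^ 4))) := by
    gcongr
  refine hA.trans ?_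
  have hB : (q ^ 2 + 26 * M1) * (M1 * (4 * lam ^ 2)) * ((q ^ 2 + 13 * (N / M1)) * (K * (54 * lam ^ 4)))
      = 216 * lam ^ 6 * ((q ^ 2 + 26 * M1) * (q ^ 2 + 13 * (N / M1))) * (M1 * K) := by ring
  have hC : 216 * lam ^ 6 * ((q ^ 2 + 26 * M1) * (q ^ 2 + 13 * (N / M1))) * (M1 * K) ≤
      216 * lam ^ 6 * ((q ^ 2 + 26 * M1) * (q ^ 2 + 13 * (N / M1))) * N :=
    mul_le_mul_of_nonneg_left hMK (by positivity)
  rw [hB]
  refine hC.trans ?_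
  have hNM : (q ^ 2 + 26 * M1) * (q ^ 2 + 13 * (N / M1)) =
      q ^ 4 + 26 * q ^ 2 * M1 + 13 * q ^ 2 * (N / M1) + 338 * N := by
    field_simp
    ring
  rw [hNM]
  obtain ⟨s, hs⟩ : ∃ s, s = √N := ⟨_, rfl⟩
  obtain ⟨u, hu⟩ : ∃ u, u = √M1 := ⟨_, rfl⟩
  obtain ⟨v, hv⟩ : ∃ v, v = √(N / M1) := ⟨_, rfl⟩
  have hs2 : s ^ 2 = N := by rw [hs]; exact Real.sq_sqrt hN0.le
  have hu2 : u ^ 2 = M1 := by rw [hu]; exact Real.sq_sqrt hM0.le
  have hv2 : v ^ 2 = N / M1 := by rw [hv]; exact Real.sq_sqrt (by positivity)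
  have hs0 : 0 ≤ s := by rw [hs]; positivity
  have hu0 : 0 ≤ u := by rw [hu]; positivity
  have hv0 : 0 ≤ v := by rw [hv]; positivity
  rw [← hs, ← hu, ← hv, ← hv2, ← hu2]
  have hE : (s ^ 2 + q * s * (u + v) + q ^ 2 * s) ^ 2 ≥
      s ^ 4 + q ^ 2 * s ^ 2 * u ^ 2 + q ^ 2 * s ^ 2 * v ^ 2 + q ^ 4 * s ^ 2 := by
    have e : (s ^ 2 + q * s * (u + v) + q ^ 2 * s) ^ 2 =
      s ^ 4 + q ^ 2 * s ^ 2 * u ^ 2 + q ^ 2 * s ^ 2 * v ^ 2 + q ^ 4 * s ^ 2 +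
        (2 * q ^ 2 * s ^ 2 * (u * v) + 2 * s ^ 3 * q * (u + v) + 2 * s ^ 3 * q ^ 2 +
          2 * q ^ 3 * s ^ 2 * (u + v)) := by ring
    have e2 : 0 ≤ 2 * q ^ 2 * s ^ 2 * (u * v) + 2 * s ^ 3 * q * (u + v) + 2 * s ^ 3 * q ^ 2 +
          2 * q ^ 3 * s ^ 2 * (u + v) := by positivity
    linarith
  have hF : 216 * (q ^ 4 + 26 * q ^ 2 * u ^ 2 + 13 * q ^ 2 * v ^ 2 + 338 * N) * N ≤
      285 ^ 2 * (s ^ 2 + q * s * (u + v) + q ^ 2 * s) ^ 2 := by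
    have e1 : 0 ≤ s ^ 4 := by positivity
    have e2 : 0 ≤ q ^ 2 * s ^ 2 * u ^ 2 := by positivity
    have e3 : 0 ≤ q ^ 2 * s ^ 2 * v ^ 2 := by positivity
    have e4 : 0 ≤ q ^ 4 * s ^ 2 := by positivity
    rw [← hs2]
    nlinarith
  have hG := mul_le_mul_of_nonneg_left hF (by positivity : 0 ≤ lam ^ 6)
  rw [hs2] at hG
  calc 216 * lam ^ 6 * (q ^ 4 + 26 * q ^ 2 * u ^ 2 + 13 * q ^ 2 * v ^ 2 + 338 * N) * N
      = lam ^ 6 * (216 * (q ^ 4 + 26 * q ^ 2 * u ^ 2 + 13 * q ^ 2 * v ^ 2 + 338 * N) * N) := by ring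
    _ ≤ _ := hG
    _ = _ := by ring

theorem t2b : ∃ C : ℝ, 0 ≤ C ∧ ∀ N Q M1 : ℕ, 2 ≤ N → 1 ≤ M1 → M1 ≤ N → ∀ a b : ℕ → ℂ,
    (∀ m, m ≤ 2 * N → ‖a m‖ ≤ Real.log (2 * N)) → (∀ k, ‖b k‖ ≤ (k.divisors.card : ℝ)) →
    ∑ q ∈ Icc 1 Q, ∑ χ ∈ pc q, mx N (fun y => ‖∑ m ∈ Ioc M1 (2 * M1), ∑ k ∈ Icc 1 (y / m), a m * b k * χ ((m * k : ℕ) : ZMod q)‖)
      ≤ C * Real.log N ^ 6 * (N + Q * √N * (√M1 + √((N : ℝ) / M1)) + Q ^ 2 * √N) := by
  obtain ⟨C0, hC0, hsepy⟩ := sepy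
  refine ⟨2280 * C0, by positivity, ?_⟩
  intro N Q M1 hN hM1 hM1N a b ha hb
  obtain ⟨κ, hκ, hκi, hκC, hy⟩ := hsepy (2 * N) (by omega)
  have hK1 : 1 ≤ N / M1 := (Nat.one_le_div_iff hM1).2 hM1N
  have hMK : M1 * (N / M1) ≤ N := Nat.mul_div_le _ _
  have hNr : (2 : ℝ) ≤ N := by exact_mod_cast hN
  -- logarithms
  have hlog2a : (0.69 : ℝ) ≤ Real.log 2 := by
    have := Real.log_two_gt_d9; linarith
  have hlam : Real.log 2 ≤ Real.log N := Real.log_le_log (by norm_num) hNr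
  have hL : Real.log (2 * N) = Real.log 2 + Real.log N :=
    Real.log_mul (by norm_num) (by positivity)
  have hL2 : Real.log (2 * N) ≤ 2 * Real.log N := by rw [hL]; linarith
  have hlK : 1 + Real.log ((N / M1 : ℕ) : ℝ) ≤ 3 * Real.log N := by
    have h1 : ((N / M1 : ℕ) : ℝ) ≤ N := by exact_mod_cast Nat.div_le_self N M1
    have h2 : (0 : ℝ) < ((N / M1 : ℕ) : ℝ) := by exact_mod_cast hK1
    have h3 := Real.log_le_log h2 h1
    linarith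
  set G : (Σ q : ℕ, DirichletCharacter ℂ q) → ℝ → ℂ := fun p ξ =>
    ∑ m ∈ Ioc M1 (2 * M1), a m * ee (ξ * Real.log m) * p.2 m with hG
  set H : (Σ q : ℕ, DirichletCharacter ℂ q) → ℝ → ℂ := fun p ξ =>
    ∑ k ∈ Icc 1 (N / M1), b k * ee (ξ * Real.log k) * p.2 k with hH
  have hcont : ∀ t : ℝ, Continuous fun ξ : ℝ => ee (ξ * t) := fun t =>
    t2b_ee_cont.comp (continuous_id.mul continuous_const)
  have hSI : ∀ m ∈ Ioc M1 (2 * M1), 1 ≤ m := fun m hm => by rw [mem_Ioc] at hm; omega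
  have hTI : ∀ k ∈ Icc 1 (N / M1), 1 ≤ k := fun k hk => (mem_Icc.mp hk).1
  have hsig : ∑ q ∈ Icc 1 Q, ∑ χ ∈ pc q, mx N (fun y => ‖∑ m ∈ Ioc M1 (2 * M1),
        ∑ k ∈ Icc 1 (y / m), a m * b k * χ ((m * k : ℕ) : ZMod q)‖) =
      ∑ p ∈ (Icc 1 Q).sigma (fun q => pc q), mx N (fun y => ‖∑ m ∈ Ioc M1 (2 * M1),
        ∑ k ∈ Icc 1 (y / m), a m * b k * p.2 ((m * k : ℕ) : ZMod p.1)‖) := by
    rw [sum_sigma]
  rw [hsig]
  have key := t2b_unif hκ hκi ((Icc 1 Q).sigma (fun q => pc q)) G H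
    (fun p => by
      rw [hG]
      exact continuous_finsetSum _ fun m _ => (continuous_const.mul (hcont _)).mul continuous_const)
    (fun p => by
      rw [hH]
      exact continuous_finsetSum _ fun m _ => (continuous_const.mul (hcont _)).mul continuous_const)
    (fun p => ∑ m ∈ Ioc M1 (2 * M1), ‖a m‖ * ‖p.2 m‖)
    (fun p => ∑ k ∈ Icc 1 (N / M1), ‖b k‖ * ‖p.2 k‖)
    (fun p ξ => by
      refine (norm_sum_le _ _).trans (le_of_eq (sum_congr rfl fun m _ => ?_))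
      rw [norm_mul, norm_mul, t2b_norm_ee, mul_one])
    (fun p ξ => by
      refine (norm_sum_le _ _).trans (le_of_eq (sum_congr rfl fun m _ => ?_))
      rw [norm_mul, norm_mul, t2b_norm_ee, mul_one])
    (fun p => mx N (fun y => ‖∑ m ∈ Ioc M1 (2 * M1),
        ∑ k ∈ Icc 1 (y / m), a m * b k * p.2 ((m * k : ℕ) : ZMod p.1)‖))
    (fun p _ => by
      refine mx_le fun y hyN => ?_
      rw [t2b_cut hM1 hyN (fun m k => a m * b k * p.2 ((m * k : ℕ) : ZMod p.1))]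
      refine (hy (Ioc M1 (2 * M1) ×ˢ Icc 1 (N / M1)) (fun p => p.1 * p.2)
        (fun r => a r.1 * b r.2 * p.2 ((r.1 * r.2 : ℕ) : ZMod p.1)) ?_ y (by omega)).trans ?_
      · intro i hi
        rw [mem_product, mem_Ioc, mem_Icc] at hi
        refine ⟨Nat.mul_pos (by omega) hi.2.1, ?_⟩
        calc i.1 * i.2 ≤ (2 * M1) * (N / M1) := Nat.mul_le_mul hi.1.2 hi.2.2
          _ = 2 * (M1 * (N / M1)) := by ring
          _ ≤ 2 * N := Nat.mul_le_mul_left _ hMK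
      · refine le_of_eq ?_
        congr 1
        funext ξ
        rw [t2b_sep (Ioc M1 (2 * M1)) (Icc 1 (N / M1)) hSI hTI a b p.2 ξ, norm_mul])
    (B := 285 * Real.log N ^ 3 * (N + Q * √N * (√M1 + √((N : ℝ) / M1)) + Q ^ 2 * √N)) ?_
  · refine key.trans ?_
    have hE : 0 ≤ (N : ℝ) + Q * √N * (√M1 + √((N : ℝ) / M1)) + Q ^ 2 * √N := by positivity
    have hlN : 0 ≤ Real.log N := by linarith
    have h1 : (∫ ξ, κ ξ) ≤ C0 * (2 * Real.log N) := by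
      refine hκC.trans ?_
      push_cast
      exact mul_le_mul_of_nonneg_left hL2 hC0
    have h2 : (∫ ξ, κ ξ) * (285 * Real.log N ^ 3 *
        (N + Q * √N * (√M1 + √((N : ℝ) / M1)) + Q ^ 2 * √N)) ≤ C0 * (2 * Real.log N) *
        (285 * Real.log N ^ 3 * (N + Q * √N * (√M1 + √((N : ℝ) / M1)) + Q ^ 2 * √N)) :=
      mul_le_mul_of_nonneg_right h1 (by positivity)
    refine h2.trans ?_
    have h3 : Real.log N ^ 4 ≤ 4 * Real.log N ^ 6 := by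
      have h4 : 1 ≤ 4 * Real.log N ^ 2 := by nlinarith
      have h5 := mul_le_mul_of_nonneg_left h4 (by positivity : 0 ≤ Real.log N ^ 4)
      nlinarith
    have h6 : C0 * (2 * Real.log N) *
        (285 * Real.log N ^ 3 * (N + Q * √N * (√M1 + √((N : ℝ) / M1)) + Q ^ 2 * √N)) =
        570 * C0 * (N + Q * √N * (√M1 + √((N : ℝ) / M1)) + Q ^ 2 * √N) * Real.log N ^ 4 := by ring
    have h7 : 2280 * C0 * Real.log N ^ 6 * (N + Q * √N * (√M1 + √((N : ℝ) / M1)) + Q ^ 2 * √N) =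
        570 * C0 * (N + Q * √N * (√M1 + √((N : ℝ) / M1)) + Q ^ 2 * √N) *
          (4 * Real.log N ^ 6) := by ring
    rw [h6, h7]
    exact mul_le_mul_of_nonneg_left h3 (by positivity)
  · intro ξ
    refine (Real.sum_mul_le_sqrt_mul_sqrt _ _ _).trans ?_
    have hlN : 0 ≤ Real.log N := by linarith
    have hlKn : 0 ≤ 1 + Real.log ((N / M1 : ℕ) : ℝ) := by
      have := Real.log_natCast_nonneg (N / M1)
      linarith
    refine le_trans (mul_le_mul (Real.sqrt_le_sqrt ?_) (Real.sqrt_le_sqrt ?_) (Real.sqrt_nonneg _)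
      (Real.sqrt_nonneg _)) (t2b_num (N := (N : ℝ)) (M1 := (M1 : ℝ)) (K := ((N / M1 : ℕ) : ℝ))
        (q := (Q : ℝ)) (lam := Real.log N) (L := Real.log (2 * N))
        (l := 1 + Real.log ((N / M1 : ℕ) : ℝ)) hNr (by exact_mod_cast hM1) (by exact_mod_cast hK1)
        (by exact_mod_cast hMK) (Nat.cast_nonneg _) (by linarith) (by rw [hL]; linarith) hL2
        hlKn hlK)
    · have h1 := t2b_lsA Q M1 (fun m => a m * ee (ξ * Real.log m)) (L := Real.log (2 * N))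
        (fun m hm => by
          rw [norm_mul, t2b_norm_ee, mul_one]
          rw [mem_Ioc] at hm
          exact ha m (by omega))
      refine h1.trans (le_of_eq ?_)
      push_cast
      ring
    · rw [sum_sigma]
      refine (LSM Q (N / M1) (fun k => b k * ee (ξ * Real.log k))).trans ?_
      refine mul_le_mul_of_nonneg_left ?_ (by positivity)
      refine le_trans (sum_le_sum fun k hk => ?_) (sum_card_sq_le (N / M1) hK1)
      rw [norm_mul, t2b_norm_ee, mul_one]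
      exact pow_le_pow_left₀ (norm_nonneg _) (hb k) 2

end BVL
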