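import Pool.Agent.H17.BV.Main

/-!
# BV / THT: Bombieri-Vinogradov for `θ(y; q, a)` (from MAIN)

`∑_{n ≤ y, n = a (q)} Λ(n) - ∑_{p ≤ y, p = a (q)} log p` is between `0` and `ψ(y) - θ(y) ≤ 2 √y log y ≤ 2 √N log N`
(`Chebyshev.abs_psi_sub_theta_le_sqrt_mul_log` or the like; see `psiAP_sub_thetaAP_le` and its uses in Pool/Agent/H17/PNT.lean). So `E'(q) = E q + 2 √N log N`, with `E` from MAIN for `A + 1`, and
`∑_{q ≤ N^{1/2-ε}} |C|^{ω(q)} 2 √N log N ≤ C1 N^{1/2-ε} N^{ε/2}... √N log N` is small (OMG: `|C|^{ω(q)} ≤ C1 q^η φ(q)/q ≤ C1 q^η`).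
-/

open Finset

namespace BVL

theorem bv_theta_grow (K : ℝ) (a : ℕ) {s : ℝ} (hs : 0 < s) : ∃ N0 : ℕ, ∀ N : ℕ, N0 ≤ N →
    K * Real.log N ^ a ≤ (N : ℝ) ^ s := by
  have hK : 0 < 1 / (|K| + 1) := by positivity
  have h := (isLittleO_log_rpow_rpow_atTop (a : ℝ) hs).def hK
  have h2 := (tendsto_natCast_atTop_atTop (R := ℝ)).eventually h
  obtain ⟨N0, hN0⟩ := Filter.eventually_atTop.mp h2
  refine ⟨max N0 1, fun N hN => ?_⟩
  have h3 := hN0 N (by omega)
  have hN1 : (1 : ℝ) ≤ N := by exact_mod_cast (le_max_right N0 1).trans hN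
  have hl : 0 ≤ Real.log N := Real.log_nonneg hN1
  rw [Real.rpow_natCast, Real.norm_of_nonneg (by positivity), Real.norm_of_nonneg (by positivity)] at h3
  have hs : 0 ≤ (N : ℝ) ^ s := by positivity
  have h4 : K * Real.log N ^ a ≤ |K| * (1 / (|K| + 1) * (N : ℝ) ^ s) :=
    mul_le_mul (le_abs_self K) h3 (by positivity) (abs_nonneg K)
  refine h4.trans ?_
  have h5 : |K| * (1 / (|K| + 1)) ≤ 1 := by
    rw [mul_one_div, div_le_one (by positivity)]
    linarith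
  calc |K| * (1 / (|K| + 1) * (N : ℝ) ^ s) = (|K| * (1 / (|K| + 1))) * (N : ℝ) ^ s := by ring
    _ ≤ 1 * (N : ℝ) ^ s := mul_le_mul_of_nonneg_right h5 hs
    _ = _ := one_mul _

theorem bv_theta_term (n : ℕ) : 0 ≤ ArithmeticFunction.vonMangoldt n - (if n.Prime then Real.log n else 0) := by
  split_ifs with h
  · rw [ArithmeticFunction.vonMangoldt_apply_prime h, sub_self]
  · rw [sub_zero]
    exact ArithmeticFunction.vonMangoldt_nonneg

theorem bv_theta_diff (q a y N : ℕ) (hy : y ≤ N) (hN : 1 ≤ N) :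
    |∑ n ∈ (Icc 1 y).filter (fun n => n ≡ a [MOD q]), ArithmeticFunction.vonMangoldt n -
      ∑ p ∈ (Icc 1 y).filter (fun p => p.Prime ∧ p ≡ a [MOD q]), Real.log p| ≤ 2 * Real.sqrt N * Real.log N := by
  classical
  have hNr : (1 : ℝ) ≤ N := by exact_mod_cast hN
  have h1 : ∑ p ∈ (Icc 1 y).filter (fun p => p.Prime ∧ p ≡ a [MOD q]), Real.log p =
      ∑ n ∈ (Icc 1 y).filter (fun n => n ≡ a [MOD q]), (if n.Prime then Real.log n else 0) := by
    rw [← Finset.sum_filter, Finset.filter_filter]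
    refine Finset.sum_congr ?_ (fun _ _ => rfl)
    ext n
    simp only [Finset.mem_filter]
    tauto
  rw [h1, ← Finset.sum_sub_distrib, abs_of_nonneg (Finset.sum_nonneg (fun n _ => bv_theta_term n))]
  have h2 : ∑ n ∈ (Icc 1 y).filter (fun n => n ≡ a [MOD q]),
      (ArithmeticFunction.vonMangoldt n - (if n.Prime then Real.log n else 0)) ≤
      ∑ n ∈ Icc 1 N, (ArithmeticFunction.vonMangoldt n - (if n.Prime then Real.log n else 0)) := by
    apply Finset.sum_le_sum_of_subset_of_nonneg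
    · exact (Finset.filter_subset _ _).trans (Finset.Icc_subset_Icc_right hy)
    · intro n _ _
      exact bv_theta_term n
  refine h2.trans ?_
  have h3 : ∑ n ∈ Icc 1 N, (ArithmeticFunction.vonMangoldt n - (if n.Prime then Real.log n else 0)) =
      Chebyshev.psi (N : ℝ) - Chebyshev.theta (N : ℝ) := by
    rw [Finset.sum_sub_distrib, ← Finset.sum_filter, Chebyshev.psi, Chebyshev.theta, Nat.floor_natCast]
    rfl
  rw [h3]
  exact Chebyshev.psi_sub_theta_le hNr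

theorem bv_theta {ε : ℝ} (hε : 0 < ε) (A C : ℝ) : ∃ N0 : ℕ, ∀ N : ℕ, N0 ≤ N → ∃ E : ℕ → ℝ, (∀ q, 0 ≤ E q) ∧
    (∀ q : ℕ, 1 ≤ q → (q : ℝ) ≤ (N : ℝ) ^ (1 / 2 - ε) → ∀ a : ℕ, Nat.Coprime a q → ∀ y : ℕ, y ≤ N →
      |∑ p ∈ (Icc 1 y).filter (fun p => p.Prime ∧ p ≡ a [MOD q]), Real.log p -
        y / (Nat.totient q : ℝ)| ≤ E q) ∧
    ∑ q ∈ Icc 1 ⌊(N : ℝ) ^ (1 / 2 - ε)⌋₊, |C| ^ q.primeFactors.card * E q ≤ N / Real.log N ^ A := by
  obtain ⟨N1, h1⟩ := bv_psi hε (A + 1) C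
  obtain ⟨C1, hC1, hW⟩ := omega_bound (abs_nonneg C) (show 0 < ε / 2 by linarith)
  obtain ⟨An, hAn⟩ : ∃ An : ℕ, A + 1 ≤ An := exists_nat_ge (A + 1)
  obtain ⟨N2, h2⟩ := bv_theta_grow (2 * C1) (An + 1) (show 0 < ε / 2 by linarith)
  refine ⟨max (max N1 N2) 9, fun N hN => ?_⟩
  obtain ⟨E, hE0, hE1, hE2⟩ := h1 N (by omega)
  have hg := h2 N (by omega)
  have hN9 : 9 ≤ N := by omega
  have hNr : (9 : ℝ) ≤ N := by exact_mod_cast hN9
  have hN0 : (0 : ℝ) < N := by linarith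
  have hl2 : 2 ≤ Real.log N := by
    rw [Real.le_log_iff_exp_le hN0]
    have h3 : Real.exp 2 = Real.exp 1 * Real.exp 1 := by rw [← Real.exp_add]; norm_num
    have h4 := Real.exp_one_lt_d9
    have h5 := Real.exp_pos 1
    rw [h3]
    nlinarith
  have hl0 : 0 < Real.log N := by linarith
  refine ⟨fun q => E q + 2 * Real.sqrt N * Real.log N, ?_, ?_, ?_⟩
  · intro q
    have := hE0 q
    positivity
  · intro q hq hqN a ha y hy
    have h3 := hE1 q hq hqN a ha y hy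
    have h4 := bv_theta_diff q a y N hy (by omega)
    have h5 := abs_sub_le (∑ p ∈ (Icc 1 y).filter (fun p => p.Prime ∧ p ≡ a [MOD q]), Real.log p)
      (∑ n ∈ (Icc 1 y).filter (fun n => n ≡ a [MOD q]), ArithmeticFunction.vonMangoldt n) (y / (Nat.totient q : ℝ))
    rw [abs_sub_comm] at h4
    show _ ≤ E q + 2 * Real.sqrt N * Real.log N
    linarith
  · have hsum : ∑ q ∈ Icc 1 ⌊(N : ℝ) ^ (1 / 2 - ε)⌋₊, |C| ^ q.primeFactors.card ≤
        (N : ℝ) ^ (1 / 2 - ε) * (C1 * (N : ℝ) ^ (ε / 2)) := by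
      have h3 : ∀ q ∈ Icc 1 ⌊(N : ℝ) ^ (1 / 2 - ε)⌋₊, |C| ^ q.primeFactors.card ≤ C1 * (N : ℝ) ^ (ε / 2) := by
        intro q hq
        rw [Finset.mem_Icc] at hq
        have hq0 : (0 : ℝ) < q := by exact_mod_cast hq.1
        have hphi : (0 : ℝ) < (Nat.totient q : ℝ) := by exact_mod_cast Nat.totient_pos.mpr hq.1
        have hphi2 : (Nat.totient q : ℝ) ≤ q := by exact_mod_cast Nat.totient_le q
        have hqN : (q : ℝ) ≤ N := by
          have h4 : (q : ℝ) ≤ (N : ℝ) ^ (1 / 2 - ε) := by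
            exact (Nat.le_floor_iff (by positivity)).mp hq.2
          refine h4.trans ?_
          calc (N : ℝ) ^ (1 / 2 - ε) ≤ (N : ℝ) ^ (1 : ℝ) :=
                Real.rpow_le_rpow_of_exponent_le (by linarith) (by linarith)
            _ = N := Real.rpow_one _
        have h5 := hW q hq.1
        rw [div_le_iff₀ hphi] at h5
        calc |C| ^ q.primeFactors.card ≤ C1 * (q : ℝ) ^ (-1 + ε / 2) * (Nat.totient q : ℝ) := h5
          _ ≤ C1 * (q : ℝ) ^ (-1 + ε / 2) * q := mul_le_mul_of_nonneg_left hphi2 (by positivity)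
          _ = C1 * (q : ℝ) ^ (ε / 2) := by
              rw [mul_assoc]
              congr 1
              calc (q : ℝ) ^ (-1 + ε / 2) * q = (q : ℝ) ^ (-1 + ε / 2) * (q : ℝ) ^ (1 : ℝ) := by rw [Real.rpow_one]
                _ = (q : ℝ) ^ (-1 + ε / 2 + 1) := (Real.rpow_add hq0 _ _).symm
                _ = _ := by congr 1; ring
          _ ≤ C1 * (N : ℝ) ^ (ε / 2) := by
              apply mul_le_mul_of_nonneg_left _ hC1
              exact Real.rpow_le_rpow hq0.le hqN (by linarith)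
      refine (Finset.sum_le_sum h3).trans ?_
      rw [Finset.sum_const, Nat.card_Icc, Nat.add_sub_cancel, nsmul_eq_mul]
      apply mul_le_mul_of_nonneg_right _ (by positivity)
      exact Nat.floor_le (by positivity)
    have hb : (N : ℝ) ^ (1 / 2 - ε) * (C1 * (N : ℝ) ^ (ε / 2)) * (2 * Real.sqrt N * Real.log N) ≤
        N / Real.log N ^ An := by
      rw [le_div_iff₀ (by positivity), Real.sqrt_eq_rpow]
      have e1 : (N : ℝ) ^ (1 / 2 - ε) * (N : ℝ) ^ (ε / 2) * (N : ℝ) ^ (1 / 2 : ℝ) * (N : ℝ) ^ (ε / 2) = N := by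
        rw [← Real.rpow_add hN0, ← Real.rpow_add hN0, ← Real.rpow_add hN0]
        rw [show (1 / 2 - ε + ε / 2 + 1 / 2 + ε / 2 : ℝ) = 1 by ring, Real.rpow_one]
      calc (N : ℝ) ^ (1 / 2 - ε) * (C1 * (N : ℝ) ^ (ε / 2)) * (2 * (N : ℝ) ^ (1 / 2 : ℝ) * Real.log N) * Real.log N ^ An
          = (N : ℝ) ^ (1 / 2 - ε) * (N : ℝ) ^ (ε / 2) * (N : ℝ) ^ (1 / 2 : ℝ) * (2 * C1 * Real.log N ^ (An + 1)) := by
            rw [pow_succ]; ring
        _ ≤ (N : ℝ) ^ (1 / 2 - ε) * (N : ℝ) ^ (ε / 2) * (N : ℝ) ^ (1 / 2 : ℝ) * (N : ℝ) ^ (ε / 2) :=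
            mul_le_mul_of_nonneg_left hg (by positivity)
        _ = N := e1
    have hb2 : (N : ℝ) / Real.log N ^ An ≤ N / Real.log N ^ (A + 1) := by
      apply div_le_div_of_nonneg_left hN0.le (Real.rpow_pos_of_pos hl0 _)
      rw [← Real.rpow_natCast]
      exact Real.rpow_le_rpow_of_exponent_le (by linarith) hAn
    have hb3 : 2 * ((N : ℝ) / Real.log N ^ (A + 1)) ≤ N / Real.log N ^ A := by
      have h3 : (N : ℝ) / Real.log N ^ A = Real.log N * (N / Real.log N ^ (A + 1)) := by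
        rw [Real.rpow_add hl0, Real.rpow_one]
        have : 0 < Real.log N ^ A := Real.rpow_pos_of_pos hl0 A
        field_simp
      rw [h3]
      exact mul_le_mul_of_nonneg_right hl2 (by positivity)
    calc ∑ q ∈ Icc 1 ⌊(N : ℝ) ^ (1 / 2 - ε)⌋₊, |C| ^ q.primeFactors.card * (E q + 2 * Real.sqrt N * Real.log N)
        = ∑ q ∈ Icc 1 ⌊(N : ℝ) ^ (1 / 2 - ε)⌋₊, |C| ^ q.primeFactors.card * E q +
          (∑ q ∈ Icc 1 ⌊(N : ℝ) ^ (1 / 2 - ε)⌋₊, |C| ^ q.primeFactors.card) * (2 * Real.sqrt N * Real.log N) := by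
          rw [Finset.sum_mul, ← Finset.sum_add_distrib]
          exact Finset.sum_congr rfl (fun q _ => by ring)
      _ ≤ N / Real.log N ^ (A + 1) + (N : ℝ) ^ (1 / 2 - ε) * (C1 * (N : ℝ) ^ (ε / 2)) * (2 * Real.sqrt N * Real.log N) :=
          add_le_add hE2 (mul_le_mul_of_nonneg_right hsum (by positivity))
      _ ≤ N / Real.log N ^ A := by linarith

end BVL
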